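import Mathlib

set_option autoImplicit false

open Real MeasureTheory ProbabilityTheory Set

namespace Pool.Agent.GPI

/-- The standard Gaussian measure on the line. -/
noncomputable abbrev gg : Measure ℝ := gaussianReal 0 1

/-- The signed power `|y|^(p-1) sgn y`, the derivative of `|y|^p / p`. -/
noncomputable def sp (p y : ℝ) : ℝ := |y| ^ (p - 2) * y

lemma sp_neg (p y : ℝ) : sp p (-y) = - sp p y := by
  unfold sp; rw [abs_neg]; ring

lemma measurable_sp (p : ℝ) : Measurable (sp p) := by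
  unfold sp; fun_prop

lemma sp_zero (p : ℝ) : sp p 0 = 0 := by simp [sp]

lemma abs_sp_eq (p : ℝ) {y : ℝ} (hy : y ≠ 0) : |sp p y| = |y| ^ (p - 1) := by
  unfold sp
  have hy' : 0 < |y| := abs_pos.2 hy
  rw [abs_mul, abs_of_nonneg (rpow_nonneg (abs_nonneg _) _)]
  nth_rewrite 2 [← rpow_one |y|]
  rw [← rpow_add hy']
  congr 1; ring

lemma abs_sp_le (p y : ℝ) : |sp p y| ≤ |y| ^ (p - 1) := by
  by_cases hy : y = 0
  · rw [hy, sp_zero, abs_zero]
    exact rpow_nonneg le_rfl _
  · exact (abs_sp_eq p hy).le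

lemma sp_mul_self {p : ℝ} (hp : p ≠ 0) (y : ℝ) : sp p y * y = |y| ^ p := by
  by_cases hy : y = 0
  · rw [hy, sp_zero, abs_zero, zero_rpow hp, zero_mul]
  · unfold sp
    have hy' : 0 < |y| := abs_pos.2 hy
    rw [mul_assoc, ← abs_mul_abs_self y]
    rw [← mul_assoc]
    nth_rewrite 2 [← rpow_one |y|]
    nth_rewrite 3 [← rpow_one |y|]
    rw [← rpow_add hy', ← rpow_add hy']
    congr 1; ring

lemma sp_of_pos (p : ℝ) {y : ℝ} (hy : 0 < y) : sp p y = y ^ (p - 1) := by
  unfold sp
  rw [abs_of_pos hy]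
  nth_rewrite 2 [← rpow_one y]
  rw [← rpow_add hy]
  congr 1; ring

lemma sp_nonneg (p : ℝ) {y : ℝ} (hy : 0 ≤ y) : 0 ≤ sp p y :=
  mul_nonneg (rpow_nonneg (abs_nonneg _) _) hy

lemma sp_homog (p : ℝ) {r : ℝ} (hr : 0 < r) (y : ℝ) : sp p (r * y) = r ^ (p - 1) * sp p y := by
  unfold sp
  rw [abs_mul, abs_of_pos hr, mul_rpow hr.le (abs_nonneg _)]
  have : r ^ (p - 1) = r ^ (p - 2) * r := by
    nth_rewrite 3 [← rpow_one r]
    rw [← rpow_add hr]
    congr 1; ring
  rw [this]; ring

lemma hasDerivAt_abs_rpow_ne (p : ℝ) {y : ℝ} (hy : y ≠ 0) :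
    HasDerivAt (fun x : ℝ => |x| ^ p) (p * sp p y) y := by
  rcases lt_or_gt_of_ne hy with h | h
  · have h1 : HasDerivAt (fun x : ℝ => (-x) ^ p) ((-1) * p * (-y) ^ (p - 1)) y :=
      ((hasDerivAt_id y).neg).rpow_const (Or.inl (by simpa using hy))
    have h2 : sp p y = - (-y) ^ (p - 1) := by
      have := sp_neg p (-y)
      rw [neg_neg] at this
      rw [this, sp_of_pos p (by linarith : 0 < -y)]
    rw [h2]
    have h3 : p * -(-y) ^ (p - 1) = (-1) * p * (-y) ^ (p - 1) := by ring
    rw [h3]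
    apply h1.congr_of_eventuallyEq
    filter_upwards [Iio_mem_nhds h] with x hx
    rw [abs_of_neg hx]
  · have h1 : HasDerivAt (fun x : ℝ => x ^ p) (1 * p * y ^ (p - 1)) y :=
      (hasDerivAt_id y).rpow_const (Or.inl hy)
    rw [sp_of_pos p h]
    rw [one_mul] at h1
    apply h1.congr_of_eventuallyEq
    filter_upwards [Ioi_mem_nhds h] with x hx
    rw [abs_of_pos hx]

lemma rpow_sub_le_aux {p : ℝ} (hp : 0 < p) {u v S : ℝ} (hu : 0 < u) (hv : 0 ≤ v) (huS : u ≤ S)
    (hvS : v ≤ S) :
    |v ^ p - u ^ p| ≤ (1 + p) * |v - u| * (u ^ (p - 1) + S ^ (p - 1)) := by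
  have hS : 0 < S := lt_of_lt_of_le hu huS
  have hA : 0 ≤ u ^ (p - 1) := rpow_nonneg hu.le _
  have hB : 0 ≤ S ^ (p - 1) := rpow_nonneg hS.le _
  have hD : 0 ≤ |v - u| := abs_nonneg _
  have hsplit : ∀ w : ℝ, 0 < w → w ^ p = w * w ^ (p - 1) := by
    intro w hw
    nth_rewrite 2 [← rpow_one w]
    rw [← rpow_add hw]; congr 1; ring
  rcases le_total p 1 with h1 | h1
  · -- p ≤ 1
    have key : |v ^ p - u ^ p| ≤ |v - u| * u ^ (p - 1) := by
      rcases le_total v u with h | h
      · have h2 : v ^ p ≤ u ^ p := rpow_le_rpow hv h hp.le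
        rw [abs_of_nonpos (show v ^ p - u ^ p ≤ 0 by linarith),
          abs_of_nonpos (show v - u ≤ 0 by linarith)]
        have h3 : v * u ^ (p - 1) ≤ v ^ p := by
          rcases eq_or_lt_of_le hv with h0 | h0
          · rw [← h0, zero_mul]; exact rpow_nonneg le_rfl _
          · rw [hsplit v h0]
            apply mul_le_mul_of_nonneg_left _ h0.le
            exact rpow_le_rpow_of_nonpos h0 h (by linarith)
        rw [hsplit u hu]; nlinarith
      · have h2 : u ^ p ≤ v ^ p := rpow_le_rpow hu.le h hp.le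
        rw [abs_of_nonneg (show 0 ≤ v ^ p - u ^ p by linarith),
          abs_of_nonneg (show 0 ≤ v - u by linarith)]
        have hv' : 0 < v := lt_of_lt_of_le hu h
        have h4 : v ^ (p - 1) ≤ u ^ (p - 1) := rpow_le_rpow_of_nonpos hu h (by linarith)
        rw [hsplit u hu, hsplit v hv']
        nlinarith [mul_le_mul_of_nonneg_left h4 hv'.le]
    calc _ ≤ |v - u| * u ^ (p - 1) := key
      _ ≤ _ := by nlinarith [mul_nonneg hD hA, mul_nonneg hD hB, mul_nonneg hp.le (mul_nonneg hD hA), mul_nonneg hp.le (mul_nonneg hD hB)]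
  · -- p ≥ 1 : convexity
    have key : ∀ u v : ℝ, 0 ≤ u → u ≤ v → v ≤ S → v ^ p - u ^ p ≤ p * (v - u) * S ^ (p - 1) := by
      intro u v hu huv hvS
      rcases eq_or_lt_of_le huv with h | h
      · rw [h]; simp
      · have hder : ∀ z ∈ Ioo u v, HasDerivAt (fun t : ℝ => t ^ p) (p * z ^ (p - 1)) z :=
          fun z hz => Real.hasDerivAt_rpow_const (Or.inr h1)
        obtain ⟨z, hz, hz'⟩ := exists_hasDerivAt_eq_slope (fun t : ℝ => t ^ p)
          (fun z => p * z ^ (p - 1)) h (fun t _ =>
            (Real.continuousAt_rpow_const t p (Or.inr hp.le)).continuousWithinAt) hder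
        have hvu : 0 < v - u := by linarith
        rw [eq_div_iff hvu.ne'] at hz'
        rw [← hz']
        have : z ^ (p - 1) ≤ S ^ (p - 1) :=
          rpow_le_rpow (by linarith [hz.1]) (by linarith [hz.2]) (by linarith)
        have h5 : p * z ^ (p - 1) * (v - u) = p * (v - u) * z ^ (p - 1) := by ring
        rw [h5]
        exact mul_le_mul_of_nonneg_left this (by positivity)
    have key2 : |v ^ p - u ^ p| ≤ p * |v - u| * S ^ (p - 1) := by
      rcases le_total v u with h | h
      · have h2 : v ^ p ≤ u ^ p := rpow_le_rpow hv h hp.le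
        rw [abs_of_nonpos (show v ^ p - u ^ p ≤ 0 by linarith),
          abs_of_nonpos (show v - u ≤ 0 by linarith)]
        have := key _ _ hv h huS
        linarith
      · have h2 : u ^ p ≤ v ^ p := rpow_le_rpow hu.le h hp.le
        rw [abs_of_nonneg (show 0 ≤ v ^ p - u ^ p by linarith),
          abs_of_nonneg (show 0 ≤ v - u by linarith)]
        exact key _ _ hu.le h hvS
    calc _ ≤ p * |v - u| * S ^ (p - 1) := key2
      _ ≤ _ := by nlinarith [mul_nonneg hD hA, mul_nonneg hD hB, mul_nonneg hp.le (mul_nonneg hD hA), mul_nonneg hp.le (mul_nonneg hD hB)]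

/-- Lipschitz-type estimate for `|y|^p` at a nonzero point. -/
lemma abs_rpow_sub_le {p : ℝ} (hp : 0 < p) {x y S : ℝ} (hx : x ≠ 0) (hxS : |x| ≤ S) (hyS : |y| ≤ S) :
    |(|y| ^ p - |x| ^ p)| ≤ (1 + p) * |y - x| * (|x| ^ (p - 1) + S ^ (p - 1)) := by
  have h := rpow_sub_le_aux hp (abs_pos.2 hx) (abs_nonneg y) hxS hyS
  have hS : 0 < S := lt_of_lt_of_le (abs_pos.2 hx) hxS
  have hA : 0 ≤ |x| ^ (p - 1) := rpow_nonneg (abs_nonneg _) _
  have hB : 0 ≤ S ^ (p - 1) := rpow_nonneg hS.le _
  refine h.trans ?_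
  have := abs_abs_sub_abs_le_abs_sub y x
  gcongr

lemma gauss_le_volume : gg ≤ volume := by
  rw [gg, gaussianReal_of_var_ne_zero 0 one_ne_zero]
  calc volume.withDensity (gaussianPDF 0 1) ≤ volume.withDensity 1 := by
        apply withDensity_mono
        filter_upwards with x
        simp only [Pi.one_apply, gaussianPDF]
        rw [ENNReal.ofReal_le_one, gaussianPDFReal]
        have h1 : (√(2 * π * ((1 : NNReal) : ℝ)))⁻¹ ≤ 1 := by
          apply inv_le_one_of_one_le₀
          rw [NNReal.coe_one, mul_one]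
          apply Real.one_le_sqrt.2
          linarith [Real.pi_gt_three]
        have h2 : rexp (-(x - 0) ^ 2 / (2 * ((1 : NNReal) : ℝ))) ≤ 1 := by
          apply Real.exp_le_one_iff.2
          rw [NNReal.coe_one]
          have := sq_nonneg (x - 0)
          linarith
        calc _ ≤ 1 * 1 := mul_le_mul h1 h2 (Real.exp_pos _).le zero_le_one
          _ = 1 := by norm_num
    _ = volume := withDensity_one

/-- Polynomial weights are integrable. -/
lemma integrable_poly {M : ℝ} (hM : 0 ≤ M) : Integrable (fun x : ℝ => (1 + |x|) ^ M) gg := by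
  rcases eq_or_lt_of_le hM with h | h
  · rw [← h]; simp
  · have h1 : MemLp (fun x : ℝ => 1 + |x|) (ENNReal.ofReal M) gg :=
      (memLp_const (1:ℝ)).add (memLp_id_gaussianReal' (ENNReal.ofReal M) (by simp)).norm
    have h2 := h1.integrable_norm_rpow (by simpa using h) (by simp)
    rw [ENNReal.toReal_ofReal hM] at h2
    refine h2.congr ?_
    filter_upwards with x
    rw [Real.norm_of_nonneg (by positivity)]

lemma integrable_abs_rpow_unit {r : ℝ} (hr : -1 < r) :
    Integrable (fun u : ℝ => (Ioo (-1:ℝ) 1).indicator (fun u => |u| ^ r) u) := by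
  rw [integrable_indicator_iff measurableSet_Ioo]
  have h1 : IntegrableOn (fun u : ℝ => |u| ^ r) (Ioc 0 1) := by
    have := (intervalIntegral.intervalIntegrable_rpow' hr (a := 0) (b := 1)).1
    refine this.congr_fun ?_ measurableSet_Ioc
    intro u hu
    simp only
    rw [abs_of_pos hu.1]
  have h2 : IntegrableOn (fun u : ℝ => |u| ^ r) (Ico (-1) 0) := by
    have e : (fun u : ℝ => |u| ^ r) = fun u => (fun v : ℝ => |v| ^ r) (-u) := by
      ext u; simp
    rw [e]
    have := (MeasureTheory.Measure.measurePreserving_neg (volume : Measure ℝ)).integrableOn_comp_preimage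
      (MeasurableEquiv.neg ℝ).measurableEmbedding (f := fun v : ℝ => |v| ^ r) (s := Ioc 0 1)
    have h3 := this.2 h1
    have e2 : (fun x : ℝ => -x) ⁻¹' Ioc 0 1 = Ico (-1) 0 := by
      ext x
      simp only [mem_preimage, mem_Ioc, mem_Ico]
      constructor
      · rintro ⟨a, b⟩; constructor <;> linarith
      · rintro ⟨a, b⟩; constructor <;> linarith
    have h4 : (Neg.neg : ℝ → ℝ) ⁻¹' Ioc 0 1 = Ico (-1) 0 := e2
    rw [h4] at h3
    exact h3
  have h3 : IntegrableOn (fun u : ℝ => |u| ^ r) ({0} : Set ℝ) :=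
    integrableOn_singleton (by simp) (by simp)
  refine (h1.union (h2.union h3)).mono_set ?_
  intro u hu
  rcases lt_trichotomy u 0 with h | h | h
  · exact Or.inr (Or.inl ⟨hu.1.le, h⟩)
  · exact Or.inr (Or.inr h)
  · exact Or.inl ⟨h, hu.2.le⟩

/-- Uniform bound of a shifted singular power against the Gaussian measure. -/
lemma sing_bound {r M : ℝ} (hr : -1 < r) (hM : 0 ≤ M) :
    ∃ C K : ℝ, 0 ≤ C ∧ 0 ≤ K ∧ ∀ m : ℝ,
      Integrable (fun x => |m + x| ^ r * (1 + |x|) ^ M) gg ∧
      ∫ x, |m + x| ^ r * (1 + |x|) ^ M ∂gg ≤ C * (1 + |m|) ^ K := by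
  rcases le_total 0 r with h | h
  · -- nonsingular
    refine ⟨∫ x, (1 + |x|) ^ (r + M) ∂gg, r, integral_nonneg (fun x => by positivity), h, ?_⟩
    intro m
    have hb : ∀ x : ℝ, |m + x| ^ r * (1 + |x|) ^ M ≤ (1 + |m|) ^ r * (1 + |x|) ^ (r + M) := by
      intro x
      have h1 : |m + x| ≤ (1 + |m|) * (1 + |x|) := by
        have := abs_add_le m x
        nlinarith [abs_nonneg m, abs_nonneg x, mul_nonneg (abs_nonneg m) (abs_nonneg x)]
      have h2 : |m + x| ^ r ≤ (1 + |m|) ^ r * (1 + |x|) ^ r := by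
        rw [← mul_rpow (by positivity) (by positivity)]
        exact rpow_le_rpow (abs_nonneg _) h1 h
      rw [rpow_add (by positivity)]
      calc _ ≤ ((1 + |m|) ^ r * (1 + |x|) ^ r) * (1 + |x|) ^ M :=
            mul_le_mul_of_nonneg_right h2 (by positivity)
        _ = _ := by ring
    have hI : Integrable (fun x : ℝ => (1 + |m|) ^ r * (1 + |x|) ^ (r + M)) gg :=
      (integrable_poly (by positivity)).const_mul _
    have hI2 : Integrable (fun x => |m + x| ^ r * (1 + |x|) ^ M) gg := by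
      refine hI.mono' (by fun_prop) ?_
      filter_upwards with x
      rw [Real.norm_of_nonneg (by positivity)]
      exact hb x
    refine ⟨hI2, ?_⟩
    calc _ ≤ ∫ x, (1 + |m|) ^ r * (1 + |x|) ^ (r + M) ∂gg := integral_mono hI2 hI hb
      _ = _ := by rw [integral_const_mul]; ring
  · -- singular
    set J : ℝ := ∫ u : ℝ, (Ioo (-1:ℝ) 1).indicator (fun u => |u| ^ r) u with hJ
    have hJ0 : 0 ≤ J := by
      apply integral_nonneg
      intro u
      apply indicator_nonneg
      intro v _
      positivity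
    set P : ℝ := ∫ x, (1 + |x|) ^ M ∂gg with hP
    have hP0 : 0 ≤ P := integral_nonneg (fun x => by positivity)
    refine ⟨P + 2 ^ M * J, M, by positivity, hM, ?_⟩
    intro m
    set S : ℝ → ℝ := fun x => (Ioo (-1:ℝ) 1).indicator (fun u => |u| ^ r) (m + x) with hS
    have hSint : Integrable S := (integrable_abs_rpow_unit hr).comp_add_left m
    have hS0 : ∀ x, 0 ≤ S x := by
      intro x
      apply indicator_nonneg
      intro v _
      positivity
    have hSg : Integrable S gg := hSint.mono_measure gauss_le_volume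
    have hSle : ∫ x, S x ∂gg ≤ J := by
      have e : ∫ x, S x = J := integral_add_left_eq_self (μ := (volume : Measure ℝ))
        (fun u : ℝ => (Ioo (-1:ℝ) 1).indicator (fun u => |u| ^ r) u) m
      rw [← e]
      exact integral_mono_measure gauss_le_volume (Filter.Eventually.of_forall hS0) hSint
    have hb : ∀ x : ℝ, |m + x| ^ r * (1 + |x|) ^ M
        ≤ (1 + |x|) ^ M + (2 ^ M * (1 + |m|) ^ M) * S x := by
      intro x
      by_cases hx : m + x ∈ Ioo (-1:ℝ) 1
      · have e1 : S x = |m + x| ^ r := by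
          simp only [hS]
          exact indicator_of_mem hx _
        have h1 : 1 + |x| ≤ 2 * (1 + |m|) := by
          have h2 : |m + x| ≤ 1 := abs_le.2 ⟨hx.1.le, hx.2.le⟩
          have h3 : |x| ≤ |m| + |m + x| := by
            have := abs_sub (m + x) m
            rw [add_sub_cancel_left] at this
            linarith
          nlinarith [abs_nonneg m]
        have h2 : (1 + |x|) ^ M ≤ 2 ^ M * (1 + |m|) ^ M := by
          rw [← mul_rpow (by norm_num) (by positivity)]
          exact rpow_le_rpow (by positivity) h1 hM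
        rw [e1]
        have h3 : 0 ≤ |m + x| ^ r := by positivity
        have h4 : 0 ≤ (1 + |x|) ^ M := by positivity
        nlinarith
      · have h1 : 1 ≤ |m + x| := by
          by_contra hcon
          push Not at hcon
          exact hx ⟨(abs_lt.1 hcon).1, (abs_lt.1 hcon).2⟩
        have h2 : |m + x| ^ r ≤ 1 := rpow_le_one_of_one_le_of_nonpos h1 h
        have h3 : 0 ≤ (1 + |x|) ^ M := by positivity
        have h4 : 0 ≤ (2 ^ M * (1 + |m|) ^ M) * S x := mul_nonneg (by positivity) (hS0 x)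
        nlinarith
    have hI : Integrable (fun x : ℝ => (1 + |x|) ^ M + (2 ^ M * (1 + |m|) ^ M) * S x) gg :=
      (integrable_poly hM).add (hSg.const_mul _)
    have hI2 : Integrable (fun x => |m + x| ^ r * (1 + |x|) ^ M) gg := by
      refine hI.mono' (by fun_prop) ?_
      filter_upwards with x
      rw [Real.norm_of_nonneg (by positivity)]
      exact hb x
    refine ⟨hI2, ?_⟩
    have h1 : 1 ≤ (1 + |m|) ^ M := one_le_rpow (by linarith [abs_nonneg m]) hM
    calc _ ≤ ∫ x, ((1 + |x|) ^ M + (2 ^ M * (1 + |m|) ^ M) * S x) ∂gg := integral_mono hI2 hI hb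
      _ = P + (2 ^ M * (1 + |m|) ^ M) * ∫ x, S x ∂gg := by
          rw [integral_add (integrable_poly hM) (hSg.const_mul _), integral_const_mul]
      _ ≤ P * (1 + |m|) ^ M + (2 ^ M * (1 + |m|) ^ M) * J := by
          gcongr
          nlinarith
      _ = _ := by ring

end Pool.Agent.GPI
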