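import Mathlib
import Pool.Agent.GPI.Basic1

set_option autoImplicit false

open Real MeasureTheory ProbabilityTheory Set Filter
open scoped Topology

namespace Pool.Agent.GPI

instance : NullSingletonClass gg := by
  rw [gg]
  exact nullSingletonClass_gaussianReal one_ne_zero

lemma gg_neg : gg.map (fun x => -x) = gg := by
  rw [gg, gaussianReal_map_neg]
  simp

lemma integral_gg_neg (f : ℝ → ℝ) : ∫ x, f (-x) ∂gg = ∫ x, f x ∂gg := by
  have h : MeasurePreserving (fun x : ℝ => -x) gg gg := ⟨measurable_neg, gg_neg⟩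
  exact h.integral_comp (MeasurableEquiv.neg ℝ).measurableEmbedding f

lemma integrable_gg_neg {f : ℝ → ℝ} (hf : Integrable f gg) : Integrable (fun x => f (-x)) gg := by
  have h : MeasurePreserving (fun x : ℝ => -x) gg gg := ⟨measurable_neg, gg_neg⟩
  exact (h.integrable_comp_emb (MeasurableEquiv.neg ℝ).measurableEmbedding).2 hf

/-- Gaussian integrals as Lebesgue integrals. -/
lemma integral_gg (f : ℝ → ℝ) :
    ∫ x, f x ∂gg = ∫ x : ℝ, (√(2 * π))⁻¹ * exp (-x ^ 2 / 2) * f x := by
  rw [gg, integral_gaussianReal_eq_integral_smul one_ne_zero]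
  apply integral_congr_ae
  filter_upwards with x
  simp only [gaussianPDFReal, smul_eq_mul, NNReal.coe_one, mul_one, sub_zero]

lemma integrable_gg_iff (f : ℝ → ℝ) :
    Integrable f gg ↔ Integrable (fun x : ℝ => exp (-x ^ 2 / 2) * f x) := by
  rw [gg, gaussianReal_of_var_ne_zero 0 one_ne_zero,
    integrable_withDensity_iff_integrable_smul₀' (measurable_gaussianPDF 0 1).aemeasurable
      (Eventually.of_forall (fun x => gaussianPDF_lt_top))]
  have e : (fun x : ℝ => (gaussianPDF 0 1 x).toReal • f x)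
      = fun x => (√(2 * π))⁻¹ * (exp (-x ^ 2 / 2) * f x) := by
    ext x
    rw [toReal_gaussianPDF]
    simp only [gaussianPDFReal, smul_eq_mul, NNReal.coe_one, mul_one, sub_zero]
    ring
  rw [e]
  have hc : (√(2 * π))⁻¹ ≠ 0 := by positivity
  exact integrable_const_mul_iff (IsUnit.mk0 _ hc) _

lemma lin_bound (w v z η : ℝ) : |w * z + v * η| ≤ (|w| + |v|) * ((1 + |z|) * (1 + |η|)) := by
  have h := abs_add_le (w * z) (v * η)
  rw [abs_mul, abs_mul] at h
  have h1 := abs_nonneg w
  have h2 := abs_nonneg v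
  have h3 := abs_nonneg z
  have h4 := abs_nonneg η
  nlinarith [mul_nonneg h1 h3, mul_nonneg h2 h4, mul_nonneg h1 h4, mul_nonneg h2 h3,
    mul_nonneg h1 (mul_nonneg h3 h4), mul_nonneg h2 (mul_nonneg h3 h4)]

lemma rpow_lin_le {q : ℝ} (hq : 0 ≤ q) (w v z η : ℝ) :
    |w * z + v * η| ^ q ≤ (|w| + |v|) ^ q * ((1 + |z|) ^ q * (1 + |η|) ^ q) := by
  rw [← mul_rpow (by positivity) (by positivity), ← mul_rpow (by positivity) (by positivity)]
  exact rpow_le_rpow (abs_nonneg _) (lin_bound w v z η) hq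

/-- Uniform bound of a shifted singular power against the Gaussian measure. -/
lemma sing_bound2 {r M : ℝ} (hr : -1 < r) (hM : 0 ≤ M) (w : ℝ) {v : ℝ} (hv : v ≠ 0) :
    ∃ C K : ℝ, 0 ≤ C ∧ 0 ≤ K ∧ ∀ z : ℝ,
      Integrable (fun x => |w * z + v * x| ^ r * (1 + |x|) ^ M) gg ∧
      ∫ x, |w * z + v * x| ^ r * (1 + |x|) ^ M ∂gg ≤ C * (1 + |z|) ^ K := by
  obtain ⟨C, K, hC, hK, h⟩ := sing_bound hr hM
  have hv' : 0 < |v| := abs_pos.2 hv
  refine ⟨|v| ^ r * (C * (1 + |w / v|) ^ K), K, by positivity, hK, ?_⟩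
  intro z
  obtain ⟨h1, h2⟩ := h (w / v * z)
  have e : ∀ x : ℝ, |w * z + v * x| ^ r * (1 + |x|) ^ M
      = |v| ^ r * (|w / v * z + x| ^ r * (1 + |x|) ^ M) := by
    intro x
    have : w * z + v * x = v * (w / v * z + x) := by field_simp
    rw [this, abs_mul, mul_rpow (abs_nonneg _) (abs_nonneg _)]
    ring
  simp_rw [e]
  refine ⟨h1.const_mul _, ?_⟩
  rw [integral_const_mul]
  have h3 : (1 + |w / v * z|) ^ K ≤ (1 + |w / v|) ^ K * (1 + |z|) ^ K := by
    rw [← mul_rpow (by positivity) (by positivity)]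
    apply rpow_le_rpow (by positivity) _ hK
    rw [abs_mul]
    nlinarith [abs_nonneg (w / v), abs_nonneg z]
  calc _ ≤ |v| ^ r * (C * (1 + |w / v * z|) ^ K) := by gcongr
    _ ≤ |v| ^ r * (C * ((1 + |w / v|) ^ K * (1 + |z|) ^ K)) := by gcongr
    _ = _ := by ring

lemma integrable_abs_rpow_poly {r M : ℝ} (hr : -1 < r) (hM : 0 ≤ M) :
    Integrable (fun x => |x| ^ r * (1 + |x|) ^ M) gg := by
  obtain ⟨C, K, hC, hK, h⟩ := sing_bound hr hM
  have := (h 0).1
  simpa using this

/-- A singular power of a linear form times polynomial weights is integrable in the plane. -/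
lemma prod_sing {r M : ℝ} (hr : -1 < r) (hM : 0 ≤ M) (w : ℝ) {v : ℝ} (hv : v ≠ 0) :
    Integrable (fun z : ℝ × ℝ => |w * z.1 + v * z.2| ^ r * ((1 + |z.1|) ^ M * (1 + |z.2|) ^ M))
      (gg.prod gg) := by
  obtain ⟨C, K, hC, hK, h⟩ := sing_bound2 hr hM w hv
  have hmeas : Measurable (fun z : ℝ × ℝ =>
      |w * z.1 + v * z.2| ^ r * ((1 + |z.1|) ^ M * (1 + |z.2|) ^ M)) := by fun_prop
  rw [integrable_prod_iff hmeas.aestronglyMeasurable]
  constructor
  · filter_upwards with x
    refine ((h x).1.const_mul ((1 + |x|) ^ M)).congr ?_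
    filter_upwards with y
    ring
  · refine ((integrable_poly (add_nonneg hK hM)).const_mul C).mono' ?_ ?_
    · exact hmeas.aestronglyMeasurable.norm.integral_prod_right'
    · filter_upwards with x
      rw [Real.norm_of_nonneg (integral_nonneg (fun s => norm_nonneg _))]
      have e : ∀ y : ℝ, ‖|w * x + v * y| ^ r * ((1 + |x|) ^ M * (1 + |y|) ^ M)‖
          = (1 + |x|) ^ M * (|w * x + v * y| ^ r * (1 + |y|) ^ M) := by
        intro y
        rw [Real.norm_of_nonneg (by positivity)]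
        ring
      simp_rw [e]
      rw [integral_const_mul, rpow_add (by positivity)]
      calc _ ≤ (1 + |x|) ^ M * (C * (1 + |x|) ^ K) := by
            have := (h x).2
            gcongr
        _ = _ := by ring

lemma ae_gg_ne (c : ℝ) : ∀ᵐ x ∂gg, x ≠ c := by
  have : gg {c} = 0 := measure_singleton c
  exact compl_mem_ae_iff.2 this

lemma ae_lin_ne (w : ℝ) {v : ℝ} (hv : v ≠ 0) :
    ∀ᵐ z : ℝ × ℝ ∂(gg.prod gg), w * z.1 + v * z.2 ≠ 0 := by
  have hms : MeasurableSet {z : ℝ × ℝ | w * z.1 + v * z.2 = 0} :=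
    measurableSet_eq_fun (by fun_prop) measurable_const
  have h0 : (gg.prod gg) {z : ℝ × ℝ | w * z.1 + v * z.2 = 0} = 0 := by
    rw [Measure.measure_prod_null hms]
    filter_upwards with x
    have : (Prod.mk x ⁻¹' {z : ℝ × ℝ | w * z.1 + v * z.2 = 0}) ⊆ {(-(w * x) / v)} := by
      intro y hy
      simp only [mem_preimage, mem_ofPred_eq] at hy
      rw [mem_singleton_iff, eq_div_iff hv]
      linarith
    exact measure_mono_null this (measure_singleton _)
  exact compl_mem_ae_iff.2 h0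

/-- Local integrability of singular powers. -/
lemma intervalIntegrable_abs_rpow {r : ℝ} (hr : -1 < r) (a b : ℝ) :
    IntervalIntegrable (fun u : ℝ => |u| ^ r) volume a b := by
  have hpos : ∀ R : ℝ, 0 ≤ R → IntervalIntegrable (fun u : ℝ => |u| ^ r) volume 0 R := by
    intro R hR
    refine (intervalIntegral.intervalIntegrable_rpow' hr (a := 0) (b := R)).congr ?_
    intro u hu
    rw [uIoc_of_le hR] at hu
    simp only
    rw [abs_of_pos hu.1]
  have hall : ∀ R : ℝ, IntervalIntegrable (fun u : ℝ => |u| ^ r) volume 0 R := by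
    intro R
    rcases le_or_gt 0 R with h | h
    · exact hpos R h
    · have h1 := hpos (-R) (by linarith)
      have h2 := (IntervalIntegrable.iff_comp_neg (f := fun u : ℝ => |u| ^ r) (by simp)).1 h1
      simpa using h2
  exact (hall a).symm.trans (hall b)

end Pool.Agent.GPI
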