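import Mathlib

set_option autoImplicit false

open MeasureTheory ProbabilityTheory Finset
open scoped Matrix

namespace Pool.Agent.GPI

/-- The second moment matrix. -/
noncomputable def secMom {d : ℕ} (μ : Measure (Fin d → ℝ)) : Matrix (Fin d) (Fin d) ℝ :=
  Matrix.of fun i j => ∫ x, x i * x j ∂μ

/-- The standard Gaussian product measure. -/
noncomputable def gam (r : ℕ) : Measure (Fin r → ℝ) := Measure.pi (fun _ : Fin r => gaussianReal 0 1)

instance (r : ℕ) : IsProbabilityMeasure (gam r) := by unfold gam; infer_instance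

variable {d : ℕ}

lemma memLp_eval (μ : Measure (Fin d → ℝ)) [IsGaussian μ] (i : Fin d) :
    MemLp (fun x : Fin d → ℝ => x i) 2 μ :=
  IsGaussian.memLp_dual μ (ContinuousLinearMap.proj (R := ℝ) (φ := fun _ : Fin d => ℝ) i) 2 (by simp)

lemma integrable_mul_eval (μ : Measure (Fin d → ℝ)) [IsGaussian μ] (i j : Fin d) :
    Integrable (fun x : Fin d → ℝ => x i * x j) μ :=
  (memLp_eval μ i).integrable_mul (memLp_eval μ j)

lemma integral_sq_lin (μ : Measure (Fin d → ℝ)) [IsGaussian μ] (c : Fin d → ℝ) :
    ∫ x, (∑ i, c i * x i) ^ 2 ∂μ = ∑ i, ∑ j, c i * c j * secMom μ i j := by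
  have : ∀ x : Fin d → ℝ, (∑ i, c i * x i) ^ 2 = ∑ i, ∑ j, c i * c j * (x i * x j) := by
    intro x
    rw [sq, Finset.sum_mul_sum]
    apply Finset.sum_congr rfl
    intro i _
    apply Finset.sum_congr rfl
    intro j _
    ring
  simp_rw [this]
  rw [integral_finsetSum]
  · apply Finset.sum_congr rfl
    intro i _
    rw [integral_finsetSum]
    · apply Finset.sum_congr rfl
      intro j _
      rw [integral_const_mul]
      rfl
    · intro j _
      exact (integrable_mul_eval μ i j).const_mul _
  · intro i _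
    apply integrable_finsetSum
    intro j _
    exact (integrable_mul_eval μ i j).const_mul _

lemma secMom_posSemidef (μ : Measure (Fin d → ℝ)) [IsGaussian μ] : (secMom μ).PosSemidef := by
  refine Matrix.PosSemidef.of_dotProduct_mulVec_nonneg ?_ ?_
  · ext i j
    simp [secMom, Matrix.conjTranspose, mul_comm]
  · intro x
    have h := integral_sq_lin μ x
    have h2 : 0 ≤ ∫ y, (∑ i, x i * y i) ^ 2 ∂μ := integral_nonneg (fun y => sq_nonneg _)
    rw [h] at h2
    have e : star x ⬝ᵥ (secMom μ).mulVec x = ∑ i, ∑ j, x i * x j * secMom μ i j := by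
      simp only [dotProduct, Matrix.mulVec, star_trivial, Finset.mul_sum]
      apply Finset.sum_congr rfl
      intro i _
      apply Finset.sum_congr rfl
      intro j _
      ring
    rw [e]
    exact h2

/-- A positive semidefinite matrix of rank at most `r` is `A Aᵀ` with `r` columns. -/
lemma exists_factor {r : ℕ} {S : Matrix (Fin d) (Fin d) ℝ} (hS : S.PosSemidef) (hr : S.rank ≤ r) :
    ∃ A : Matrix (Fin d) (Fin r) ℝ, ∀ i j, S i j = ∑ k, A i k * A j k := by
  have hH := hS.isHermitian
  have hcard : Fintype.card {i // hH.eigenvalues i ≠ 0} ≤ Fintype.card (Fin r) := by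
    rw [← hH.rank_eq_card_non_zero_eigs, Fintype.card_fin]
    exact hr
  obtain ⟨e⟩ := Function.Embedding.nonempty_of_card_le hcard
  set U : Matrix (Fin d) (Fin d) ℝ := hH.eigenvectorUnitary.1 with hU
  set lam := hH.eigenvalues with hlam
  have hspec : ∀ i j, S i j = ∑ m, U i m * lam m * U j m := by
    intro i j
    have h := hH.spectral_theorem
    rw [Unitary.conjStarAlgAut_apply] at h
    have h2 : S i j = (U * Matrix.diagonal lam * Uᴴ) i j := by
      conv_lhs => rw [h]
      rfl
    rw [h2, Matrix.mul_apply]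
    apply Finset.sum_congr rfl
    intro m _
    rw [Matrix.mul_diagonal, Matrix.conjTranspose_apply]
    simp
  have hnn : ∀ m, 0 ≤ lam m := fun m => hS.eigenvalues_nonneg m
  refine ⟨Matrix.of fun i k => Function.extend e (fun m => U i m.1 * Real.sqrt (lam m.1)) 0 k, ?_⟩
  intro i j
  rw [hspec]
  have h1 : ∑ m, U i m * lam m * U j m
      = ∑ m : {m // lam m ≠ 0}, U i m.1 * lam m.1 * U j m.1 := by
    refine (Fintype.sum_of_injective (fun m : {m // lam m ≠ 0} => m.1) Subtype.val_injective
      (fun m => U i m.1 * lam m.1 * U j m.1) (fun m => U i m * lam m * U j m) ?_ ?_).symm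
    · intro m hm
      have : lam m = 0 := by
        by_contra hne
        exact hm ⟨⟨m, hne⟩, rfl⟩
      rw [this]; ring
    · intro m; rfl
  rw [h1]
  apply Fintype.sum_of_injective e e.injective
  · intro k hk
    simp only [Matrix.of_apply]
    rw [Function.extend_apply' _ _ _ (by rintro ⟨a, ha⟩; exact hk ⟨a, ha⟩)]
    simp
  · intro m
    simp only [Matrix.of_apply]
    rw [e.injective.extend_apply, e.injective.extend_apply]
    have := Real.mul_self_sqrt (hnn m.1)
    calc U i m.1 * lam m.1 * U j m.1 = U i m.1 * (√(lam m.1) * √(lam m.1)) * U j m.1 := by rw [this]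
      _ = _ := by ring

/-- Representation of a centered Gaussian measure with a given factorisation of its second
moment matrix. -/
lemma gaussian_repr {r : ℕ} (μ : Measure (Fin d → ℝ)) [IsGaussian μ] (h0 : ∫ x, x ∂μ = 0)
    (A : Matrix (Fin d) (Fin r) ℝ) (hA : ∀ i j, secMom μ i j = ∑ k, A i k * A j k) :
    μ = (gam r).map (fun g i => ∑ k, A i k * g k) := by
  have hmeas : Measurable (fun (g : Fin r → ℝ) (i : Fin d) => ∑ k, A i k * g k) := by fun_prop
  have : IsProbabilityMeasure ((gam r).map (fun g i => ∑ k, A i k * g k)) :=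
    Measure.isProbabilityMeasure_map hmeas.aemeasurable
  apply Measure.ext_of_charFunDual
  ext L
  set c : Fin d → ℝ := fun i => L (Pi.single i 1) with hc
  have hL : ∀ x : Fin d → ℝ, L x = ∑ i, c i * x i := by
    intro x
    conv_lhs => rw [show x = ∑ i, x i • (Pi.single i (1:ℝ) : Fin d → ℝ) from by
      ext j; simp [Finset.sum_apply, Pi.single_apply]]
    rw [map_sum]
    apply Finset.sum_congr rfl
    intro i _
    rw [map_smul, smul_eq_mul, hc, mul_comm]
  have hmean : ∫ x, L x ∂μ = 0 := by
    rw [L.integral_comp_id_comm' IsGaussian.integrable_id]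
    have : ∫ x, id x ∂μ = 0 := by simpa using h0
    rw [this, map_zero]
  have hvar : Var[L; μ] = ∑ k, (∑ i, c i * A i k) ^ 2 := by
    rw [variance_eq_integral (by fun_prop)]
    have e1 : μ[⇑L] = 0 := hmean
    rw [e1]
    simp only [sub_zero]
    simp_rw [hL]
    rw [integral_sq_lin]
    simp_rw [hA]
    have : ∀ k, (∑ i, c i * A i k) ^ 2 = ∑ i, ∑ j, c i * c j * (A i k * A j k) := by
      intro k
      rw [sq, Finset.sum_mul_sum]
      apply Finset.sum_congr rfl
      intro i _
      apply Finset.sum_congr rfl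
      intro j _
      ring
    simp_rw [this, Finset.mul_sum]
    calc (∑ x, ∑ y, ∑ k, c x * c y * (A x k * A y k))
        = ∑ x, ∑ k, ∑ y, c x * c y * (A x k * A y k) :=
          Finset.sum_congr rfl (fun x _ => Finset.sum_comm)
      _ = _ := Finset.sum_comm
  have hcf : charFunDual ((gam r).map (fun g i => ∑ k, A i k * g k)) L
      = ∏ k, charFun (gaussianReal 0 1) (∑ i, c i * A i k) := by
    rw [charFunDual_apply, integral_map hmeas.aemeasurable (by fun_prop)]
    have e3 : ∀ g : Fin r → ℝ, Complex.exp (((L fun i => ∑ k, A i k * g k : ℝ) : ℂ) * Complex.I)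
        = ∏ k, Complex.exp (((∑ i, c i * A i k) * g k : ℝ) * Complex.I) := by
      intro g
      rw [← Complex.exp_sum, hL]
      congr 1
      rw [← Finset.sum_mul, ← Complex.ofReal_sum]
      congr 2
      simp_rw [Finset.mul_sum, Finset.sum_mul]
      rw [Finset.sum_comm]
      apply Finset.sum_congr rfl
      intro k _
      apply Finset.sum_congr rfl
      intro i _
      ring
    simp_rw [e3]
    unfold gam
    rw [integral_fintype_prod_eq_prod (fun k x => Complex.exp (((∑ i, c i * A i k) * x : ℝ) * Complex.I))]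
    apply Finset.prod_congr rfl
    intro k _
    rw [charFun_apply_real]
    simp
  rw [hcf, IsGaussian.charFunDual_eq, hvar]
  simp_rw [charFun_gaussianReal]
  rw [← Complex.exp_sum]
  congr 1
  have : (∫ x, ((L x : ℝ) : ℂ) ∂μ) = 0 := by
    rw [integral_complex_ofReal, hmean]; simp
  rw [this]
  push_cast
  simp only [zero_mul, zero_sub, mul_zero, NNReal.coe_one, Complex.ofReal_one, one_mul]
  rw [Finset.sum_neg_distrib, Finset.sum_div]

end Pool.Agent.GPI
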