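import Mathlib
import Pool.Agent.GPI.Basic2
import Pool.Agent.GPI.Repr

set_option autoImplicit false

open Real MeasureTheory ProbabilityTheory Set Filter
open scoped Topology

namespace Pool.Agent.GPI

/-- Standard Gaussian measure in the plane and in space. -/
noncomputable abbrev P2 : Measure (ℝ × ℝ) := gg.prod gg
noncomputable abbrev P3 : Measure (ℝ × ℝ × ℝ) := gg.prod (gg.prod gg)

/-- Scalar product. -/
def dot (u x : ℝ × ℝ × ℝ) : ℝ := u.1 * x.1 + u.2.1 * x.2.1 + u.2.2 * x.2.2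

/-- The three-vector functional. -/
noncomputable def Q3 (p q r : ℝ) (u v w : ℝ × ℝ × ℝ) : ℝ :=
  ∫ x, |dot u x| ^ p * |dot v x| ^ q * |dot w x| ^ r ∂P3

lemma dot_comm (u v : ℝ × ℝ × ℝ) : dot u v = dot v u := by unfold dot; ring

lemma dot_self_nonneg (u : ℝ × ℝ × ℝ) : 0 ≤ dot u u := by
  unfold dot; nlinarith [sq_nonneg u.1, sq_nonneg u.2.1, sq_nonneg u.2.2]

lemma continuous_dot : Continuous (fun z : (ℝ × ℝ × ℝ) × (ℝ × ℝ × ℝ) => dot z.1 z.2) := by
  unfold dot; fun_prop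

lemma measurable_dot (u : ℝ × ℝ × ℝ) : Measurable (dot u) := by
  unfold dot; fun_prop

lemma Q3_swap12 (p q r : ℝ) (u v w : ℝ × ℝ × ℝ) : Q3 p q r u v w = Q3 q p r v u w := by
  unfold Q3; congr 1; ext x; ring

lemma Q3_swap13 (p q r : ℝ) (u v w : ℝ × ℝ × ℝ) : Q3 p q r u v w = Q3 r q p w v u := by
  unfold Q3; congr 1; ext x; ring

/-! ### Moments -/

lemma integrable_id_gg : Integrable (fun x : ℝ => x) gg := by
  have := memLp_id_gaussianReal' (μ := 0) (v := 1) 1 (by simp)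
  exact (memLp_one_iff_integrable.1 this)

lemma integral_id_gg : ∫ x, x ∂gg = 0 := by
  rw [gg, integral_id_gaussianReal]

lemma integrable_sq_gg : Integrable (fun x : ℝ => x ^ 2) gg := by
  have := memLp_id_gaussianReal' (μ := 0) (v := 1) 2 (by simp)
  exact this.integrable_sq

lemma integral_sq_gg : ∫ x, x ^ 2 ∂gg = 1 := by
  have h := variance_id_gaussianReal (μ := 0) (v := 1)
  rw [variance_eq_integral (by fun_prop)] at h
  have h0 : ∫ x, id x ∂(gaussianReal 0 1) = 0 := integral_id_gg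
  rw [h0] at h
  simpa using h

lemma step_moment {E : Type*} [MeasurableSpace E] (ν : Measure E) [IsProbabilityMeasure ν]
    (a a' : ℝ) (L L' : E → ℝ) (hL : Integrable L ν) (hL' : Integrable L' ν)
    (hLL : Integrable (fun y => L y * L' y) ν) :
    Integrable (fun z : ℝ × E => (a * z.1 + L z.2) * (a' * z.1 + L' z.2)) (gg.prod ν) ∧
    ∫ z, (a * z.1 + L z.2) * (a' * z.1 + L' z.2) ∂(gg.prod ν) = a * a' + ∫ y, L y * L' y ∂ν := by
  have e : ∀ z : ℝ × E, (a * z.1 + L z.2) * (a' * z.1 + L' z.2)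
      = (a * a') * (z.1 ^ 2 * 1) + a * (z.1 * L' z.2) + a' * (z.1 * L z.2) + 1 * (L z.2 * L' z.2) := by
    intro z; ring
  simp_rw [e]
  have i1 : Integrable (fun z : ℝ × E => (a * a') * (z.1 ^ 2 * 1)) (gg.prod ν) :=
    (integrable_sq_gg.mul_prod (integrable_const (1:ℝ))).const_mul _
  have i2 : Integrable (fun z : ℝ × E => a * (z.1 * L' z.2)) (gg.prod ν) :=
    (integrable_id_gg.mul_prod hL').const_mul _
  have i3 : Integrable (fun z : ℝ × E => a' * (z.1 * L z.2)) (gg.prod ν) :=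
    (integrable_id_gg.mul_prod hL).const_mul _
  have i4 : Integrable (fun z : ℝ × E => 1 * (L z.2 * L' z.2)) (gg.prod ν) :=
    (integrable_const (1:ℝ)).mul_prod hLL
  have i12 : Integrable (fun z : ℝ × E => (a * a') * (z.1 ^ 2 * 1) + a * (z.1 * L' z.2)) (gg.prod ν) :=
    i1.add i2
  have i123 : Integrable (fun z : ℝ × E => (a * a') * (z.1 ^ 2 * 1) + a * (z.1 * L' z.2)
      + a' * (z.1 * L z.2)) (gg.prod ν) := i12.add i3
  refine ⟨i123.add i4, ?_⟩
  rw [integral_add i123 i4, integral_add i12 i3, integral_add i1 i2, integral_const_mul,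
    integral_const_mul, integral_const_mul]
  have m1 : ∫ z : ℝ × E, z.1 ^ 2 * (1:ℝ) ∂(gg.prod ν) = 1 := by
    rw [integral_prod_mul (fun x : ℝ => x ^ 2) (fun _ : E => (1:ℝ)), integral_sq_gg]; simp
  have m2 : ∫ z : ℝ × E, z.1 * L' z.2 ∂(gg.prod ν) = 0 := by
    rw [integral_prod_mul (fun x : ℝ => x) L', integral_id_gg, zero_mul]
  have m3 : ∫ z : ℝ × E, z.1 * L z.2 ∂(gg.prod ν) = 0 := by
    rw [integral_prod_mul (fun x : ℝ => x) L, integral_id_gg, zero_mul]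
  have m4 : ∫ z : ℝ × E, 1 * (L z.2 * L' z.2) ∂(gg.prod ν) = ∫ y, L y * L' y ∂ν := by
    rw [integral_prod_mul (fun _ : ℝ => (1:ℝ)) (fun y => L y * L' y)]; simp
  rw [m1, m2, m3, m4]; ring

lemma moment_P3 (u v : ℝ × ℝ × ℝ) : ∫ x, dot u x * dot v x ∂P3 = dot u v := by
  have hi : ∀ c : ℝ, Integrable (fun x : ℝ => c * x) gg := fun c => integrable_id_gg.const_mul c
  have hii : ∀ c d : ℝ, Integrable (fun x : ℝ => (c * x) * (d * x)) gg := by
    intro c d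
    refine (integrable_sq_gg.const_mul (c * d)).congr ?_
    filter_upwards with x
    ring
  have h2 : ∀ a b : ℝ, Integrable (fun y : ℝ × ℝ => a * y.1 + b * y.2) P2 := by
    intro a b
    have i1 : Integrable (fun y : ℝ × ℝ => (a * y.1) * 1) P2 := (hi a).mul_prod (integrable_const (1:ℝ))
    have i2 : Integrable (fun y : ℝ × ℝ => 1 * (b * y.2)) P2 := (integrable_const (1:ℝ)).mul_prod (hi b)
    refine (i1.add i2).congr ?_
    filter_upwards with y
    simp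
  have s1 := step_moment gg u.2.1 v.2.1 (fun y => u.2.2 * y) (fun y => v.2.2 * y) (hi _) (hi _) (hii _ _)
  have s2 := step_moment (gg.prod gg) u.1 v.1 (fun y => u.2.1 * y.1 + u.2.2 * y.2)
    (fun y => v.2.1 * y.1 + v.2.2 * y.2) (h2 _ _) (h2 _ _) s1.1
  have e : ∀ x : ℝ × ℝ × ℝ, dot u x * dot v x
      = (u.1 * x.1 + (u.2.1 * x.2.1 + u.2.2 * x.2.2)) * (v.1 * x.1 + (v.2.1 * x.2.1 + v.2.2 * x.2.2)) := by
    intro x; unfold dot; ring
  simp_rw [e]
  rw [s2.2, s1.2]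
  have e2 : ∫ y : ℝ, (u.2.2 * y) * (v.2.2 * y) ∂gg = u.2.2 * v.2.2 := by
    have : ∀ y : ℝ, (u.2.2 * y) * (v.2.2 * y) = (u.2.2 * v.2.2) * y ^ 2 := by intro y; ring
    simp_rw [this]
    rw [integral_const_mul, integral_sq_gg, mul_one]
  rw [e2]
  unfold dot; ring

/-! ### The law -/

/-- The continuous linear form `dot u`. -/
noncomputable def dotL (u : ℝ × ℝ × ℝ) : (ℝ × ℝ × ℝ) →L[ℝ] ℝ :=
  u.1 • ContinuousLinearMap.fst ℝ ℝ (ℝ × ℝ)
    + u.2.1 • ((ContinuousLinearMap.fst ℝ ℝ ℝ).comp (ContinuousLinearMap.snd ℝ ℝ (ℝ × ℝ)))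
    + u.2.2 • ((ContinuousLinearMap.snd ℝ ℝ ℝ).comp (ContinuousLinearMap.snd ℝ ℝ (ℝ × ℝ)))

lemma dotL_apply (u x : ℝ × ℝ × ℝ) : dotL u x = dot u x := by
  simp [dotL, dot]

noncomputable def Lmap (U : Fin 3 → ℝ × ℝ × ℝ) : (ℝ × ℝ × ℝ) →L[ℝ] (Fin 3 → ℝ) :=
  ContinuousLinearMap.pi (fun i => dotL (U i))

lemma Lmap_apply (U : Fin 3 → ℝ × ℝ × ℝ) (x : ℝ × ℝ × ℝ) (i : Fin 3) : Lmap U x i = dot (U i) x := by
  simp [Lmap, dotL_apply]

noncomputable def law3 (U : Fin 3 → ℝ × ℝ × ℝ) : Measure (Fin 3 → ℝ) := P3.map (Lmap U)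

instance (U : Fin 3 → ℝ × ℝ × ℝ) : IsGaussian (law3 U) := by unfold law3; infer_instance

lemma mean_dot (u : ℝ × ℝ × ℝ) : ∫ x, dot u x ∂P3 = 0 := by
  have hi : ∀ c : ℝ, Integrable (fun x : ℝ => c * x) gg := fun c => integrable_id_gg.const_mul c
  have h2 : ∀ a b : ℝ, Integrable (fun y : ℝ × ℝ => a * y.1 + b * y.2) P2 ∧
      ∫ y : ℝ × ℝ, a * y.1 + b * y.2 ∂P2 = 0 := by
    intro a b
    have i1 : Integrable (fun y : ℝ × ℝ => (a * y.1) * 1) P2 := (hi a).mul_prod (integrable_const (1:ℝ))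
    have i2 : Integrable (fun y : ℝ × ℝ => 1 * (b * y.2)) P2 := (integrable_const (1:ℝ)).mul_prod (hi b)
    have e : ∀ y : ℝ × ℝ, a * y.1 + b * y.2 = (a * y.1) * 1 + 1 * (b * y.2) := by intro y; ring
    simp_rw [e]
    refine ⟨i1.add i2, ?_⟩
    rw [integral_add i1 i2, integral_prod_mul (fun x : ℝ => a * x) (fun _ : ℝ => (1:ℝ)),
      integral_prod_mul (fun _ : ℝ => (1:ℝ)) (fun x : ℝ => b * x), integral_const_mul,
      integral_const_mul, integral_id_gg]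
    simp
  have i1 : Integrable (fun y : ℝ × (ℝ × ℝ) => (u.1 * y.1) * 1) P3 := (hi u.1).mul_prod (integrable_const (1:ℝ))
  have i2 : Integrable (fun y : ℝ × (ℝ × ℝ) => 1 * (u.2.1 * y.2.1 + u.2.2 * y.2.2)) P3 :=
    (integrable_const (1:ℝ)).mul_prod (h2 u.2.1 u.2.2).1
  have e : ∀ y : ℝ × ℝ × ℝ, dot u y = (u.1 * y.1) * 1 + 1 * (u.2.1 * y.2.1 + u.2.2 * y.2.2) := by
    intro y; unfold dot; ring
  simp_rw [e]
  rw [integral_add i1 i2, integral_prod_mul (fun x : ℝ => u.1 * x) (fun _ : ℝ × ℝ => (1:ℝ)),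
    integral_prod_mul (fun _ : ℝ => (1:ℝ)) (fun x : ℝ × ℝ => u.2.1 * x.1 + u.2.2 * x.2),
    integral_const_mul, integral_id_gg, (h2 _ _).2]
  simp

lemma law3_mean (U : Fin 3 → ℝ × ℝ × ℝ) : ∫ x, x ∂(law3 U) = 0 := by
  ext i
  have h1 : (∫ x, x ∂(law3 U)) i = ∫ x, x i ∂(law3 U) := by
    have := (ContinuousLinearMap.proj (R := ℝ) (φ := fun _ : Fin 3 => ℝ) i).integral_comp_id_comm'
      (IsGaussian.integrable_id (μ := law3 U))
    simpa using this.symm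
  rw [h1]
  unfold law3
  have hm : AEStronglyMeasurable (fun x : Fin 3 → ℝ => x i) (P3.map (Lmap U)) :=
    (measurable_pi_apply i).aestronglyMeasurable
  rw [integral_map (by fun_prop) hm]
  simp_rw [Lmap_apply]
  rw [mean_dot]; rfl

lemma law3_secMom (U : Fin 3 → ℝ × ℝ × ℝ) (i j : Fin 3) : secMom (law3 U) i j = dot (U i) (U j) := by
  simp only [secMom, Matrix.of_apply]
  unfold law3
  rw [integral_map (by fun_prop) (by fun_prop)]
  simp_rw [Lmap_apply]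
  exact moment_P3 _ _

/-- The matrix of a triple of vectors. -/
def mat (U : Fin 3 → ℝ × ℝ × ℝ) : Matrix (Fin 3) (Fin 3) ℝ :=
  Matrix.of fun i k => ![(U i).1, (U i).2.1, (U i).2.2] k

lemma mat_dot (U : Fin 3 → ℝ × ℝ × ℝ) (i j : Fin 3) :
    ∑ k, mat U i k * mat U j k = dot (U i) (U j) := by
  simp [mat, Fin.sum_univ_three, dot]

/-- A centered Gaussian measure on `Fin 3 → ℝ` is determined by its second moments. -/
lemma eq_law3 (μ : Measure (Fin 3 → ℝ)) [IsGaussian μ] (h0 : ∫ x, x ∂μ = 0)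
    (U : Fin 3 → ℝ × ℝ × ℝ) (h : ∀ i j, secMom μ i j = dot (U i) (U j)) : μ = law3 U := by
  rw [gaussian_repr μ h0 (mat U) (fun i j => by rw [h, mat_dot]),
    gaussian_repr (law3 U) (law3_mean U) (mat U) (fun i j => by rw [law3_secMom, mat_dot])]

lemma integral_law3 (p q r : ℝ) (U : Fin 3 → ℝ × ℝ × ℝ) :
    ∫ x, |x 0| ^ p * |x 1| ^ q * |x 2| ^ r ∂(law3 U) = Q3 p q r (U 0) (U 1) (U 2) := by
  unfold law3 Q3
  rw [integral_map (by fun_prop)
    (by fun_prop : Measurable (fun x : Fin 3 → ℝ => |x 0| ^ p * |x 1| ^ q * |x 2| ^ r)).aestronglyMeasurable]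
  simp_rw [Lmap_apply]

/-- `Q3` depends only on the Gram matrix. -/
lemma Q3_congr (p q r : ℝ) {u v w u' v' w' : ℝ × ℝ × ℝ} (huu : dot u u = dot u' u')
    (hvv : dot v v = dot v' v') (hww : dot w w = dot w' w') (huv : dot u v = dot u' v')
    (huw : dot u w = dot u' w') (hvw : dot v w = dot v' w') :
    Q3 p q r u v w = Q3 p q r u' v' w' := by
  have h : law3 ![u, v, w] = law3 ![u', v', w'] := by
    apply eq_law3 _ (law3_mean _)
    intro i j
    rw [law3_secMom]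
    fin_cases i <;> fin_cases j
    · exact huu
    · exact huv
    · exact huw
    · change dot v u = dot v' u'; rw [dot_comm, huv, dot_comm]
    · exact hvv
    · exact hvw
    · change dot w u = dot w' u'; rw [dot_comm, huw, dot_comm]
    · change dot w v = dot w' v'; rw [dot_comm, hvw, dot_comm]
    · exact hww
  have h1 := integral_law3 p q r ![u, v, w]
  have h2 := integral_law3 p q r ![u', v', w']
  rw [h] at h1
  rw [h1] at h2
  exact h2

/-! ### Existence of a minimiser -/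

lemma abs_dot_le {u : ℝ × ℝ × ℝ} (hu : dot u u = 1) (x : ℝ × ℝ × ℝ) :
    |dot u x| ≤ (1 + |x.1|) * ((1 + |x.2.1|) * (1 + |x.2.2|)) := by
  unfold dot at hu
  have h1 : |u.1| ≤ 1 := by
    rw [abs_le_one_iff_mul_self_le_one]; nlinarith [mul_self_nonneg u.2.1, mul_self_nonneg u.2.2]
  have h2 : |u.2.1| ≤ 1 := by
    rw [abs_le_one_iff_mul_self_le_one]; nlinarith [mul_self_nonneg u.1, mul_self_nonneg u.2.2]
  have h3 : |u.2.2| ≤ 1 := by
    rw [abs_le_one_iff_mul_self_le_one]; nlinarith [mul_self_nonneg u.1, mul_self_nonneg u.2.1]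
  unfold dot
  have a1 := abs_nonneg x.1
  have a2 := abs_nonneg x.2.1
  have a3 := abs_nonneg x.2.2
  have t := abs_add_three (u.1 * x.1) (u.2.1 * x.2.1) (u.2.2 * x.2.2)
  rw [abs_mul, abs_mul, abs_mul] at t
  have b1 := mul_le_mul_of_nonneg_right h1 a1
  have b2 := mul_le_mul_of_nonneg_right h2 a2
  have b3 := mul_le_mul_of_nonneg_right h3 a3
  nlinarith [mul_nonneg a1 a2, mul_nonneg a2 a3, mul_nonneg a1 a3, mul_nonneg a1 (mul_nonneg a2 a3)]

lemma integrable_poly3 {M : ℝ} (hM : 0 ≤ M) :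
    Integrable (fun x : ℝ × ℝ × ℝ => (1 + |x.1|) ^ M * ((1 + |x.2.1|) ^ M * (1 + |x.2.2|) ^ M)) P3 :=
  (integrable_poly hM).mul_prod ((integrable_poly hM).mul_prod (integrable_poly hM))

lemma integrand_le {p q r : ℝ} (hp : 0 ≤ p) (hq : 0 ≤ q) (hr : 0 ≤ r) {u v w : ℝ × ℝ × ℝ}
    (hu : dot u u = 1) (hv : dot v v = 1) (hw : dot w w = 1) (x : ℝ × ℝ × ℝ) :
    |dot u x| ^ p * |dot v x| ^ q * |dot w x| ^ r
      ≤ (1 + |x.1|) ^ (p + q + r) * ((1 + |x.2.1|) ^ (p + q + r) * (1 + |x.2.2|) ^ (p + q + r)) := by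
  set B := (1 + |x.1|) * ((1 + |x.2.1|) * (1 + |x.2.2|)) with hB
  have hB0 : 0 < B := by positivity
  have e : (1 + |x.1|) ^ (p + q + r) * ((1 + |x.2.1|) ^ (p + q + r) * (1 + |x.2.2|) ^ (p + q + r))
      = B ^ p * B ^ q * B ^ r := by
    rw [← rpow_add hB0, ← rpow_add hB0, hB, mul_rpow (by positivity) (by positivity),
      mul_rpow (by positivity) (by positivity)]
  rw [e]
  have h1 := rpow_le_rpow (abs_nonneg _) (abs_dot_le hu x) hp
  have h2 := rpow_le_rpow (abs_nonneg _) (abs_dot_le hv x) hq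
  have h3 := rpow_le_rpow (abs_nonneg _) (abs_dot_le hw x) hr
  rw [← hB] at h1 h2 h3
  gcongr

lemma exists_min3 {p q r : ℝ} (hp : 0 ≤ p) (hq : 0 ≤ q) (hr : 0 ≤ r) :
    ∃ u v w : ℝ × ℝ × ℝ, dot u u = 1 ∧ dot v v = 1 ∧ dot w w = 1 ∧
      ∀ u' v' w' : ℝ × ℝ × ℝ, dot u' u' = 1 → dot v' v' = 1 → dot w' w' = 1 →
        Q3 p q r u v w ≤ Q3 p q r u' v' w' := by
  set S : Set (ℝ × ℝ × ℝ) := {u | dot u u = 1} with hS
  have hScl : IsClosed S := by
    apply isClosed_eq _ continuous_const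
    exact continuous_dot.comp (by fun_prop : Continuous (fun u : ℝ × ℝ × ℝ => (u, u)))
  have hSc : IsCompact S := by
    apply IsCompact.of_isClosed_subset (isCompact_Icc (a := ((-1, -1, -1) : ℝ × ℝ × ℝ)) (b := (1, 1, 1))) hScl
    intro u hu
    have hu' : u.1 * u.1 + u.2.1 * u.2.1 + u.2.2 * u.2.2 = 1 := hu
    have h1 : |u.1| ≤ 1 := by
      rw [abs_le_one_iff_mul_self_le_one]; nlinarith [mul_self_nonneg u.2.1, mul_self_nonneg u.2.2]
    have h2 : |u.2.1| ≤ 1 := by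
      rw [abs_le_one_iff_mul_self_le_one]; nlinarith [mul_self_nonneg u.1, mul_self_nonneg u.2.2]
    have h3 : |u.2.2| ≤ 1 := by
      rw [abs_le_one_iff_mul_self_le_one]; nlinarith [mul_self_nonneg u.1, mul_self_nonneg u.2.1]
    rw [abs_le] at h1 h2 h3
    exact ⟨⟨h1.1, h2.1, h3.1⟩, ⟨h1.2, h2.2, h3.2⟩⟩
  have hSne : S.Nonempty := ⟨(1, 0, 0), by simp [hS, dot]⟩
  set T : Set ((ℝ × ℝ × ℝ) × (ℝ × ℝ × ℝ) × (ℝ × ℝ × ℝ)) := S ×ˢ (S ×ˢ S) with hT
  have hTc : IsCompact T := hSc.prod (hSc.prod hSc)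
  have hTne : T.Nonempty := hSne.prod (hSne.prod hSne)
  have hcont : ContinuousOn (fun z : (ℝ × ℝ × ℝ) × (ℝ × ℝ × ℝ) × (ℝ × ℝ × ℝ) =>
      Q3 p q r z.1 z.2.1 z.2.2) T := by
    unfold Q3
    apply continuousOn_of_dominated
      (bound := fun x : ℝ × ℝ × ℝ => (1 + |x.1|) ^ (p + q + r) *
        ((1 + |x.2.1|) ^ (p + q + r) * (1 + |x.2.2|) ^ (p + q + r)))
    · intro z _
      have h1 := measurable_dot z.1
      have h2 := measurable_dot z.2.1
      have h3 := measurable_dot z.2.2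
      have : Measurable (fun x => |dot z.1 x| ^ p * |dot z.2.1 x| ^ q * |dot z.2.2 x| ^ r) := by
        fun_prop
      exact this.aestronglyMeasurable
    · intro z hz
      filter_upwards with x
      rw [Real.norm_of_nonneg (by positivity)]
      exact integrand_le hp hq hr hz.1 hz.2.1 hz.2.2 x
    · exact integrable_poly3 (by positivity)
    · filter_upwards with x
      apply Continuous.continuousOn
      have h1 : Continuous (fun z : (ℝ × ℝ × ℝ) × (ℝ × ℝ × ℝ) × (ℝ × ℝ × ℝ) => dot z.1 x) :=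
        continuous_dot.comp (by fun_prop : Continuous
          (fun z : (ℝ × ℝ × ℝ) × (ℝ × ℝ × ℝ) × (ℝ × ℝ × ℝ) => (z.1, x)))
      have h2 : Continuous (fun z : (ℝ × ℝ × ℝ) × (ℝ × ℝ × ℝ) × (ℝ × ℝ × ℝ) => dot z.2.1 x) :=
        continuous_dot.comp (by fun_prop : Continuous
          (fun z : (ℝ × ℝ × ℝ) × (ℝ × ℝ × ℝ) × (ℝ × ℝ × ℝ) => (z.2.1, x)))
      have h3 : Continuous (fun z : (ℝ × ℝ × ℝ) × (ℝ × ℝ × ℝ) × (ℝ × ℝ × ℝ) => dot z.2.2 x) :=
        continuous_dot.comp (by fun_prop : Continuous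
          (fun z : (ℝ × ℝ × ℝ) × (ℝ × ℝ × ℝ) × (ℝ × ℝ × ℝ) => (z.2.2, x)))
      apply Continuous.mul
      · apply Continuous.mul
        · exact h1.abs.rpow_const (fun _ => Or.inr hp)
        · exact h2.abs.rpow_const (fun _ => Or.inr hq)
      · exact h3.abs.rpow_const (fun _ => Or.inr hr)
  obtain ⟨z, hz, hmin⟩ := hTc.exists_isMinOn hTne hcont
  refine ⟨z.1, z.2.1, z.2.2, hz.1, hz.2.1, hz.2.2, ?_⟩
  intro u' v' w' hu hv hw
  exact hmin (show (u', v', w') ∈ T from ⟨hu, hv, hw⟩)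

end Pool.Agent.GPI
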