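import Mathlib

namespace Pool.Agent.GPI

open Real Set MeasureTheory Filter Topology

/-- `E|g|^{2c}` -/
noncomputable def km (c : ℝ) : ℝ := 2 ^ c * Real.Gamma (c + 1/2) / √π

noncomputable def kg (c s : ℝ) : ℝ := (s ^ (2 * c) - km c) * Real.exp (-s ^ 2 / 2)

lemma km_pos {c : ℝ} (hc : 0 < c) : 0 < km c := by
  unfold km
  have := Real.Gamma_pos_of_pos (by linarith : 0 < c + 1/2)
  positivity

lemma kg_cont {c : ℝ} (hc : 0 < c) : Continuous (kg c) := by
  unfold kg
  apply Continuous.mul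
  · apply Continuous.sub _ continuous_const
    apply Continuous.rpow_const continuous_id
    intro x; right; positivity
  · fun_prop

lemma kg_eq (c s : ℝ) : kg c s = s ^ (2 * c) * Real.exp (-(1/2) * s ^ 2) - km c * Real.exp (-(1/2) * s ^ 2) := by
  unfold kg
  rw [show -s ^ 2 / 2 = -(1/2) * s ^ 2 by ring]
  ring

lemma kg_int {c : ℝ} (hc : 0 < c) : IntegrableOn (kg c) (Ioi 0) := by
  have h1 : IntegrableOn (fun x : ℝ => x ^ (2 * c) * Real.exp (-(1/2) * x ^ 2)) (Ioi 0) :=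
    integrableOn_rpow_mul_exp_neg_mul_sq (by norm_num) (by linarith)
  have h2 : IntegrableOn (fun x : ℝ => km c * Real.exp (-(1/2) * x ^ 2)) (Ioi 0) :=
    ((integrable_exp_neg_mul_sq (by norm_num : (0:ℝ) < 1/2)).const_mul _).integrableOn
  exact (h1.sub h2).congr_fun (fun s _ => (kg_eq c s).symm) measurableSet_Ioi

lemma kg_integral {c : ℝ} (hc : 0 < c) : ∫ s in Ioi 0, kg c s = 0 := by
  have h1 : IntegrableOn (fun x : ℝ => x ^ (2 * c) * Real.exp (-(1/2) * x ^ 2)) (Ioi 0) :=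
    integrableOn_rpow_mul_exp_neg_mul_sq (by norm_num) (by linarith)
  have h2 : IntegrableOn (fun x : ℝ => km c * Real.exp (-(1/2) * x ^ 2)) (Ioi 0) :=
    ((integrable_exp_neg_mul_sq (by norm_num : (0:ℝ) < 1/2)).const_mul _).integrableOn
  simp only [kg_eq]
  rw [integral_sub h1 h2, integral_const_mul, integral_gaussian_Ioi]
  have h3 := integral_rpow_mul_exp_neg_mul_rpow (p := 2) (q := 2 * c) (b := 1/2) (by norm_num) (by linarith) (by norm_num)
  simp only [Real.rpow_two] at h3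
  rw [h3]
  have e1 : (1/2 : ℝ) ^ (-(2 * c + 1) / 2) = 2 ^ c * √2 := by
    rw [one_div, Real.inv_rpow (by norm_num), ← Real.rpow_neg (by norm_num), 
      show -(-(2 * c + 1) / 2) = c + 1/2 by ring, Real.rpow_add (by norm_num), Real.sqrt_eq_rpow]
  have e2 : √(π / (1/2)) = √π * √2 := by
    rw [show π / (1/2) = π * 2 by ring, Real.sqrt_mul Real.pi_pos.le]
  rw [e1, e2, show (2 * c + 1) / 2 = c + 1/2 by ring]
  unfold km
  have : √π ≠ 0 := by positivity
  field_simp
  ring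

noncomputable def kA (c x : ℝ) : ℝ := ∫ s in Ioi x, kg c s

lemma kA_eq {c x : ℝ} (hc : 0 < c) (hx : 0 ≤ x) : kA c x = -∫ s in (0:ℝ)..x, kg c s := by
  have h := intervalIntegral.integral_interval_add_Ioi (kg_int hc)
    ((kg_int hc).mono_set (Ioi_subset_Ioi hx))
  rw [kg_integral hc] at h
  unfold kA
  linarith

/-- `(2c-1)^c ≤ m_c` -/
lemma km_lower {c : ℝ} (hc : 1/2 < c) (hc1 : c < 1) : (2 * c - 1) ^ c ≤ km c := by
  have h0 : 0 < c - 1/2 := by linarith
  have h := Real.Gamma_mul_add_mul_le_rpow_Gamma_mul_rpow_Gamma (s := c - 1/2) (t := c + 1/2)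
    (a := c) (b := 1 - c) h0 (by linarith) (by linarith) (by linarith) (by ring)
  rw [show c * (c - 1/2) + (1 - c) * (c + 1/2) = 1/2 by ring, Real.Gamma_one_half_eq] at h
  have hG : Real.Gamma (c + 1/2) = (c - 1/2) * Real.Gamma (c - 1/2) := by
    rw [← Real.Gamma_add_one h0.ne']; congr 1; ring
  have hGpos : 0 < Real.Gamma (c + 1/2) := Real.Gamma_pos_of_pos (by linarith)
  have hG2 : Real.Gamma (c - 1/2) = Real.Gamma (c + 1/2) / (c - 1/2) := by
    rw [eq_div_iff h0.ne', hG]; ring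
  rw [hG2, Real.div_rpow hGpos.le h0.le] at h
  have e1 : Real.Gamma (c + 1/2) ^ c / (c - 1/2) ^ c * Real.Gamma (c + 1/2) ^ (1 - c) =
      Real.Gamma (c + 1/2) / (c - 1/2) ^ c := by
    rw [div_mul_eq_mul_div, ← Real.rpow_add hGpos]
    norm_num
  rw [e1] at h
  have hpow : 0 < (c - 1/2) ^ c := by positivity
  rw [le_div_iff₀ hpow] at h
  have e2 : (2 * c - 1) ^ c = 2 ^ c * (c - 1/2) ^ c := by
    rw [← Real.mul_rpow (by norm_num) h0.le]; congr 1; ring
  rw [e2]
  unfold km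
  rw [mul_div_assoc]
  apply mul_le_mul_of_nonneg_left _ (by positivity)
  rw [le_div_iff₀ (by positivity)]
  linarith

noncomputable def kJ (c x : ℝ) : ℝ :=
  -2 * (1 - 2 * c) * x ^ (2 * c) + km c * (-2 * c * x ^ 2 + (1 - 2 * c) * (2 - 2 * c))

noncomputable def kB (c x : ℝ) : ℝ :=
  -(∫ s in (0:ℝ)..x, kg c s) - (x ^ (2 * c) - km c) * x * Real.exp (-x ^ 2 / 2) / (x ^ 2 + 1 - 2 * c)

lemma kB_hasDerivAt {c x : ℝ} (hc : 0 < c) (hx : 0 < x) (hτ : x ^ 2 + 1 - 2 * c ≠ 0) :
    HasDerivAt (kB c) (Real.exp (-x ^ 2 / 2) * kJ c x / (x ^ 2 + 1 - 2 * c) ^ 2) x := by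
  have d1 : HasDerivAt (fun x => ∫ s in (0:ℝ)..x, kg c s) (kg c x) x :=
    ((kg_cont hc).integral_hasStrictDerivAt 0 x).hasDerivAt
  have d2 : HasDerivAt (fun x : ℝ => x ^ (2 * c)) (2 * c * x ^ (2 * c - 1)) x :=
    Real.hasDerivAt_rpow_const (Or.inl hx.ne')
  have d3 : HasDerivAt (fun x : ℝ => Real.exp (-x ^ 2 / 2)) (Real.exp (-x ^ 2 / 2) * (-x)) x := by
    have := ((((hasDerivAt_id x).pow 2).neg).div_const 2).exp
    refine this.congr_deriv ?_
    simp
    ring
  have d4 : HasDerivAt (fun x : ℝ => x ^ 2 + 1 - 2 * c) (2 * x) x := by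
    have := (((hasDerivAt_id x).pow 2).add_const 1).sub_const (2 * c)
    refine this.congr_deriv ?_
    simp
  have d5 := ((((d2.sub_const (km c)).mul (hasDerivAt_id x)).mul d3).div d4 hτ)
  have d6 := d1.neg.sub d5
  refine d6.congr_deriv ?_
  simp only [id, Pi.mul_apply, mul_one]
  unfold kg kJ
  rw [Real.rpow_sub_one hx.ne']
  field_simp
  ring

lemma kB_contOn {c : ℝ} (hc : 0 < c) {S : Set ℝ} (hS : ∀ x ∈ S, x ^ 2 + 1 - 2 * c ≠ 0) :
    ContinuousOn (kB c) S := by
  unfold kB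
  apply ContinuousOn.sub
  · exact (intervalIntegral.continuous_primitive
      (fun x y => (kg_cont hc).intervalIntegrable x y) 0).neg.continuousOn
  · apply ContinuousOn.div
    · apply Continuous.continuousOn
      apply Continuous.mul
      · apply Continuous.mul _ continuous_id
        apply Continuous.sub _ continuous_const
        apply Continuous.rpow_const continuous_id
        intro x; right; positivity
      · fun_prop
    · fun_prop
    · exact hS

lemma kA_tail_nonneg {c : ℝ} (hc : 0 < c) : ∃ y0 : ℝ, ∀ y, y0 ≤ y → 0 ≤ kA c y := by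
  have h := (tendsto_rpow_atTop (by linarith : 0 < 2 * c)).eventually_ge_atTop (km c)
  rw [eventually_atTop] at h
  obtain ⟨y0, hy0⟩ := h
  refine ⟨y0, fun y hy => ?_⟩
  unfold kA
  apply setIntegral_nonneg measurableSet_Ioi
  intro s hs
  unfold kg
  have h1 := hy0 s (hy.trans (le_of_lt hs))
  apply mul_nonneg (by linarith) (Real.exp_pos _).le

/-- if `kB` is antitone beyond `x` then it is nonnegative at `x` -/
lemma kB_nonneg_of_tail {c x : ℝ} (hc : 0 < c) (hc1 : c < 1) (hx : 0 < x)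
    (hτ : ∀ z, x ≤ z → 0 < z ^ 2 + 1 - 2 * c) (hJ : ∀ z, x ≤ z → kJ c z ≤ 0) : 0 ≤ kB c x := by
  by_contra hneg
  push Not at hneg
  obtain ⟨y0, hy0⟩ := kA_tail_nonneg hc
  set ε := -kB c x with hε
  have hεpos : 0 < ε := by linarith
  obtain ⟨y, hy1, hy2, hy3, hy4⟩ : ∃ y, x ≤ y ∧ y0 ≤ y ∧ 2 ≤ y ∧ 4 / ε < y := by
    refine ⟨max (max x y0) (max 2 (4 / ε + 1)), ?_, ?_, ?_, ?_⟩
    · exact (le_max_left _ _).trans (le_max_left _ _)
    · exact (le_max_right _ _).trans (le_max_left _ _)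
    · exact (le_max_left _ _).trans (le_max_right _ _)
    · have : 4 / ε + 1 ≤ max (max x y0) (max 2 (4 / ε + 1)) := (le_max_right _ _).trans (le_max_right _ _)
      linarith
  have hanti : AntitoneOn (kB c) (Ici x) := by
    apply antitoneOn_of_deriv_nonpos (convex_Ici x)
    · exact kB_contOn hc (fun z hz => (hτ z hz).ne')
    · intro z hz
      rw [interior_Ici] at hz
      have hz' : x < z := hz
      exact (kB_hasDerivAt hc (hx.trans hz') (hτ z hz'.le).ne').differentiableAt.differentiableWithinAt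
    · intro z hz
      rw [interior_Ici] at hz
      have hz' : x < z := hz
      rw [(kB_hasDerivAt hc (hx.trans hz') (hτ z hz'.le).ne').deriv]
      apply div_nonpos_of_nonpos_of_nonneg
      · exact mul_nonpos_of_nonneg_of_nonpos (Real.exp_pos _).le (hJ z hz'.le)
      · positivity
  have h1 : kB c y ≤ kB c x := hanti (mem_Ici.mpr le_rfl) (mem_Ici.mpr hy1) hy1
  have hy : 0 < y := by linarith
  have h2 : 0 ≤ -∫ s in (0:ℝ)..y, kg c s := by
    rw [← kA_eq hc hy.le]
    exact hy0 y hy2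
  have h3 : -((y ^ (2 * c) - km c) * y * Real.exp (-y ^ 2 / 2) / (y ^ 2 + 1 - 2 * c)) ≤ kB c y := by
    unfold kB; linarith
  -- upper bound of Q
  have hτy : y ^ 2 / 2 ≤ y ^ 2 + 1 - 2 * c := by nlinarith
  have hX : y ^ (2 * c) ≤ y ^ 2 := by
    rw [← Real.rpow_two]
    exact Real.rpow_le_rpow_of_exponent_le (by linarith) (by linarith)
  have hX2 : y ^ (2 * c) - km c ≤ y ^ 2 := by
    have := km_pos hc
    linarith
  have h4 : (y ^ (2 * c) - km c) * y * Real.exp (-y ^ 2 / 2) / (y ^ 2 + 1 - 2 * c) ≤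
      2 * y * Real.exp (-y ^ 2 / 2) := by
    rw [div_le_iff₀ (by nlinarith)]
    have e0 : 0 ≤ y * Real.exp (-y ^ 2 / 2) := by positivity
    calc (y ^ (2 * c) - km c) * y * Real.exp (-y ^ 2 / 2) 
        = (y ^ (2 * c) - km c) * (y * Real.exp (-y ^ 2 / 2)) := by ring
      _ ≤ y ^ 2 * (y * Real.exp (-y ^ 2 / 2)) := mul_le_mul_of_nonneg_right hX2 e0
      _ = 2 * (y * Real.exp (-y ^ 2 / 2)) * (y ^ 2 / 2) := by ring
      _ ≤ 2 * (y * Real.exp (-y ^ 2 / 2)) * (y ^ 2 + 1 - 2 * c) := by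
          apply mul_le_mul_of_nonneg_left hτy; positivity
      _ = 2 * y * Real.exp (-y ^ 2 / 2) * (y ^ 2 + 1 - 2 * c) := by ring
  have h5 : 2 * y * Real.exp (-y ^ 2 / 2) ≤ 4 / y := by
    have e1 : 1 + y ^ 2 / 2 ≤ Real.exp (y ^ 2 / 2) := by
      have := Real.add_one_le_exp (y ^ 2 / 2)
      linarith
    rw [show -y ^ 2 / 2 = -(y ^ 2 / 2) by ring, Real.exp_neg, ← div_eq_mul_inv, div_le_div_iff₀ (Real.exp_pos _) hy]
    nlinarith
  have h6 : 4 / y < ε := by
    rw [div_lt_iff₀ hy]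
    rw [div_lt_iff₀ hεpos] at hy4
    linarith
  linarith

lemma kJ_nonpos_large {c x : ℝ} (hc : 1/2 < c) (hc1 : c < 1) (hx : 0 ≤ x) : kJ c x ≤ 0 := by
  have hlow := km_lower hc hc1
  set κ := 2 * c - 1 with hκ
  have hκ0 : 0 < κ := by linarith
  have hX : x ^ (2 * c) = (x ^ 2) ^ c := by
    rw [← Real.rpow_natCast, ← Real.rpow_mul hx]; norm_num
  have ham := Real.geom_mean_le_arith_mean2_weighted (w₁ := c) (w₂ := 1 - c) (p₁ := x ^ 2) (p₂ := κ)
    (by linarith) (by linarith) (by positivity) hκ0.le (by ring)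
  have h1 : κ * (x ^ 2) ^ c ≤ κ ^ c * (c * x ^ 2 + (1 - c) * κ) := by
    have e : κ ^ c * ((x ^ 2) ^ c * κ ^ (1 - c)) = κ * (x ^ 2) ^ c := by
      have : κ ^ c * κ ^ (1 - c) = κ := by rw [← Real.rpow_add hκ0]; norm_num
      calc κ ^ c * ((x ^ 2) ^ c * κ ^ (1 - c)) = (κ ^ c * κ ^ (1 - c)) * (x ^ 2) ^ c := by ring
        _ = _ := by rw [this]
    rw [← e]
    exact mul_le_mul_of_nonneg_left ham (by positivity)
  have h2 : κ ^ c * (c * x ^ 2 + (1 - c) * κ) ≤ km c * (c * x ^ 2 + (1 - c) * κ) := by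
    apply mul_le_mul_of_nonneg_right hlow
    have : 0 ≤ (1 - c) * κ := mul_nonneg (by linarith) hκ0.le
    have : 0 ≤ c * x ^ 2 := by positivity
    linarith
  unfold kJ
  rw [hX]
  have e1 : 1 - 2 * c = -κ := by rw [hκ]; ring
  rw [e1]
  nlinarith

/-- `E(x) ≥ 0` -/
lemma kE_nonneg {c x : ℝ} (hc : 0 < c) (hc1 : c < 1) (hx : 0 < x) :
    0 ≤ kA c x * (x ^ 2 + 1 - 2 * c) - x * kg c x := by
  have hrel : ∀ z, 0 < z → z ^ 2 + 1 - 2 * c ≠ 0 →
      kA c z * (z ^ 2 + 1 - 2 * c) - z * kg c z = (z ^ 2 + 1 - 2 * c) * kB c z := by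
    intro z hz hτ
    rw [kA_eq hc hz.le]
    unfold kB kg
    field_simp
  rcases lt_or_ge (1/2) c with hc2 | hc2
  · -- c > 1/2
    rcases lt_trichotomy (x ^ 2 + 1 - 2 * c) 0 with hτ | hτ | hτ
    · rw [hrel x hx hτ.ne]
      have hτz : ∀ z, 0 ≤ z → z ≤ x → z ^ 2 + 1 - 2 * c < 0 := by
        intro z hz hzx
        have : z ^ 2 ≤ x ^ 2 := by nlinarith
        linarith
      have hanti : AntitoneOn (kB c) (Icc 0 x) := by
        apply antitoneOn_of_deriv_nonpos (convex_Icc 0 x)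
        · exact kB_contOn hc (fun z hz => (hτz z hz.1 hz.2).ne)
        · intro z hz
          rw [interior_Icc] at hz
          exact (kB_hasDerivAt hc hz.1 (hτz z hz.1.le hz.2.le).ne).differentiableAt.differentiableWithinAt
        · intro z hz
          rw [interior_Icc] at hz
          rw [(kB_hasDerivAt hc hz.1 (hτz z hz.1.le hz.2.le).ne).deriv]
          apply div_nonpos_of_nonpos_of_nonneg
          · exact mul_nonpos_of_nonneg_of_nonpos (Real.exp_pos _).le (kJ_nonpos_large hc2 hc1 hz.1.le)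
          · positivity
      have h1 : kB c x ≤ kB c 0 := hanti (left_mem_Icc.mpr hx.le) (right_mem_Icc.mpr hx.le) hx.le
      have h0 : kB c 0 = 0 := by simp [kB]
      exact mul_nonneg_of_nonpos_of_nonpos hτ.le (by linarith)
    · rw [hτ, mul_zero, zero_sub]
      have hx2 : x ^ 2 = 2 * c - 1 := by linarith
      have hX : x ^ (2 * c) = (2 * c - 1) ^ c := by
        rw [← hx2, ← Real.rpow_natCast, ← Real.rpow_mul hx.le]; norm_num
      unfold kg
      rw [hX]
      have := km_lower hc2 hc1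
      have h1 : ((2 * c - 1) ^ c - km c) * Real.exp (-x ^ 2 / 2) ≤ 0 :=
        mul_nonpos_of_nonpos_of_nonneg (by linarith) (Real.exp_pos _).le
      nlinarith
    · rw [hrel x hx hτ.ne']
      apply mul_nonneg hτ.le
      apply kB_nonneg_of_tail hc hc1 hx
      · intro z hz
        have : x ^ 2 ≤ z ^ 2 := by nlinarith
        linarith
      · intro z hz
        exact kJ_nonpos_large hc2 hc1 (by linarith)
  · -- c ≤ 1/2
    have hτ : ∀ z, 0 < z → 0 < z ^ 2 + 1 - 2 * c := by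
      intro z hz
      have : 0 < z ^ 2 := by positivity
      linarith
    rw [hrel x hx (hτ x hx).ne']
    apply mul_nonneg (hτ x hx).le
    have hJmono : ∀ z w, 0 ≤ z → z ≤ w → kJ c w ≤ kJ c z := by
      intro z w hz hzw
      unfold kJ
      have h1 : z ^ (2 * c) ≤ w ^ (2 * c) := Real.rpow_le_rpow hz hzw (by linarith)
      have h2 : z ^ 2 ≤ w ^ 2 := by nlinarith
      have hm := km_pos hc
      have h3 : (1 - 2 * c) * z ^ (2 * c) ≤ (1 - 2 * c) * w ^ (2 * c) :=
        mul_le_mul_of_nonneg_left h1 (by linarith)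
      have h4 : km c * (2 * c * z ^ 2) ≤ km c * (2 * c * w ^ 2) := by
        apply mul_le_mul_of_nonneg_left _ hm.le
        nlinarith
      nlinarith
    rcases lt_or_ge (kJ c x) 0 with hJ | hJ
    · apply kB_nonneg_of_tail hc hc1 hx
      · intro z hz
        exact hτ z (by linarith)
      · intro z hz
        exact (hJmono x z hx.le hz).trans hJ.le
    · -- need c < 1/2
      have hc3 : c < 1/2 := by
        rcases hc2.lt_or_eq with h | h
        · exact h
        · exfalso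
          have hm := km_pos hc
          unfold kJ at hJ
          have e1 : 1 - 2 * c = 0 := by rw [h]; ring
          rw [e1] at hJ
          have : 0 < km c * (2 * c * x ^ 2) := by positivity
          nlinarith
      have hτ0 : ∀ z, 0 ≤ z → 0 < z ^ 2 + 1 - 2 * c := by
        intro z hz
        have : 0 ≤ z ^ 2 := by positivity
        linarith
      have hmono : MonotoneOn (kB c) (Icc 0 x) := by
        apply monotoneOn_of_deriv_nonneg (convex_Icc 0 x)
        · exact kB_contOn hc (fun z hz => (hτ0 z hz.1).ne')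
        · intro z hz
          rw [interior_Icc] at hz
          exact (kB_hasDerivAt hc hz.1 (hτ0 z hz.1.le).ne').differentiableAt.differentiableWithinAt
        · intro z hz
          rw [interior_Icc] at hz
          rw [(kB_hasDerivAt hc hz.1 (hτ0 z hz.1.le).ne').deriv]
          apply div_nonneg
          · exact mul_nonneg (Real.exp_pos _).le (hJ.trans (hJmono z x hz.1.le hz.2.le))
          · positivity
      have h1 : kB c 0 ≤ kB c x := hmono (left_mem_Icc.mpr hx.le) (right_mem_Icc.mpr hx.le) hx.le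
      have h0 : kB c 0 = 0 := by simp [kB]
      linarith

/-- (P1): the quotient `A(x) / (x^{2c-1} e^{-x²/2})` is nondecreasing on `(0,∞)`. -/
theorem Kmono {c x y : ℝ} (hc : 0 < c) (hc1 : c < 1) (hx : 0 < x) (hxy : x < y) :
    (∫ s in Ioi x, (s ^ (2 * c) - 2 ^ c * Real.Gamma (c + 1/2) / √π) * Real.exp (-s ^ 2 / 2)) *
      (y ^ (2 * c - 1) * Real.exp (-y ^ 2 / 2)) ≤
    (∫ s in Ioi y, (s ^ (2 * c) - 2 ^ c * Real.Gamma (c + 1/2) / √π) * Real.exp (-s ^ 2 / 2)) *
      (x ^ (2 * c - 1) * Real.exp (-x ^ 2 / 2)) := by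
  change kA c x * (y ^ (2 * c - 1) * Real.exp (-y ^ 2 / 2)) ≤ kA c y * (x ^ (2 * c - 1) * Real.exp (-x ^ 2 / 2))
  have hy : 0 < y := hx.trans hxy
  set K : ℝ → ℝ := fun z => (-∫ s in (0:ℝ)..z, kg c s) * (z ^ (1 - 2 * c) * Real.exp (z ^ 2 / 2)) with hK
  have hd : ∀ z, 0 < z → HasDerivAt K (z ^ (-(2 * c)) * Real.exp (z ^ 2 / 2) *
      (kA c z * (z ^ 2 + 1 - 2 * c) - z * kg c z)) z := by
    intro z hz
    have d1 : HasDerivAt (fun x => ∫ s in (0:ℝ)..x, kg c s) (kg c z) z :=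
      ((kg_cont hc).integral_hasStrictDerivAt 0 z).hasDerivAt
    have d2 : HasDerivAt (fun x : ℝ => x ^ (1 - 2 * c)) ((1 - 2 * c) * z ^ (1 - 2 * c - 1)) z :=
      Real.hasDerivAt_rpow_const (Or.inl hz.ne')
    have d3 : HasDerivAt (fun x : ℝ => Real.exp (x ^ 2 / 2)) (Real.exp (z ^ 2 / 2) * z) z := by
      have := (((hasDerivAt_id z).pow 2).div_const 2).exp
      refine this.congr_deriv ?_
      simp
    refine (d1.neg.mul (d2.mul d3)).congr_deriv ?_
    simp only [Pi.mul_apply, Pi.neg_apply]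
    rw [kA_eq hc hz.le]
    have e1 : z ^ (1 - 2 * c - 1) = z ^ (-(2 * c)) := by congr 1; ring
    have e2 : z ^ (1 - 2 * c) = z * z ^ (-(2 * c)) := by
      rw [show 1 - 2 * c = 1 + -(2 * c) by ring, Real.rpow_add hz, Real.rpow_one]
    rw [e1, e2]
    ring
  have hmono : MonotoneOn K (Icc x y) := by
    apply monotoneOn_of_deriv_nonneg (convex_Icc x y)
    · intro z hz
      exact (hd z (hx.trans_le hz.1)).continuousAt.continuousWithinAt
    · intro z hz
      rw [interior_Icc] at hz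
      exact (hd z (hx.trans hz.1)).differentiableAt.differentiableWithinAt
    · intro z hz
      rw [interior_Icc] at hz
      have hz0 : 0 < z := hx.trans hz.1
      rw [(hd z hz0).deriv]
      exact mul_nonneg (by positivity) (kE_nonneg hc hc1 hz0)
  have h := hmono (left_mem_Icc.mpr hxy.le) (right_mem_Icc.mpr hxy.le) hxy.le
  simp only [hK] at h
  rw [← kA_eq hc hx.le, ← kA_eq hc hy.le] at h
  have hP : 0 < (x ^ (2 * c - 1) * Real.exp (-x ^ 2 / 2)) * (y ^ (2 * c - 1) * Real.exp (-y ^ 2 / 2)) := by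
    positivity
  have h2 := mul_le_mul_of_nonneg_right h hP.le
  have ex : ∀ z : ℝ, 0 < z → (z ^ (1 - 2 * c) * Real.exp (z ^ 2 / 2)) * (z ^ (2 * c - 1) * Real.exp (-z ^ 2 / 2)) = 1 := by
    intro z hz
    have e1 : z ^ (1 - 2 * c) * z ^ (2 * c - 1) = 1 := by
      rw [← Real.rpow_add hz]; norm_num
    have e2 : Real.exp (z ^ 2 / 2) * Real.exp (-z ^ 2 / 2) = 1 := by
      rw [← Real.exp_add]; norm_num; ring
    calc (z ^ (1 - 2 * c) * Real.exp (z ^ 2 / 2)) * (z ^ (2 * c - 1) * Real.exp (-z ^ 2 / 2))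
        = (z ^ (1 - 2 * c) * z ^ (2 * c - 1)) * (Real.exp (z ^ 2 / 2) * Real.exp (-z ^ 2 / 2)) := by ring
      _ = 1 := by rw [e1, e2, one_mul]
  have hx1 := ex x hx
  have hy1 := ex y hy
  calc kA c x * (y ^ (2 * c - 1) * Real.exp (-y ^ 2 / 2))
      = kA c x * (x ^ (1 - 2 * c) * Real.exp (x ^ 2 / 2)) *
        ((x ^ (2 * c - 1) * Real.exp (-x ^ 2 / 2)) * (y ^ (2 * c - 1) * Real.exp (-y ^ 2 / 2))) := by
        linear_combination (-(kA c x * (y ^ (2 * c - 1) * Real.exp (-y ^ 2 / 2)))) * hx1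
    _ ≤ kA c y * (y ^ (1 - 2 * c) * Real.exp (y ^ 2 / 2)) *
        ((x ^ (2 * c - 1) * Real.exp (-x ^ 2 / 2)) * (y ^ (2 * c - 1) * Real.exp (-y ^ 2 / 2))) := h2
    _ = kA c y * (x ^ (2 * c - 1) * Real.exp (-x ^ 2 / 2)) := by
        linear_combination (kA c y * (x ^ (2 * c - 1) * Real.exp (-x ^ 2 / 2))) * hy1

end Pool.Agent.GPI
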