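import Mathlib

set_option autoImplicit false

open MeasureTheory Set

namespace Pool.Agent.GPI

/-- `f` on `(0,∞)`: once nonnegative, stays nonnegative. -/
def OnceNN (f : ℝ → ℝ) : Prop := ∀ s t, 0 < s → s < t → 0 ≤ f s → 0 ≤ f t

/-- The weight lemma: a weight that increases keeps a nonnegative integral nonnegative. -/
lemma weight_mono {f w ρ : ℝ → ℝ} (hf : OnceNN f) (hw : ∀ t, 0 < t → 0 ≤ w t)
    (hρ : ∀ s t, 0 < s → s < t → ρ s ≤ ρ t) (hρ0 : ∀ t, 0 < t → 0 ≤ ρ t)
    (hi1 : IntegrableOn (fun t => f t * w t) (Ioi 0))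
    (hi2 : IntegrableOn (fun t => ρ t * (f t * w t)) (Ioi 0))
    (h : 0 ≤ ∫ t in Ioi (0:ℝ), f t * w t) :
    0 ≤ ∫ t in Ioi (0:ℝ), ρ t * (f t * w t) := by
  by_cases hall : ∀ t, 0 < t → 0 ≤ f t
  · apply setIntegral_nonneg measurableSet_Ioi
    intro t ht
    exact mul_nonneg (hρ0 t ht) (mul_nonneg (hall t ht) (hw t ht))
  push Not at hall
  obtain ⟨t₁, ht₁, hft₁⟩ := hall
  by_cases hemp : ∃ t, 0 < t ∧ 0 ≤ f t
  · set Z := {t : ℝ | 0 < t ∧ 0 ≤ f t} with hZ
    have hZne : Z.Nonempty := hemp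
    have hbdd : BddBelow Z := ⟨0, fun t ht => ht.1.le⟩
    set t₀ := sInf Z with ht₀
    have hge : t₁ ≤ t₀ := by
      apply le_csInf hZne
      intro t ht
      by_contra hlt
      push Not at hlt
      have := hf t t₁ ht.1 hlt ht.2
      linarith
    have ht₀pos : 0 < t₀ := lt_of_lt_of_le ht₁ hge
    have hlow : ∀ t, 0 < t → t < t₀ → f t < 0 := by
      intro t ht hlt
      by_contra hcon
      push Not at hcon
      exact absurd (csInf_le hbdd ⟨ht, hcon⟩) (not_le.2 hlt)
    have hup : ∀ t, t₀ < t → 0 ≤ f t := by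
      intro t hlt
      obtain ⟨s, hs, hst⟩ := exists_lt_of_csInf_lt hZne hlt
      exact hf s t hs.1 hst hs.2
    have hpt : ∀ t ∈ Ioi (0:ℝ), ρ t₀ * (f t * w t) ≤ ρ t * (f t * w t) := by
      intro t ht
      have ht' : 0 < t := ht
      rcases lt_trichotomy t t₀ with h1 | h1 | h1
      · have a1 := hlow t ht' h1
        have a2 := hρ t t₀ ht' h1
        have a3 := hw t ht'
        have a4 : f t * w t ≤ 0 := by nlinarith
        nlinarith
      · rw [h1]
      · have a1 := hup t h1
        have a2 := hρ t₀ t ht₀pos h1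
        have a3 := hw t ht'
        have a4 : 0 ≤ f t * w t := mul_nonneg a1 a3
        nlinarith
    calc (0:ℝ) ≤ ρ t₀ * ∫ t in Ioi (0:ℝ), f t * w t := mul_nonneg (hρ0 _ ht₀pos) h
      _ = ∫ t in Ioi (0:ℝ), ρ t₀ * (f t * w t) := by rw [integral_const_mul]
      _ ≤ _ := setIntegral_mono_on (hi1.const_mul _) hi2 measurableSet_Ioi hpt
  · push Not at hemp
    -- everything negative: the integral of `f w` vanishes
    have hneg : ∀ t ∈ Ioi (0:ℝ), f t * w t ≤ 0 := by
      intro t ht
      have := hemp t ht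
      have a3 := hw t ht
      nlinarith
    have h0 : ∫ t in Ioi (0:ℝ), f t * w t = 0 :=
      le_antisymm (setIntegral_nonpos measurableSet_Ioi hneg) h
    have hae : (fun t => f t * w t) =ᵐ[volume.restrict (Ioi 0)] 0 := by
      have h1 : ∫ t in Ioi (0:ℝ), -(f t * w t) = 0 := by rw [integral_neg, h0, neg_zero]
      have h2 := (setIntegral_eq_zero_iff_of_nonneg_ae ?_ hi1.neg).1 h1
      · filter_upwards [h2] with t ht
        simpa using ht
      · rw [Filter.EventuallyLE, ae_restrict_iff' measurableSet_Ioi]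
        filter_upwards with t ht
        have := hneg t ht
        simp only [Pi.zero_apply, Pi.neg_apply]
        linarith
    have : ∫ t in Ioi (0:ℝ), ρ t * (f t * w t) = 0 := by
      apply integral_eq_zero_of_ae
      filter_upwards [hae] with t ht
      simp only [Pi.zero_apply] at ht ⊢
      rw [ht, mul_zero]
    rw [this]

end Pool.Agent.GPI
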