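import Mathlib
import Pool.Agent.GPI.Repr

set_option autoImplicit false

open Real MeasureTheory ProbabilityTheory Set

namespace Pool.Agent.GPI

/-- Integral against the planar standard Gaussian measure as a Lebesgue integral. -/
lemma gauss2_density (f : ℝ × ℝ → ℝ) :
    ∫ z, f z ∂((gaussianReal 0 1).prod (gaussianReal 0 1))
      = ∫ z : ℝ × ℝ, (2 * π)⁻¹ * exp (-(z.1 ^ 2 + z.2 ^ 2) / 2) * f z := by
  rw [gaussianReal_of_var_ne_zero 0 one_ne_zero,
    prod_withDensity (measurable_gaussianPDF 0 1) (measurable_gaussianPDF 0 1)]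
  have hm : Measurable (fun z : ℝ × ℝ => gaussianPDF 0 1 z.1 * gaussianPDF 0 1 z.2) :=
    ((measurable_gaussianPDF 0 1).comp measurable_fst).mul
      ((measurable_gaussianPDF 0 1).comp measurable_snd)
  rw [integral_withDensity_eq_integral_toReal_smul hm]
  · apply integral_congr_ae
    filter_upwards with z
    rw [ENNReal.toReal_mul, toReal_gaussianPDF, toReal_gaussianPDF, gaussianPDFReal,
      gaussianPDFReal, smul_eq_mul]
    have h1 : (√(2 * π * ((1 : NNReal) : ℝ)))⁻¹ * (√(2 * π * ((1 : NNReal) : ℝ)))⁻¹ = (2 * π)⁻¹ := by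
      rw [← mul_inv, Real.mul_self_sqrt (by positivity)]
      simp
    have h2 : exp (-(z.1 - 0) ^ 2 / (2 * ((1 : NNReal) : ℝ))) * exp (-(z.2 - 0) ^ 2 / (2 * ((1 : NNReal) : ℝ)))
        = exp (-(z.1 ^ 2 + z.2 ^ 2) / 2) := by
      rw [← Real.exp_add]
      congr 1
      simp
      ring
    calc _ = ((√(2 * π * ((1 : NNReal) : ℝ)))⁻¹ * (√(2 * π * ((1 : NNReal) : ℝ)))⁻¹)
          * (exp (-(z.1 - 0) ^ 2 / (2 * ((1 : NNReal) : ℝ)))
            * exp (-(z.2 - 0) ^ 2 / (2 * ((1 : NNReal) : ℝ)))) * f z := by ring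
      _ = _ := by rw [h1, h2]
  · filter_upwards with z
    exact ENNReal.mul_lt_top gaussianPDF_lt_top gaussianPDF_lt_top

/-- Polar coordinates for homogeneous functions of a planar standard Gaussian vector. -/
lemma gauss2_polar (f : ℝ × ℝ → ℝ) (h : ℝ → ℝ) (p : ℝ) (hp : 0 ≤ p)
    (hf : ∀ r > 0, ∀ t, f (r * cos t, r * sin t) = r ^ p * h t) :
    ∫ z, f z ∂((gaussianReal 0 1).prod (gaussianReal 0 1))
      = (2 ^ (p / 2) * Gamma (p / 2 + 1)) * ((2 * π)⁻¹ * ∫ t in Ioo (-π) π, h t) := by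
  rw [gauss2_density, ← integral_comp_polarCoord_symm]
  have e1 : ∫ q in polarCoord.target, q.1 • ((2 * π)⁻¹ * exp (-((polarCoord.symm q).1 ^ 2
      + (polarCoord.symm q).2 ^ 2) / 2) * f (polarCoord.symm q))
      = ∫ q in Ioi (0:ℝ) ×ˢ Ioo (-π) π, (q.1 ^ (p + 1) * exp (-(1/2) * q.1 ^ (2:ℝ)))
        * ((2 * π)⁻¹ * h q.2) := by
    rw [polarCoord_target]
    apply setIntegral_congr_fun (measurableSet_Ioi.prod measurableSet_Ioo)
    intro q hq
    have hq1 : 0 < q.1 := hq.1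
    simp only [polarCoord_symm_apply, smul_eq_mul]
    rw [hf q.1 hq1 q.2]
    have h1 : (q.1 * cos q.2) ^ 2 + (q.1 * sin q.2) ^ 2 = q.1 ^ 2 := by
      have := Real.sin_sq_add_cos_sq q.2
      calc (q.1 * cos q.2) ^ 2 + (q.1 * sin q.2) ^ 2 = q.1 ^ 2 * (sin q.2 ^ 2 + cos q.2 ^ 2) := by ring
        _ = _ := by rw [this, mul_one]
    rw [h1, Real.rpow_add hq1, Real.rpow_one, Real.rpow_two]
    have : -(q.1 ^ 2) / 2 = -(1/2) * q.1 ^ 2 := by ring
    rw [this]
    ring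
  rw [e1, Measure.volume_eq_prod, setIntegral_prod_mul (fun x : ℝ => x ^ (p + 1) * exp (-(1/2) * x ^ (2:ℝ)))
    (fun t => (2 * π)⁻¹ * h t)]
  rw [integral_rpow_mul_exp_neg_mul_rpow (by norm_num) (by linarith) (by norm_num),
    integral_const_mul]
  congr 1
  have h2 : (p + 1 + 1) / 2 = p / 2 + 1 := by ring
  have h3 : -(p + 1 + 1) / 2 = -(p / 2 + 1) := by ring
  rw [h2, h3, one_div, Real.inv_rpow (by norm_num), Real.rpow_neg (by norm_num), inv_inv,
    Real.rpow_add (by norm_num), Real.rpow_one]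
  ring

/-- One dimensional absolute moments. -/
lemma gauss1_moment (p : ℝ) (hp : 0 ≤ p) :
    ∫ x, |x| ^ p ∂(gaussianReal 0 1) = 2 ^ (p / 2) * Gamma (p / 2 + 1 / 2) / √π := by
  rw [integral_gaussianReal_eq_integral_smul one_ne_zero]
  have e1 : ∀ x : ℝ, gaussianPDFReal 0 1 x • |x| ^ p
      = (fun y : ℝ => (√(2 * π))⁻¹ * (y ^ p * exp (-(1/2) * y ^ (2:ℝ)))) |x| := by
    intro x
    simp only [gaussianPDFReal, smul_eq_mul, NNReal.coe_one, mul_one, sub_zero]
    rw [Real.rpow_two, sq_abs]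
    have : -x ^ 2 / 2 = -(1/2) * x ^ 2 := by ring
    rw [this]
    ring
  simp_rw [e1]
  rw [integral_comp_abs (f := fun y : ℝ => (√(2 * π))⁻¹ * (y ^ p * exp (-(1/2) * y ^ (2:ℝ)))),
    integral_const_mul, integral_rpow_mul_exp_neg_mul_rpow (by norm_num) (by linarith) (by norm_num)]
  have h2 : (p + 1) / 2 = p / 2 + 1 / 2 := by ring
  have h3 : -(p + 1) / 2 = -(p / 2 + 1 / 2) := by ring
  rw [h2, h3, one_div, Real.inv_rpow (by norm_num), Real.rpow_neg (by norm_num), inv_inv,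
    Real.rpow_add (by norm_num), Real.sqrt_mul (by norm_num), mul_inv, ← one_div (2:ℝ), ← Real.sqrt_eq_rpow]
  have h4 : √(2:ℝ) ≠ 0 := by positivity
  have h5 : √π ≠ 0 := by positivity
  field_simp

end Pool.Agent.GPI
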