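import Mathlib
import Pool.Agent.GPI.Basic1

set_option autoImplicit false

open Real MeasureTheory ProbabilityTheory Set Filter
open scoped Topology

namespace Pool.Agent.GPI

/-- The kernel `1_{s<x} - 1_{s<0}`. -/
noncomputable def kap (s x : ℝ) : ℝ := (Ioi s).indicator 1 x - (Iio 0).indicator 1 s

lemma kap_of_nonneg {x : ℝ} (hx : 0 ≤ x) (s : ℝ) : kap s x = (Ico 0 x).indicator 1 s := by
  unfold kap
  by_cases h1 : s < x <;> by_cases h2 : s < 0
  · rw [indicator_of_mem (show x ∈ Ioi s from h1), indicator_of_mem (show s ∈ Iio 0 from h2),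
      indicator_of_notMem (fun h => absurd h.1 (not_le.2 h2))]
    simp
  · rw [indicator_of_mem (show x ∈ Ioi s from h1), indicator_of_notMem (show s ∉ Iio 0 from h2),
      indicator_of_mem (show s ∈ Ico 0 x from ⟨not_lt.1 h2, h1⟩)]
    simp
  · linarith
  · rw [indicator_of_notMem (show x ∉ Ioi s from h1), indicator_of_notMem (show s ∉ Iio 0 from h2),
      indicator_of_notMem (fun h => h1 h.2)]
    simp

lemma kap_of_neg {x : ℝ} (hx : x < 0) (s : ℝ) : kap s x = - (Ico x 0).indicator 1 s := by
  unfold kap
  by_cases h1 : s < x <;> by_cases h2 : s < 0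
  · rw [indicator_of_mem (show x ∈ Ioi s from h1), indicator_of_mem (show s ∈ Iio 0 from h2),
      indicator_of_notMem (fun h => absurd h.1 (not_le.2 h1))]
    simp
  · linarith
  · rw [indicator_of_notMem (show x ∉ Ioi s from h1), indicator_of_mem (show s ∈ Iio 0 from h2),
      indicator_of_mem (show s ∈ Ico x 0 from ⟨not_lt.1 h1, h2⟩)]
    simp
  · rw [indicator_of_notMem (show x ∉ Ioi s from h1), indicator_of_notMem (show s ∉ Iio 0 from h2),
      indicator_of_notMem (fun h => h2 h.2)]
    simp

lemma measurable_kap : Measurable (fun z : ℝ × ℝ => kap z.2 z.1) := by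
  unfold kap
  apply Measurable.sub
  · have : (fun z : ℝ × ℝ => (Ioi z.2).indicator (1 : ℝ → ℝ) z.1)
        = ({z : ℝ × ℝ | z.2 < z.1}).indicator 1 := by
      ext z
      by_cases h : z.2 < z.1
      · rw [indicator_of_mem (show z.1 ∈ Ioi z.2 from h), indicator_of_mem (show z ∈ {z : ℝ × ℝ | z.2 < z.1} from h)]
        simp
      · rw [indicator_of_notMem (show z.1 ∉ Ioi z.2 from h), indicator_of_notMem (show z ∉ {z : ℝ × ℝ | z.2 < z.1} from h)]
    rw [this]
    exact measurable_one.indicator (measurableSet_lt measurable_snd measurable_fst)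
  · exact (measurable_one.indicator measurableSet_Iio).comp measurable_snd

lemma integral_kap {f' : ℝ → ℝ} (x : ℝ) :
    ∫ s, f' s * kap s x = ∫ s in (0:ℝ)..x, f' s := by
  rcases le_or_gt 0 x with h | h
  · simp_rw [kap_of_nonneg h]
    rw [intervalIntegral.integral_of_le h, ← integral_Ico_eq_integral_Ioc,
      ← integral_indicator measurableSet_Ico]
    apply integral_congr_ae
    filter_upwards with s
    by_cases hs : s ∈ Ico 0 x
    · rw [indicator_of_mem hs, indicator_of_mem hs]; simp
    · rw [indicator_of_notMem hs, indicator_of_notMem hs]; simp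
  · simp_rw [kap_of_neg h]
    rw [intervalIntegral.integral_of_ge h.le, ← integral_Ico_eq_integral_Ioc,
      ← integral_indicator measurableSet_Ico, ← integral_neg]
    apply integral_congr_ae
    filter_upwards with s
    by_cases hs : s ∈ Ico x 0
    · rw [indicator_of_mem hs, indicator_of_mem hs]; simp
    · rw [indicator_of_notMem hs, indicator_of_notMem hs]; simp

lemma integrable_kap {f' : ℝ → ℝ} (x : ℝ) (hi : IntervalIntegrable f' volume 0 x) :
    Integrable (fun s => f' s * kap s x) := by
  rcases le_or_gt 0 x with h | h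
  · simp_rw [kap_of_nonneg h]
    have h1 : IntegrableOn f' (Ico 0 x) := by
      rw [integrableOn_Ico_iff_integrableOn_Ioo, ← integrableOn_Ioc_iff_integrableOn_Ioo]
      rw [intervalIntegrable_iff, uIoc_of_le h] at hi
      exact hi
    have h2 := (integrable_indicator_iff measurableSet_Ico).2 h1
    refine h2.congr ?_
    filter_upwards with s
    by_cases hs : s ∈ Ico 0 x
    · rw [indicator_of_mem hs, indicator_of_mem hs]; simp
    · rw [indicator_of_notMem hs, indicator_of_notMem hs]; simp
  · simp_rw [kap_of_neg h]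
    have h1 : IntegrableOn f' (Ico x 0) := by
      rw [integrableOn_Ico_iff_integrableOn_Ioo, ← integrableOn_Ioc_iff_integrableOn_Ioo]
      rw [intervalIntegrable_iff, uIoc_of_ge h.le] at hi
      exact hi
    have h2 := ((integrable_indicator_iff measurableSet_Ico).2 h1).neg
    refine h2.congr ?_
    filter_upwards with s
    simp only [Pi.neg_apply]
    by_cases hs : s ∈ Ico x 0
    · rw [indicator_of_mem hs, indicator_of_mem hs]; simp
    · rw [indicator_of_notMem hs, indicator_of_notMem hs]; simp

lemma abs_kap_integral {f' : ℝ → ℝ} (x C K : ℝ) (hC : 0 ≤ C) (hK : 0 ≤ K)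
    (hb : ∀ s, |f' s| ≤ C * (1 + |s|) ^ K) :
    ∫ s, |f' s * kap s x| ≤ C * (1 + |x|) ^ (K + 1) := by
  have h0 : ∀ s, |f' s * kap s x| ≤ (uIcc 0 x).indicator (fun _ => C * (1 + |x|) ^ K) s := by
    intro s
    by_cases hs : s ∈ uIcc 0 x
    · rw [indicator_of_mem hs, abs_mul]
      have h1 : |s| ≤ |x| := by
        rcases le_or_gt 0 x with h | h
        · rw [uIcc_of_le h] at hs
          rw [abs_of_nonneg hs.1, abs_of_nonneg h]; exact hs.2
        · rw [uIcc_of_ge h.le] at hs
          rw [abs_of_nonpos hs.2, abs_of_neg h]; linarith [hs.1]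
      have h2 : |kap s x| ≤ 1 := by
        rcases le_or_gt 0 x with h | h
        · rw [kap_of_nonneg h]
          by_cases hh : s ∈ Ico 0 x
          · rw [indicator_of_mem hh]; simp
          · rw [indicator_of_notMem hh]; simp
        · rw [kap_of_neg h, abs_neg]
          by_cases hh : s ∈ Ico x 0
          · rw [indicator_of_mem hh]; simp
          · rw [indicator_of_notMem hh]; simp
      have h3 : (1 + |s|) ^ K ≤ (1 + |x|) ^ K := rpow_le_rpow (by positivity) (by linarith) hK
      calc |f' s| * |kap s x| ≤ |f' s| * 1 := mul_le_mul_of_nonneg_left h2 (abs_nonneg _)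
        _ ≤ C * (1 + |s|) ^ K := by rw [mul_one]; exact hb s
        _ ≤ _ := mul_le_mul_of_nonneg_left h3 hC
    · rw [indicator_of_notMem hs]
      have : kap s x = 0 := by
        rcases le_or_gt 0 x with h | h
        · rw [kap_of_nonneg h, indicator_of_notMem]
          intro hh; apply hs; rw [uIcc_of_le h]; exact ⟨hh.1, hh.2.le⟩
        · rw [kap_of_neg h, indicator_of_notMem, neg_zero]
          intro hh; apply hs; rw [uIcc_of_ge h.le]; exact ⟨hh.1, hh.2.le⟩
      rw [this, mul_zero, abs_zero]
  have hi : Integrable (fun s => (uIcc 0 x).indicator (fun _ => C * (1 + |x|) ^ K) s) := by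
    rw [integrable_indicator_iff measurableSet_uIcc]
    exact integrableOn_const (by simp [uIcc])
  calc _ ≤ ∫ s, (uIcc 0 x).indicator (fun _ => C * (1 + |x|) ^ K) s := by
        apply integral_mono_of_nonneg (Eventually.of_forall (fun s => abs_nonneg _)) hi
        exact Eventually.of_forall h0
    _ = |x| * (C * (1 + |x|) ^ K) := by
        rw [integral_indicator measurableSet_uIcc, setIntegral_const, smul_eq_mul]
        congr 1
        rw [uIcc, Measure.real, Real.volume_Icc, ENNReal.toReal_ofReal (by
          have := min_le_max (a := (0:ℝ)) (b := x); linarith)]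
        rw [max_sub_min_eq_abs]
        simp
    _ ≤ (1 + |x|) * (C * (1 + |x|) ^ K) := by
        apply mul_le_mul_of_nonneg_right (by linarith) (by positivity)
    _ = _ := by
        rw [rpow_add (by positivity), rpow_one]; ring

/-- Layer-cake form of integration by parts against a finite measure. -/
lemma layer (μ : Measure ℝ) [IsFiniteMeasure μ] (ω f f' : ℝ → ℝ) (hωm : Measurable ω)
    (hω0 : ∫ x, ω x ∂μ = 0) (hf'm : Measurable f')
    (hf : ∀ x, f x = f 0 + ∫ s in (0:ℝ)..x, f' s) {C K : ℝ} (hC : 0 ≤ C) (hK : 0 ≤ K)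
    (hb : ∀ s, |f' s| ≤ C * (1 + |s|) ^ K)
    (hωi : Integrable (fun x => |ω x| * (1 + |x|) ^ (K + 1)) μ) :
    Integrable (fun s => f' s * (∫ x in Ioi s, ω x ∂μ)) ∧
    ∫ x, ω x * f x ∂μ = ∫ s, f' s * (∫ x in Ioi s, ω x ∂μ) := by
  have hωint : Integrable ω μ := by
    refine hωi.mono' hωm.aestronglyMeasurable ?_
    filter_upwards with x
    rw [Real.norm_eq_abs]
    have : 1 ≤ (1 + |x|) ^ (K + 1) := one_le_rpow (by linarith [abs_nonneg x]) (by linarith)
    nlinarith [abs_nonneg (ω x)]
  have hii : ∀ x, IntervalIntegrable f' volume 0 x := by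
    intro x
    rw [intervalIntegrable_iff]
    have hc : IntegrableOn (fun _ : ℝ => C * (1 + |x|) ^ K) (uIoc 0 x) :=
      integrableOn_const (by simp [uIoc])
    refine hc.mono' hf'm.aestronglyMeasurable ?_
    rw [ae_restrict_iff' measurableSet_uIoc]
    filter_upwards with s hs
    rw [Real.norm_eq_abs]
    refine (hb s).trans ?_
    have h1 : |s| ≤ |x| := by
      rcases le_or_gt 0 x with h | h
      · rw [uIoc_of_le h] at hs
        rw [abs_of_nonneg hs.1.le, abs_of_nonneg h]; exact hs.2
      · rw [uIoc_of_ge h.le] at hs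
        rw [abs_of_nonpos hs.2, abs_of_neg h]; linarith [hs.1]
    have h3 : (1 + |s|) ^ K ≤ (1 + |x|) ^ K := rpow_le_rpow (by positivity) (by linarith) hK
    exact mul_le_mul_of_nonneg_left h3 hC
  set Φ : ℝ × ℝ → ℝ := fun z => ω z.1 * (f' z.2 * kap z.2 z.1) with hΦ
  have hΦm : Measurable Φ := (hωm.comp measurable_fst).mul ((hf'm.comp measurable_snd).mul measurable_kap)
  have hΦi : Integrable Φ (μ.prod volume) := by
    rw [integrable_prod_iff hΦm.aestronglyMeasurable]
    constructor
    · filter_upwards with x
      exact (integrable_kap x (hii x)).const_mul (ω x)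
    · refine (hωi.const_mul C).mono' ?_ ?_
      · exact hΦm.aestronglyMeasurable.norm.integral_prod_right'
      · filter_upwards with x
        rw [Real.norm_of_nonneg (integral_nonneg (fun s => norm_nonneg _))]
        simp only [hΦ, norm_mul, Real.norm_eq_abs]
        rw [integral_const_mul]
        have h1 := abs_kap_integral x C K hC hK hb
        simp only [abs_mul] at h1
        calc _ ≤ |ω x| * (C * (1 + |x|) ^ (K + 1)) := mul_le_mul_of_nonneg_left h1 (abs_nonneg _)
          _ = _ := by ring
  have hinner : ∀ s, ∫ x, Φ (x, s) ∂μ = f' s * (∫ x in Ioi s, ω x ∂μ) := by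
    intro s
    have e : ∀ x, Φ (x, s) = f' s * ((Ioi s).indicator ω x) - (f' s * (Iio 0).indicator 1 s) * ω x := by
      intro x
      simp only [hΦ, kap]
      by_cases h : x ∈ Ioi s
      · rw [indicator_of_mem h, indicator_of_mem h]; simp; ring
      · rw [indicator_of_notMem h, indicator_of_notMem h]; ring
    simp_rw [e]
    rw [integral_sub, integral_const_mul, integral_const_mul, hω0, mul_zero, sub_zero,
      integral_indicator measurableSet_Ioi]
    · exact ((integrable_indicator_iff measurableSet_Ioi).2 hωint.integrableOn).const_mul _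
    · exact hωint.const_mul _
  refine ⟨?_, ?_⟩
  · have := hΦi.integral_prod_right
    refine this.congr ?_
    filter_upwards with s
    exact hinner s
  · have hswap := integral_integral_swap (f := fun x s => Φ (x, s)) (μ := μ) (ν := volume) hΦi
    have e1 : ∀ x, ∫ s, Φ (x, s) = ω x * f x - f 0 * ω x := by
      intro x
      simp only [hΦ]
      rw [integral_const_mul, integral_kap, hf x]
      ring
    have hleft : ∫ x, ω x * f x ∂μ = ∫ x, (∫ s, Φ (x, s)) ∂μ := by
      simp_rw [e1]
      have hi1 : Integrable (fun x => ω x * f x - f 0 * ω x) μ := by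
        have := hΦi.integral_prod_left
        refine this.congr ?_
        filter_upwards with x
        exact e1 x
      have hi2 : Integrable (fun x => ω x * f x) μ := by
        have := hi1.add (hωint.const_mul (f 0))
        refine this.congr ?_
        filter_upwards with x
        simp only [Pi.add_apply]
        ring
      rw [integral_sub hi2 (hωint.const_mul _), integral_const_mul, hω0, mul_zero, sub_zero]
    rw [hleft, hswap]
    simp_rw [hinner]

end Pool.Agent.GPI
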