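import Mathlib
import Pool.Agent.GPI.Basic2
import Pool.Agent.GPI.Layer

set_option autoImplicit false

open Real MeasureTheory ProbabilityTheory Set Filter
open scoped Topology

namespace Pool.Agent.GPI

/-- Polynomially bounded measurable functions. -/
def PB (f : ℝ → ℝ) : Prop :=
  Measurable f ∧ ∃ C K : ℝ, 0 ≤ C ∧ 0 ≤ K ∧ ∀ z : ℝ, |f z| ≤ C * (1 + |z|) ^ K

/-- Gaussian smoothing. -/
noncomputable def sm (l : ℝ) (f : ℝ → ℝ) (x : ℝ) : ℝ := ∫ g, f (x + l * g) ∂gg

lemma shift_rpow_le {K : ℝ} (hK : 0 ≤ K) (l x g : ℝ) :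
    (1 + |x + l * g|) ^ K ≤ (1 + |l|) ^ K * (1 + |x|) ^ K * (1 + |g|) ^ K := by
  rw [← mul_rpow (by positivity) (by positivity), ← mul_rpow (by positivity) (by positivity)]
  apply rpow_le_rpow (by positivity) _ hK
  have h := abs_add_le x (l * g)
  rw [abs_mul] at h
  have h1 := abs_nonneg x
  have h2 := abs_nonneg l
  have h3 := abs_nonneg g
  nlinarith [mul_nonneg h1 h2, mul_nonneg h2 h3, mul_nonneg h1 h3, mul_nonneg h1 (mul_nonneg h2 h3)]

lemma PB.integrable_shift {f : ℝ → ℝ} (hf : PB f) (l x : ℝ) :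
    Integrable (fun g => f (x + l * g)) gg := by
  obtain ⟨hm, C, K, hC, hK, hb⟩ := hf
  refine ((integrable_poly hK).const_mul (C * ((1 + |l|) ^ K * (1 + |x|) ^ K))).mono'
    (hm.comp (by fun_prop)).aestronglyMeasurable ?_
  filter_upwards with g
  rw [Real.norm_eq_abs]
  calc _ ≤ C * (1 + |x + l * g|) ^ K := hb _
    _ ≤ C * ((1 + |l|) ^ K * (1 + |x|) ^ K * (1 + |g|) ^ K) :=
        mul_le_mul_of_nonneg_left (shift_rpow_le hK l x g) hC
    _ = _ := by ring

lemma PB.integrable {f : ℝ → ℝ} (hf : PB f) : Integrable f gg := by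
  have := hf.integrable_shift 1 0
  simpa using this

lemma PB.sm_bound {f : ℝ → ℝ} (hf : PB f) (l : ℝ) :
    ∃ C K : ℝ, 0 ≤ C ∧ 0 ≤ K ∧ ∀ x, ∫ g, |f (x + l * g)| ∂gg ≤ C * (1 + |x|) ^ K := by
  have hf' := hf
  obtain ⟨hm, C, K, hC, hK, hb⟩ := hf
  have hP : 0 ≤ ∫ g, (1 + |g|) ^ K ∂gg := integral_nonneg (fun g => by positivity)
  refine ⟨C * (1 + |l|) ^ K * ∫ g, (1 + |g|) ^ K ∂gg, K, by positivity, hK, ?_⟩
  intro x
  calc _ ≤ ∫ g, (C * ((1 + |l|) ^ K * (1 + |x|) ^ K)) * (1 + |g|) ^ K ∂gg := by
        apply integral_mono (hf'.integrable_shift l x).abs ((integrable_poly hK).const_mul _)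
        intro g
        calc _ ≤ C * (1 + |x + l * g|) ^ K := hb _
          _ ≤ C * ((1 + |l|) ^ K * (1 + |x|) ^ K * (1 + |g|) ^ K) :=
              mul_le_mul_of_nonneg_left (shift_rpow_le hK l x g) hC
          _ = _ := by ring
    _ = _ := by rw [integral_const_mul]; ring

lemma PB.sm {f : ℝ → ℝ} (hf : PB f) (l : ℝ) : PB (sm l f) := by
  constructor
  · unfold GPI.sm
    have hm := hf.1
    have h : StronglyMeasurable (Function.uncurry (fun x g => f (x + l * g))) :=
      (hm.comp (by fun_prop : Measurable (fun z : ℝ × ℝ => z.1 + l * z.2))).stronglyMeasurable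
    exact h.integral_prod_right.measurable
  · obtain ⟨C, K, hC, hK, hb⟩ := hf.sm_bound l
    exact ⟨C, K, hC, hK, fun x => (abs_integral_le_integral_abs).trans (hb x)⟩

lemma PB.intervalIntegrable {f : ℝ → ℝ} (hf : PB f) (a b : ℝ) : IntervalIntegrable f volume a b := by
  obtain ⟨hm, C, K, hC, hK, hb⟩ := hf
  have hc : Continuous (fun z : ℝ => C * (1 + |z|) ^ K) := by
    apply Continuous.mul continuous_const
    exact Continuous.rpow_const (by fun_prop) (fun x => Or.inr hK)
  refine (hc.intervalIntegrable a b).mono_fun hm.aestronglyMeasurable ?_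
  filter_upwards with z
  rw [Real.norm_eq_abs, Real.norm_of_nonneg (by positivity)]
  exact hb z

lemma sm_ftc {f f' : ℝ → ℝ} (hf : PB f) (hf' : PB f') (h : ∀ a b, f b - f a = ∫ z in a..b, f' z)
    (l a b : ℝ) : sm l f b - sm l f a = ∫ z in a..b, sm l f' z := by
  have hint : Integrable (Function.uncurry (fun z g => f' (z + l * g)))
      ((volume.restrict (uIoc a b)).prod gg) := by
    have hm := hf'.1
    have hm' : AEStronglyMeasurable (Function.uncurry (fun z g => f' (z + l * g)))
      ((volume.restrict (uIoc a b)).prod gg) :=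
      (hm.comp (by fun_prop : Measurable (fun z : ℝ × ℝ => z.1 + l * z.2))).aestronglyMeasurable
    rw [integrable_prod_iff hm']
    constructor
    · filter_upwards with z
      exact hf'.integrable_shift l z
    · obtain ⟨C, K, hC, hK, hb⟩ := hf'.sm_bound l
      have hc : Continuous (fun z : ℝ => C * (1 + |z|) ^ K) := by
        apply Continuous.mul continuous_const
        exact Continuous.rpow_const (by fun_prop) (fun x => Or.inr hK)
      have hi : IntegrableOn (fun z : ℝ => C * (1 + |z|) ^ K) (uIoc a b) :=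
        (intervalIntegrable_iff.1 (hc.intervalIntegrable a b))
      refine hi.mono' hm'.norm.integral_prod_right' ?_
      filter_upwards with z
      rw [Real.norm_of_nonneg (integral_nonneg (fun s => norm_nonneg _))]
      exact hb z
  unfold sm
  rw [intervalIntegral_integral_swap hint, ← integral_sub (hf.integrable_shift l b)
    (hf.integrable_shift l a)]
  apply integral_congr_ae
  filter_upwards with g
  rw [h]
  exact (intervalIntegral.integral_comp_add_right f' (l * g)).symm

lemma sm_odd {f : ℝ → ℝ} (h : ∀ z, f (-z) = - f z) (l x : ℝ) : sm l f (-x) = - sm l f x := by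
  unfold sm
  rw [← integral_gg_neg, ← integral_neg]
  apply integral_congr_ae
  filter_upwards with g
  rw [← h]
  congr 1; ring

lemma sm_even {f : ℝ → ℝ} (h : ∀ z, f (-z) = f z) (l x : ℝ) : sm l f (-x) = sm l f x := by
  unfold sm
  rw [← integral_gg_neg]
  apply integral_congr_ae
  filter_upwards with g
  rw [← h]
  congr 1; ring

lemma integrableOn_mul_exp (s : ℝ) : IntegrableOn (fun x : ℝ => x * exp (-x ^ 2 / 2)) (Ioi s) := by
  have := (integrable_mul_exp_neg_mul_sq (b := 1/2) (by norm_num)).integrableOn (s := Ioi s)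
  refine this.congr_fun ?_ measurableSet_Ioi
  intro x _
  simp only
  congr 2; ring

lemma integral_Ioi_mul_exp (s : ℝ) : ∫ x in Ioi s, x * exp (-x ^ 2 / 2) = exp (-s ^ 2 / 2) := by
  have hder : ∀ x ∈ Ici s, HasDerivAt (fun x : ℝ => -exp (-x ^ 2 / 2)) (x * exp (-x ^ 2 / 2)) x := by
    intro x _
    have h1 : HasDerivAt (fun x : ℝ => -x ^ 2 / 2) (-x) x := by
      have := ((hasDerivAt_pow 2 x).neg).div_const 2
      refine this.congr_deriv ?_
      simp
      ring
    have h2 := h1.exp.neg
    refine h2.congr_deriv ?_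
    ring
  have htend : Tendsto (fun x : ℝ => -exp (-x ^ 2 / 2)) atTop (𝓝 0) := by
    rw [← neg_zero]
    apply Tendsto.neg
    apply Real.tendsto_exp_atBot.comp
    have : (fun x : ℝ => -x ^ 2 / 2) = fun x => -(x ^ 2 / 2) := by ext x; ring
    rw [this]
    apply tendsto_neg_atTop_atBot.comp
    apply Tendsto.atTop_div_const (by norm_num)
    exact tendsto_pow_atTop (by norm_num)
  have := integral_Ioi_of_hasDerivAt_of_tendsto' hder (integrableOn_mul_exp s) htend
  rw [this]; ring

/-- `∫_{x>s} x dγ = φ(s)`. -/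
lemma integral_Ioi_id_gg (s : ℝ) : ∫ x in Ioi s, x ∂gg = (√(2 * π))⁻¹ * exp (-s ^ 2 / 2) := by
  rw [← integral_indicator measurableSet_Ioi, integral_gg]
  have e : ∀ x : ℝ, (√(2 * π))⁻¹ * exp (-x ^ 2 / 2) * (Ioi s).indicator (fun x => x) x
      = (√(2 * π))⁻¹ * (Ioi s).indicator (fun x => x * exp (-x ^ 2 / 2)) x := by
    intro x
    by_cases h : x ∈ Ioi s
    · rw [indicator_of_mem h, indicator_of_mem h]; ring
    · rw [indicator_of_notMem h, indicator_of_notMem h]; ring
  simp_rw [e]
  rw [integral_const_mul, integral_indicator measurableSet_Ioi, integral_Ioi_mul_exp]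

/-- Gaussian integration by parts for absolutely continuous functions. -/
lemma stein {f f' : ℝ → ℝ} (hf' : PB f') (h : ∀ a b, f b - f a = ∫ z in a..b, f' z)
    (l x : ℝ) : ∫ g, g * f (x + l * g) ∂gg = l * sm l f' x := by
  obtain ⟨hm, C, K, hC, hK, hb⟩ := hf'
  have hω0 : ∫ g, g ∂gg = 0 := by
    have := integral_gg_neg (fun x => x)
    rw [integral_neg] at this
    linarith
  have hlay := layer gg (fun g => g) (fun g => f (x + l * g)) (fun g => l * f' (x + l * g))
    measurable_id hω0 (by
      exact (hm.comp (by fun_prop : Measurable (fun g : ℝ => x + l * g))).const_mul l)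
    (by
      intro g
      have h1 := h x (x + l * g)
      have h2 : ∫ s in (0:ℝ)..g, l * f' (x + l * s) = ∫ z in x..(x + l * g), f' z := by
        rw [intervalIntegral.integral_const_mul, intervalIntegral.mul_integral_comp_add_mul]
        simp
      rw [h2, ← h1]; simp)
    (C := |l| * (C * ((1 + |l|) ^ K * (1 + |x|) ^ K))) (K := K) (by positivity) hK
    (by
      intro s
      rw [abs_mul]
      calc |l| * |f' (x + l * s)| ≤ |l| * (C * (1 + |x + l * s|) ^ K) := by
            gcongr; exact hb _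
        _ ≤ |l| * (C * ((1 + |l|) ^ K * (1 + |x|) ^ K * (1 + |s|) ^ K)) := by
            gcongr; exact shift_rpow_le hK l x s
        _ = _ := by ring)
    (by
      refine (integrable_poly (M := K + 2) (by positivity)).mono' (by fun_prop) ?_
      filter_upwards with g
      rw [Real.norm_of_nonneg (by positivity)]
      have : (1 + |g|) ^ (K + 2) = (1 + |g|) * (1 + |g|) ^ (K + 1) := by
        nth_rewrite 2 [← rpow_one (1 + |g|)]
        rw [← rpow_add (by positivity)]; congr 1; ring
      rw [this]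
      gcongr
      linarith [abs_nonneg g])
  rw [hlay.2]
  simp_rw [integral_Ioi_id_gg]
  unfold sm
  rw [integral_gg, ← integral_const_mul]
  apply integral_congr_ae
  filter_upwards with s
  ring

end Pool.Agent.GPI
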