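import Mathlib
import Pool.Agent.GPI.Smooth
import Pool.Agent.GPI.LemmaW
import Pool.Agent.GPI.Kmono
import Pool.Agent.GPI.Polar

set_option autoImplicit false

open Real MeasureTheory ProbabilityTheory Set Filter
open scoped Topology

namespace Pool.Agent.GPI

lemma km_eq {c : ℝ} (hc : 0 ≤ c) : ∫ x, |x| ^ (2 * c) ∂gg = km c := by
  have := gauss1_moment (2 * c) (by positivity)
  rw [gg, this]
  unfold km
  congr 3 <;> ring_nf

lemma km_nonneg {c : ℝ} (hc : 0 ≤ c) : 0 ≤ km c := by
  rw [← km_eq hc]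
  exact integral_nonneg (fun x => by positivity)

lemma km_zero : km 0 = 1 := by
  rw [← km_eq le_rfl]; simp

lemma km_rec {c : ℝ} (hc : 1 ≤ c) : km c = (2 * c - 1) * km (c - 1) := by
  unfold km
  have h1 : c + 1 / 2 = (c - 1 + 1 / 2) + 1 := by ring
  have h2 : (2:ℝ) ^ c = 2 ^ (c - 1) * 2 := by
    nth_rewrite 3 [← rpow_one 2]
    rw [← rpow_add (by norm_num)]; congr 1; ring
  rw [h1, Real.Gamma_add_one (by linarith), h2]
  ring

lemma kA_nonneg {c x : ℝ} (hc : 0 < c) (hx : 0 ≤ x) : 0 ≤ kA c x := by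
  rcases le_total (x ^ (2 * c)) (km c) with h | h
  · rw [kA_eq hc hx, ← intervalIntegral.integral_neg]
    apply intervalIntegral.integral_nonneg hx
    intro s hs
    unfold kg
    have : s ^ (2 * c) ≤ x ^ (2 * c) := rpow_le_rpow hs.1 hs.2 (by positivity)
    have h2 : s ^ (2 * c) - km c ≤ 0 := by linarith
    have h3 := Real.exp_pos (-s ^ 2 / 2)
    nlinarith
  · unfold kA
    apply setIntegral_nonneg measurableSet_Ioi
    intro s hs
    unfold kg
    have hs' : x < s := hs
    have : x ^ (2 * c) ≤ s ^ (2 * c) := rpow_le_rpow hx hs'.le (by positivity)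
    exact mul_nonneg (by linarith) (Real.exp_pos _).le

/-- Half-line tails of an even mean-zero weight are odd. -/
lemma tail_odd {ω : ℝ → ℝ} (hω : Integrable ω gg) (hev : ∀ x, ω (-x) = ω x)
    (h0 : ∫ x, ω x ∂gg = 0) (s : ℝ) : ∫ x in Ioi (-s), ω x ∂gg = - ∫ x in Ioi s, ω x ∂gg := by
  have h1 : ∫ x in Iic (-s), ω x ∂gg + ∫ x in Ioi (-s), ω x ∂gg = ∫ x, ω x ∂gg :=
    intervalIntegral.integral_Iic_add_Ioi hω.integrableOn hω.integrableOn
  have h2 : ∫ x in Iic (-s), ω x ∂gg = ∫ x in Ioi s, ω x ∂gg := by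
    rw [← integral_indicator measurableSet_Iic, ← integral_indicator measurableSet_Ioi,
      ← integral_gg_neg]
    apply integral_congr_ae
    filter_upwards [ae_gg_ne s] with x hx
    by_cases h : s < x
    · rw [indicator_of_mem (show x ∈ Ioi s from h), indicator_of_mem (show -x ∈ Iic (-s) from
        (by simp only [mem_Iic]; linarith)), hev]
    · rw [indicator_of_notMem (show x ∉ Ioi s from h), indicator_of_notMem]
      simp only [mem_Iic, not_le]
      have : x < s := lt_of_le_of_ne (not_lt.1 h) hx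
      linarith
  rw [h0, h2] at h1
  linarith

lemma integral_even {f : ℝ → ℝ} (hf : ∀ x, f (-x) = f x) : ∫ x, f x = 2 * ∫ x in Ioi (0:ℝ), f x := by
  have h := integral_comp_abs (f := f)
  rw [← h]
  congr 1
  ext x
  rcases abs_choice x with h' | h' <;> rw [h']
  rw [hf]

lemma setIntegral_Ioi_gg (f : ℝ → ℝ) (s : ℝ) :
    ∫ x in Ioi s, f x ∂gg = (√(2 * π))⁻¹ * ∫ x in Ioi s, f x * exp (-x ^ 2 / 2) := by
  rw [← integral_indicator measurableSet_Ioi, integral_gg, ← integral_const_mul,
    ← integral_indicator measurableSet_Ioi]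
  apply integral_congr_ae
  filter_upwards with x
  by_cases h : x ∈ Ioi s
  · rw [indicator_of_mem h, indicator_of_mem h]; ring
  · rw [indicator_of_notMem h, indicator_of_notMem h]; ring

/-- Weighted integrability against a polynomially bounded function. -/
lemma PB.mul_sing {f : ℝ → ℝ} (hf : PB f) {r : ℝ} (hr : -1 < r) :
    Integrable (fun x => |x| ^ r * f x) gg := by
  obtain ⟨hm, C, K, hC, hK, hb⟩ := hf
  refine ((integrable_abs_rpow_poly hr hK).const_mul C).mono' ?_ ?_
  · exact (Measurable.mul (by fun_prop) hm).aestronglyMeasurable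
  · filter_upwards with x
    rw [norm_mul, Real.norm_of_nonneg (by positivity), Real.norm_eq_abs]
    calc |x| ^ r * |f x| ≤ |x| ^ r * (C * (1 + |x|) ^ K) := by gcongr; exact hb x
      _ = _ := by ring

lemma PB.mul_sp {f : ℝ → ℝ} (hf : PB f) {p : ℝ} (hp : 0 < p) :
    Integrable (fun x => sp p x * f x) gg := by
  have h := (hf.mul_sing (r := p - 1) (by linarith)).abs
  refine h.mono' ((measurable_sp p).mul hf.1).aestronglyMeasurable ?_
  filter_upwards with x
  rw [norm_mul, Real.norm_eq_abs, Real.norm_eq_abs, abs_mul, abs_of_nonneg (by positivity : 0 ≤ |x| ^ (p - 1))]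
  have := abs_sp_le p x
  gcongr

/-- The weight `|x|^{2c} - m` against polynomials. -/
lemma weight_int {c m : ℝ} (hc : 0 ≤ c) {K : ℝ} (hK : 0 ≤ K) :
    Integrable (fun x => |(|x| ^ (2 * c) - m)| * (1 + |x|) ^ K) gg := by
  have h1 := integrable_abs_rpow_poly (r := 2 * c) (by linarith) hK
  have h2 := (integrable_poly hK).const_mul |m|
  refine (h1.add h2).mono' (by fun_prop) ?_
  filter_upwards with x
  rw [Real.norm_of_nonneg (by positivity)]
  have h3 := abs_sub (|x| ^ (2 * c)) m
  rw [abs_of_nonneg (rpow_nonneg (abs_nonneg x) _)] at h3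
  simp only [Pi.add_apply]
  rw [← add_mul]
  gcongr

/-- Final step, centre exponent below `1`. -/
theorem final_small {c : ℝ} (hc : 0 < c) (hc1 : c < 1) {y Y : ℝ → ℝ} (hy : PB y) (hY : PB Y)
    (hftc : ∀ a b, y b - y a = ∫ z in a..b, Y z) (hodd : ∀ x, Y (-x) = - Y x) (hON : OnceNN Y)
    (hkey : ∫ x, sp (2 * c) x * Y x ∂gg = 0) :
    km c * ∫ x, y x ∂gg ≤ ∫ x, |x| ^ (2 * c) * y x ∂gg := by
  set ω : ℝ → ℝ := fun x => |x| ^ (2 * c) - km c with hω
  have hωm : Measurable ω := by simp only [hω]; fun_prop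
  have hi1 : Integrable (fun x : ℝ => |x| ^ (2 * c)) gg := by
    have := integrable_abs_rpow_poly (r := 2 * c) (M := 0) (by linarith) le_rfl
    simpa using this
  have hωint : Integrable ω gg := hi1.sub (integrable_const _)
  have hω0 : ∫ x, ω x ∂gg = 0 := by
    simp only [hω]
    rw [integral_sub hi1 (integrable_const _), km_eq hc.le]
    simp
  obtain ⟨hYm, C, K, hC, hK, hb⟩ := id hY
  have hlay := layer gg ω y Y hωm hω0 hYm (fun x => by have := hftc 0 x; linarith) hC hK hb
    (weight_int hc.le (by positivity))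
  have hyi : Integrable y gg := hy.integrable
  have hdiff : ∫ x, ω x * y x ∂gg = ∫ x, |x| ^ (2 * c) * y x ∂gg - km c * ∫ x, y x ∂gg := by
    have : ∀ x, ω x * y x = |x| ^ (2 * c) * y x - km c * y x := by intro x; simp only [hω]; ring
    simp_rw [this]
    rw [integral_sub (hy.mul_sing (by linarith)) (hyi.const_mul _), integral_const_mul]
  have hWodd := tail_odd hωint (fun x => by simp [hω]) hω0
  have heven : ∫ s, Y s * (∫ x in Ioi s, ω x ∂gg) = 2 * ∫ s in Ioi (0:ℝ), Y s * (∫ x in Ioi s, ω x ∂gg) := by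
    apply integral_even
    intro s
    rw [hWodd, hodd]; ring
  have hW : ∀ s ∈ Ioi (0:ℝ), Y s * (∫ x in Ioi s, ω x ∂gg) = (√(2 * π))⁻¹ * (kA c s * Y s) := by
    intro s hs
    have hs' : 0 < s := hs
    rw [setIntegral_Ioi_gg]
    have : ∫ x in Ioi s, ω x * exp (-x ^ 2 / 2) = kA c s := by
      unfold kA
      apply setIntegral_congr_fun measurableSet_Ioi
      intro x hx
      have hx' : s < x := hx
      simp only [hω, kg]
      rw [abs_of_pos (hs'.trans hx')]
    rw [this]; ring
  -- key on the half line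
  have hkeyint : Integrable (fun x : ℝ => exp (-x ^ 2 / 2) * (sp (2 * c) x * Y x)) :=
    (integrable_gg_iff _).1 (hY.mul_sp (by linarith))
  have hkey2 : ∫ x in Ioi (0:ℝ), Y x * (x ^ (2 * c - 1) * exp (-x ^ 2 / 2)) = 0 := by
    rw [integral_gg] at hkey
    have h1 : ∀ x : ℝ, (√(2 * π))⁻¹ * exp (-x ^ 2 / 2) * (sp (2 * c) x * Y x)
        = (√(2 * π))⁻¹ * (exp (-x ^ 2 / 2) * (sp (2 * c) x * Y x)) := by intro x; ring
    simp_rw [h1] at hkey
    rw [integral_const_mul, integral_even (by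
      intro x
      rw [sp_neg, hodd, neg_sq]; ring)] at hkey
    have h2 : (√(2 * π))⁻¹ ≠ 0 := by positivity
    have h3 := (mul_eq_zero.1 hkey).resolve_left h2
    have h4 : ∫ x in Ioi (0:ℝ), exp (-x ^ 2 / 2) * (sp (2 * c) x * Y x) = 0 := by linarith
    refine Eq.trans ?_ h4
    apply setIntegral_congr_fun measurableSet_Ioi
    intro x hx
    have hx' : 0 < x := hx
    simp only
    rw [sp_of_pos _ hx']; ring
  have hfw : IntegrableOn (fun x => Y x * (x ^ (2 * c - 1) * exp (-x ^ 2 / 2))) (Ioi 0) := by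
    refine hkeyint.integrableOn.congr_fun ?_ measurableSet_Ioi
    intro x hx
    have hx' : 0 < x := hx
    simp only
    rw [sp_of_pos _ hx']; ring
  have hAY : IntegrableOn (fun s => kA c s * Y s) (Ioi 0) := by
    have h1 := hlay.1.integrableOn (s := Ioi 0)
    have h2 : IntegrableOn (fun s => (√(2 * π))⁻¹ * (kA c s * Y s)) (Ioi 0) :=
      (integrableOn_congr_fun hW measurableSet_Ioi).1 h1
    have h3 := h2.const_mul (√(2 * π))
    refine h3.congr ?_
    filter_upwards with s
    have : √(2 * π) ≠ 0 := by positivity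
    field_simp
  set ρ : ℝ → ℝ := fun s => kA c s / (s ^ (2 * c - 1) * exp (-s ^ 2 / 2)) with hρ
  have hρf : ∀ s ∈ Ioi (0:ℝ), ρ s * (Y s * (s ^ (2 * c - 1) * exp (-s ^ 2 / 2))) = kA c s * Y s := by
    intro s hs
    have hs' : 0 < s := hs
    simp only [hρ]
    have h1 : s ^ (2 * c - 1) ≠ 0 := (rpow_pos_of_pos hs' _).ne'
    have h2 : exp (-s ^ 2 / 2) ≠ 0 := (Real.exp_pos _).ne'
    field_simp
  have hfin := weight_mono (f := Y) (w := fun s => s ^ (2 * c - 1) * exp (-s ^ 2 / 2)) (ρ := ρ) hON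
    (fun t ht => by positivity)
    (by
      intro s t hs hst
      have ht := hs.trans hst
      simp only [hρ]
      rw [div_le_div_iff₀ (by positivity) (by positivity)]
      exact Kmono hc hc1 hs hst)
    (fun t ht => by
      simp only [hρ]
      have := kA_nonneg hc ht.le
      positivity)
    hfw ((integrableOn_congr_fun hρf measurableSet_Ioi).2 hAY) (le_of_eq hkey2.symm)
  rw [setIntegral_congr_fun measurableSet_Ioi hρf] at hfin
  have : 0 ≤ ∫ x, ω x * y x ∂gg := by
    rw [hlay.2, heven, setIntegral_congr_fun measurableSet_Ioi hW, integral_const_mul]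
    positivity
  linarith

/-- Half-line integral for the recursion weight. -/
lemma tail_rec {c : ℝ} (hc : 1 ≤ c) {s : ℝ} (hs : 0 ≤ s) :
    ∫ x in Ioi s, (|x| ^ (2 * c) - (2 * c - 1) * |x| ^ (2 * (c - 1))) ∂gg
      = (√(2 * π))⁻¹ * (sp (2 * c) s * exp (-s ^ 2 / 2)) := by
  rw [setIntegral_Ioi_gg]
  congr 1
  have h0 : ∀ x ∈ Ioi s, (|x| ^ (2 * c) - (2 * c - 1) * |x| ^ (2 * (c - 1))) * exp (-x ^ 2 / 2)
      = (x ^ (2 * c) - (2 * c - 1) * x ^ (2 * (c - 1))) * exp (-x ^ 2 / 2) := by
    intro x hx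
    have hx' : s < x := hx
    rw [abs_of_pos (lt_of_le_of_lt hs hx')]
  rw [setIntegral_congr_fun measurableSet_Ioi h0]
  have hspc : sp (2 * c) s = s ^ (2 * c - 1) := by
    rcases eq_or_lt_of_le hs with h | h
    · rw [← h, sp_zero, zero_rpow (by linarith)]
    · exact sp_of_pos _ h
  have hcont : Continuous (fun x : ℝ => -(x ^ (2 * c - 1) * exp (-x ^ 2 / 2))) := by
    apply Continuous.neg
    apply Continuous.mul
    · exact continuous_id.rpow_const (fun x => Or.inr (by linarith))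
    · fun_prop
  have hder : ∀ x ∈ Ioi s, HasDerivAt (fun x : ℝ => -(x ^ (2 * c - 1) * exp (-x ^ 2 / 2)))
      ((x ^ (2 * c) - (2 * c - 1) * x ^ (2 * (c - 1))) * exp (-x ^ 2 / 2)) x := by
    intro x hx
    have hx' : 0 < x := lt_of_le_of_lt hs hx
    have h1 : HasDerivAt (fun x : ℝ => -x ^ 2 / 2) (-x) x := by
      have := ((hasDerivAt_pow 2 x).neg).div_const 2
      refine this.congr_deriv ?_
      simp
      ring
    have h2 := h1.exp
    have h3 := Real.hasDerivAt_rpow_const (x := x) (p := 2 * c - 1) (Or.inl hx'.ne')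
    have h4 := (h3.mul h2).neg
    refine h4.congr_deriv ?_
    have e1 : x ^ (2 * c) = x ^ (2 * c - 1) * x := by
      nth_rewrite 3 [← rpow_one x]
      rw [← rpow_add hx']; congr 1; ring
    have e2 : (2 * c - 1 - 1) = 2 * (c - 1) := by ring
    rw [e1, e2]; ring
  have hint : IntegrableOn (fun x : ℝ => (x ^ (2 * c) - (2 * c - 1) * x ^ (2 * (c - 1)))
      * exp (-x ^ 2 / 2)) (Ioi s) := by
    have h1 : IntegrableOn (fun x : ℝ => x ^ (2 * c) * exp (-(1/2) * x ^ 2)) (Ioi 0) :=
      integrableOn_rpow_mul_exp_neg_mul_sq (by norm_num) (by linarith)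
    have h2 : IntegrableOn (fun x : ℝ => x ^ (2 * (c - 1)) * exp (-(1/2) * x ^ 2)) (Ioi 0) :=
      integrableOn_rpow_mul_exp_neg_mul_sq (by norm_num) (by linarith)
    have h3 := (h1.sub (h2.const_mul (2 * c - 1))).mono_set (Ioi_subset_Ioi hs)
    refine h3.congr_fun ?_ measurableSet_Ioi
    intro x _
    simp only [Pi.sub_apply]
    have : -x ^ 2 / 2 = -(1/2) * x ^ 2 := by ring
    rw [this]; ring
  have htend : Tendsto (fun x : ℝ => -(x ^ (2 * c - 1) * exp (-x ^ 2 / 2))) atTop (𝓝 0) := by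
    rw [← neg_zero]
    apply Tendsto.neg
    have h1 := (rpow_mul_exp_neg_mul_sq_isLittleO_exp_neg (b := 1/2) (by norm_num) (2 * c - 1))
    have h2 : Tendsto (fun x : ℝ => exp (-(1 / 2) * x)) atTop (𝓝 0) := by
      apply Real.tendsto_exp_atBot.comp
      exact tendsto_id.const_mul_atTop_of_neg (by norm_num)
    have h3 := h1.trans_tendsto h2
    refine h3.congr ?_
    intro x
    congr 2; ring
  have := integral_Ioi_of_hasDerivAt_of_tendsto hcont.continuousWithinAt hder hint htend
  rw [this, hspc]; ring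

/-- Recursion step, centre exponent at least `1`. -/
theorem final_large {c : ℝ} (hc : 1 ≤ c) {y Y : ℝ → ℝ} (hy : PB y) (hY : PB Y)
    (hftc : ∀ a b, y b - y a = ∫ z in a..b, Y z)
    (hkey : ∫ x, sp (2 * c) x * Y x ∂gg = 0) :
    ∫ x, |x| ^ (2 * c) * y x ∂gg = (2 * c - 1) * ∫ x, |x| ^ (2 * (c - 1)) * y x ∂gg := by
  set ω : ℝ → ℝ := fun x => |x| ^ (2 * c) - (2 * c - 1) * |x| ^ (2 * (c - 1)) with hω
  have hωm : Measurable ω := by simp only [hω]; fun_prop
  have hi : ∀ r : ℝ, 0 ≤ r → Integrable (fun x : ℝ => |x| ^ r) gg := by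
    intro r hr
    have := integrable_abs_rpow_poly (r := r) (M := 0) (by linarith) le_rfl
    simpa using this
  have hωint : Integrable ω gg := (hi _ (by linarith)).sub ((hi _ (by linarith)).const_mul _)
  have hω0 : ∫ x, ω x ∂gg = 0 := by
    simp only [hω]
    rw [integral_sub (hi _ (by linarith)) ((hi _ (by linarith)).const_mul _), integral_const_mul,
      km_eq (by linarith), km_eq (by linarith), km_rec hc]
    ring
  obtain ⟨hYm, C, K, hC, hK, hb⟩ := id hY
  have hωi : Integrable (fun x => |ω x| * (1 + |x|) ^ (K + 1)) gg := by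
    have h1 := integrable_abs_rpow_poly (r := 2 * c) (M := K + 1) (by linarith) (by positivity)
    have h2 := (integrable_abs_rpow_poly (r := 2 * (c - 1)) (M := K + 1) (by linarith) (by positivity)).const_mul (2 * c - 1)
    refine (h1.add h2).mono' (by fun_prop) ?_
    filter_upwards with x
    rw [Real.norm_of_nonneg (by positivity)]
    simp only [Pi.add_apply, hω]
    have h3 := abs_sub (|x| ^ (2 * c)) ((2 * c - 1) * |x| ^ (2 * (c - 1)))
    rw [abs_of_nonneg (rpow_nonneg (abs_nonneg x) _), abs_of_nonneg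
      (mul_nonneg (by linarith) (rpow_nonneg (abs_nonneg x) _))] at h3
    have h4 : 0 ≤ (1 + |x|) ^ (K + 1) := by positivity
    nlinarith
  have hlay := layer gg ω y Y hωm hω0 hYm (fun x => by have := hftc 0 x; linarith) hC hK hb hωi
  have hdiff : ∫ x, ω x * y x ∂gg = ∫ x, |x| ^ (2 * c) * y x ∂gg
      - (2 * c - 1) * ∫ x, |x| ^ (2 * (c - 1)) * y x ∂gg := by
    have : ∀ x, ω x * y x = |x| ^ (2 * c) * y x - (2 * c - 1) * (|x| ^ (2 * (c - 1)) * y x) := by
      intro x; simp only [hω]; ring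
    simp_rw [this]
    rw [integral_sub (hy.mul_sing (by linarith)) ((hy.mul_sing (by linarith)).const_mul _),
      integral_const_mul]
  have hWodd := tail_odd hωint (fun x => by simp [hω]) hω0
  have hW : ∀ s, ∫ x in Ioi s, ω x ∂gg = (√(2 * π))⁻¹ * (sp (2 * c) s * exp (-s ^ 2 / 2)) := by
    intro s
    rcases le_total 0 s with h | h
    · exact tail_rec hc h
    · have h1 := hWodd (-s)
      rw [neg_neg] at h1
      rw [h1]
      have h2 : ∫ x in Ioi (-s), ω x ∂gg = _ := tail_rec hc (by linarith : 0 ≤ -s)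
      rw [h2, sp_neg, neg_sq]; ring
  have h0 : ∫ x, ω x * y x ∂gg = 0 := by
    rw [hlay.2]
    simp_rw [hW]
    rw [integral_gg] at hkey
    refine Eq.trans ?_ hkey
    apply integral_congr_ae
    filter_upwards with s
    ring
  linarith

end Pool.Agent.GPI
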