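import Mathlib
import Pool.Agent.GPI.Basic2

set_option autoImplicit false

open Real MeasureTheory ProbabilityTheory Set Filter
open scoped Topology

namespace Pool.Agent.GPI

/-- The two-factor function. -/
noncomputable def hh (p q w₁ v₁ w₂ v₂ z η : ℝ) : ℝ :=
  |w₁ * z + v₁ * η| ^ p * |w₂ * z + v₂ * η| ^ q

/-- Its derivative in `z`. -/
noncomputable def ps (p q w₁ v₁ w₂ v₂ z η : ℝ) : ℝ :=
  p * w₁ * (sp p (w₁ * z + v₁ * η) * |w₂ * z + v₂ * η| ^ q)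
   + q * w₂ * (sp q (w₂ * z + v₂ * η) * |w₁ * z + v₁ * η| ^ p)

variable {p q w₁ v₁ w₂ v₂ : ℝ}

lemma measurable_hh : Measurable (fun x : ℝ × ℝ => hh p q w₁ v₁ w₂ v₂ x.1 x.2) := by
  unfold hh; fun_prop

lemma measurable_ps : Measurable (fun x : ℝ × ℝ => ps p q w₁ v₁ w₂ v₂ x.1 x.2) := by
  unfold ps
  have h1 := measurable_sp p
  have h2 := measurable_sp q
  exact (((h1.comp (by fun_prop)).mul (by fun_prop)).const_mul _).add
    (((h2.comp (by fun_prop)).mul (by fun_prop)).const_mul _)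

lemma hh_swap (z η : ℝ) : hh p q w₁ v₁ w₂ v₂ z η = hh p q v₁ w₁ v₂ w₂ η z := by
  unfold hh
  rw [add_comm (w₁ * z), add_comm (w₂ * z)]

lemma hh_nonneg (z η : ℝ) : 0 ≤ hh p q w₁ v₁ w₂ v₂ z η := by
  unfold hh; positivity

lemma hh_neg (z η : ℝ) : hh p q w₁ v₁ w₂ v₂ (-z) (-η) = hh p q w₁ v₁ w₂ v₂ z η := by
  unfold hh
  have h1 : w₁ * -z + v₁ * -η = -(w₁ * z + v₁ * η) := by ring
  have h2 : w₂ * -z + v₂ * -η = -(w₂ * z + v₂ * η) := by ring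
  rw [h1, h2, abs_neg, abs_neg]

lemma ps_neg (z η : ℝ) : ps p q w₁ v₁ w₂ v₂ (-z) (-η) = - ps p q w₁ v₁ w₂ v₂ z η := by
  unfold ps
  have h1 : w₁ * -z + v₁ * -η = -(w₁ * z + v₁ * η) := by ring
  have h2 : w₂ * -z + v₂ * -η = -(w₂ * z + v₂ * η) := by ring
  rw [h1, h2, abs_neg, abs_neg, sp_neg, sp_neg]
  ring

lemma continuous_hh (hp : 0 < p) (hq : 0 < q) :
    Continuous (fun x : ℝ × ℝ => hh p q w₁ v₁ w₂ v₂ x.1 x.2) := by
  unfold hh
  apply Continuous.mul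
  · exact Continuous.rpow_const (by fun_prop) (fun x => Or.inr hp.le)
  · exact Continuous.rpow_const (by fun_prop) (fun x => Or.inr hq.le)

/-- Euler's identity. -/
lemma euler (hp : p ≠ 0) (hq : q ≠ 0) (t u : ℝ) :
    t * ps p q w₁ v₁ w₂ v₂ t u + u * ps p q v₁ w₁ v₂ w₂ u t = (p + q) * hh p q w₁ v₁ w₂ v₂ t u := by
  unfold ps hh
  have h1 := sp_mul_self hp (w₁ * t + v₁ * u)
  have h2 := sp_mul_self hq (w₂ * t + v₂ * u)
  rw [add_comm (v₁ * u), add_comm (v₂ * u)]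
  calc _ = p * (sp p (w₁ * t + v₁ * u) * (w₁ * t + v₁ * u)) * |w₂ * t + v₂ * u| ^ q
        + q * (sp q (w₂ * t + v₂ * u) * (w₂ * t + v₂ * u)) * |w₁ * t + v₁ * u| ^ p := by ring
    _ = _ := by rw [h1, h2]; ring

lemma ps_homog {r : ℝ} (hr : 0 < r) (z η : ℝ) :
    ps p q w₁ v₁ w₂ v₂ (r * z) (r * η) = r ^ (p + q - 1) * ps p q w₁ v₁ w₂ v₂ z η := by
  unfold ps
  have h1 : w₁ * (r * z) + v₁ * (r * η) = r * (w₁ * z + v₁ * η) := by ring
  have h2 : w₂ * (r * z) + v₂ * (r * η) = r * (w₂ * z + v₂ * η) := by ring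
  rw [h1, h2, sp_homog p hr, sp_homog q hr, abs_mul, abs_mul, abs_of_pos hr,
    mul_rpow hr.le (abs_nonneg _), mul_rpow hr.le (abs_nonneg _)]
  have h3 : r ^ (p + q - 1) = r ^ (p - 1) * r ^ q := by rw [← rpow_add hr]; congr 1; ring
  have h4 : r ^ (p + q - 1) = r ^ (q - 1) * r ^ p := by rw [← rpow_add hr]; congr 1; ring
  rw [mul_add]
  nth_rewrite 1 [h3]
  rw [h4]
  ring

lemma hh_homog {r : ℝ} (hr : 0 < r) (z η : ℝ) :
    hh p q w₁ v₁ w₂ v₂ (r * z) (r * η) = r ^ (p + q) * hh p q w₁ v₁ w₂ v₂ z η := by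
  unfold hh
  have h1 : w₁ * (r * z) + v₁ * (r * η) = r * (w₁ * z + v₁ * η) := by ring
  have h2 : w₂ * (r * z) + v₂ * (r * η) = r * (w₂ * z + v₂ * η) := by ring
  rw [h1, h2, abs_mul, abs_mul, abs_of_pos hr,
    mul_rpow hr.le (abs_nonneg _), mul_rpow hr.le (abs_nonneg _), rpow_add hr]
  ring

lemma hasDerivAt_hh {z η : ℝ} (h1 : w₁ * z + v₁ * η ≠ 0) (h2 : w₂ * z + v₂ * η ≠ 0) :
    HasDerivAt (fun z => hh p q w₁ v₁ w₂ v₂ z η) (ps p q w₁ v₁ w₂ v₂ z η) z := by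
  have e1 : HasDerivAt (fun z => w₁ * z + v₁ * η) w₁ z := by
    have := ((hasDerivAt_id z).const_mul w₁).add_const (v₁ * η)
    simpa using this
  have e2 : HasDerivAt (fun z => w₂ * z + v₂ * η) w₂ z := by
    have := ((hasDerivAt_id z).const_mul w₂).add_const (v₂ * η)
    simpa using this
  have d1 := (hasDerivAt_abs_rpow_ne p h1).comp z e1
  have d2 := (hasDerivAt_abs_rpow_ne q h2).comp z e2
  have d := d1.mul d2
  have e : p * sp p (w₁ * z + v₁ * η) * w₁ * ((fun x : ℝ => |x| ^ q) ∘ fun z => w₂ * z + v₂ * η) z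
      + ((fun x : ℝ => |x| ^ p) ∘ fun z => w₁ * z + v₁ * η) z * (q * sp q (w₂ * z + v₂ * η) * w₂)
      = ps p q w₁ v₁ w₂ v₂ z η := by
    simp only [Function.comp, ps]; ring
  rw [e] at d
  exact d

lemma ii_lin {r : ℝ} (hr : -1 < r) {w : ℝ} (hw : w ≠ 0) (c a b : ℝ) :
    IntervalIntegrable (fun z => |w * z + c| ^ r) volume a b := by
  have h1 := intervalIntegrable_abs_rpow hr (a + c / w) (b + c / w)
  have h2 := (IntervalIntegrable.comp_add_right_iff (f := fun u : ℝ => |u| ^ r) (a := a) (b := b)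
    (c := c / w) (by simp)).2 h1
  have h3 := h2.const_mul (|w| ^ r)
  refine h3.congr ?_
  intro z _
  simp only
  have : w * z + c = w * (z + c / w) := by field_simp
  rw [this, abs_mul, mul_rpow (abs_nonneg _) (abs_nonneg _)]

lemma ii_sp {p : ℝ} (hp : 0 < p) {w : ℝ} (hw : w ≠ 0) (c a b : ℝ) :
    IntervalIntegrable (fun z => sp p (w * z + c)) volume a b := by
  have h := ii_lin (r := p - 1) (by linarith) hw c a b
  refine h.mono_fun ?_ ?_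
  · exact ((measurable_sp p).comp (by fun_prop)).aestronglyMeasurable
  · filter_upwards with z
    rw [Real.norm_eq_abs, Real.norm_eq_abs, abs_of_nonneg (rpow_nonneg (abs_nonneg _) _)]
    exact abs_sp_le p _

lemma ii_ps (hp : 0 < p) (hq : 0 < q) (hw₁ : w₁ ≠ 0) (hw₂ : w₂ ≠ 0) (η a b : ℝ) :
    IntervalIntegrable (fun z => ps p q w₁ v₁ w₂ v₂ z η) volume a b := by
  unfold ps
  apply IntervalIntegrable.add
  · apply IntervalIntegrable.const_mul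
    apply (ii_sp hp hw₁ (v₁ * η) a b).mul_continuousOn
    exact (Continuous.rpow_const (by fun_prop) (fun x => Or.inr hq.le)).continuousOn
  · apply IntervalIntegrable.const_mul
    apply (ii_sp hq hw₂ (v₂ * η) a b).mul_continuousOn
    exact (Continuous.rpow_const (by fun_prop) (fun x => Or.inr hp.le)).continuousOn

lemma ftc_hh (hp : 0 < p) (hq : 0 < q) (hw₁ : w₁ ≠ 0) (hw₂ : w₂ ≠ 0) (η a b : ℝ) :
    ∫ z in a..b, ps p q w₁ v₁ w₂ v₂ z η
      = hh p q w₁ v₁ w₂ v₂ b η - hh p q w₁ v₁ w₂ v₂ a η := by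
  apply integral_eq_of_hasDerivAt_off_countable (fun z => hh p q w₁ v₁ w₂ v₂ z η)
    (fun z => ps p q w₁ v₁ w₂ v₂ z η) (s := {-(v₁ * η) / w₁, -(v₂ * η) / w₂})
    (Set.Finite.countable (by simp))
  · exact ((continuous_hh hp hq).comp (by fun_prop : Continuous (fun z : ℝ => (z, η)))).continuousOn
  · intro z hz
    apply hasDerivAt_hh
    · intro h
      apply hz.2
      left
      rw [eq_div_iff hw₁]; linarith
    · intro h
      apply hz.2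
      right
      rw [mem_singleton_iff, eq_div_iff hw₂]; linarith
  · exact ii_ps hp hq hw₁ hw₂ η a b

lemma abs_ps_le (hp : 0 < p) (hq : 0 < q) (z η : ℝ) :
    |ps p q w₁ v₁ w₂ v₂ z η| ≤
      (p * |w₁| * (|w₂| + |v₂|) ^ q * (1 + |z|) ^ q) * (|w₁ * z + v₁ * η| ^ (p - 1) * (1 + |η|) ^ q)
      + (q * |w₂| * (|w₁| + |v₁|) ^ p * (1 + |z|) ^ p)
        * (|w₂ * z + v₂ * η| ^ (q - 1) * (1 + |η|) ^ p) := by
  unfold ps
  refine (abs_add_le _ _).trans ?_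
  have key : ∀ (p q w₁ v₁ w₂ v₂ : ℝ), 0 < p → 0 < q →
      |p * w₁ * (sp p (w₁ * z + v₁ * η) * |w₂ * z + v₂ * η| ^ q)|
      ≤ (p * |w₁| * (|w₂| + |v₂|) ^ q * (1 + |z|) ^ q)
        * (|w₁ * z + v₁ * η| ^ (p - 1) * (1 + |η|) ^ q) := by
    intro p q w₁ v₁ w₂ v₂ hp hq
    rw [abs_mul, abs_mul, abs_mul, abs_of_pos hp, abs_of_nonneg (rpow_nonneg (abs_nonneg _) _)]
    have h1 := abs_sp_le p (w₁ * z + v₁ * η)
    have h2 := rpow_lin_le hq.le w₂ v₂ z η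
    calc _ ≤ p * |w₁| * (|w₁ * z + v₁ * η| ^ (p - 1)
          * ((|w₂| + |v₂|) ^ q * ((1 + |z|) ^ q * (1 + |η|) ^ q))) := by gcongr
      _ = _ := by ring
  exact add_le_add (key p q w₁ v₁ w₂ v₂ hp hq) (key q p w₂ v₂ w₁ v₁ hq hp)

lemma ps_bound (hp : 0 < p) (hq : 0 < q) (hv₁ : v₁ ≠ 0) (hv₂ : v₂ ≠ 0) :
    ∃ C K : ℝ, 0 ≤ C ∧ 0 ≤ K ∧ ∀ z : ℝ,
      Integrable (fun η => ps p q w₁ v₁ w₂ v₂ z η) gg ∧
      ∫ η, |ps p q w₁ v₁ w₂ v₂ z η| ∂gg ≤ C * (1 + |z|) ^ K := by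
  obtain ⟨C1, K1, hC1, hK1, h1⟩ := sing_bound2 (r := p - 1) (M := q) (by linarith) hq.le w₁ hv₁
  obtain ⟨C2, K2, hC2, hK2, h2⟩ := sing_bound2 (r := q - 1) (M := p) (by linarith) hp.le w₂ hv₂
  set A := p * |w₁| * (|w₂| + |v₂|) ^ q with hA
  set B := q * |w₂| * (|w₁| + |v₁|) ^ p with hB
  have hA0 : 0 ≤ A := by positivity
  have hB0 : 0 ≤ B := by positivity
  refine ⟨A * C1 + B * C2, (q + K1) + (p + K2), by positivity, by positivity, ?_⟩
  intro z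
  obtain ⟨i1, b1⟩ := h1 z
  obtain ⟨i2, b2⟩ := h2 z
  have hI : Integrable (fun η => (A * (1 + |z|) ^ q) * (|w₁ * z + v₁ * η| ^ (p - 1) * (1 + |η|) ^ q)
      + (B * (1 + |z|) ^ p) * (|w₂ * z + v₂ * η| ^ (q - 1) * (1 + |η|) ^ p)) gg :=
    (i1.const_mul _).add (i2.const_mul _)
  have hm : Measurable (fun η => ps p q w₁ v₁ w₂ v₂ z η) :=
    measurable_ps.comp (by fun_prop : Measurable (fun η : ℝ => (z, η)))
  have hI2 : Integrable (fun η => ps p q w₁ v₁ w₂ v₂ z η) gg := by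
    refine hI.mono' hm.aestronglyMeasurable ?_
    filter_upwards with η
    rw [Real.norm_eq_abs]
    exact abs_ps_le hp hq z η
  refine ⟨hI2, ?_⟩
  have hz : 1 ≤ 1 + |z| := by linarith [abs_nonneg z]
  calc _ ≤ ∫ η, ((A * (1 + |z|) ^ q) * (|w₁ * z + v₁ * η| ^ (p - 1) * (1 + |η|) ^ q)
      + (B * (1 + |z|) ^ p) * (|w₂ * z + v₂ * η| ^ (q - 1) * (1 + |η|) ^ p)) ∂gg :=
        integral_mono hI2.abs hI (fun η => abs_ps_le hp hq z η)
    _ = (A * (1 + |z|) ^ q) * (∫ η, |w₁ * z + v₁ * η| ^ (p - 1) * (1 + |η|) ^ q ∂gg)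
        + (B * (1 + |z|) ^ p) * ∫ η, |w₂ * z + v₂ * η| ^ (q - 1) * (1 + |η|) ^ p ∂gg := by
        rw [integral_add (i1.const_mul _) (i2.const_mul _), integral_const_mul, integral_const_mul]
    _ ≤ (A * (1 + |z|) ^ q) * (C1 * (1 + |z|) ^ K1) + (B * (1 + |z|) ^ p) * (C2 * (1 + |z|) ^ K2) := by
        gcongr
    _ = A * C1 * (1 + |z|) ^ (q + K1) + B * C2 * (1 + |z|) ^ (p + K2) := by
        rw [rpow_add (by positivity), rpow_add (by positivity)]; ring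
    _ ≤ A * C1 * (1 + |z|) ^ ((q + K1) + (p + K2)) + B * C2 * (1 + |z|) ^ ((q + K1) + (p + K2)) := by
        have e1 : (1 + |z|) ^ (q + K1) ≤ (1 + |z|) ^ ((q + K1) + (p + K2)) :=
          rpow_le_rpow_of_exponent_le hz (by linarith)
        have e2 : (1 + |z|) ^ (p + K2) ≤ (1 + |z|) ^ ((q + K1) + (p + K2)) :=
          rpow_le_rpow_of_exponent_le hz (by linarith)
        gcongr
    _ = _ := by ring

/-- `y₀(z) = E_η h(z,η)`. -/
noncomputable def y0 (p q w₁ v₁ w₂ v₂ z : ℝ) : ℝ := ∫ η, hh p q w₁ v₁ w₂ v₂ z η ∂gg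

/-- `D₁ = y₀'`. -/
noncomputable def D1 (p q w₁ v₁ w₂ v₂ z : ℝ) : ℝ := ∫ η, ps p q w₁ v₁ w₂ v₂ z η ∂gg

lemma measurable_D1 : Measurable (D1 p q w₁ v₁ w₂ v₂) := by
  unfold D1
  have h : StronglyMeasurable (Function.uncurry (fun z η => ps p q w₁ v₁ w₂ v₂ z η)) :=
    (measurable_ps (p := p) (q := q) (w₁ := w₁) (v₁ := v₁) (w₂ := w₂) (v₂ := v₂)).stronglyMeasurable
  exact h.integral_prod_right.measurable

lemma measurable_y0 : Measurable (y0 p q w₁ v₁ w₂ v₂) := by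
  unfold y0
  have h : StronglyMeasurable (Function.uncurry (fun z η => hh p q w₁ v₁ w₂ v₂ z η)) :=
    (measurable_hh (p := p) (q := q) (w₁ := w₁) (v₁ := v₁) (w₂ := w₂) (v₂ := v₂)).stronglyMeasurable
  exact h.integral_prod_right.measurable

lemma D1_bound (hp : 0 < p) (hq : 0 < q) (hv₁ : v₁ ≠ 0) (hv₂ : v₂ ≠ 0) :
    ∃ C K : ℝ, 0 ≤ C ∧ 0 ≤ K ∧ ∀ z : ℝ, |D1 p q w₁ v₁ w₂ v₂ z| ≤ C * (1 + |z|) ^ K := by
  obtain ⟨C, K, hC, hK, h⟩ := ps_bound (w₁ := w₁) (w₂ := w₂) hp hq hv₁ hv₂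
  refine ⟨C, K, hC, hK, ?_⟩
  intro z
  exact (abs_integral_le_integral_abs).trans (h z).2

lemma D1_neg (z : ℝ) : D1 p q w₁ v₁ w₂ v₂ (-z) = - D1 p q w₁ v₁ w₂ v₂ z := by
  unfold D1
  rw [← integral_gg_neg, ← integral_neg]
  simp_rw [ps_neg]

lemma y0_neg (z : ℝ) : y0 p q w₁ v₁ w₂ v₂ (-z) = y0 p q w₁ v₁ w₂ v₂ z := by
  unfold y0
  rw [← integral_gg_neg]
  simp_rw [hh_neg]

lemma abs_hh_le (hp : 0 < p) (hq : 0 < q) (z η : ℝ) :
    |hh p q w₁ v₁ w₂ v₂ z η| ≤ ((|w₁| + |v₁|) ^ p * (|w₂| + |v₂|) ^ q) *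
      ((1 + |z|) ^ (p + q) * (1 + |η|) ^ (p + q)) := by
  rw [abs_of_nonneg (hh_nonneg z η)]
  unfold hh
  have h1 := rpow_lin_le hp.le w₁ v₁ z η
  have h2 := rpow_lin_le hq.le w₂ v₂ z η
  calc _ ≤ ((|w₁| + |v₁|) ^ p * ((1 + |z|) ^ p * (1 + |η|) ^ p))
        * ((|w₂| + |v₂|) ^ q * ((1 + |z|) ^ q * (1 + |η|) ^ q)) := by gcongr
    _ = _ := by
        rw [rpow_add (by positivity), rpow_add (by positivity)]; ring

lemma integrable_hh (hp : 0 < p) (hq : 0 < q) (z : ℝ) :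
    Integrable (fun η => hh p q w₁ v₁ w₂ v₂ z η) gg := by
  have hm : Measurable (fun η => hh p q w₁ v₁ w₂ v₂ z η) :=
    measurable_hh.comp (by fun_prop : Measurable (fun η : ℝ => (z, η)))
  refine ((integrable_poly (M := p + q) (by positivity)).const_mul
    (((|w₁| + |v₁|) ^ p * (|w₂| + |v₂|) ^ q) * (1 + |z|) ^ (p + q))).mono' hm.aestronglyMeasurable ?_
  filter_upwards with η
  rw [Real.norm_eq_abs]
  refine (abs_hh_le hp hq z η).trans (le_of_eq ?_)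
  ring

lemma y0_bound (hp : 0 < p) (hq : 0 < q) :
    ∃ C K : ℝ, 0 ≤ C ∧ 0 ≤ K ∧ ∀ z : ℝ, |y0 p q w₁ v₁ w₂ v₂ z| ≤ C * (1 + |z|) ^ K := by
  refine ⟨((|w₁| + |v₁|) ^ p * (|w₂| + |v₂|) ^ q) * ∫ η, (1 + |η|) ^ (p + q) ∂gg, p + q, ?_,
    by positivity, ?_⟩
  · have : 0 ≤ ∫ η, (1 + |η|) ^ (p + q) ∂gg := integral_nonneg (fun η => by positivity)
    positivity
  intro z
  unfold y0
  refine (abs_integral_le_integral_abs).trans ?_
  calc _ ≤ ∫ η, ((|w₁| + |v₁|) ^ p * (|w₂| + |v₂|) ^ q) * (1 + |z|) ^ (p + q) * (1 + |η|) ^ (p + q) ∂gg := by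
        apply integral_mono (integrable_hh hp hq z).abs
          ((integrable_poly (M := p + q) (by positivity)).const_mul _)
        intro η
        refine (abs_hh_le hp hq z η).trans (le_of_eq ?_)
        ring
    _ = _ := by rw [integral_const_mul]; ring

lemma y0_ftc (hp : 0 < p) (hq : 0 < q) (hw₁ : w₁ ≠ 0) (hw₂ : w₂ ≠ 0) (hv₁ : v₁ ≠ 0) (hv₂ : v₂ ≠ 0)
    (a b : ℝ) :
    y0 p q w₁ v₁ w₂ v₂ b - y0 p q w₁ v₁ w₂ v₂ a = ∫ z in a..b, D1 p q w₁ v₁ w₂ v₂ z := by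
  obtain ⟨C, K, hC, hK, h⟩ := ps_bound (w₁ := w₁) (w₂ := w₂) hp hq hv₁ hv₂
  have hint : Integrable (Function.uncurry (fun z η => ps p q w₁ v₁ w₂ v₂ z η))
      ((volume.restrict (uIoc a b)).prod gg) := by
    have hmeas := (measurable_ps (p := p) (q := q) (w₁ := w₁) (v₁ := v₁) (w₂ := w₂) (v₂ := v₂))
    have hm' : AEStronglyMeasurable (Function.uncurry (fun z η => ps p q w₁ v₁ w₂ v₂ z η))
      ((volume.restrict (uIoc a b)).prod gg) := hmeas.aestronglyMeasurable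
    rw [integrable_prod_iff hm']
    constructor
    · filter_upwards with z
      exact (h z).1
    · have hc : Continuous (fun z : ℝ => C * (1 + |z|) ^ K) := by
        apply Continuous.mul continuous_const
        exact Continuous.rpow_const (by fun_prop) (fun x => Or.inr hK)
      have hi : IntegrableOn (fun z : ℝ => C * (1 + |z|) ^ K) (uIoc a b) :=
        (intervalIntegrable_iff.1 (hc.intervalIntegrable a b))
      refine hi.mono' hm'.norm.integral_prod_right' ?_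
      filter_upwards with z
      rw [Real.norm_of_nonneg (integral_nonneg (fun s => norm_nonneg _))]
      exact (h z).2
  unfold D1
  rw [intervalIntegral_integral_swap hint]
  simp_rw [ftc_hh hp hq hw₁ hw₂]
  rw [integral_sub (integrable_hh hp hq b) (integrable_hh hp hq a)]
  rfl

end Pool.Agent.GPI
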