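import Mathlib
import Pool.Agent.GPI.Smooth
import Pool.Agent.GPI.LemmaW

set_option autoImplicit false

open Real MeasureTheory ProbabilityTheory Set Filter
open scoped Topology

namespace Pool.Agent.GPI

lemma cosh_sinh_aux {a b : ℝ} (hb : 0 < b) (hab : b ≤ a) {s : ℝ} (hs : 0 ≤ s) :
    0 ≤ a * cosh (a * s) * sinh (b * s) - b * sinh (a * s) * cosh (b * s) := by
  have ha : 0 < a := hb.trans_le hab
  have hd : ∀ x : ℝ, HasDerivAt (fun r : ℝ => a * cosh (a * r) * sinh (b * r)
      - b * sinh (a * r) * cosh (b * r)) ((a ^ 2 - b ^ 2) * (sinh (a * x) * sinh (b * x))) x := by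
    intro x
    have e1 : HasDerivAt (fun r : ℝ => a * r) a x := by
      simpa using (hasDerivAt_id x).const_mul a
    have e2 : HasDerivAt (fun r : ℝ => b * r) b x := by
      simpa using (hasDerivAt_id x).const_mul b
    have h := ((e1.cosh.const_mul a).mul e2.sinh).sub ((e1.sinh.const_mul b).mul e2.cosh)
    refine h.congr_deriv ?_
    ring
  have hmono : MonotoneOn (fun r : ℝ => a * cosh (a * r) * sinh (b * r)
      - b * sinh (a * r) * cosh (b * r)) (Ici 0) := by
    apply monotoneOn_of_deriv_nonneg (convex_Ici 0)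
    · exact fun x _ => (hd x).continuousAt.continuousWithinAt
    · exact fun x _ => (hd x).differentiableAt.differentiableWithinAt
    · intro x hx
      rw [interior_Ici] at hx
      rw [(hd x).deriv]
      have hx' : 0 < x := hx
      have h1 : 0 ≤ sinh (a * x) := sinh_nonneg_iff.2 (by positivity)
      have h2 : 0 ≤ sinh (b * x) := sinh_nonneg_iff.2 (by positivity)
      have h3 : 0 ≤ a ^ 2 - b ^ 2 := by nlinarith
      positivity
  have := hmono (mem_Ici.2 le_rfl) (mem_Ici.2 hs) hs
  simpa using this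

lemma sinh_ratio_mono {a b : ℝ} (hb : 0 < b) (hab : b ≤ a) {s t : ℝ} (hs : 0 < s) (hst : s ≤ t) :
    sinh (a * s) / sinh (b * s) ≤ sinh (a * t) / sinh (b * t) := by
  have ha : 0 < a := hb.trans_le hab
  have hpos : ∀ x : ℝ, 0 < x → 0 < sinh (b * x) := fun x hx => sinh_pos_iff.2 (by positivity)
  have hd : ∀ x : ℝ, 0 < x → HasDerivAt (fun r : ℝ => sinh (a * r) / sinh (b * r))
      ((a * cosh (a * x) * sinh (b * x) - b * sinh (a * x) * cosh (b * x)) / sinh (b * x) ^ 2) x := by
    intro x hx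
    have e1 : HasDerivAt (fun r : ℝ => a * r) a x := by
      simpa using (hasDerivAt_id x).const_mul a
    have e2 : HasDerivAt (fun r : ℝ => b * r) b x := by
      simpa using (hasDerivAt_id x).const_mul b
    have h := e1.sinh.div e2.sinh (hpos x hx).ne'
    refine h.congr_deriv ?_
    congr 1
    ring
  have hmono : MonotoneOn (fun r : ℝ => sinh (a * r) / sinh (b * r)) (Ioi 0) := by
    apply monotoneOn_of_deriv_nonneg (convex_Ioi 0)
    · exact fun x hx => (hd x hx).continuousAt.continuousWithinAt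
    · rw [interior_Ioi]
      exact fun x hx => (hd x hx).differentiableAt.differentiableWithinAt
    · intro x hx
      rw [interior_Ioi] at hx
      rw [(hd x hx).deriv]
      have := cosh_sinh_aux hb hab (le_of_lt hx)
      positivity
  exact hmono hs (hs.trans_le hst) hst

/-- The smoothing kernel on the half line. -/
noncomputable def smK (l x s : ℝ) : ℝ :=
  exp (-((s - x) / l) ^ 2 / 2) - exp (-((s + x) / l) ^ 2 / 2)

lemma smK_eq {l : ℝ} (hl : l ≠ 0) (x s : ℝ) :
    smK l x s = 2 * exp (-(s ^ 2 + x ^ 2) / (2 * l ^ 2)) * sinh (x / l ^ 2 * s) := by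
  unfold smK
  rw [sinh_eq]
  have e1 : -((s - x) / l) ^ 2 / 2 = -(s ^ 2 + x ^ 2) / (2 * l ^ 2) + x / l ^ 2 * s := by
    field_simp; ring
  have e2 : -((s + x) / l) ^ 2 / 2 = -(s ^ 2 + x ^ 2) / (2 * l ^ 2) + -(x / l ^ 2 * s) := by
    field_simp; ring
  rw [e1, e2, exp_add, exp_add]
  ring

lemma PB.integrable_F {f : ℝ → ℝ} (hf : PB f) {l : ℝ} (hl : 0 < l) (x : ℝ) :
    Integrable (fun s => exp (-((s - x) / l) ^ 2 / 2) * f s) := by
  have h1 := (integrable_gg_iff _).1 (hf.integrable_shift l x)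
  set F : ℝ → ℝ := fun s => exp (-((s - x) / l) ^ 2 / 2) * f s with hF
  have h2 : (fun g : ℝ => exp (-g ^ 2 / 2) * f (x + l * g)) = fun g => F (x + l * g) := by
    ext g
    simp only [hF]
    congr 3
    field_simp
    ring
  rw [h2] at h1
  have h3 := (integrable_comp_mul_left_iff (fun y => F (x + y)) hl.ne').1 h1
  have h4 := h3.comp_sub_right x
  refine h4.congr ?_
  filter_upwards with s
  congr 1
  ring

lemma sm_eq_F {f : ℝ → ℝ} {l : ℝ} (hl : 0 < l) (x : ℝ) :
    sm l f x = (√(2 * π))⁻¹ * l⁻¹ * ∫ s, exp (-((s - x) / l) ^ 2 / 2) * f s := by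
  unfold sm
  rw [integral_gg]
  set F : ℝ → ℝ := fun s => exp (-((s - x) / l) ^ 2 / 2) * f s with hF
  have h2 : (fun g : ℝ => (√(2 * π))⁻¹ * exp (-g ^ 2 / 2) * f (x + l * g))
      = fun g => (√(2 * π))⁻¹ * F (x + l * g) := by
    ext g
    simp only [hF]
    rw [mul_assoc]
    congr 4
    field_simp
    ring
  rw [h2, integral_const_mul]
  have h3 := Measure.integral_comp_mul_left (fun y => F (x + y)) l
  rw [h3, integral_add_left_eq_self F x, abs_of_pos (inv_pos.2 hl), smul_eq_mul]
  ring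

lemma sm_eq_half {f : ℝ → ℝ} (hf : PB f) (hodd : ∀ z, f (-z) = - f z) {l : ℝ} (hl : 0 < l)
    (x : ℝ) :
    IntegrableOn (fun s => f s * smK l x s) (Ioi 0) ∧
    sm l f x = (√(2 * π))⁻¹ * l⁻¹ * ∫ s in Ioi (0:ℝ), f s * smK l x s := by
  have hi := hf.integrable_F hl x
  set F : ℝ → ℝ := fun s => exp (-((s - x) / l) ^ 2 / 2) * f s with hF
  have hi' : Integrable (fun s => F (-s)) := hi.comp_neg
  have he : ∀ s, F s + F (-s) = f s * smK l x s := by
    intro s
    simp only [hF]
    rw [hodd]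
    unfold smK
    have : (-s - x) / l = - ((s + x) / l) := by ring
    rw [this]
    ring_nf
  constructor
  · have := (hi.add hi').integrableOn (s := Ioi 0)
    refine this.congr_fun ?_ measurableSet_Ioi
    intro s _
    exact he s
  · rw [sm_eq_F hl x]
    congr 1
    rw [← integral_add_compl (measurableSet_Ioi (a := (0:ℝ))) hi, compl_Ioi]
    have h1 : ∫ s in Iic (0:ℝ), F s = ∫ s in Ioi (0:ℝ), F (-s) := by
      rw [integral_comp_neg_Ioi]
      simp
    rw [h1, ← integral_add hi.integrableOn hi'.integrableOn]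
    exact setIntegral_congr_fun measurableSet_Ioi (fun s _ => he s)

/-- Gaussian smoothing of an odd function keeps the single sign change on the half line. -/
theorem sm_onceNN {f : ℝ → ℝ} (hf : PB f) (hodd : ∀ z, f (-z) = - f z) (hON : OnceNN f)
    {l : ℝ} (hl : 0 ≤ l) : OnceNN (sm l f) := by
  rcases hl.eq_or_lt with h0 | hl
  · subst h0
    have : sm 0 f = f := by
      ext x
      unfold sm
      simp [gg]
    rw [this]; exact hON
  intro x x' hx hxx' hnn
  obtain ⟨hi1, e1⟩ := sm_eq_half hf hodd hl x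
  obtain ⟨hi2, e2⟩ := sm_eq_half hf hodd hl x'
  have hc : 0 < (√(2 * π))⁻¹ * l⁻¹ := by positivity
  have hx' : 0 < x' := hx.trans hxx'
  have hl2 : 0 < l ^ 2 := by positivity
  rw [e1] at hnn
  rw [e2]
  have hnn' : 0 ≤ ∫ s in Ioi (0:ℝ), f s * smK l x s := nonneg_of_mul_nonneg_right hnn hc
  apply mul_nonneg hc.le
  -- the ratio
  set a := x' / l ^ 2 with ha
  set b := x / l ^ 2 with hb
  have hbpos : 0 < b := by positivity
  have hab : b ≤ a := by
    rw [ha, hb]
    gcongr
  have hapos : 0 < a := hbpos.trans_le hab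
  set c := exp (-(x' ^ 2 - x ^ 2) / (2 * l ^ 2)) with hcdef
  have hcpos : 0 < c := exp_pos _
  set ρ : ℝ → ℝ := fun s => c * (sinh (a * s) / sinh (b * s)) with hρ
  have hK : ∀ s ∈ Ioi (0:ℝ), ρ s * (f s * smK l x s) = f s * smK l x' s := by
    intro s hs
    have hs' : 0 < s := hs
    have hsb : sinh (b * s) ≠ 0 := (sinh_pos_iff.2 (by positivity)).ne'
    rw [smK_eq hl.ne', smK_eq hl.ne']
    simp only [hρ]
    rw [← hb, ← ha]
    have e : exp (-(s ^ 2 + x' ^ 2) / (2 * l ^ 2)) = c * exp (-(s ^ 2 + x ^ 2) / (2 * l ^ 2)) := by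
      rw [hcdef, ← exp_add]
      congr 1
      ring
    rw [e]
    field_simp
  have hw : ∀ t, 0 < t → 0 ≤ smK l x t := by
    intro t ht
    rw [smK_eq hl.ne']
    have : 0 ≤ sinh (x / l ^ 2 * t) := sinh_nonneg_iff.2 (by positivity)
    positivity
  have := weight_mono (w := smK l x) (ρ := ρ) hON hw
    (by
      intro s t hs hst
      exact mul_le_mul_of_nonneg_left (sinh_ratio_mono hbpos hab hs hst.le) hcpos.le)
    (by
      intro t ht
      have h1 : 0 ≤ sinh (a * t) := sinh_nonneg_iff.2 (by positivity)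
      have h2 : 0 ≤ sinh (b * t) := sinh_nonneg_iff.2 (by positivity)
      simp only [hρ]
      positivity)
    hi1 (hi2.congr_fun (fun s hs => (hK s hs).symm) measurableSet_Ioi) hnn'
  rwa [setIntegral_congr_fun measurableSet_Ioi hK] at this

end Pool.Agent.GPI
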