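import Mathlib
import Pool.Agent.GPI.SmSC

set_option autoImplicit false

open Real MeasureTheory ProbabilityTheory Set Filter
open scoped Topology

namespace Pool.Agent.GPI

lemma smK_nonneg {l x t : ℝ} (hl : l ≠ 0) (hx : 0 ≤ x) (ht : 0 ≤ t) : 0 ≤ smK l x t := by
  rw [smK_eq hl]
  have hl2 : 0 < l ^ 2 := by positivity
  have : 0 ≤ sinh (x / l ^ 2 * t) := sinh_nonneg_iff.2 (by positivity)
  positivity

/-- Smoothing an odd function which is nonnegative on the half line gives a function nonnegative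
on the half line. -/
lemma sm_nonneg_of_odd {f : ℝ → ℝ} (hf : PB f) (hodd : ∀ z, f (-z) = - f z)
    (hnn : ∀ z, 0 ≤ z → 0 ≤ f z) (l : ℝ) {x : ℝ} (hx : 0 ≤ x) : 0 ≤ sm l f x := by
  have key : ∀ l : ℝ, 0 ≤ l → 0 ≤ sm l f x := by
    intro l hl
    rcases hl.eq_or_lt with h0 | hl
    · subst h0
      have : sm 0 f = f := by
        ext x
        unfold sm
        simp [gg]
      rw [this]; exact hnn x hx
    · rw [(sm_eq_half hf hodd hl x).2]
      apply mul_nonneg (by positivity)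
      apply setIntegral_nonneg measurableSet_Ioi
      intro s hs
      exact mul_nonneg (hnn s (le_of_lt hs)) (smK_nonneg hl.ne' hx (le_of_lt hs))
  rcases le_total 0 l with h | h
  · exact key l h
  · have e : sm l f x = sm (-l) f x := by
      unfold sm
      rw [← integral_gg_neg]
      simp
    rw [e]
    exact key (-l) (by linarith)

lemma PB_shift_rpow {q : ℝ} (hq : 0 ≤ q) (d : ℝ) : PB (fun y => |y + d| ^ q) := by
  refine ⟨by fun_prop, (1 + |d|) ^ q, q, by positivity, hq, ?_⟩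
  intro z
  rw [abs_of_nonneg (rpow_nonneg (abs_nonneg _) _), ← mul_rpow (by positivity) (by positivity)]
  apply rpow_le_rpow (abs_nonneg _) _ hq
  have h := abs_add_le z d
  have h1 := abs_nonneg z
  have h2 := abs_nonneg d
  nlinarith [mul_nonneg h1 h2]

lemma PB.sub {f g : ℝ → ℝ} (hf : PB f) (hg : PB g) : PB (fun y => f y - g y) := by
  obtain ⟨hm, C, K, hC, hK, hb⟩ := hf
  obtain ⟨hm', C', K', hC', hK', hb'⟩ := hg
  refine ⟨hm.sub hm', C + C', max K K', by positivity, le_max_of_le_left hK, ?_⟩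
  intro z
  have h1 : (1:ℝ) ≤ 1 + |z| := by linarith [abs_nonneg z]
  calc |f z - g z| ≤ |f z| + |g z| := abs_sub _ _
    _ ≤ C * (1 + |z|) ^ K + C' * (1 + |z|) ^ K' := add_le_add (hb z) (hb' z)
    _ ≤ C * (1 + |z|) ^ (max K K') + C' * (1 + |z|) ^ (max K K') := by
        have h2 := rpow_le_rpow_of_exponent_le h1 (le_max_left K K')
        have h3 := rpow_le_rpow_of_exponent_le h1 (le_max_right K K')
        have h4 := mul_le_mul_of_nonneg_left h2 hC
        have h5 := mul_le_mul_of_nonneg_left h3 hC'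
        exact add_le_add h4 h5
    _ = _ := by ring

lemma kq_even {q : ℝ} (σ m : ℝ) :
    ∫ g, |(-m) + σ * g| ^ q ∂gg = ∫ g, |m + σ * g| ^ q ∂gg := by
  rw [← integral_gg_neg]
  apply integral_congr_ae
  filter_upwards with g
  have : -m + σ * -g = -(m + σ * g) := by ring
  rw [this, abs_neg]

lemma kq_abs {q : ℝ} (σ m : ℝ) :
    ∫ g, |m + σ * g| ^ q ∂gg = ∫ g, |(|m|) + σ * g| ^ q ∂gg := by
  rcases abs_choice m with h | h
  · rw [h]
  · rw [h, kq_even]

/-- `m ↦ E|m + σ g|^q` is nondecreasing in `|m|`. -/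
theorem kmon {q : ℝ} (hq : 0 ≤ q) (σ : ℝ) {m m' : ℝ} (h : |m| ≤ |m'|) :
    ∫ g, |m + σ * g| ^ q ∂gg ≤ ∫ g, |m' + σ * g| ^ q ∂gg := by
  rw [kq_abs σ m, kq_abs σ m']
  set a := |m| with ha
  set b := |m'| with hb
  have ha0 : 0 ≤ a := abs_nonneg _
  set d := (b - a) / 2 with hd
  have hd0 : 0 ≤ d := by rw [hd]; linarith
  have hP1 := PB_shift_rpow hq d
  have hP2 := PB_shift_rpow hq (-d)
  have hP := hP1.sub hP2
  have hodd : ∀ z : ℝ, |-z + d| ^ q - |-z + -d| ^ q = -(|z + d| ^ q - |z + -d| ^ q) := by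
    intro z
    have e1 : -z + d = -(z + -d) := by ring
    have e2 : -z + -d = -(z + d) := by ring
    rw [e1, e2, abs_neg, abs_neg]
    ring
  have hnn : ∀ z : ℝ, 0 ≤ z → 0 ≤ |z + d| ^ q - |z + -d| ^ q := by
    intro z hz
    rw [sub_nonneg]
    apply rpow_le_rpow (abs_nonneg _) _ hq
    rw [abs_of_nonneg (by linarith : 0 ≤ z + d), abs_le]
    constructor <;> linarith
  have hkey := sm_nonneg_of_odd hP hodd hnn σ (x := (a + b) / 2) (by linarith)
  unfold sm at hkey
  rw [integral_sub (hP1.integrable_shift σ _) (hP2.integrable_shift σ _)] at hkey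
  have e1 : ∫ g, |(a + b) / 2 + σ * g + d| ^ q ∂gg = ∫ g, |b + σ * g| ^ q ∂gg := by
    apply integral_congr_ae
    filter_upwards with g
    congr 2
    rw [hd]; ring
  have e2 : ∫ g, |(a + b) / 2 + σ * g + -d| ^ q ∂gg = ∫ g, |a + σ * g| ^ q ∂gg := by
    apply integral_congr_ae
    filter_upwards with g
    congr 2
    rw [hd]; ring
  rw [e1, e2] at hkey
  linarith

/-- The law of `ρ x + σ g` for independent standard Gaussians with `ρ² + σ² = 1`. -/
lemma map_lin_gg (ρ σ : ℝ) (h : ρ ^ 2 + σ ^ 2 = 1) :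
    (gg.prod gg).map (fun z : ℝ × ℝ => ρ * z.1 + σ * z.2) = gg := by
  have h1 : gg.map (fun x => ρ * x) = gaussianReal 0 ⟨ρ ^ 2, sq_nonneg _⟩ := by
    have := gaussianReal_map_const_mul (μ := 0) (v := 1) ρ
    rw [mul_zero, mul_one] at this
    exact this
  have h2 : gg.map (fun x => σ * x) = gaussianReal 0 ⟨σ ^ 2, sq_nonneg _⟩ := by
    have := gaussianReal_map_const_mul (μ := 0) (v := 1) σ
    rw [mul_zero, mul_one] at this
    exact this
  have h3 : (gg.map (fun x => ρ * x)).conv (gg.map (fun x => σ * x)) = gg := by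
    rw [h1, h2, gaussianReal_conv_gaussianReal, gg]
    congr 1
    · simp
    · apply NNReal.coe_injective
      simp only [NNReal.coe_add, NNReal.coe_one]
      exact h
  have h4 : (gg.map (fun x => ρ * x)).conv (gg.map (fun x => σ * x))
      = (gg.prod gg).map (fun z : ℝ × ℝ => ρ * z.1 + σ * z.2) := by
    rw [Measure.conv, Measure.map_prod_map _ _ (by fun_prop) (by fun_prop),
      Measure.map_map (by fun_prop) (by fun_prop)]
    rfl
  rw [← h4, h3]

/-- Two-variable Gaussian product inequality, by Chebyshev's association inequality. -/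
theorem gpi2 {a b : ℝ} (ha : 0 ≤ a) (hb : 0 ≤ b) (ρ σ : ℝ) (h : ρ ^ 2 + σ ^ 2 = 1) :
    (∫ x, |x| ^ (2 * a) ∂gg) * (∫ x, |x| ^ (2 * b) ∂gg)
      ≤ ∫ x, |x| ^ (2 * a) * (∫ g, |ρ * x + σ * g| ^ (2 * b) ∂gg) ∂gg := by
  set F : ℝ → ℝ := fun x => |x| ^ (2 * a) with hF
  set K : ℝ → ℝ := fun x => ∫ g, |ρ * x + σ * g| ^ (2 * b) ∂gg with hK
  have hPF : PB F := by simpa using PB_shift_rpow (q := 2 * a) (by positivity) 0
  have hPb : PB (fun x => |x| ^ (2 * b)) := by
    simpa using PB_shift_rpow (q := 2 * b) (by positivity) 0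
  have hPS := hPb.sm σ
  have hKeq : K = fun x => sm σ (fun x => |x| ^ (2 * b)) (ρ * x) := by
    ext x; rfl
  have hPK : PB K := by
    obtain ⟨hm, C, k, hC, hk, hbd⟩ := hPS
    refine ⟨?_, C * (1 + |ρ|) ^ k, k, by positivity, hk, ?_⟩
    · rw [hKeq]; exact hm.comp (by fun_prop)
    · intro z
      rw [hKeq]
      calc _ ≤ C * (1 + |ρ * z|) ^ k := hbd _
        _ ≤ C * ((1 + |ρ|) * (1 + |z|)) ^ k := by
            gcongr
            rw [abs_mul]
            nlinarith [abs_nonneg ρ, abs_nonneg z]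
        _ = _ := by rw [mul_rpow (by positivity) (by positivity)]; ring
  have hFi := hPF.integrable
  have hKi := hPK.integrable
  have hFK : PB (fun x => F x * K x) := by
    obtain ⟨hm, C, k, hC, hk, hbd⟩ := hPF
    obtain ⟨hm', C', k', hC', hk', hbd'⟩ := hPK
    refine ⟨hm.mul hm', C * C', k + k', by positivity, by positivity, ?_⟩
    intro z
    rw [abs_mul, rpow_add (by positivity)]
    calc |F z| * |K z| ≤ (C * (1 + |z|) ^ k) * (C' * (1 + |z|) ^ k') := by
          gcongr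
          · exact hbd z
          · exact hbd' z
      _ = _ := by ring
  have hFKi := hFK.integrable
  -- the mean of `K`
  have hmean : ∫ x, K x ∂gg = ∫ x, |x| ^ (2 * b) ∂gg := by
    have hint : Integrable (fun z : ℝ × ℝ => |ρ * z.1 + σ * z.2| ^ (2 * b)) (gg.prod gg) := by
      have h0 : Integrable (fun x : ℝ => |x| ^ (2 * b)) gg := hPb.integrable
      have h1 : Integrable (fun x : ℝ => |x| ^ (2 * b))
          ((gg.prod gg).map (fun z : ℝ × ℝ => ρ * z.1 + σ * z.2)) := by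
        rw [map_lin_gg ρ σ h]; exact h0
      exact (integrable_map_measure h1.aestronglyMeasurable (by fun_prop)).1 h1
    calc ∫ x, K x ∂gg = ∫ z, |ρ * z.1 + σ * z.2| ^ (2 * b) ∂(gg.prod gg) :=
          (integral_prod _ hint).symm
      _ = ∫ x, |x| ^ (2 * b) ∂((gg.prod gg).map (fun z : ℝ × ℝ => ρ * z.1 + σ * z.2)) := by
          rw [integral_map (by fun_prop)]
          have : Measurable (fun x : ℝ => |x| ^ (2 * b)) := by fun_prop
          exact this.aestronglyMeasurable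
      _ = _ := by rw [map_lin_gg ρ σ h]
  rw [← hmean]
  -- Chebyshev
  have hprod : ∀ z : ℝ × ℝ, 0 ≤ (F z.1 - F z.2) * (K z.1 - K z.2) := by
    intro z
    rcases le_total |z.1| |z.2| with hle | hle
    · have h1 : F z.1 ≤ F z.2 := rpow_le_rpow (abs_nonneg _) hle (by positivity)
      have h2 : K z.1 ≤ K z.2 := kmon (by positivity) σ (by
        rw [abs_mul, abs_mul]; gcongr)
      nlinarith
    · have h1 : F z.2 ≤ F z.1 := rpow_le_rpow (abs_nonneg _) hle (by positivity)
      have h2 : K z.2 ≤ K z.1 := kmon (by positivity) σ (by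
        rw [abs_mul, abs_mul]; gcongr)
      nlinarith
  have i1 : Integrable (fun z : ℝ × ℝ => F z.1 * K z.1) (gg.prod gg) := hFKi.comp_fst gg
  have i2 : Integrable (fun z : ℝ × ℝ => F z.2 * K z.2) (gg.prod gg) := hFKi.comp_snd gg
  have i3 : Integrable (fun z : ℝ × ℝ => F z.1 * K z.2) (gg.prod gg) := hFi.mul_prod hKi
  have i4 : Integrable (fun z : ℝ × ℝ => K z.1 * F z.2) (gg.prod gg) := hKi.mul_prod hFi
  have hI : 0 ≤ ∫ z, (F z.1 - F z.2) * (K z.1 - K z.2) ∂(gg.prod gg) := integral_nonneg hprod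
  have hexp : ∫ z, (F z.1 - F z.2) * (K z.1 - K z.2) ∂(gg.prod gg)
      = (∫ z, F z.1 * K z.1 ∂(gg.prod gg)) + (∫ z, F z.2 * K z.2 ∂(gg.prod gg))
        - (∫ z, F z.1 * K z.2 ∂(gg.prod gg)) - (∫ z, K z.1 * F z.2 ∂(gg.prod gg)) := by
    have q1 := integral_add i1 i2
    have q2 := integral_sub (i1.add i2) i3
    have q3 := integral_sub ((i1.add i2).sub i3) i4
    simp only [Pi.add_apply, Pi.sub_apply] at q1 q2 q3
    rw [← q1, ← q2, ← q3]
    apply integral_congr_ae
    filter_upwards with z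
    ring
  rw [hexp, integral_prod_mul, integral_prod_mul] at hI
  have j1 : ∫ z, F z.1 * K z.1 ∂(gg.prod gg) = ∫ x, F x * K x ∂gg := by
    rw [integral_fun_fst (μ := gg) (ν := gg) (fun x => F x * K x)]
    simp
  have j2 : ∫ z, F z.2 * K z.2 ∂(gg.prod gg) = ∫ x, F x * K x ∂gg := by
    rw [integral_fun_snd (μ := gg) (ν := gg) (fun x => F x * K x)]
    simp
  rw [j1, j2] at hI
  nlinarith

end Pool.Agent.GPI
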