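import Mathlib
import Pool.Agent.GPI.Basic1

set_option autoImplicit false

open Real MeasureTheory ProbabilityTheory Set Filter
open scoped Topology

namespace Pool.Agent.GPI

/-- First-order condition at a minimum over rotations in the `(X, G)` plane. -/
lemma first_order {Ω : Type*} [MeasurableSpace Ω] (μ : Measure Ω) {p : ℝ} (hp : 0 < p)
    (X G k : Ω → ℝ) (hX : Measurable X) (hG : Measurable G) (hk : Measurable k)
    (hX0 : ∀ᵐ ω ∂μ, X ω ≠ 0)
    (hb : Integrable (fun ω => (|X ω| + |G ω|) *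
      (|X ω| ^ (p - 1) + (|X ω| + |G ω|) ^ (p - 1)) * |k ω|) μ)
    (hmin : ∀ s : ℝ, ∫ ω, |X ω| ^ p * k ω ∂μ ≤ ∫ ω, |cos s * X ω + sin s * G ω| ^ p * k ω ∂μ) :
    Integrable (fun ω => sp p (X ω) * G ω * k ω) μ ∧ ∫ ω, sp p (X ω) * G ω * k ω ∂μ = 0 := by
  set F : ℝ → Ω → ℝ := fun s ω => |cos s * X ω + sin s * G ω| ^ p * k ω with hF
  set F' : Ω → ℝ := fun ω => p * sp p (X ω) * G ω * k ω with hF'
  set bound : Ω → ℝ := fun ω => (1 + p) * ((|X ω| + |G ω|) *
      (|X ω| ^ (p - 1) + (|X ω| + |G ω|) ^ (p - 1)) * |k ω|) with hbound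
  have hmeasF : ∀ s, Measurable (F s) := by intro s; simp only [hF]; fun_prop
  have hsp : Measurable (sp p) := measurable_sp p
  have hmeasF' : Measurable F' := by
    simp only [hF']
    exact (((hsp.comp hX).const_mul p).mul hG).mul hk
  have hbi : Integrable bound μ := hb.const_mul _
  have hF0 : Integrable (F 0) μ := by
    refine hbi.mono' (hmeasF 0).aestronglyMeasurable ?_
    filter_upwards [hX0] with ω hω
    simp only [hF, cos_zero, one_mul, sin_zero, zero_mul, add_zero, hbound]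
    have hx : 0 < |X ω| := abs_pos.2 hω
    rw [Real.norm_eq_abs, abs_mul, abs_of_nonneg (rpow_nonneg (abs_nonneg _) _)]
    have h1 : |X ω| ^ p = |X ω| * |X ω| ^ (p - 1) := by
      nth_rewrite 2 [← rpow_one |X ω|]
      rw [← rpow_add hx]; congr 1; ring
    rw [h1]
    have h2 : 0 ≤ |X ω| ^ (p - 1) := by positivity
    have h3 : 0 ≤ (|X ω| + |G ω|) ^ (p - 1) := by positivity
    have h4 : |X ω| * |X ω| ^ (p - 1) ≤ (|X ω| + |G ω|) * (|X ω| ^ (p - 1) + (|X ω| + |G ω|) ^ (p - 1)) := by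
      apply mul_le_mul <;> linarith [abs_nonneg (G ω)]
    have h5 : 0 ≤ (|X ω| + |G ω|) * (|X ω| ^ (p - 1) + (|X ω| + |G ω|) ^ (p - 1)) * |k ω| := by positivity
    calc _ ≤ (|X ω| + |G ω|) * (|X ω| ^ (p - 1) + (|X ω| + |G ω|) ^ (p - 1)) * |k ω| :=
          mul_le_mul_of_nonneg_right h4 (abs_nonneg _)
      _ ≤ _ := by nlinarith
  have hlip : ∀ᵐ ω ∂μ, ∀ s ∈ (univ : Set ℝ), ‖F s ω - F 0 ω‖ ≤ bound ω * ‖s - 0‖ := by
    filter_upwards [hX0] with ω hω s _
    simp only [hF, cos_zero, one_mul, sin_zero, zero_mul, add_zero, sub_zero, hbound]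
    have hX1 : |X ω| ≤ |X ω| + |G ω| := by linarith [abs_nonneg (G ω)]
    have hcos : |cos s| ≤ 1 := abs_cos_le_one s
    have hsin : |sin s| ≤ 1 := abs_sin_le_one s
    have hY1 : |cos s * X ω + sin s * G ω| ≤ |X ω| + |G ω| := by
      refine (abs_add_le _ _).trans ?_
      rw [abs_mul, abs_mul]
      have := mul_le_mul_of_nonneg_right hcos (abs_nonneg (X ω))
      have := mul_le_mul_of_nonneg_right hsin (abs_nonneg (G ω))
      linarith
    have h := abs_rpow_sub_le hp hω hX1 hY1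
    have hcs : |cos s - 1| ≤ |s| := by
      have h1 := Real.one_sub_sq_div_two_le_cos (x := s)
      have h2 := Real.cos_le_one s
      rcases le_or_gt |s| 2 with h3 | h3
      · rw [abs_sub_comm, abs_of_nonneg (by linarith)]
        have : s ^ 2 = |s| * |s| := by rw [← sq, sq_abs]
        nlinarith [abs_nonneg s]
      · have h4 := Real.neg_one_le_cos s
        rw [abs_sub_comm, abs_of_nonneg (by linarith)]
        linarith
    have hss : |sin s| ≤ |s| := Real.abs_sin_le_abs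
    have hdiff : |(cos s * X ω + sin s * G ω) - X ω| ≤ |s| * (|X ω| + |G ω|) := by
      have e : (cos s * X ω + sin s * G ω) - X ω = (cos s - 1) * X ω + sin s * G ω := by ring
      rw [e]
      refine (abs_add_le _ _).trans ?_
      rw [abs_mul, abs_mul]
      have := mul_le_mul_of_nonneg_right hcs (abs_nonneg (X ω))
      have := mul_le_mul_of_nonneg_right hss (abs_nonneg (G ω))
      linarith
    rw [← sub_mul, Real.norm_eq_abs, abs_mul, Real.norm_eq_abs]
    have hpos : 0 ≤ (|X ω| ^ (p - 1) + (|X ω| + |G ω|) ^ (p - 1)) := by positivity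
    calc _ ≤ ((1 + p) * |(cos s * X ω + sin s * G ω) - X ω| *
          (|X ω| ^ (p - 1) + (|X ω| + |G ω|) ^ (p - 1))) * |k ω| :=
          mul_le_mul_of_nonneg_right h (abs_nonneg _)
      _ ≤ ((1 + p) * (|s| * (|X ω| + |G ω|)) *
          (|X ω| ^ (p - 1) + (|X ω| + |G ω|) ^ (p - 1))) * |k ω| := by gcongr
      _ = _ := by ring
  have hder : ∀ᵐ ω ∂μ, HasDerivAt (fun s => F s ω) (F' ω) 0 := by
    filter_upwards [hX0] with ω hω
    have h1 : HasDerivAt (fun s : ℝ => cos s * X ω + sin s * G ω) (G ω) 0 := by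
      have h2 := ((Real.hasDerivAt_cos 0).mul_const (X ω)).add ((Real.hasDerivAt_sin 0).mul_const (G ω))
      have h3 : -sin 0 * X ω + cos 0 * G ω = G ω := by simp
      rw [h3] at h2
      exact h2
    have h3 : cos 0 * X ω + sin 0 * G ω = X ω := by simp
    have h4 : HasDerivAt (fun x : ℝ => |x| ^ p) (p * sp p (X ω)) (cos 0 * X ω + sin 0 * G ω) := by
      rw [h3]; exact hasDerivAt_abs_rpow_ne p hω
    have h5 := (h4.comp (0:ℝ) h1).mul_const (k ω)
    exact h5
  set L : ℝ →L[ℝ] ℝ →L[ℝ] ℝ := ContinuousLinearMap.smulRightL ℝ ℝ ℝ 1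
  have h_diff : ∀ᵐ ω ∂μ, HasFDerivAt (fun s => F s ω) (L (F' ω)) 0 :=
    hder.mono fun x hx ↦ hx.hasFDerivAt
  have hm : AEStronglyMeasurable (L ∘ F') μ :=
    L.continuous.comp_aestronglyMeasurable hmeasF'.aestronglyMeasurable
  obtain ⟨hF'_int, key⟩ := hasFDerivAt_integral_of_dominated_loc_of_lip' (univ_mem (f := 𝓝 (0:ℝ)))
    (fun s _ => (hmeasF s).aestronglyMeasurable) hF0 hm hlip hbi h_diff
  replace hF'_int : Integrable F' μ := by
    rw [← integrable_norm_iff hm] at hF'_int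
    rw [← integrable_norm_iff hmeasF'.aestronglyMeasurable]
    simpa [L, (· ∘ ·)] using! hF'_int
  have hkey : HasDerivAt (fun s => ∫ ω, F s ω ∂μ) (∫ ω, F' ω ∂μ) 0 := by
    simp_rw [hasDerivAt_iff_hasFDerivAt]
    simpa only [(· ∘ ·), ContinuousLinearMap.integral_comp_comm _ hF'_int] using! key
  have hloc : IsLocalMin (fun s => ∫ ω, F s ω ∂μ) 0 := by
    apply Eventually.of_forall
    intro s
    have := hmin s
    simpa [hF] using this
  have h0 := hloc.hasDerivAt_eq_zero hkey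
  have e : ∀ ω, F' ω = p * (sp p (X ω) * G ω * k ω) := by intro ω; simp only [hF']; ring
  constructor
  · have h1 : Integrable (fun ω => p⁻¹ * F' ω) μ := hF'_int.const_mul _
    refine h1.congr ?_
    filter_upwards with ω
    rw [e, ← mul_assoc, inv_mul_cancel₀ hp.ne', one_mul]
  · simp_rw [e] at h0
    rw [integral_const_mul] at h0
    exact (mul_eq_zero.1 h0).resolve_left hp.ne'

end Pool.Agent.GPI
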