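import Mathlib
import Pool.Agent.GPI.Conf
import Pool.Agent.GPI.LemD
import Pool.Agent.GPI.Final
import Pool.Agent.GPI.Hfun
import Pool.Agent.GPI.KmonQ

set_option autoImplicit false

open Real MeasureTheory ProbabilityTheory Set Filter
open scoped Topology

namespace Pool.Agent.GPI

/-- First-order condition with two convenient integrability hypotheses. -/
lemma first_order' {Ω : Type*} [MeasurableSpace Ω] (μ : Measure Ω) {p : ℝ} (hp : 0 < p)
    (X G k : Ω → ℝ) (hX : Measurable X) (hG : Measurable G) (hk : Measurable k)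
    (hX0 : ∀ᵐ ω ∂μ, X ω ≠ 0)
    (hb1 : Integrable (fun ω => (|X ω| + |G ω|) * |X ω| ^ (p - 1) * |k ω|) μ)
    (hb2 : Integrable (fun ω => (|X ω| + |G ω|) ^ p * |k ω|) μ)
    (hmin : ∀ s : ℝ, ∫ ω, |X ω| ^ p * k ω ∂μ ≤ ∫ ω, |cos s * X ω + sin s * G ω| ^ p * k ω ∂μ) :
    Integrable (fun ω => sp p (X ω) * G ω * k ω) μ ∧ ∫ ω, sp p (X ω) * G ω * k ω ∂μ = 0 := by
  apply first_order μ hp X G k hX hG hk hX0 _ hmin
  refine ((hb1.const_mul 2).add hb2).mono' (by fun_prop) ?_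
  filter_upwards [hX0] with ω hω
  have hx : 0 < |X ω| := abs_pos.2 hω
  have hS : 0 < |X ω| + |G ω| := by have := abs_nonneg (G ω); linarith
  have hS' : |X ω| ≤ |X ω| + |G ω| := by have := abs_nonneg (G ω); linarith
  rw [Real.norm_of_nonneg (by positivity)]
  simp only [Pi.add_apply]
  have e1 : (|X ω| + |G ω|) ^ p = (|X ω| + |G ω|) * (|X ω| + |G ω|) ^ (p - 1) := by
    nth_rewrite 2 [← rpow_one (|X ω| + |G ω|)]
    rw [← rpow_add hS]; congr 1; ring
  have hA : 0 ≤ |X ω| ^ (p - 1) := by positivity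
  have hB : 0 ≤ (|X ω| + |G ω|) ^ (p - 1) := by positivity
  rcases le_total p 1 with h | h
  · have h1 : (|X ω| + |G ω|) ^ (p - 1) ≤ |X ω| ^ (p - 1) :=
      rpow_le_rpow_of_nonpos hx hS' (by linarith)
    have h2 : 0 ≤ (|X ω| + |G ω|) ^ p * |k ω| := by positivity
    calc _ ≤ (|X ω| + |G ω|) * (|X ω| ^ (p - 1) + |X ω| ^ (p - 1)) * |k ω| := by gcongr
      _ = 2 * ((|X ω| + |G ω|) * |X ω| ^ (p - 1) * |k ω|) := by ring
      _ ≤ _ := by linarith
  · rw [e1]
    have : 0 ≤ (|X ω| + |G ω|) * |X ω| ^ (p - 1) * |k ω| := by positivity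
    calc _ = (|X ω| + |G ω|) * |X ω| ^ (p - 1) * |k ω|
          + (|X ω| + |G ω|) * (|X ω| + |G ω|) ^ (p - 1) * |k ω| := by ring
      _ ≤ _ := by linarith

lemma dot_sq_le (u v : ℝ × ℝ × ℝ) : dot u v ^ 2 ≤ dot u u * dot v v := by
  unfold dot
  nlinarith [sq_nonneg (u.1 * v.2.1 - u.2.1 * v.1), sq_nonneg (u.1 * v.2.2 - u.2.2 * v.1),
    sq_nonneg (u.2.1 * v.2.2 - u.2.2 * v.2.1)]

lemma integrable_Q3 {p q r : ℝ} (hp : 0 ≤ p) (hq : 0 ≤ q) (hr : 0 ≤ r) {u v w : ℝ × ℝ × ℝ}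
    (hu : dot u u = 1) (hv : dot v v = 1) (hw : dot w w = 1) :
    Integrable (fun x => |dot u x| ^ p * |dot v x| ^ q * |dot w x| ^ r) P3 := by
  have h1 := measurable_dot u
  have h2 := measurable_dot v
  have h3 := measurable_dot w
  refine (integrable_poly3 (M := p + q + r) (by positivity)).mono' (by fun_prop) ?_
  filter_upwards with x
  rw [Real.norm_of_nonneg (by positivity)]
  exact integrand_le hp hq hr hu hv hw x

/-- The two-vector inequality. -/
lemma gpi2_Q3 {a b : ℝ} (ha : 0 ≤ a) (hb : 0 ≤ b) {u v w : ℝ × ℝ × ℝ} (hu : dot u u = 1)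
    (hv : dot v v = 1) : km a * km b ≤ Q3 (2 * a) (2 * b) 0 u v w := by
  have h0 : Q3 (2 * a) (2 * b) 0 u v w = Q3 (2 * a) (2 * b) 0 u v u := by
    unfold Q3; simp
  set ρ := dot u v with hρ
  have hρ1 : ρ ^ 2 ≤ 1 := by
    have := dot_sq_le u v
    rw [hu, hv] at this; simpa using this
  set σ := √(1 - ρ ^ 2) with hσ
  have hσ2 : σ ^ 2 = 1 - ρ ^ 2 := Real.sq_sqrt (by linarith)
  have e1 : Q3 (2 * a) (2 * b) 0 u v u = Q3 (2 * a) (2 * b) 0 (1, 0, 0) (ρ, σ, 0) (1, 0, 0) := by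
    apply Q3_congr
    · rw [hu]; simp [dot]
    · rw [hv]; simp only [dot]; nlinarith
    · rw [hu]; simp [dot]
    · simp [dot, hρ]
    · rw [hu]; simp [dot]
    · rw [dot_comm, ← hρ]; simp [dot]
  have hu1 : dot (1, 0, 0) (1, 0, 0) = 1 := by simp [dot]
  have hv1 : dot (ρ, σ, 0) (ρ, σ, 0) = 1 := by simp only [dot]; nlinarith
  have hint := integrable_Q3 (p := 2 * a) (q := 2 * b) (r := 0) (by positivity) (by positivity)
    le_rfl hu1 hv1 hu1
  have e2 : Q3 (2 * a) (2 * b) 0 (1, 0, 0) (ρ, σ, 0) (1, 0, 0)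
      = ∫ x, |x| ^ (2 * a) * (∫ g, |ρ * x + σ * g| ^ (2 * b) ∂gg) ∂gg := by
    unfold Q3
    rw [integral_prod _ hint]
    apply integral_congr_ae
    filter_upwards with x
    have e3 : ∀ y : ℝ × ℝ, |dot (1, 0, 0) (x, y)| ^ (2 * a) * |dot (ρ, σ, 0) (x, y)| ^ (2 * b)
        * |dot (1, 0, 0) (x, y)| ^ (0:ℝ) = |x| ^ (2 * a) * |ρ * x + σ * y.1| ^ (2 * b) := by
      intro y; simp [dot]
    simp_rw [e3]
    rw [integral_const_mul, integral_fun_fst (fun g : ℝ => |ρ * x + σ * g| ^ (2 * b))]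
    simp
  rw [h0, e1, e2, ← km_eq ha, ← km_eq hb]
  exact gpi2 ha hb ρ σ (by linarith)

lemma P3_ne : ∀ᵐ x ∂P3, x.1 ≠ 0 :=
  (Measure.quasiMeasurePreserving_fst (μ := gg) (ν := gg.prod gg)).ae (ae_gg_ne 0)

/-- First-order condition in space at `w = e₁`, direction `e₂`. -/
lemma fo_P3 {p q r : ℝ} (hp : 0 ≤ p) (hq : 0 ≤ q) (hr : 0 < r) {u v : ℝ × ℝ × ℝ}
    (hu : dot u u = 1) (hv : dot v v = 1)
    (hmin : ∀ w, dot w w = 1 → Q3 p q r u v (1, 0, 0) ≤ Q3 p q r u v w) :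
    Integrable (fun x : ℝ × ℝ × ℝ => sp r x.1 * x.2.1 * (|dot u x| ^ p * |dot v x| ^ q)) P3 ∧
    ∫ x, sp r x.1 * x.2.1 * (|dot u x| ^ p * |dot v x| ^ q) ∂P3 = 0 := by
  have h1 := measurable_dot u
  have h2 := measurable_dot v
  have hk : Measurable (fun x : ℝ × ℝ × ℝ => |dot u x| ^ p * |dot v x| ^ q) := by fun_prop
  have hkb : ∀ x : ℝ × ℝ × ℝ, |(|dot u x| ^ p * |dot v x| ^ q)|
      ≤ (1 + |x.1|) ^ (p + q) * ((1 + |x.2.1|) ^ (p + q) * (1 + |x.2.2|) ^ (p + q)) := by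
    intro x
    rw [abs_of_nonneg (by positivity)]
    have := integrand_le hp hq (le_refl (0:ℝ)) hu hv hu x
    simpa using this
  have hS : ∀ x : ℝ × ℝ × ℝ, |x.1| + |x.2.1| ≤ (1 + |x.1|) * (1 + |x.2.1|) := by
    intro x
    nlinarith [abs_nonneg x.1, abs_nonneg x.2.1, mul_nonneg (abs_nonneg x.1) (abs_nonneg x.2.1)]
  apply first_order' P3 hr (fun x => x.1) (fun x => x.2.1) _ (by fun_prop) (by fun_prop) hk P3_ne
  · -- |x|^{r-1} part
    have hi := (integrable_abs_rpow_poly (r := r - 1) (M := p + q + 1) (by linarith) (by positivity)).mul_prod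
      ((integrable_poly (M := p + q + 1) (by positivity)).mul_prod
        (integrable_poly (M := p + q) (by positivity)))
    refine hi.mono' (by fun_prop) ?_
    filter_upwards with x
    rw [Real.norm_of_nonneg (by positivity)]
    have e1 : (1 + |x.1|) ^ (p + q + 1) = (1 + |x.1|) * (1 + |x.1|) ^ (p + q) := by
      nth_rewrite 2 [← rpow_one (1 + |x.1|)]
      rw [← rpow_add (by positivity)]; congr 1; ring
    have e2 : (1 + |x.2.1|) ^ (p + q + 1) = (1 + |x.2.1|) * (1 + |x.2.1|) ^ (p + q) := by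
      nth_rewrite 2 [← rpow_one (1 + |x.2.1|)]
      rw [← rpow_add (by positivity)]; congr 1; ring
    rw [e1, e2]
    calc _ ≤ ((1 + |x.1|) * (1 + |x.2.1|)) * |x.1| ^ (r - 1) *
          ((1 + |x.1|) ^ (p + q) * ((1 + |x.2.1|) ^ (p + q) * (1 + |x.2.2|) ^ (p + q))) := by
          have := hS x
          have := hkb x
          gcongr
      _ = _ := by ring
  · have hi := (integrable_poly (M := r + (p + q)) (by positivity)).mul_prod
      ((integrable_poly (M := r + (p + q)) (by positivity)).mul_prod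
        (integrable_poly (M := p + q) (by positivity)))
    refine hi.mono' (by fun_prop) ?_
    filter_upwards with x
    rw [Real.norm_of_nonneg (by positivity)]
    rw [rpow_add (by positivity) r (p + q), rpow_add (by positivity) r (p + q)]
    have h3 : (|x.1| + |x.2.1|) ^ r ≤ (1 + |x.1|) ^ r * (1 + |x.2.1|) ^ r := by
      rw [← mul_rpow (by positivity) (by positivity)]
      exact rpow_le_rpow (by positivity) (hS x) hr.le
    calc _ ≤ ((1 + |x.1|) ^ r * (1 + |x.2.1|) ^ r) *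
          ((1 + |x.1|) ^ (p + q) * ((1 + |x.2.1|) ^ (p + q) * (1 + |x.2.2|) ^ (p + q))) := by
          have := hkb x
          gcongr
      _ = _ := by ring
  · intro s
    have h := hmin (cos s, sin s, 0) (by
      simp only [dot]
      have := Real.sin_sq_add_cos_sq s
      nlinarith)
    unfold Q3 at h
    have e1 : ∀ x : ℝ × ℝ × ℝ, |dot u x| ^ p * |dot v x| ^ q * |dot (1, 0, 0) x| ^ r
        = |x.1| ^ r * (|dot u x| ^ p * |dot v x| ^ q) := by
      intro x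
      have : dot (1, 0, 0) x = x.1 := by simp [dot]
      rw [this]; ring
    have e2 : ∀ x : ℝ × ℝ × ℝ, |dot u x| ^ p * |dot v x| ^ q * |dot (cos s, sin s, 0) x| ^ r
        = |cos s * x.1 + sin s * x.2.1| ^ r * (|dot u x| ^ p * |dot v x| ^ q) := by
      intro x
      have : dot (cos s, sin s, 0) x = cos s * x.1 + sin s * x.2.1 := by simp [dot]
      rw [this]; ring
    simp_rw [e1, e2] at h
    exact h

end Pool.Agent.GPI
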