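import Mathlib
import Pool.Agent.GPI.NF

set_option autoImplicit false

open Real MeasureTheory ProbabilityTheory Set Filter
open scoped Topology

namespace Pool.Agent.GPI

/-- Integrating out the middle coordinate. -/
lemma integral_P3_skip (f : ℝ × ℝ → ℝ) (hf : Measurable f) :
    ∫ x : ℝ × ℝ × ℝ, f (x.1, x.2.2) ∂P3 = ∫ z, f z ∂P2 := by
  have h1 : MeasurePreserving (Prod.snd : ℝ × ℝ → ℝ) (gg.prod gg) gg := measurePreserving_snd
  have h2 : MeasurePreserving (Prod.map id Prod.snd : ℝ × ℝ × ℝ → ℝ × ℝ) P3 P2 :=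
    (MeasurePreserving.id gg).prod h1
  calc _ = ∫ z, f z ∂(P3.map (Prod.map id Prod.snd)) :=
        (integral_map h2.measurable.aemeasurable hf.aestronglyMeasurable).symm
    _ = _ := by rw [h2.map_eq]

lemma Q3_planar (p q r a b a' b' a'' b'' : ℝ) :
    Q3 p q r (a, 0, b) (a', 0, b') (a'', 0, b'')
      = ∫ z : ℝ × ℝ, |a'' * z.1 + b'' * z.2| ^ r
        * (|a * z.1 + b * z.2| ^ p * |a' * z.1 + b' * z.2| ^ q) ∂P2 := by
  rw [← integral_P3_skip (fun z : ℝ × ℝ => |a'' * z.1 + b'' * z.2| ^ r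
        * (|a * z.1 + b * z.2| ^ p * |a' * z.1 + b' * z.2| ^ q)) (by fun_prop)]
  unfold Q3
  congr 1
  ext x
  have h : ∀ c d : ℝ, dot (c, 0, d) x = c * x.1 + d * x.2.2 := by
    intro c d; simp [dot]
  rw [h, h, h]; ring

/-- Singular power of a linear form, any nonzero form. -/
lemma prod_sing' {r M : ℝ} (hr : -1 < r) (hM : 0 ≤ M) {w v : ℝ} (h : w ^ 2 + v ^ 2 = 1) :
    Integrable (fun z : ℝ × ℝ => |w * z.1 + v * z.2| ^ r * ((1 + |z.1|) ^ M * (1 + |z.2|) ^ M)) P2 := by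
  by_cases hv : v = 0
  · have hw : |w| = 1 := by
      rw [hv] at h
      have : w ^ 2 = 1 := by linarith
      rw [← sq_abs] at this
      nlinarith [abs_nonneg w]
    have h1 := (integrable_abs_rpow_poly hr hM).mul_prod (integrable_poly hM)
    refine h1.congr ?_
    filter_upwards with z
    rw [hv, zero_mul, add_zero, abs_mul, hw, one_mul]; ring
  · exact prod_sing hr hM w hv

lemma ae_lin_ne' {w v : ℝ} (h : w ^ 2 + v ^ 2 = 1) :
    ∀ᵐ z : ℝ × ℝ ∂P2, w * z.1 + v * z.2 ≠ 0 := by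
  by_cases hv : v = 0
  · have hw : w ≠ 0 := by
      intro h0; rw [hv, h0] at h; norm_num at h
    have := (Measure.quasiMeasurePreserving_fst (μ := gg) (ν := gg)).ae (ae_gg_ne 0)
    filter_upwards [this] with z hz
    rw [hv, zero_mul, add_zero]
    exact mul_ne_zero hw hz
  · exact ae_lin_ne w hv

lemma abs_lin2_le {a b : ℝ} (h : a ^ 2 + b ^ 2 = 1) (z : ℝ × ℝ) :
    |a * z.1 + b * z.2| ≤ (1 + |z.1|) * (1 + |z.2|) := by
  have h1 : |a| ≤ 1 := by rw [abs_le_one_iff_mul_self_le_one]; nlinarith [sq_nonneg b]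
  have h2 : |b| ≤ 1 := by rw [abs_le_one_iff_mul_self_le_one]; nlinarith [sq_nonneg a]
  have t := abs_add_le (a * z.1) (b * z.2)
  rw [abs_mul, abs_mul] at t
  have a1 := abs_nonneg z.1
  have a2 := abs_nonneg z.2
  have b1 := mul_le_mul_of_nonneg_right h1 a1
  have b2 := mul_le_mul_of_nonneg_right h2 a2
  nlinarith [mul_nonneg a1 a2]

/-- First-order condition in the plane. -/
lemma fo_P2 {p q r : ℝ} (hp : 0 ≤ p) (hq : 0 ≤ q) (hr : 0 < r) {a b c d c' d' : ℝ}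
    (hab : a ^ 2 + b ^ 2 = 1) (hcd : c ^ 2 + d ^ 2 = 1) (hcd' : c' ^ 2 + d' ^ 2 = 1)
    (hmin : ∀ w, dot w w = 1 → Q3 p q r (c, 0, d) (c', 0, d') (a, 0, b)
      ≤ Q3 p q r (c, 0, d) (c', 0, d') w) :
    Integrable (fun z : ℝ × ℝ => sp r (a * z.1 + b * z.2) * (-b * z.1 + a * z.2)
      * (|c * z.1 + d * z.2| ^ p * |c' * z.1 + d' * z.2| ^ q)) P2 ∧
    ∫ z : ℝ × ℝ, sp r (a * z.1 + b * z.2) * (-b * z.1 + a * z.2)
      * (|c * z.1 + d * z.2| ^ p * |c' * z.1 + d' * z.2| ^ q) ∂P2 = 0 := by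
  have hX : ∀ z : ℝ × ℝ, |a * z.1 + b * z.2| ≤ (1 + |z.1|) * (1 + |z.2|) := abs_lin2_le hab
  have hG : ∀ z : ℝ × ℝ, |-b * z.1 + a * z.2| ≤ (1 + |z.1|) * (1 + |z.2|) :=
    abs_lin2_le (by nlinarith)
  have hkb : ∀ z : ℝ × ℝ, |(|c * z.1 + d * z.2| ^ p * |c' * z.1 + d' * z.2| ^ q)|
      ≤ (1 + |z.1|) ^ (p + q) * (1 + |z.2|) ^ (p + q) := by
    intro z
    rw [abs_of_nonneg (by positivity)]
    have h1 := rpow_le_rpow (abs_nonneg _) (abs_lin2_le hcd z) hp
    have h2 := rpow_le_rpow (abs_nonneg _) (abs_lin2_le hcd' z) hq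
    have e : (1 + |z.1|) ^ (p + q) * (1 + |z.2|) ^ (p + q)
        = ((1 + |z.1|) * (1 + |z.2|)) ^ p * ((1 + |z.1|) * (1 + |z.2|)) ^ q := by
      rw [← rpow_add (by positivity), mul_rpow (by positivity) (by positivity)]
    rw [e]
    gcongr
  apply first_order' P2 hr (fun z => a * z.1 + b * z.2) (fun z => -b * z.1 + a * z.2)
    (fun z => |c * z.1 + d * z.2| ^ p * |c' * z.1 + d' * z.2| ^ q)
    (by fun_prop) (by fun_prop) (by fun_prop) (ae_lin_ne' hab)
  · have hi := (prod_sing' (r := r - 1) (M := 1 + (p + q)) (by linarith) (by positivity) hab).const_mul 2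
    refine hi.mono' (by fun_prop) ?_
    filter_upwards with z
    rw [Real.norm_of_nonneg (by positivity)]
    rw [rpow_add (by positivity) 1 (p + q), rpow_add (by positivity) 1 (p + q), rpow_one, rpow_one]
    calc _ ≤ (((1 + |z.1|) * (1 + |z.2|)) + ((1 + |z.1|) * (1 + |z.2|))) * |a * z.1 + b * z.2| ^ (r - 1)
          * ((1 + |z.1|) ^ (p + q) * (1 + |z.2|) ^ (p + q)) := by
          have := hX z
          have := hG z
          have := hkb z
          gcongr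
      _ = _ := by ring
  · have hi := ((integrable_poly (M := r + (p + q)) (by positivity)).mul_prod
      (integrable_poly (M := r + (p + q)) (by positivity))).const_mul (2 ^ r)
    refine hi.mono' (by fun_prop) ?_
    filter_upwards with z
    rw [Real.norm_of_nonneg (by positivity)]
    rw [rpow_add (by positivity) r (p + q), rpow_add (by positivity) r (p + q)]
    have h3 : (|a * z.1 + b * z.2| + |-b * z.1 + a * z.2|) ^ r
        ≤ 2 ^ r * ((1 + |z.1|) ^ r * (1 + |z.2|) ^ r) := by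
      rw [← mul_rpow (by positivity) (by positivity), ← mul_rpow (by positivity) (by positivity)]
      apply rpow_le_rpow (by positivity) _ hr.le
      have := hX z
      have := hG z
      linarith
    calc _ ≤ (2 ^ r * ((1 + |z.1|) ^ r * (1 + |z.2|) ^ r)) *
          ((1 + |z.1|) ^ (p + q) * (1 + |z.2|) ^ (p + q)) := by
          have := hkb z
          gcongr
      _ = _ := by ring
  · intro s
    have h := hmin (cos s * a - sin s * b, 0, cos s * b + sin s * a) (by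
      simp only [dot]
      have := Real.sin_sq_add_cos_sq s
      calc (cos s * a - sin s * b) * (cos s * a - sin s * b) + 0 * 0
            + (cos s * b + sin s * a) * (cos s * b + sin s * a)
          = (sin s ^ 2 + cos s ^ 2) * (a ^ 2 + b ^ 2) := by ring
        _ = 1 := by rw [this, hab]; norm_num)
    rw [Q3_planar, Q3_planar] at h
    refine h.trans (le_of_eq ?_)
    congr 1
    ext z
    have : (cos s * a - sin s * b) * z.1 + (cos s * b + sin s * a) * z.2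
        = cos s * (a * z.1 + b * z.2) + sin s * (-b * z.1 + a * z.2) := by ring
    rw [this]

/-- Evaluation in normal form. -/
lemma Q3_nf {p q r : ℝ} (hp : 0 ≤ p) (hq : 0 ≤ q) (hr : 0 ≤ r) {w₁ v₁ w₂ v₂ l : ℝ}
    (hu : dot (w₁, w₁ * l, v₁) (w₁, w₁ * l, v₁) = 1)
    (hv : dot (w₂, w₂ * l, v₂) (w₂, w₂ * l, v₂) = 1) :
    Q3 p q r (w₁, w₁ * l, v₁) (w₂, w₂ * l, v₂) (1, 0, 0)
      = ∫ x, |x| ^ r * sm l (y0 p q w₁ v₁ w₂ v₂) x ∂gg := by
  have hw : dot (1, 0, 0) (1, 0, 0) = 1 := by simp [dot]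
  have hint := integrable_Q3 hp hq hr hu hv hw
  unfold Q3
  rw [integral_prod _ hint]
  apply integral_congr_ae
  filter_upwards [hint.prod_right_ae] with x hx
  rw [integral_prod _ hx]
  unfold sm y0 hh
  rw [← integral_const_mul]
  congr 1
  ext g
  rw [← integral_const_mul]
  congr 1
  ext η
  have e1 : dot (w₁, w₁ * l, v₁) (x, g, η) = w₁ * (x + l * g) + v₁ * η := by simp only [dot]; ring
  have e2 : dot (w₂, w₂ * l, v₂) (x, g, η) = w₂ * (x + l * g) + v₂ * η := by simp only [dot]; ring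
  have e3 : dot (1, 0, 0) (x, g, η) = x := by simp [dot]
  rw [e1, e2, e3]; ring

variable {p q w₁ v₁ w₂ v₂ : ℝ}

lemma PB_y0 (hp : 0 < p) (hq : 0 < q) : PB (y0 p q w₁ v₁ w₂ v₂) :=
  ⟨measurable_y0, y0_bound hp hq⟩

lemma PB_D1 (hp : 0 < p) (hq : 0 < q) (hv₁ : v₁ ≠ 0) (hv₂ : v₂ ≠ 0) : PB (D1 p q w₁ v₁ w₂ v₂) :=
  ⟨measurable_D1, D1_bound hp hq hv₁ hv₂⟩

/-- Key identity, `l ≠ 0`. -/
lemma key_pos {r : ℝ} (hp : 0 < p) (hq : 0 < q) (hw₁ : w₁ ≠ 0) (hw₂ : w₂ ≠ 0)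
    (hv₁ : v₁ ≠ 0) (hv₂ : v₂ ≠ 0) {l : ℝ} (hl : l ≠ 0)
    (hI : Integrable (fun x : ℝ × ℝ × ℝ => sp r x.1 * x.2.1 *
      (|dot (w₁, w₁ * l, v₁) x| ^ p * |dot (w₂, w₂ * l, v₂) x| ^ q)) P3)
    (h : ∫ x : ℝ × ℝ × ℝ, sp r x.1 * x.2.1 *
      (|dot (w₁, w₁ * l, v₁) x| ^ p * |dot (w₂, w₂ * l, v₂) x| ^ q) ∂P3 = 0) :
    ∫ x, sp r x * sm l (D1 p q w₁ v₁ w₂ v₂) x ∂gg = 0 := by
  have h1 : ∫ x, sp r x * (l * sm l (D1 p q w₁ v₁ w₂ v₂) x) ∂gg = 0 := by
    rw [← h, integral_prod _ hI]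
    apply integral_congr_ae
    filter_upwards [hI.prod_right_ae] with x hx
    rw [integral_prod _ hx, ← stein (PB_D1 hp hq hv₁ hv₂) (y0_ftc hp hq hw₁ hw₂ hv₁ hv₂) l x,
      ← integral_const_mul]
    congr 1
    ext g
    unfold y0 hh
    rw [← mul_assoc, ← integral_const_mul]
    congr 1
    ext η
    have e1 : dot (w₁, w₁ * l, v₁) (x, g, η) = w₁ * (x + l * g) + v₁ * η := by simp only [dot]; ring
    have e2 : dot (w₂, w₂ * l, v₂) (x, g, η) = w₂ * (x + l * g) + v₂ * η := by simp only [dot]; ring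
    rw [e1, e2]
  have e : ∀ x, sp r x * (l * sm l (D1 p q w₁ v₁ w₂ v₂) x)
      = l * (sp r x * sm l (D1 p q w₁ v₁ w₂ v₂) x) := by intro x; ring
  simp_rw [e] at h1
  rw [integral_const_mul] at h1
  exact (mul_eq_zero.1 h1).resolve_left hl

end Pool.Agent.GPI
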