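import Mathlib
import Pool.Agent.GPI.NF2

set_option autoImplicit false

open Real MeasureTheory ProbabilityTheory Set Filter
open scoped Topology

namespace Pool.Agent.GPI

/-- Normal form for two noise vectors with negative correlation. -/
lemma nf_exists {ρ1 ρ2 κ N1 N2 : ℝ} (h1 : 0 < ρ1) (h2 : 0 < ρ2) (hκ : κ < 0) (hN1 : 0 < N1)
    (hN2 : 0 < N2) (hD : κ ^ 2 ≤ N1 * N2) :
    ∃ v₁ v₂ l : ℝ, 0 < v₁ ∧ v₂ < 0 ∧ 0 ≤ l ∧ ρ1 ^ 2 * l ^ 2 + v₁ ^ 2 = N1 ∧
      ρ2 ^ 2 * l ^ 2 + v₂ ^ 2 = N2 ∧ ρ1 * ρ2 * l ^ 2 + v₁ * v₂ = κ := by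
  set F := N1 / ρ1 ^ 2 + N2 / ρ2 ^ 2 - 2 * κ / (ρ1 * ρ2) with hF
  have hF0 : 0 < F := by
    have a1 : 0 < N1 / ρ1 ^ 2 := by positivity
    have a2 : 0 < N2 / ρ2 ^ 2 := by positivity
    have a3 : 2 * κ / (ρ1 * ρ2) < 0 := div_neg_of_neg_of_pos (by linarith) (by positivity)
    linarith
  set s := √F with hs
  have hs0 : 0 < s := Real.sqrt_pos.2 hF0
  have hs2 : s ^ 2 = F := Real.sq_sqrt hF0.le
  set D := N1 * N2 - κ ^ 2 with hDdef
  have hD0 : 0 ≤ D := by linarith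
  have hsD : √D ^ 2 = D := Real.sq_sqrt hD0
  have b1 : 0 < N1 / ρ1 - κ / ρ2 := by
    have a1 : 0 < N1 / ρ1 := by positivity
    have a2 : κ / ρ2 < 0 := div_neg_of_neg_of_pos hκ h2
    linarith
  have b2 : κ / ρ1 - N2 / ρ2 < 0 := by
    have a1 : 0 < N2 / ρ2 := by positivity
    have a2 : κ / ρ1 < 0 := div_neg_of_neg_of_pos hκ h1
    linarith
  have hne : s ≠ 0 := hs0.ne'
  refine ⟨(N1 / ρ1 - κ / ρ2) / s, (κ / ρ1 - N2 / ρ2) / s, √D / (ρ1 * ρ2 * s), by positivity,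
    div_neg_of_neg_of_pos b2 hs0, by positivity, ?_, ?_, ?_⟩
  · have e : ρ1 ^ 2 * (√D / (ρ1 * ρ2 * s)) ^ 2 + ((N1 / ρ1 - κ / ρ2) / s) ^ 2
        = (√D ^ 2 / ρ2 ^ 2 + (N1 / ρ1 - κ / ρ2) ^ 2) / s ^ 2 := by field_simp
    rw [e, hs2, hsD, div_eq_iff hF0.ne', hF, hDdef]
    field_simp
    ring
  · have e : ρ2 ^ 2 * (√D / (ρ1 * ρ2 * s)) ^ 2 + ((κ / ρ1 - N2 / ρ2) / s) ^ 2
        = (√D ^ 2 / ρ1 ^ 2 + (κ / ρ1 - N2 / ρ2) ^ 2) / s ^ 2 := by field_simp
    rw [e, hs2, hsD, div_eq_iff hF0.ne', hF, hDdef]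
    field_simp
    ring
  · have e : ρ1 * ρ2 * (√D / (ρ1 * ρ2 * s)) ^ 2 + (N1 / ρ1 - κ / ρ2) / s * ((κ / ρ1 - N2 / ρ2) / s)
        = (√D ^ 2 / (ρ1 * ρ2) + (N1 / ρ1 - κ / ρ2) * (κ / ρ1 - N2 / ρ2)) / s ^ 2 := by field_simp
    rw [e, hs2, hsD, div_eq_iff hF0.ne', hF, hDdef]
    field_simp
    ring

lemma gram_det {u v w : ℝ × ℝ × ℝ} (hu : dot u u = 1) (hv : dot v v = 1) (hw : dot w w = 1) :
    (dot u v - dot u w * dot v w) ^ 2 ≤ (1 - dot u w ^ 2) * (1 - dot v w ^ 2) := by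
  have h := dot_sq_le (u - (dot u w) • w) (v - (dot v w) • w)
  have hbil : ∀ (a b : ℝ) (u v w : ℝ × ℝ × ℝ), dot (u - a • w) (v - b • w)
      = dot u v - a * dot v w - b * dot u w + a * b * dot w w := by
    intro a b u v w
    simp only [dot, Prod.fst_sub, Prod.snd_sub, Prod.smul_fst, Prod.smul_snd, smul_eq_mul]
    ring
  rw [hbil, hbil, hbil, hu, hv, hw] at h
  nlinarith [h]

lemma Q3_neg1 (p q r : ℝ) (u v w : ℝ × ℝ × ℝ) : Q3 p q r (-u) v w = Q3 p q r u v w := by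
  unfold Q3
  have : ∀ x, dot (-u) x = - dot u x := by intro x; simp only [dot, Prod.fst_neg, Prod.snd_neg]; ring
  simp_rw [this, abs_neg]

lemma Q3_neg2 (p q r : ℝ) (u v w : ℝ × ℝ × ℝ) : Q3 p q r u (-v) w = Q3 p q r u v w := by
  rw [Q3_swap12, Q3_neg1, Q3_swap12]

lemma dot_neg_left (u v : ℝ × ℝ × ℝ) : dot (-u) v = - dot u v := by
  simp only [dot, Prod.fst_neg, Prod.snd_neg]; ring

lemma dot_neg_right (u v : ℝ × ℝ × ℝ) : dot u (-v) = - dot u v := by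
  simp only [dot, Prod.fst_neg, Prod.snd_neg]; ring

lemma km_add {a b : ℝ} (ha : 0 ≤ a) (hb : 0 ≤ b) : km a * km b ≤ km (a + b) := by
  have h := gpi2 ha hb 1 0 (by norm_num)
  rw [km_eq ha, km_eq hb] at h
  refine h.trans (le_of_eq ?_)
  rw [← km_eq (add_nonneg ha hb)]
  congr 1
  ext x
  simp only [one_mul, zero_mul, add_zero]
  rw [integral_const, probReal_univ, smul_eq_mul, one_mul]
  rw [← rpow_add_of_nonneg (abs_nonneg _) (by positivity) (by positivity)]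
  congr 1; ring

/-- Coinciding lines. -/
lemma coincide {p q r : ℝ} (hp : 0 ≤ p) (hq : 0 ≤ q) (hr : 0 ≤ r) {u v w : ℝ × ℝ × ℝ}
    (hu : dot u u = 1) (hv : dot v v = 1) (hw : dot w w = 1) (h : dot u w = 1) :
    km (p / 2) * km (q / 2) * km (r / 2) ≤ Q3 p q r u v w := by
  have hg := gram_det hu hv hw
  rw [h] at hg
  have h0 : dot u v - 1 * dot v w = 0 := by
    have : (dot u v - 1 * dot v w) ^ 2 ≤ 0 := by nlinarith [hg]
    exact pow_eq_zero_iff (two_ne_zero) |>.1 (le_antisymm this (sq_nonneg _))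
  have e1 : Q3 p q r u v w = Q3 p q r w v w := by
    apply Q3_congr
    · rw [hu, hw]
    · rfl
    · rfl
    · rw [dot_comm w v]; linarith
    · rw [h, hw]
    · rfl
  have e2 : Q3 p q r w v w = Q3 (2 * ((p + r) / 2)) (2 * (q / 2)) 0 w v w := by
    unfold Q3
    congr 1
    ext x
    rw [show 2 * ((p + r) / 2) = p + r by ring, show 2 * (q / 2) = q by ring,
      rpow_add_of_nonneg (abs_nonneg _) hp hr, rpow_zero]
    ring
  have h1 := gpi2_Q3 (a := (p + r) / 2) (b := q / 2) (by positivity) (by positivity) (w := w) hw hv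
  have h2 := km_add (a := p / 2) (b := r / 2) (by positivity) (by positivity)
  have h3 : p / 2 + r / 2 = (p + r) / 2 := by ring
  rw [h3] at h2
  rw [e1, e2]
  have hkq := km_nonneg (c := q / 2) (by positivity)
  calc km (p / 2) * km (q / 2) * km (r / 2) = km (p / 2) * km (r / 2) * km (q / 2) := by ring
    _ ≤ km ((p + r) / 2) * km (q / 2) := mul_le_mul_of_nonneg_right h2 hkq
    _ ≤ _ := h1

/-- Centre orthogonal to both other vectors. -/
lemma orth {p q r : ℝ} (hp : 0 ≤ p) (hq : 0 ≤ q) (hr : 0 ≤ r) {u v w : ℝ × ℝ × ℝ}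
    (hu : dot u u = 1) (hv : dot v v = 1) (hw : dot w w = 1) (h1 : dot u w = 0) (h2 : dot v w = 0) :
    km (p / 2) * km (q / 2) * km (r / 2) ≤ Q3 p q r u v w := by
  set t := dot u v with ht
  have ht1 : t ^ 2 ≤ 1 := by
    have := dot_sq_le u v
    rw [hu, hv] at this; simpa using this
  set σ := √(1 - t ^ 2) with hσ
  have hσ2 : σ ^ 2 = 1 - t ^ 2 := Real.sq_sqrt (by linarith)
  have e1 : Q3 p q r u v w = Q3 p q r (0, 1, 0) (0, t, σ) (1, 0, 0) := by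
    apply Q3_congr
    · rw [hu]; simp [dot]
    · rw [hv]; simp only [dot]; nlinarith
    · rw [hw]; simp [dot]
    · rw [← ht]; simp [dot]
    · rw [h1]; simp [dot]
    · rw [h2]; simp [dot]
  have hu' : dot (0, 1, 0) (0, 1, 0) = 1 := by simp [dot]
  have hv' : dot (0, t, σ) (0, t, σ) = 1 := by simp only [dot]; nlinarith
  have hw' : dot (1, 0, 0) (1, 0, 0) = 1 := by simp [dot]
  have e2 : Q3 p q r (0, 1, 0) (0, t, σ) (1, 0, 0)
      = (∫ x, |x| ^ r ∂gg) * ∫ y : ℝ × ℝ, |y.1| ^ p * |t * y.1 + σ * y.2| ^ q ∂P2 := by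
    unfold Q3
    rw [← integral_prod_mul (fun x : ℝ => |x| ^ r)
      (fun y : ℝ × ℝ => |y.1| ^ p * |t * y.1 + σ * y.2| ^ q)]
    congr 1
    ext x
    simp only [dot, zero_mul, one_mul, zero_add, add_zero]
    ring
  have hint : Integrable (fun y : ℝ × ℝ => |y.1| ^ p * |t * y.1 + σ * y.2| ^ q) P2 := by
    have hi := (integrable_poly (M := p + q) (by positivity)).mul_prod
      (integrable_poly (M := p + q) (by positivity))
    refine hi.mono' (by fun_prop) ?_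
    filter_upwards with y
    rw [Real.norm_of_nonneg (by positivity)]
    have a1 := rpow_le_rpow (abs_nonneg _) (abs_lin2_le (a := 1) (b := 0) (by norm_num) y) hp
    have a2 := rpow_le_rpow (abs_nonneg _) (abs_lin2_le (a := t) (b := σ) (by linarith) y) hq
    simp only [one_mul, zero_mul, add_zero] at a1
    have e : (1 + |y.1|) ^ (p + q) * (1 + |y.2|) ^ (p + q)
        = ((1 + |y.1|) * (1 + |y.2|)) ^ p * ((1 + |y.1|) * (1 + |y.2|)) ^ q := by
      rw [← rpow_add (by positivity), mul_rpow (by positivity) (by positivity)]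
    rw [e]
    gcongr
  have e3 : ∫ y : ℝ × ℝ, |y.1| ^ p * |t * y.1 + σ * y.2| ^ q ∂P2
      = ∫ x, |x| ^ (2 * (p / 2)) * (∫ g, |t * x + σ * g| ^ (2 * (q / 2)) ∂gg) ∂gg := by
    rw [integral_prod _ hint]
    congr 1
    ext x
    rw [show 2 * (p / 2) = p by ring, show 2 * (q / 2) = q by ring, ← integral_const_mul]
  have h3 := gpi2 (a := p / 2) (b := q / 2) (by positivity) (by positivity) t σ (by linarith)
  rw [km_eq (by positivity), km_eq (by positivity)] at h3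
  have h4 : ∫ x, |x| ^ r ∂gg = km (r / 2) := by
    rw [← km_eq (by positivity), show 2 * (r / 2) = r by ring]
  rw [e1, e2, e3, h4]
  have hkr := km_nonneg (c := r / 2) (by positivity)
  calc _ = km (r / 2) * (km (p / 2) * km (q / 2)) := by ring
    _ ≤ _ := mul_le_mul_of_nonneg_left h3 hkr

end Pool.Agent.GPI
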