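import Mathlib
import Pool.Agent.GPI.Hfun
import Pool.Agent.GPI.Polar

set_option autoImplicit false

open Real MeasureTheory ProbabilityTheory Set Filter
open scoped Topology

namespace Pool.Agent.GPI

/-- Polar coordinates for homogeneous functions of a planar standard Gaussian vector,
degree above `-2`. -/
lemma gauss2_polar' (f : ℝ × ℝ → ℝ) (h : ℝ → ℝ) (p : ℝ) (hp : -2 < p)
    (hf : ∀ r > 0, ∀ t, f (r * cos t, r * sin t) = r ^ p * h t) :
    ∫ z, f z ∂((gaussianReal 0 1).prod (gaussianReal 0 1))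
      = (2 ^ (p / 2) * Gamma (p / 2 + 1)) * ((2 * π)⁻¹ * ∫ t in Ioo (-π) π, h t) := by
  rw [gauss2_density, ← integral_comp_polarCoord_symm]
  have e1 : ∫ q in polarCoord.target, q.1 • ((2 * π)⁻¹ * exp (-((polarCoord.symm q).1 ^ 2
      + (polarCoord.symm q).2 ^ 2) / 2) * f (polarCoord.symm q))
      = ∫ q in Ioi (0:ℝ) ×ˢ Ioo (-π) π, (q.1 ^ (p + 1) * exp (-(1/2) * q.1 ^ (2:ℝ)))
        * ((2 * π)⁻¹ * h q.2) := by
    rw [polarCoord_target]
    apply setIntegral_congr_fun (measurableSet_Ioi.prod measurableSet_Ioo)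
    intro q hq
    have hq1 : 0 < q.1 := hq.1
    simp only [polarCoord_symm_apply, smul_eq_mul]
    rw [hf q.1 hq1 q.2]
    have h1 : (q.1 * cos q.2) ^ 2 + (q.1 * sin q.2) ^ 2 = q.1 ^ 2 := by
      have := Real.sin_sq_add_cos_sq q.2
      calc (q.1 * cos q.2) ^ 2 + (q.1 * sin q.2) ^ 2 = q.1 ^ 2 * (sin q.2 ^ 2 + cos q.2 ^ 2) := by ring
        _ = _ := by rw [this, mul_one]
    rw [h1, Real.rpow_add hq1, Real.rpow_one, Real.rpow_two]
    have : -(q.1 ^ 2) / 2 = -(1/2) * q.1 ^ 2 := by ring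
    rw [this]
    ring
  rw [e1, Measure.volume_eq_prod, setIntegral_prod_mul (fun x : ℝ => x ^ (p + 1) * exp (-(1/2) * x ^ (2:ℝ)))
    (fun t => (2 * π)⁻¹ * h t)]
  rw [integral_rpow_mul_exp_neg_mul_rpow (by norm_num) (by linarith) (by norm_num),
    integral_const_mul]
  congr 1
  have h2 : (p + 1 + 1) / 2 = p / 2 + 1 := by ring
  have h3 : -(p + 1 + 1) / 2 = -(p / 2 + 1) := by ring
  rw [h2, h3, one_div, Real.inv_rpow (by norm_num), Real.rpow_neg (by norm_num), inv_inv,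
    Real.rpow_add (by norm_num), Real.rpow_one]
  ring

/-- If a homogeneous function of degree `s > -2` times `|z|²` has Gaussian integral zero, then it
has Gaussian integral zero. -/
lemma homog_zero {Φ : ℝ × ℝ → ℝ} {s : ℝ} (hs : -2 < s)
    (hΦ : ∀ r > 0, ∀ z : ℝ × ℝ, Φ (r * z.1, r * z.2) = r ^ s * Φ z)
    (h : ∫ z, (z.1 ^ 2 + z.2 ^ 2) * Φ z ∂(gg.prod gg) = 0) : ∫ z, Φ z ∂(gg.prod gg) = 0 := by
  have h1 := gauss2_polar' Φ (fun t => Φ (cos t, sin t)) s hs (by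
    intro r hr t
    exact hΦ r hr (cos t, sin t))
  have h2 := gauss2_polar' (fun z => (z.1 ^ 2 + z.2 ^ 2) * Φ z) (fun t => Φ (cos t, sin t)) (s + 2)
    (by linarith) (by
    intro r hr t
    simp only
    rw [hΦ r hr (cos t, sin t)]
    have h3 : (r * cos t) ^ 2 + (r * sin t) ^ 2 = r ^ 2 := by
      have := Real.sin_sq_add_cos_sq t
      calc (r * cos t) ^ 2 + (r * sin t) ^ 2 = r ^ 2 * (sin t ^ 2 + cos t ^ 2) := by ring
        _ = _ := by rw [this, mul_one]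
    rw [h3, rpow_add hr, rpow_two]
    ring)
  have h2' : (2 ^ ((s + 2) / 2) * Gamma ((s + 2) / 2 + 1))
      * ((2 * π)⁻¹ * ∫ t in Ioo (-π) π, Φ (cos t, sin t)) = 0 := by
    rw [← h2]; exact h
  have hc : (2:ℝ) ^ ((s + 2) / 2) * Gamma ((s + 2) / 2 + 1) ≠ 0 := by
    have : 0 < Gamma ((s + 2) / 2 + 1) := Gamma_pos_of_pos (by linarith)
    positivity
  have h3 := (mul_eq_zero.1 h2').resolve_left hc
  have h1' : ∫ z, Φ z ∂(gg.prod gg) = (2 ^ (s / 2) * Gamma (s / 2 + 1))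
      * ((2 * π)⁻¹ * ∫ t in Ioo (-π) π, Φ (cos t, sin t)) := h1
  rw [h1', h3, mul_zero]

/-- The two-dimensional integral of `sp r x · ps(x, η)` as an iterated one. -/
lemma integral_sp_ps {p q r w₁ v₁ w₂ v₂ : ℝ} (hp : 0 < p) (hq : 0 < q) (hr : 0 < r)
    (hv₁ : v₁ ≠ 0) (hv₂ : v₂ ≠ 0) :
    ∫ z, sp r z.1 * ps p q w₁ v₁ w₂ v₂ z.1 z.2 ∂(gg.prod gg)
      = ∫ x, sp r x * D1 p q w₁ v₁ w₂ v₂ x ∂gg := by
  obtain ⟨C, K, hC, hK, h⟩ := ps_bound (w₁ := w₁) (w₂ := w₂) hp hq hv₁ hv₂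
  have hm : Measurable (fun z : ℝ × ℝ => sp r z.1 * ps p q w₁ v₁ w₂ v₂ z.1 z.2) :=
    ((measurable_sp r).comp measurable_fst).mul measurable_ps
  have hI : Integrable (fun z : ℝ × ℝ => sp r z.1 * ps p q w₁ v₁ w₂ v₂ z.1 z.2) (gg.prod gg) := by
    rw [integrable_prod_iff hm.aestronglyMeasurable]
    constructor
    · filter_upwards with x
      exact (h x).1.const_mul _
    · refine ((integrable_abs_rpow_poly (r := r - 1) (by linarith) hK).const_mul C).mono' ?_ ?_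
      · exact hm.aestronglyMeasurable.norm.integral_prod_right'
      · filter_upwards with x
        rw [Real.norm_of_nonneg (integral_nonneg (fun s => norm_nonneg _))]
        have e : ∀ y : ℝ, ‖sp r x * ps p q w₁ v₁ w₂ v₂ x y‖ = |sp r x| * |ps p q w₁ v₁ w₂ v₂ x y| := by
          intro y
          rw [norm_mul, Real.norm_eq_abs, Real.norm_eq_abs]
        simp_rw [e]
        rw [integral_const_mul]
        calc _ ≤ |x| ^ (r - 1) * (C * (1 + |x|) ^ K) := by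
              apply mul_le_mul (abs_sp_le r x) (h x).2 (integral_nonneg (fun _ => abs_nonneg _))
              positivity
          _ = _ := by ring
  rw [integral_prod _ hI]
  apply integral_congr_ae
  filter_upwards with x
  unfold D1
  rw [integral_const_mul]

/-- In the plane the first-order conditions give the vanishing of the radial derivative. -/
theorem key_planar {p q r w₁ v₁ w₂ v₂ : ℝ} (hp : 0 < p) (hq : 0 < q) (hr : 0 < r)
    (_hw₁ : w₁ ≠ 0) (_hw₂ : w₂ ≠ 0) (hv₁ : v₁ ≠ 0) (hv₂ : v₂ ≠ 0)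
    (hT3 : ∫ z, sp r z.1 * z.2 * (|w₁ * z.1 + v₁ * z.2| ^ p * |w₂ * z.1 + v₂ * z.2| ^ q)
      ∂(gg.prod gg) = 0)
    (hT1 : ∫ z, sp p (w₁ * z.1 + v₁ * z.2) * (-v₁ * z.1 + w₁ * z.2)
      * (|z.1| ^ r * |w₂ * z.1 + v₂ * z.2| ^ q) ∂(gg.prod gg) = 0)
    (hT2 : ∫ z, sp q (w₂ * z.1 + v₂ * z.2) * (-v₂ * z.1 + w₂ * z.2)
      * (|z.1| ^ r * |w₁ * z.1 + v₁ * z.2| ^ p) ∂(gg.prod gg) = 0)
    (hI3 : Integrable (fun z : ℝ × ℝ => sp r z.1 * z.2
      * (|w₁ * z.1 + v₁ * z.2| ^ p * |w₂ * z.1 + v₂ * z.2| ^ q)) (gg.prod gg))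
    (hI1 : Integrable (fun z : ℝ × ℝ => sp p (w₁ * z.1 + v₁ * z.2) * (-v₁ * z.1 + w₁ * z.2)
      * (|z.1| ^ r * |w₂ * z.1 + v₂ * z.2| ^ q)) (gg.prod gg))
    (hI2 : Integrable (fun z : ℝ × ℝ => sp q (w₂ * z.1 + v₂ * z.2) * (-v₂ * z.1 + w₂ * z.2)
      * (|z.1| ^ r * |w₁ * z.1 + v₁ * z.2| ^ p)) (gg.prod gg)) :
    ∫ x, sp r x * D1 p q w₁ v₁ w₂ v₂ x ∂gg = 0 := by
  rw [← integral_sp_ps hp hq hr hv₁ hv₂]
  apply homog_zero (s := r - 1 + (p + q - 1)) (by linarith)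
  · intro t ht z
    simp only
    rw [sp_homog r ht, ps_homog ht, rpow_add ht]
    ring
  · have e : ∀ z : ℝ × ℝ, (z.1 ^ 2 + z.2 ^ 2) * (sp r z.1 * ps p q w₁ v₁ w₂ v₂ z.1 z.2)
        = (p * w₁ / v₁) * ((sp r z.1 * z.2
            * (|w₁ * z.1 + v₁ * z.2| ^ p * |w₂ * z.1 + v₂ * z.2| ^ q))
          - (sp p (w₁ * z.1 + v₁ * z.2) * (-v₁ * z.1 + w₁ * z.2)
            * (|z.1| ^ r * |w₂ * z.1 + v₂ * z.2| ^ q)))
        + (q * w₂ / v₂) * ((sp r z.1 * z.2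
            * (|w₁ * z.1 + v₁ * z.2| ^ p * |w₂ * z.1 + v₂ * z.2| ^ q))
          - (sp q (w₂ * z.1 + v₂ * z.2) * (-v₂ * z.1 + w₂ * z.2)
            * (|z.1| ^ r * |w₁ * z.1 + v₁ * z.2| ^ p))) := by
      intro z
      have a1 := sp_mul_self hp.ne' (w₁ * z.1 + v₁ * z.2)
      have a2 := sp_mul_self hq.ne' (w₂ * z.1 + v₂ * z.2)
      have a3 := sp_mul_self hr.ne' z.1
      unfold ps
      set A := |w₁ * z.1 + v₁ * z.2| ^ p with hA
      set B := |w₂ * z.1 + v₂ * z.2| ^ q with hB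
      set S1 := sp p (w₁ * z.1 + v₁ * z.2) with hS1
      set S2 := sp q (w₂ * z.1 + v₂ * z.2) with hS2
      set S3 := sp r z.1 with hS3
      have b1 : sp r z.1 * z.2 * (A * B) - S1 * (-v₁ * z.1 + w₁ * z.2) * (|z.1| ^ r * B)
          = v₁ * ((z.1 ^ 2 + z.2 ^ 2) * (S3 * (S1 * B))) := by
        rw [← a1, ← a3]
        ring
      have b2 : sp r z.1 * z.2 * (A * B) - S2 * (-v₂ * z.1 + w₂ * z.2) * (|z.1| ^ r * A)
          = v₂ * ((z.1 ^ 2 + z.2 ^ 2) * (S3 * (S2 * A))) := by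
        rw [← a2, ← a3]
        ring
      rw [← hS3] at b1 b2
      rw [b1, b2]
      field_simp
    simp_rw [e]
    have j1 := (hI3.sub hI1).const_mul (p * w₁ / v₁)
    have j2 := (hI3.sub hI2).const_mul (q * w₂ / v₂)
    have k1 := integral_sub hI3 hI1
    have k2 := integral_sub hI3 hI2
    have k3 := integral_add j1 j2
    simp only [Pi.sub_apply] at k3
    rw [k3, integral_const_mul, integral_const_mul, k1, k2, hT3, hT1, hT2]
    ring

end Pool.Agent.GPI
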