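import Mathlib
import Pool.Agent.GPI.KmonQ

set_option autoImplicit false

open Real MeasureTheory ProbabilityTheory Set Filter
open scoped Topology

namespace Pool.Agent.GPI

lemma gg_Ioi_ne : gg (Ioi (0:ℝ)) ≠ 0 := by
  intro h
  have h1 : (volume : Measure ℝ) ≪ gg := by
    rw [gg]; exact gaussianReal_absolutelyContinuous' 0 one_ne_zero
  have h2 := h1 h
  simp at h2

lemma integral_pos_of_Ioi {F : ℝ → ℝ} (hF : Integrable F gg) (h0 : ∀ᵐ x ∂gg, 0 ≤ F x)
    (hpos : ∀ᵐ x ∂gg, 0 < x → 0 < F x) : 0 < ∫ x, F x ∂gg := by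
  rcases (integral_nonneg_of_ae h0).lt_or_eq with h | h
  · exact h
  · exfalso
    have h1 := (integral_eq_zero_iff_of_nonneg_ae h0 hF).1 h.symm
    have h2 : ∀ᵐ x ∂gg, ¬ (x ∈ Ioi (0:ℝ)) := by
      filter_upwards [h1, hpos] with x hx hx' hx0
      have := hx' hx0
      simp only [Pi.zero_apply] at hx
      linarith
    have h3 : gg (Ioi (0:ℝ)) = 0 := by
      rw [ae_iff] at h2
      simp only [not_not] at h2
      exact h2
    exact gg_Ioi_ne h3

lemma kq_pos {q : ℝ} (hq : 0 < q) {σ m : ℝ} (h : σ ≠ 0 ∨ m ≠ 0) :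
    0 < ∫ g, |m + σ * g| ^ q ∂gg := by
  have hPB : PB (fun y : ℝ => |y| ^ q) := by simpa using PB_shift_rpow (q := q) hq.le 0
  have hI : Integrable (fun g => |m + σ * g| ^ q) gg := hPB.integrable_shift σ m
  have hpos : ∀ᵐ g ∂gg, 0 < |m + σ * g| ^ q := by
    by_cases hσ : σ = 0
    · have hm : m ≠ 0 := by
        rcases h with h | h
        · exact absurd hσ h
        · exact h
      filter_upwards with g
      rw [hσ]
      have : m + 0 * g ≠ 0 := by simpa using hm
      exact rpow_pos_of_pos (abs_pos.2 this) _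
    · filter_upwards [ae_gg_ne (-m / σ)] with g hg
      apply rpow_pos_of_pos
      apply abs_pos.2
      intro h0
      apply hg
      rw [eq_div_iff hσ]
      linarith
  refine integral_pos_of_Ioi hI ?_ ?_
  · filter_upwards [hpos] with g hg using hg.le
  · filter_upwards [hpos] with g hg _ using hg

lemma abs_lin_mono {a b x g : ℝ} (ha : 0 ≤ a) (hb : 0 ≤ b) (h : 0 ≤ x * g) :
    |a * x + b * (-g)| ≤ |a * x + b * g| := by
  rw [← sq_le_sq]
  nlinarith [mul_nonneg (mul_nonneg ha hb) h]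

/-- Pairing a configuration with its reflection: the strict sign claim. -/
theorem pos_S {p q r ρ1 s0 ρ2 τ σ : ℝ} (hp : 0 < p) (hq : 0 < q) (_hr : 0 < r) (h1 : 0 < ρ1)
    (hs : 0 < s0) (h2 : 0 ≤ ρ2) (hτ : 0 ≤ τ) (hu : ρ2 ^ 2 + τ ^ 2 + σ ^ 2 = 1)
    (hI : Integrable (fun x : ℝ × ℝ × ℝ => sp r x.1 * x.2.1
      * (|ρ1 * x.1 + s0 * x.2.1| ^ p * |ρ2 * x.1 + τ * x.2.1 + σ * x.2.2| ^ q))
      (gg.prod (gg.prod gg))) :
    0 < ∫ x, sp r x.1 * x.2.1 * (|ρ1 * x.1 + s0 * x.2.1| ^ p
      * |ρ2 * x.1 + τ * x.2.1 + σ * x.2.2| ^ q) ∂(gg.prod (gg.prod gg)) := by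
  set k : ℝ → ℝ := fun m => ∫ η, |m + σ * η| ^ q ∂gg with hk
  have hk0 : ∀ m, 0 ≤ k m := fun m => integral_nonneg (fun η => by positivity)
  have hkm : ∀ m m', |m| ≤ |m'| → k m ≤ k m' := fun m m' h => kmon hq.le σ h
  set J : ℝ → ℝ → ℝ := fun x g => sp r x * g * (|ρ1 * x + s0 * g| ^ p * k (ρ2 * x + τ * g)) with hJ
  set f : ℝ × ℝ × ℝ → ℝ := fun x => sp r x.1 * x.2.1
      * (|ρ1 * x.1 + s0 * x.2.1| ^ p * |ρ2 * x.1 + τ * x.2.1 + σ * x.2.2| ^ q) with hf
  have hη : ∀ x g : ℝ, ∫ η, f (x, g, η) ∂gg = J x g := by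
    intro x g
    simp only [hf, hJ, hk]
    rw [integral_const_mul, integral_const_mul]
  -- integrate out the last variable
  have hae := hI.prod_right_ae
  have hgood : ∀ᵐ x ∂gg, Integrable (J x) gg ∧ ∫ y, f (x, y) ∂(gg.prod gg) = ∫ g, J x g ∂gg := by
    filter_upwards [hae] with x hx
    have e1 := integral_prod _ hx
    have e2 := hx.integral_prod_left
    simp only [hη] at e1 e2
    exact ⟨e2, e1⟩
  -- the inner integral
  have hH : ∀ x, Integrable (J x) gg → 0 ≤ ∫ g, J x g ∂gg ∧ (0 < x → 0 < ∫ g, J x g ∂gg) := by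
    intro x hx
    have hx' := integrable_gg_neg hx
    have e : ∫ g, (J x g + J x (-g)) ∂gg = 2 * ∫ g, J x g ∂gg := by
      rw [integral_add hx hx', integral_gg_neg]; ring
    have hpt : ∀ g, J x g + J x (-g) = sp r x * g * (|ρ1 * x + s0 * g| ^ p * k (ρ2 * x + τ * g)
        - |ρ1 * x + s0 * (-g)| ^ p * k (ρ2 * x + τ * (-g))) := by
      intro g; simp only [hJ]; ring
    have hnn : ∀ g, 0 ≤ J x g + J x (-g) := by
      intro g
      rw [hpt]
      have hsp : sp r x * g = |x| ^ (r - 2) * (x * g) := by unfold sp; ring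
      have hx2 : 0 ≤ |x| ^ (r - 2) := rpow_nonneg (abs_nonneg _) _
      rw [hsp]
      rcases le_total 0 (x * g) with hxg | hxg
      · have a1 := rpow_le_rpow (abs_nonneg _) (abs_lin_mono h1.le hs.le hxg) hp.le
        have a2 := hkm _ _ (abs_lin_mono h2 hτ hxg)
        have a3 : |ρ1 * x + s0 * (-g)| ^ p * k (ρ2 * x + τ * (-g))
            ≤ |ρ1 * x + s0 * g| ^ p * k (ρ2 * x + τ * g) :=
          mul_le_mul a1 a2 (hk0 _) (by positivity)
        exact mul_nonneg (mul_nonneg hx2 hxg) (by linarith)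
      · have hxg' : 0 ≤ x * (-g) := by linarith
        have b1 := abs_lin_mono h1.le hs.le hxg'
        have b2 := abs_lin_mono h2 hτ hxg'
        rw [neg_neg] at b1 b2
        have a1 := rpow_le_rpow (abs_nonneg _) b1 hp.le
        have a2 := hkm _ _ b2
        have a3 : |ρ1 * x + s0 * g| ^ p * k (ρ2 * x + τ * g)
            ≤ |ρ1 * x + s0 * (-g)| ^ p * k (ρ2 * x + τ * (-g)) :=
          mul_le_mul a1 a2 (hk0 _) (by positivity)
        exact mul_nonneg_of_nonpos_of_nonpos (mul_nonpos_of_nonneg_of_nonpos hx2 hxg) (by linarith)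
    constructor
    · have : 0 ≤ ∫ g, (J x g + J x (-g)) ∂gg := integral_nonneg hnn
      linarith
    · intro hx0
      have hpos : 0 < ∫ g, (J x g + J x (-g)) ∂gg := by
        refine integral_pos_of_Ioi (hx.add hx') (Eventually.of_forall hnn) ?_
        filter_upwards with g hg
        rw [hpt]
        have hxg : 0 < x * g := mul_pos hx0 hg
        have hsp : sp r x * g = |x| ^ (r - 2) * (x * g) := by unfold sp; ring
        have hx2 : 0 < |x| ^ (r - 2) := rpow_pos_of_pos (abs_pos.2 hx0.ne') _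
        rw [hsp]
        have c1 : |ρ1 * x + s0 * (-g)| < |ρ1 * x + s0 * g| := by
          rw [← sq_lt_sq]
          nlinarith [mul_pos (mul_pos h1 hs) hxg]
        have a1 := rpow_lt_rpow (abs_nonneg _) c1 hp
        have a2 := hkm _ _ (abs_lin_mono h2 hτ hxg.le)
        have k1 : 0 < k (ρ2 * x + τ * g) := by
          apply kq_pos hq
          by_cases hσ : σ = 0
          · right
            intro h0
            have t1 : 0 ≤ ρ2 * x := by positivity
            have t2 : 0 ≤ τ * g := mul_nonneg hτ (le_of_lt hg)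
            have t3 : ρ2 * x = 0 := by linarith
            have t4 : τ * g = 0 := by linarith
            have t5 : ρ2 = 0 := (mul_eq_zero.1 t3).resolve_right hx0.ne'
            have t6 : τ = 0 := (mul_eq_zero.1 t4).resolve_right (ne_of_gt hg)
            rw [hσ, t5, t6] at hu
            norm_num at hu
          · exact Or.inl hσ
        have a3 : |ρ1 * x + s0 * (-g)| ^ p * k (ρ2 * x + τ * (-g))
            < |ρ1 * x + s0 * g| ^ p * k (ρ2 * x + τ * g) :=
          calc _ ≤ |ρ1 * x + s0 * (-g)| ^ p * k (ρ2 * x + τ * g) := by gcongr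
            _ < _ := mul_lt_mul_of_pos_right a1 k1
        exact mul_pos (mul_pos hx2 hxg) (by linarith)
      linarith
  rw [integral_prod _ hI]
  have hint := hI.integral_prod_left
  refine integral_pos_of_Ioi hint ?_ ?_
  · filter_upwards [hgood] with x hx
    have : ∫ y, f (x, y) ∂(gg.prod gg) = ∫ g, J x g ∂gg := hx.2
    change 0 ≤ ∫ y, f (x, y) ∂(gg.prod gg)
    rw [this]
    exact (hH x hx.1).1
  · filter_upwards [hgood] with x hx hx0
    change 0 < ∫ y, f (x, y) ∂(gg.prod gg)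
    rw [hx.2]
    exact (hH x hx.1).2 hx0

end Pool.Agent.GPI
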