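import Mathlib
import Pool.Agent.GPI.Centre
import Pool.Agent.GPI.PosS
import Pool.Agent.GPI.Planar

set_option autoImplicit false

open Real MeasureTheory ProbabilityTheory Set Filter
open scoped Topology

namespace Pool.Agent.GPI

/-- No minimiser with nonnegative partial correlation. -/
lemma no_S {p q r : ℝ} (hp : 0 < p) (hq : 0 < q) (hr : 0 < r) {u v w : ℝ × ℝ × ℝ}
    (hu : dot u u = 1) (hv : dot v v = 1) (hw : dot w w = 1)
    (hmin : ∀ u' v' w' : ℝ × ℝ × ℝ, dot u' u' = 1 → dot v' v' = 1 → dot w' w' = 1 →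
      Q3 p q r u v w ≤ Q3 p q r u' v' w')
    (h1 : 0 < dot u w) (h1' : dot u w < 1) (h2 : 0 ≤ dot v w)
    (hκ : 0 ≤ dot u v - dot u w * dot v w) : False := by
  have hg := gram_det hu hv hw
  set ρ1 := dot u w with hρ1
  set ρ2 := dot v w with hρ2
  set κ := dot u v - ρ1 * ρ2 with hκd
  have hN1 : 0 < 1 - ρ1 ^ 2 := by nlinarith
  set s0 := √(1 - ρ1 ^ 2) with hs0
  have hs0p : 0 < s0 := Real.sqrt_pos.2 hN1
  have hs02 : s0 ^ 2 = 1 - ρ1 ^ 2 := Real.sq_sqrt hN1.le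
  set τ := κ / s0 with hτ
  have hτ0 : 0 ≤ τ := by positivity
  have hτ2 : τ * s0 = κ := by rw [hτ]; field_simp
  have hτle : τ ^ 2 ≤ 1 - ρ2 ^ 2 := by
    have : τ ^ 2 * s0 ^ 2 ≤ (1 - ρ2 ^ 2) * s0 ^ 2 := by
      calc τ ^ 2 * s0 ^ 2 = (τ * s0) ^ 2 := by ring
        _ = κ ^ 2 := by rw [hτ2]
        _ ≤ (1 - ρ1 ^ 2) * (1 - ρ2 ^ 2) := hg
        _ = _ := by rw [hs02]; ring
    exact le_of_mul_le_mul_right this (by positivity)
  set σ := √(1 - ρ2 ^ 2 - τ ^ 2) with hσ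
  have hσ2 : σ ^ 2 = 1 - ρ2 ^ 2 - τ ^ 2 := Real.sq_sqrt (by linarith)
  have huv : dot u v = κ + ρ1 * ρ2 := by rw [hκd]; ring
  have e1 : Q3 p q r u v w = Q3 p q r (ρ1, s0, 0) (ρ2, τ, σ) (1, 0, 0) := by
    apply Q3_congr
    · rw [hu]; simp only [dot]; nlinarith
    · rw [hv]; simp only [dot]; nlinarith
    · rw [hw]; simp [dot]
    · rw [huv, ← hτ2]; simp only [dot]; ring
    · rw [← hρ1]; simp [dot]
    · rw [← hρ2]; simp [dot]
  have hu' : dot (ρ1, s0, 0) (ρ1, s0, 0) = 1 := by simp only [dot]; nlinarith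
  have hv' : dot (ρ2, τ, σ) (ρ2, τ, σ) = 1 := by simp only [dot]; nlinarith
  obtain ⟨hI, h0⟩ := fo_P3 hp.le hq.le hr hu' hv' (fun w' hw' => by
    rw [← e1]; exact hmin _ _ _ hu' hv' hw')
  have ed1 : ∀ x : ℝ × ℝ × ℝ, dot (ρ1, s0, 0) x = ρ1 * x.1 + s0 * x.2.1 := by
    intro x; simp only [dot]; ring
  have ed2 : ∀ x : ℝ × ℝ × ℝ, dot (ρ2, τ, σ) x = ρ2 * x.1 + τ * x.2.1 + σ * x.2.2 := by
    intro x; simp only [dot]
  simp_rw [ed1, ed2] at hI h0
  have hpos := pos_S hp hq hr h1 hs0p h2 hτ0 (by linarith) hI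
  linarith

/-- Structure of a minimiser seen from the centre `w`. -/
def NFprop (p q r : ℝ) (m : ℝ) : Prop :=
  ∃ w₁ v₁ w₂ v₂ l : ℝ, 0 < w₁ ∧ 0 < w₂ ∧ 0 < v₁ ∧ v₂ < 0 ∧ 0 ≤ l ∧
    dot (w₁, w₁ * l, v₁) (w₁, w₁ * l, v₁) = 1 ∧ dot (w₂, w₂ * l, v₂) (w₂, w₂ * l, v₂) = 1 ∧
    m = Q3 p q r (w₁, w₁ * l, v₁) (w₂, w₂ * l, v₂) (1, 0, 0) ∧
    ∫ x, sp r x * sm l (D1 p q w₁ v₁ w₂ v₂) x ∂gg = 0

lemma centre_nf {p q r : ℝ} (hp : 0 < p) (hq : 0 < q) (hr : 0 < r) {u v w : ℝ × ℝ × ℝ}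
    (hu : dot u u = 1) (hv : dot v v = 1) (hw : dot w w = 1)
    (hmin : ∀ u' v' w' : ℝ × ℝ × ℝ, dot u' u' = 1 → dot v' v' = 1 → dot w' w' = 1 →
      Q3 p q r u v w ≤ Q3 p q r u' v' w')
    (h1 : 0 < dot u w) (h1' : dot u w < 1) (h2 : 0 < dot v w) (h2' : dot v w < 1)
    (hκ : dot u v - dot u w * dot v w < 0) : NFprop p q r (Q3 p q r u v w) := by
  have hg := gram_det hu hv hw
  set ρ1 := dot u w with hρ1
  set ρ2 := dot v w with hρ2
  set κ := dot u v - ρ1 * ρ2 with hκd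
  have hN1 : 0 < 1 - ρ1 ^ 2 := by nlinarith
  have hN2 : 0 < 1 - ρ2 ^ 2 := by nlinarith
  obtain ⟨v₁, v₂, l, hv₁, hv₂, hl, g1, g2, g3⟩ := nf_exists h1 h2 hκ hN1 hN2 hg
  have huv : dot u v = κ + ρ1 * ρ2 := by rw [hκd]; ring
  have hu' : dot (ρ1, ρ1 * l, v₁) (ρ1, ρ1 * l, v₁) = 1 := by simp only [dot]; nlinarith
  have hv' : dot (ρ2, ρ2 * l, v₂) (ρ2, ρ2 * l, v₂) = 1 := by simp only [dot]; nlinarith
  have hw' : dot (1, 0, 0) (1, 0, 0) = 1 := by simp [dot]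
  have e1 : Q3 p q r u v w = Q3 p q r (ρ1, ρ1 * l, v₁) (ρ2, ρ2 * l, v₂) (1, 0, 0) := by
    apply Q3_congr
    · rw [hu, hu']
    · rw [hv, hv']
    · rw [hw, hw']
    · rw [huv]; simp only [dot]; nlinarith
    · rw [← hρ1]; simp [dot]
    · rw [← hρ2]; simp [dot]
  refine ⟨ρ1, v₁, ρ2, v₂, l, h1, h2, hv₁, hv₂, hl, hu', hv', e1, ?_⟩
  rcases eq_or_lt_of_le hl with h | h
  · -- planar
    rw [← h] at e1 g1 g2
    rw [mul_zero, mul_zero] at e1
    have n1 : ρ1 ^ 2 + v₁ ^ 2 = 1 := by nlinarith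
    have n2 : ρ2 ^ 2 + v₂ ^ 2 = 1 := by nlinarith
    have u1 : dot (ρ1, 0, v₁) (ρ1, 0, v₁) = 1 := by simp only [dot]; nlinarith
    have u2 : dot (ρ2, 0, v₂) (ρ2, 0, v₂) = 1 := by simp only [dot]; nlinarith
    have hsm : sm l (D1 p q ρ1 v₁ ρ2 v₂) = D1 p q ρ1 v₁ ρ2 v₂ := by
      ext x
      unfold sm
      rw [← h]
      simp only [zero_mul, add_zero]
      rw [integral_const, probReal_univ, one_smul]
    rw [hsm]
    obtain ⟨hI3, hT3⟩ := fo_P2 hp.le hq.le hr (a := 1) (b := 0) (c := ρ1) (d := v₁) (c' := ρ2)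
      (d' := v₂) (by norm_num) n1 n2 (fun w' hw'' => by
        rw [← e1]; exact hmin _ _ _ u1 u2 hw'')
    obtain ⟨hI1, hT1⟩ := fo_P2 hr.le hq.le hp (a := ρ1) (b := v₁) (c := 1) (d := 0) (c' := ρ2)
      (d' := v₂) n1 (by norm_num) n2 (fun w' hw'' => by
        rw [Q3_swap13, ← e1, Q3_swap13 r]; exact hmin _ _ _ hw'' u2 hw')
    obtain ⟨hI2, hT2⟩ := fo_P2 hr.le hp.le hq (a := ρ2) (b := v₂) (c := 1) (d := 0) (c' := ρ1)
      (d' := v₁) n2 (by norm_num) n1 (fun w' hw'' => by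
        rw [Q3_swap13, Q3_swap12, ← e1, Q3_swap13 r, Q3_swap12 q]
        exact hmin _ _ _ u1 hw'' hw')
    refine key_planar hp hq hr h1.ne' h2.ne' hv₁.ne' hv₂.ne ?_ ?_ ?_ ?_ ?_ ?_
    · rw [← hT3]
      congr 1
      ext z
      simp
    · rw [← hT1]
      congr 1
      ext z
      simp
    · rw [← hT2]
      congr 1
      ext z
      simp
    · refine hI3.congr ?_
      filter_upwards with z
      simp
    · refine hI1.congr ?_
      filter_upwards with z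
      simp
    · refine hI2.congr ?_
      filter_upwards with z
      simp
  · obtain ⟨hI, h0⟩ := fo_P3 hp.le hq.le hr hu' hv' (fun w' hw'' => by
      rw [← e1]; exact hmin _ _ _ hu' hv' hw'')
    exact key_pos hp hq h1.ne' h2.ne' hv₁.ne' hv₂.ne h.ne' hI h0

lemma dot_le_one {u w : ℝ × ℝ × ℝ} (hu : dot u u = 1) (hw : dot w w = 1) : dot u w ≤ 1 := by
  have := dot_sq_le u w
  rw [hu, hw] at this
  nlinarith

lemma centre_pos {p q r : ℝ} (hp : 0 < p) (hq : 0 < q) (hr : 0 < r) {u v w : ℝ × ℝ × ℝ}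
    (hu : dot u u = 1) (hv : dot v v = 1) (hw : dot w w = 1)
    (hmin : ∀ u' v' w' : ℝ × ℝ × ℝ, dot u' u' = 1 → dot v' v' = 1 → dot w' w' = 1 →
      Q3 p q r u v w ≤ Q3 p q r u' v' w')
    (h1 : 0 ≤ dot u w) (h2 : 0 ≤ dot v w) :
    km (p / 2) * km (q / 2) * km (r / 2) ≤ Q3 p q r u v w ∨ NFprop p q r (Q3 p q r u v w) := by
  have hswap : ∀ u' v' w' : ℝ × ℝ × ℝ, dot u' u' = 1 → dot v' v' = 1 → dot w' w' = 1 →
      Q3 q p r v u w ≤ Q3 q p r u' v' w' := by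
    intro u' v' w' hu' hv' hw'
    rw [Q3_swap12 q p r v u w, Q3_swap12 q p r u' v' w']
    exact hmin _ _ _ hv' hu' hw'
  have hnu : dot (-u) (-u) = 1 := by rw [dot_neg_left, dot_neg_right, neg_neg, hu]
  have hnv : dot (-v) (-v) = 1 := by rw [dot_neg_left, dot_neg_right, neg_neg, hv]
  rcases eq_or_lt_of_le (dot_le_one hu hw) with a1 | a1
  · left; exact coincide hp.le hq.le hr.le hu hv hw a1
  rcases eq_or_lt_of_le (dot_le_one hv hw) with a2 | a2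
  · left
    have := coincide hq.le hp.le hr.le hv hu hw a2
    rw [Q3_swap12 p q r u v w]
    linarith [mul_comm (km (p / 2)) (km (q / 2))]
  rcases eq_or_lt_of_le h1 with b1 | b1 <;> rcases eq_or_lt_of_le h2 with b2 | b2
  · left; exact orth hp.le hq.le hr.le hu hv hw b1.symm b2.symm
  · -- dot u w = 0 < dot v w
    exfalso
    rcases le_or_gt 0 (dot v u - dot v w * dot u w) with c | c
    · exact no_S hq hp hr hv hu hw hswap b2 a2 h1 c
    · apply no_S hq hp hr hv hnu hw (fun u' v' w' hu' hv' hw' => by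
        rw [Q3_neg2]; exact hswap _ _ _ hu' hv' hw') b2 a2
      · rw [dot_neg_left, ← b1]; simp
      · rw [dot_neg_right, dot_neg_left, ← b1]
        rw [← b1] at c
        linarith
  · exfalso
    rcases le_or_gt 0 (dot u v - dot u w * dot v w) with c | c
    · exact no_S hp hq hr hu hv hw hmin b1 a1 h2 c
    · apply no_S hp hq hr hu hnv hw (fun u' v' w' hu' hv' hw' => by
        rw [Q3_neg2]; exact hmin _ _ _ hu' hv' hw') b1 a1
      · rw [dot_neg_left, ← b2]; simp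
      · rw [dot_neg_right, dot_neg_left, ← b2]
        rw [← b2] at c
        linarith
  · rcases le_or_gt 0 (dot u v - dot u w * dot v w) with c | c
    · exact absurd (no_S hp hq hr hu hv hw hmin b1 a1 h2 c) id
    · right
      exact centre_nf hp hq hr hu hv hw hmin b1 a1 b2 a2 c

theorem centre {p q r : ℝ} (hp : 0 < p) (hq : 0 < q) (hr : 0 < r) {u v w : ℝ × ℝ × ℝ}
    (hu : dot u u = 1) (hv : dot v v = 1) (hw : dot w w = 1)
    (hmin : ∀ u' v' w' : ℝ × ℝ × ℝ, dot u' u' = 1 → dot v' v' = 1 → dot w' w' = 1 →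
      Q3 p q r u v w ≤ Q3 p q r u' v' w') :
    km (p / 2) * km (q / 2) * km (r / 2) ≤ Q3 p q r u v w ∨ NFprop p q r (Q3 p q r u v w) := by
  have hnu : dot (-u) (-u) = 1 := by rw [dot_neg_left, dot_neg_right, neg_neg, hu]
  have hnv : dot (-v) (-v) = 1 := by rw [dot_neg_left, dot_neg_right, neg_neg, hv]
  rcases le_total 0 (dot u w) with h1 | h1 <;> rcases le_total 0 (dot v w) with h2 | h2
  · exact centre_pos hp hq hr hu hv hw hmin h1 h2
  · have := centre_pos hp hq hr hu hnv hw (fun u' v' w' hu' hv' hw' => by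
        rw [Q3_neg2]; exact hmin _ _ _ hu' hv' hw') h1 (by rw [dot_neg_left]; linarith)
    rwa [Q3_neg2] at this
  · have := centre_pos hp hq hr hnu hv hw (fun u' v' w' hu' hv' hw' => by
        rw [Q3_neg1]; exact hmin _ _ _ hu' hv' hw') (by rw [dot_neg_left]; linarith) h2
    rwa [Q3_neg1] at this
  · have := centre_pos hp hq hr hnu hnv hw (fun u' v' w' hu' hv' hw' => by
        rw [Q3_neg1, Q3_neg2]; exact hmin _ _ _ hu' hv' hw') (by rw [dot_neg_left]; linarith)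
        (by rw [dot_neg_left]; linarith)
    rwa [Q3_neg1, Q3_neg2] at this

end Pool.Agent.GPI
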