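import Mathlib

set_option autoImplicit false

open Real MeasureTheory intervalIntegral Finset

namespace Pool.Agent.GPI

/-- The circle integral of the product of even powers of shifted cosines. -/
noncomputable def cI {d : ℕ} (θ : Fin d → ℝ) (ν : Fin d → ℕ) : ℝ :=
  ∫ t in (0:ℝ)..(2 * π), ∏ i, (cos (t - θ i)) ^ (2 * ν i)

variable {d : ℕ}

lemma cI_continuous (ν : Fin d → ℕ) : Continuous (fun θ : Fin d → ℝ => cI θ ν) := by
  unfold cI
  apply intervalIntegral.continuous_parametric_intervalIntegral_of_continuous'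
  fun_prop

/-- The critical integrand. -/
noncomputable def cC (θ : Fin d → ℝ) (ν : Fin d → ℕ) (i : Fin d) : ℝ :=
  ∫ t in (0:ℝ)..(2 * π), sin (t - θ i) * cos (t - θ i) ^ (2 * ν i - 1)
    * ∏ j ∈ univ.erase i, (cos (t - θ j)) ^ (2 * ν j)

lemma prod_split (f : Fin d → ℝ) (i : Fin d) : ∏ j, f j = f i * ∏ j ∈ univ.erase i, f j :=
  (Finset.mul_prod_erase univ f (mem_univ i)).symm

lemma cI_update_hasDerivAt (θ : Fin d → ℝ) (ν : Fin d → ℕ) (i : Fin d) :
    HasDerivAt (fun s : ℝ => cI (Function.update θ i s) ν) (2 * ν i * cC θ ν i) (θ i) := by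
  have key : (fun s : ℝ => cI (Function.update θ i s) ν) = fun s : ℝ =>
      ∫ t in (0:ℝ)..(2 * π), (cos (t - s)) ^ (2 * ν i)
        * ∏ j ∈ univ.erase i, (cos (t - θ j)) ^ (2 * ν j) := by
    funext s
    unfold cI
    apply intervalIntegral.integral_congr
    intro t _
    simp only
    rw [prod_split _ i]
    congr 1
    · simp
    · apply Finset.prod_congr rfl
      intro j hj
      rw [Function.update_of_ne (Finset.ne_of_mem_erase hj)]
  rw [key]
  have h := intervalIntegral.hasDerivAt_integral_of_dominated_loc_of_deriv_le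
    (μ := volume) (a := 0) (b := 2 * π) (s := Set.univ) (x₀ := θ i)
    (F := fun s t => (cos (t - s)) ^ (2 * ν i)
        * ∏ j ∈ univ.erase i, (cos (t - θ j)) ^ (2 * ν j))
    (F' := fun s t => (2 * ν i * (sin (t - s) * cos (t - s) ^ (2 * ν i - 1)))
        * ∏ j ∈ univ.erase i, (cos (t - θ j)) ^ (2 * ν j))
    (bound := fun _ => 2 * ν i) Filter.univ_mem ?_ ?_ ?_ ?_ ?_ ?_
  · refine h.2.congr_deriv ?_
    unfold cC
    rw [← intervalIntegral.integral_const_mul]
    apply intervalIntegral.integral_congr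
    intro t _
    simp only
    ring
  · filter_upwards with s
    exact (by fun_prop : Continuous _).aestronglyMeasurable
  · exact (by fun_prop : Continuous _).intervalIntegrable _ _
  · exact (by fun_prop : Continuous _).aestronglyMeasurable
  · filter_upwards with t _ s _
    rw [Real.norm_eq_abs, abs_mul]
    have h1 : |∏ j ∈ univ.erase i, (cos (t - θ j)) ^ (2 * ν j)| ≤ 1 := by
      rw [Finset.abs_prod]
      apply Finset.prod_le_one
      · intros; positivity
      · intro j _
        rw [abs_pow]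
        exact pow_le_one₀ (abs_nonneg _) (abs_cos_le_one _)
    have h2 : |2 * (ν i : ℝ) * (sin (t - s) * cos (t - s) ^ (2 * ν i - 1))| ≤ 2 * ν i := by
      have : |sin (t - s)| * |cos (t - s) ^ (2 * ν i - 1)| ≤ 1 := by
        apply mul_le_one₀ (abs_sin_le_one _) (abs_nonneg _)
        rw [abs_pow]
        exact pow_le_one₀ (abs_nonneg _) (abs_cos_le_one _)
      have h3 : |2 * (ν i : ℝ)| = 2 * ν i := abs_of_nonneg (by positivity)
      rw [abs_mul, abs_mul (sin (t - s)), h3]
      nlinarith [(by positivity : (0:ℝ) ≤ 2 * ν i)]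
    calc _ ≤ 2 * (ν i : ℝ) * 1 := by
          apply mul_le_mul h2 h1 (abs_nonneg _) (by positivity)
      _ = _ := by ring
  · exact intervalIntegrable_const
  · filter_upwards with t _ s _
    apply HasDerivAt.mul_const
    have h1 : HasDerivAt (fun s : ℝ => cos (t - s)) (sin (t - s)) s := by
      have h := ((hasDerivAt_id' s).const_sub t).cos
      refine h.congr_deriv ?_
      simp
    refine (h1.fun_pow (2 * ν i)).congr_deriv ?_
    push_cast
    ring

/-- The mixed integrand. -/
noncomputable def cB (θ : Fin d → ℝ) (ν : Fin d → ℕ) (i j : Fin d) : ℝ :=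
  ∫ t in (0:ℝ)..(2 * π), sin (t - θ i) * cos (t - θ i) ^ (2 * ν i - 1)
    * (sin (t - θ j) * cos (t - θ j) ^ (2 * ν j - 1))
    * ∏ l ∈ (univ.erase i).erase j, (cos (t - θ l)) ^ (2 * ν l)

lemma prod_split2 (f : Fin d → ℝ) {i j : Fin d} (h : j ≠ i) :
    ∏ l ∈ univ.erase i, f l = f j * ∏ l ∈ (univ.erase i).erase j, f l :=
  (Finset.mul_prod_erase _ f (Finset.mem_erase.2 ⟨h, mem_univ j⟩)).symm

lemma cB_of_ne {θ : Fin d → ℝ} {ν : Fin d → ℕ} {i j : Fin d} (hij : j ≠ i)
    (hi : 1 ≤ ν i) (hj : 1 ≤ ν j) (hs : sin (θ j - θ i) ≠ 0)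
    (h1 : cC θ ν i = 0) (h2 : cC θ ν j = 0) : cB θ ν i j = - cI θ ν := by
  have key : sin (θ j - θ i) * cB θ ν i j
      = cos (θ j - θ i) * (cC θ ν i - cC θ ν j) - sin (θ j - θ i) * cI θ ν := by
    unfold cB cC cI
    rw [← intervalIntegral.integral_sub, ← intervalIntegral.integral_const_mul,
      ← intervalIntegral.integral_const_mul, ← intervalIntegral.integral_const_mul,
      ← intervalIntegral.integral_sub]
    · apply intervalIntegral.integral_congr
      intro t _
      simp only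
      obtain ⟨a, ha⟩ : ∃ a, ν i = a + 1 := ⟨ν i - 1, by omega⟩
      obtain ⟨b, hb⟩ : ∃ b, ν j = b + 1 := ⟨ν j - 1, by omega⟩
      rw [prod_split _ i, prod_split2 _ hij, prod_split2 _ hij.symm, Finset.erase_right_comm]
      rw [ha, hb, show 2 * (a + 1) - 1 = 2 * a + 1 by omega,
        show 2 * (b + 1) - 1 = 2 * b + 1 by omega]
      set W := ∏ l ∈ (univ.erase j).erase i, cos (t - θ l) ^ (2 * ν l)
      have e1 : sin (θ j - θ i) = sin (t - θ i) * cos (t - θ j) - cos (t - θ i) * sin (t - θ j) := by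
        rw [← Real.sin_sub]; congr 1; ring
      have e2 : cos (θ j - θ i) = cos (t - θ i) * cos (t - θ j) + sin (t - θ i) * sin (t - θ j) := by
        rw [← Real.cos_sub]; congr 1; ring
      rw [e1, e2]
      ring
    all_goals exact (by fun_prop : Continuous _).intervalIntegrable _ _
  rw [h1, h2] at key
  have : sin (θ j - θ i) * (cB θ ν i j + cI θ ν) = 0 := by linarith
  rcases mul_eq_zero.1 this with h | h
  · exact absurd h hs
  · linarith

lemma cB_of_eq {θ : Fin d → ℝ} {ν : Fin d → ℕ} {i j : Fin d} (hij : j ≠ i)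
    (hi : 1 ≤ ν i) (hj : 1 ≤ ν j) (hs : sin (θ j - θ i) = 0) :
    cB θ ν i j = cI θ (Function.update ν i (ν i - 1)) - cI θ ν := by
  unfold cB cI
  rw [← intervalIntegral.integral_sub]
  · apply intervalIntegral.integral_congr
    intro t _
    simp only
    obtain ⟨a, ha⟩ : ∃ a, ν i = a + 1 := ⟨ν i - 1, by omega⟩
    obtain ⟨b, hb⟩ : ∃ b, ν j = b + 1 := ⟨ν j - 1, by omega⟩
    rw [prod_split _ i, prod_split2 _ hij, prod_split (fun l => cos (t - θ l) ^ (2 * ν l)) i,
      prod_split2 (fun l => cos (t - θ l) ^ (2 * ν l)) hij]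
    have hW : ∏ l ∈ (univ.erase i).erase j,
        cos (t - θ l) ^ (2 * Function.update ν i (ν i - 1) l)
        = ∏ l ∈ (univ.erase i).erase j, cos (t - θ l) ^ (2 * ν l) := by
      apply Finset.prod_congr rfl
      intro l hl
      rw [Function.update_of_ne (Finset.ne_of_mem_erase (Finset.mem_of_mem_erase hl))]
    rw [hW, Function.update_self, Function.update_of_ne hij, ha, hb,
      show 2 * (a + 1) - 1 = 2 * a + 1 by omega,
      show 2 * (b + 1) - 1 = 2 * b + 1 by omega, show a + 1 - 1 = a by omega]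
    set W := ∏ l ∈ (univ.erase i).erase j, cos (t - θ l) ^ (2 * ν l)
    have e0 : t - θ j = (t - θ i) - (θ j - θ i) := by ring
    have e1 : sin (t - θ j) = sin (t - θ i) * cos (θ j - θ i) := by
      rw [e0, Real.sin_sub, hs]; ring
    have e2 : cos (t - θ j) = cos (t - θ i) * cos (θ j - θ i) := by
      rw [e0, Real.cos_sub, hs]; ring
    rw [e1, e2]
    have hc : cos (θ j - θ i) ^ 2 = 1 := by
      have := Real.sin_sq_add_cos_sq (θ j - θ i)
      rw [hs] at this
      linarith
    have hx := Real.sin_sq_add_cos_sq (t - θ i)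
    set C := cos (θ j - θ i)
    set X := cos (t - θ i)
    have hx' : sin (t - θ i) ^ 2 = 1 - X ^ 2 := by linarith
    have hCb : (C : ℝ) ^ (2 * b) = 1 := by rw [pow_mul, hc, one_pow]
    have : sin (t - θ i) * X ^ (2 * a + 1) * (sin (t - θ i) * C * (X * C) ^ (2 * b + 1)) * W
        = (sin (t - θ i)) ^ 2 * (C ^ 2 * C ^ (2 * b)) * (X ^ (2 * a + 1) * X ^ (2 * b + 1)) * W := by
      ring
    rw [this, hx', hc, hCb]
    have h3 : (X * C) ^ (2 * (b + 1)) = X ^ (2 * (b + 1)) * (C ^ 2 * C ^ (2 * b)) := by ring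
    rw [h3, hc, hCb]
    ring
  all_goals exact (by fun_prop : Continuous _).intervalIntegrable _ _

/-- Integration by parts on the circle. -/
lemma circle_ibp (θ : Fin d → ℝ) (ν : Fin d → ℕ) {i : Fin d} (hi : 1 ≤ ν i) :
    cI θ ν = (2 * ν i - 1) * (cI θ (Function.update ν i (ν i - 1)) - cI θ ν)
      + ∑ j ∈ univ.erase i, 2 * ν j * cB θ ν i j := by
  obtain ⟨a, ha⟩ : ∃ a, ν i = a + 1 := ⟨ν i - 1, by omega⟩
  set R : ℝ → ℝ := fun t => ∏ j ∈ univ.erase i, (cos (t - θ j)) ^ (2 * ν j) with hR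
  set R' : ℝ → ℝ := fun t => ∑ j ∈ univ.erase i,
    (∏ l ∈ (univ.erase i).erase j, (cos (t - θ l)) ^ (2 * ν l))
      * (-(2 * ν j * (sin (t - θ j) * cos (t - θ j) ^ (2 * ν j - 1)))) with hR'
  have hc : ∀ (j : Fin d) (t : ℝ), HasDerivAt (fun t : ℝ => cos (t - θ j)) (-sin (t - θ j)) t := by
    intro j t
    have h := ((hasDerivAt_id' t).sub_const (θ j)).cos
    refine h.congr_deriv ?_
    simp
  have hsn : ∀ (j : Fin d) (t : ℝ), HasDerivAt (fun t : ℝ => sin (t - θ j)) (cos (t - θ j)) t := by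
    intro j t
    have h := ((hasDerivAt_id' t).sub_const (θ j)).sin
    refine h.congr_deriv ?_
    simp
  have hRd : ∀ t, HasDerivAt R (R' t) t := by
    intro t
    have := HasDerivAt.fun_finsetProd (u := univ.erase i) (x := t)
      (f := fun j t => (cos (t - θ j)) ^ (2 * ν j))
      (f' := fun j => (-(2 * ν j * (sin (t - θ j) * cos (t - θ j) ^ (2 * ν j - 1))))) ?_
    · simpa [hR, hR', smul_eq_mul] using this
    · intro j _
      refine ((hc j t).fun_pow (2 * ν j)).congr_deriv ?_
      push_cast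
      ring
  have hG : ∀ t, HasDerivAt (fun t => sin (t - θ i) * cos (t - θ i) ^ (2 * a + 1) * R t)
      ((cos (t - θ i) ^ (2 * a + 2) - (2 * a + 1) * sin (t - θ i) ^ 2 * cos (t - θ i) ^ (2 * a)) * R t
        + sin (t - θ i) * cos (t - θ i) ^ (2 * a + 1) * R' t) t := by
    intro t
    refine (((hsn i t).fun_mul ((hc i t).fun_pow (2 * a + 1))).fun_mul (hRd t)).congr_deriv ?_
    have : 2 * a + 1 - 1 = 2 * a := by omega
    rw [this]
    push_cast
    ring
  have hRc : Continuous R := by rw [hR]; fun_prop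
  have hRc' : Continuous R' := by rw [hR']; fun_prop
  have hint := intervalIntegral.integral_eq_sub_of_hasDerivAt (a := 0) (b := 2 * π)
    (fun t _ => hG t) ((by fun_prop : Continuous _).intervalIntegrable _ _)
  have hper : (sin (2 * π - θ i) * cos (2 * π - θ i) ^ (2 * a + 1) * R (2 * π))
      - (sin (0 - θ i) * cos (0 - θ i) ^ (2 * a + 1) * R 0) = 0 := by
    have h1 : ∀ x : ℝ, cos (2 * π - x) = cos (0 - x) := by
      intro x; rw [show 2 * π - x = (0 - x) + 2 * π by ring, Real.cos_add_two_pi]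
    have h2 : ∀ x : ℝ, sin (2 * π - x) = sin (0 - x) := by
      intro x; rw [show 2 * π - x = (0 - x) + 2 * π by ring, Real.sin_add_two_pi]
    simp only [hR, h1, h2]
    ring
  rw [hper] at hint
  have e1 : (∫ t in (0:ℝ)..(2 * π), ((cos (t - θ i) ^ (2 * a + 2)
      - (2 * a + 1) * sin (t - θ i) ^ 2 * cos (t - θ i) ^ (2 * a)) * R t
        + sin (t - θ i) * cos (t - θ i) ^ (2 * a + 1) * R' t))
      = cI θ ν - (2 * a + 1) * (cI θ (Function.update ν i (ν i - 1)) - cI θ ν)
        - ∑ j ∈ univ.erase i, 2 * ν j * cB θ ν i j := by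
    have hI1 : cI θ (Function.update ν i (ν i - 1))
        = ∫ t in (0:ℝ)..(2 * π), cos (t - θ i) ^ (2 * a) * R t := by
      unfold cI
      apply intervalIntegral.integral_congr
      intro t _
      simp only
      rw [prod_split _ i, Function.update_self, ha, show a + 1 - 1 = a by omega]
      congr 1
      rw [hR]
      apply Finset.prod_congr rfl
      intro l hl
      rw [Function.update_of_ne (Finset.ne_of_mem_erase hl)]
    have hI0 : cI θ ν = ∫ t in (0:ℝ)..(2 * π), cos (t - θ i) ^ (2 * a + 2) * R t := by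
      unfold cI
      apply intervalIntegral.integral_congr
      intro t _
      simp only
      rw [prod_split _ i, ha]
      rfl
    have hBs : ∑ j ∈ univ.erase i, 2 * (ν j : ℝ) * cB θ ν i j
        = - ∫ t in (0:ℝ)..(2 * π), sin (t - θ i) * cos (t - θ i) ^ (2 * a + 1) * R' t := by
      rw [← intervalIntegral.integral_neg]
      have : ∀ t, -(sin (t - θ i) * cos (t - θ i) ^ (2 * a + 1) * R' t)
          = ∑ j ∈ univ.erase i, 2 * (ν j : ℝ) * (sin (t - θ i) * cos (t - θ i) ^ (2 * ν i - 1)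
            * (sin (t - θ j) * cos (t - θ j) ^ (2 * ν j - 1))
            * ∏ l ∈ (univ.erase i).erase j, (cos (t - θ l)) ^ (2 * ν l)) := by
        intro t
        rw [hR']
        simp only
        rw [Finset.mul_sum, ← Finset.sum_neg_distrib, ha, show 2 * (a + 1) - 1 = 2 * a + 1 by omega]
        apply Finset.sum_congr rfl
        intro j _
        ring
      simp_rw [this]
      rw [intervalIntegral.integral_finsetSum]
      · apply Finset.sum_congr rfl
        intro j _
        rw [intervalIntegral.integral_const_mul]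
        rfl
      · intro j _
        exact (by fun_prop : Continuous _).intervalIntegrable _ _
    rw [hBs, hI1, hI0, ← intervalIntegral.integral_sub, ← intervalIntegral.integral_const_mul,
      sub_neg_eq_add, ← intervalIntegral.integral_sub, ← intervalIntegral.integral_add]
    · apply intervalIntegral.integral_congr
      intro t _
      simp only
      have hx := Real.sin_sq_add_cos_sq (t - θ i)
      have hx' : sin (t - θ i) ^ 2 = 1 - cos (t - θ i) ^ 2 := by linarith
      rw [hx']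
      ring
    all_goals exact (by fun_prop : Continuous _).intervalIntegrable _ _
  rw [e1] at hint
  rw [ha] at hint ⊢
  push_cast at hint ⊢
  linarith

lemma cI_nonneg (θ : Fin d → ℝ) (ν : Fin d → ℕ) : 0 ≤ cI θ ν := by
  unfold cI
  apply intervalIntegral.integral_nonneg (by positivity)
  intro t _
  apply Finset.prod_nonneg
  intro i _
  rw [pow_mul]
  positivity

lemma crit_ineq {θ : Fin d → ℝ} {ν : Fin d → ℕ} (hC : ∀ j, 1 ≤ ν j → cC θ ν j = 0)
    {i : Fin d} (hi : 1 ≤ ν i) :
    (2 * ν i - 1) * cI θ (Function.update ν i (ν i - 1)) ≤ 2 * (∑ j, (ν j : ℝ)) * cI θ ν := by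
  have h := circle_ibp θ ν hi
  set J := cI θ (Function.update ν i (ν i - 1))
  set I := cI θ ν
  have hJ : 0 ≤ J := cI_nonneg _ _
  have hI : 0 ≤ I := cI_nonneg _ _
  have hsum : - ∑ j ∈ univ.erase i, 2 * (ν j : ℝ) * I ≤ ∑ j ∈ univ.erase i, 2 * ν j * cB θ ν i j := by
    rw [← Finset.sum_neg_distrib]
    apply Finset.sum_le_sum
    intro j hj
    have hne : j ≠ i := Finset.ne_of_mem_erase hj
    rcases Nat.eq_zero_or_pos (ν j) with h0 | h0
    · rw [h0]; simp
    · have hB : - I ≤ cB θ ν i j := by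
        by_cases hs : sin (θ j - θ i) = 0
        · rw [cB_of_eq hne hi h0 hs]
          show -I ≤ J - I
          linarith
        · rw [cB_of_ne hne hi h0 hs (hC i hi) (hC j h0)]
      have : (0:ℝ) ≤ 2 * ν j := by positivity
      nlinarith
  have hs2 : ∑ j, (ν j : ℝ) = ν i + ∑ j ∈ univ.erase i, (ν j : ℝ) :=
    (Finset.add_sum_erase univ (fun j => (ν j : ℝ)) (mem_univ i)).symm
  have hs3 : ∑ j ∈ univ.erase i, 2 * (ν j : ℝ) * I = 2 * I * ∑ j ∈ univ.erase i, (ν j : ℝ) := by
    rw [Finset.mul_sum]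
    apply Finset.sum_congr rfl
    intro j _
    ring
  rw [hs3] at hsum
  rw [hs2]
  nlinarith

lemma exists_min (ν : Fin d → ℕ) : ∃ θ₀ : Fin d → ℝ, ∀ θ, cI θ₀ ν ≤ cI θ ν := by
  have hcomp : IsCompact (Set.pi Set.univ (fun _ : Fin d => Set.Icc (0:ℝ) (2 * π))) :=
    isCompact_univ_pi (fun _ => isCompact_Icc)
  have hne : (Set.pi Set.univ (fun _ : Fin d => Set.Icc (0:ℝ) (2 * π))).Nonempty :=
    ⟨fun _ => 0, fun _ _ => ⟨le_refl _, by positivity⟩⟩
  obtain ⟨θ₀, _, hmin⟩ := hcomp.exists_isMinOn hne (cI_continuous ν).continuousOn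
  refine ⟨θ₀, fun θ => ?_⟩
  have hmem : (fun i => toIcoMod Real.two_pi_pos 0 (θ i))
      ∈ Set.pi Set.univ (fun _ : Fin d => Set.Icc (0:ℝ) (2 * π)) := by
    intro i _
    have := toIcoMod_mem_Ico Real.two_pi_pos 0 (θ i)
    simp only [zero_add] at this
    exact ⟨this.1, this.2.le⟩
  have h1 : cI θ₀ ν ≤ cI (fun i => toIcoMod Real.two_pi_pos 0 (θ i)) ν := hmin hmem
  have h2 : cI (fun i => toIcoMod Real.two_pi_pos 0 (θ i)) ν = cI θ ν := by
    unfold cI
    apply intervalIntegral.integral_congr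
    intro t _
    simp only
    apply Finset.prod_congr rfl
    intro i _
    have : cos (t - toIcoMod Real.two_pi_pos 0 (θ i)) = cos (t - θ i) := by
      have e : t - toIcoMod Real.two_pi_pos 0 (θ i)
          = (t - θ i) + (toIcoDiv Real.two_pi_pos 0 (θ i) : ℤ) * (2 * π) := by
        have := toIcoMod_add_toIcoDiv_zsmul Real.two_pi_pos 0 (θ i)
        rw [zsmul_eq_mul] at this
        linarith
      rw [e, Real.cos_add_int_mul_two_pi]
    rw [this]
  rw [h2] at h1
  exact h1

lemma crit_of_min {θ₀ : Fin d → ℝ} {ν : Fin d → ℕ} (hmin : ∀ θ, cI θ₀ ν ≤ cI θ ν)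
    (j : Fin d) (hj : 1 ≤ ν j) : cC θ₀ ν j = 0 := by
  have hd := cI_update_hasDerivAt θ₀ ν j
  have hloc : IsLocalMin (fun s : ℝ => cI (Function.update θ₀ j s) ν) (θ₀ j) := by
    apply Filter.Eventually.of_forall
    intro s
    simp only [Function.update_eq_self]
    exact hmin _
  have := hloc.hasDerivAt_eq_zero hd
  have h2 : (2 * (ν j : ℝ)) ≠ 0 := by positivity
  rcases mul_eq_zero.1 this with h | h
  · exact absurd h h2
  · exact h

open Nat in
theorem circle_ineq (N : ℕ) : ∀ (ν : Fin d → ℕ), ∑ i, ν i = N → ∀ θ : Fin d → ℝ,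
    (∏ i, ((2 * ν i - 1)‼ : ℝ)) * (2 * π) ≤ 2 ^ N * (N ! : ℝ) * cI θ ν := by
  induction N with
  | zero =>
    intro ν hν θ
    have h0 : ∀ i, ν i = 0 := by
      intro i
      have := Finset.sum_eq_zero_iff.1 hν i (mem_univ i)
      exact this
    unfold cI
    simp [h0]
  | succ n ih =>
    intro ν hν θ
    obtain ⟨θ₀, hmin⟩ := exists_min ν
    obtain ⟨i, hi⟩ : ∃ i, 1 ≤ ν i := by
      by_contra hcon
      push Not at hcon
      have : ∑ i, ν i = 0 := Finset.sum_eq_zero (fun i _ => by have := hcon i; omega)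
      omega
    have h1 := crit_ineq (fun j hj => crit_of_min hmin j hj) hi
    have hN : (∑ j, (ν j : ℝ)) = n + 1 := by
      have : ((∑ j, ν j : ℕ) : ℝ) = ((n + 1 : ℕ) : ℝ) := by rw [hν]
      push_cast at this
      exact this
    have hsum' : ∑ j, (Function.update ν i (ν i - 1)) j = n := by
      have e1 := Finset.add_sum_erase univ (Function.update ν i (ν i - 1)) (mem_univ i)
      have e2 := Finset.add_sum_erase univ ν (mem_univ i)
      have e3 : ∑ j ∈ univ.erase i, (Function.update ν i (ν i - 1)) j = ∑ j ∈ univ.erase i, ν j :=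
        Finset.sum_congr rfl (fun j hj => Function.update_of_ne (Finset.ne_of_mem_erase hj) _ _)
      rw [Function.update_self, e3] at e1
      omega
    have h2 := ih _ hsum' θ₀
    have h3 := hmin θ
    have hprod : (∏ j, ((2 * ν j - 1)‼ : ℝ))
        = (2 * ν i - 1) * ∏ j, ((2 * (Function.update ν i (ν i - 1)) j - 1)‼ : ℝ) := by
      rw [prod_split _ i, prod_split (fun j => ((2 * (Function.update ν i (ν i - 1)) j - 1)‼ : ℝ)) i,
        Function.update_self, ← mul_assoc]
      congr 1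
      · obtain ⟨a, ha⟩ : ∃ a, ν i = a + 1 := ⟨ν i - 1, by omega⟩
        rw [ha]
        rcases Nat.eq_zero_or_pos a with h | h
        · subst h
          simp
          norm_num
        · obtain ⟨b, hb⟩ : ∃ b, a = b + 1 := ⟨a - 1, by omega⟩
          subst hb
          rw [show 2 * (b + 1 + 1) - 1 = (2 * (b + 1) - 1) + 2 by omega, Nat.doubleFactorial_add_two,
            show b + 1 + 1 - 1 = b + 1 by omega]
          push_cast
          have : ((2 * (b + 1) - 1 : ℕ) : ℝ) = 2 * (b + 1) - 1 := by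
            rw [show 2 * (b + 1) - 1 = 2 * b + 1 by omega]; push_cast; ring
          rw [this]
          ring
      · apply Finset.prod_congr rfl
        intro j hj
        rw [Function.update_of_ne (Finset.ne_of_mem_erase hj)]
    rw [hN] at h1
    rw [hprod]
    have hpos : (0:ℝ) < 2 * ν i - 1 := by
      have : (1:ℝ) ≤ ν i := by exact_mod_cast hi
      linarith
    have hfac : (0:ℝ) < 2 ^ n * (n ! : ℝ) := by positivity
    calc (2 * (ν i : ℝ) - 1) * (∏ j, ((2 * (Function.update ν i (ν i - 1)) j - 1)‼ : ℝ)) * (2 * π)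
        = (2 * (ν i : ℝ) - 1) * ((∏ j, ((2 * (Function.update ν i (ν i - 1)) j - 1)‼ : ℝ)) * (2 * π)) := by ring
      _ ≤ (2 * (ν i : ℝ) - 1) * (2 ^ n * (n ! : ℝ) * cI θ₀ (Function.update ν i (ν i - 1))) :=
          mul_le_mul_of_nonneg_left h2 hpos.le
      _ = 2 ^ n * (n ! : ℝ) * ((2 * (ν i : ℝ) - 1) * cI θ₀ (Function.update ν i (ν i - 1))) := by ring
      _ ≤ 2 ^ n * (n ! : ℝ) * (2 * (n + 1) * cI θ₀ ν) := mul_le_mul_of_nonneg_left h1 hfac.le
      _ = 2 ^ (n + 1) * ((n + 1)! : ℝ) * cI θ₀ ν := by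
          rw [Nat.factorial_succ]; push_cast; ring
      _ ≤ 2 ^ (n + 1) * ((n + 1)! : ℝ) * cI θ ν :=
          mul_le_mul_of_nonneg_left h3 (by positivity)

end Pool.Agent.GPI
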