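import Mathlib
import Pool.Agent.GPI.Hfun
import Pool.Agent.GPI.Smooth
import Pool.Agent.GPI.LemmaW

set_option autoImplicit false

open Real MeasureTheory ProbabilityTheory Set Filter
open scoped Topology

namespace Pool.Agent.GPI

/-- Mirrored weight lemma. -/
lemma weight_anti {f w ρ : ℝ → ℝ} {B : ℝ} (hf : ∀ s t, 0 < s → s < t → 0 ≤ f t → 0 ≤ f s)
    (hw : ∀ t, 0 < t → 0 ≤ w t)
    (hρ : ∀ s t, 0 < s → s < t → ρ t ≤ ρ s) (hρ0 : ∀ t, 0 < t → 0 ≤ ρ t) (hρB : ∀ t, 0 < t → ρ t ≤ B)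
    (hi1 : IntegrableOn (fun t => f t * w t) (Ioi 0))
    (hi2 : IntegrableOn (fun t => ρ t * (f t * w t)) (Ioi 0))
    (h : 0 ≤ ∫ t in Ioi (0:ℝ), f t * w t) :
    0 ≤ ∫ t in Ioi (0:ℝ), ρ t * (f t * w t) := by
  have hcon : ∀ c : ℝ, 0 ≤ c → (∀ t, 0 < t → c * (f t * w t) ≤ ρ t * (f t * w t)) →
      0 ≤ ∫ t in Ioi (0:ℝ), ρ t * (f t * w t) := by
    intro c hc hpt
    calc (0:ℝ) ≤ c * ∫ t in Ioi (0:ℝ), f t * w t := mul_nonneg hc h
      _ = ∫ t in Ioi (0:ℝ), c * (f t * w t) := by rw [integral_const_mul]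
      _ ≤ _ := setIntegral_mono_on (hi1.const_mul _) hi2 measurableSet_Ioi hpt
  have hB : 0 ≤ B := (hρ0 1 one_pos).trans (hρB 1 one_pos)
  by_cases hall : ∀ t, 0 < t → 0 ≤ f t
  · apply setIntegral_nonneg measurableSet_Ioi
    intro t ht
    exact mul_nonneg (hρ0 t ht) (mul_nonneg (hall t ht) (hw t ht))
  push Not at hall
  obtain ⟨t₁, ht₁, hft₁⟩ := hall
  by_cases hemp : ∃ t, 0 < t ∧ 0 ≤ f t
  · set Z := {t : ℝ | 0 < t ∧ 0 ≤ f t} with hZ
    have hZne : Z.Nonempty := hemp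
    have hbdd : BddAbove Z := by
      refine ⟨t₁, fun t ht => ?_⟩
      by_contra hlt
      push Not at hlt
      have := hf t₁ t ht₁ hlt ht.2
      linarith
    set t₀ := sSup Z with ht₀
    obtain ⟨z, hz⟩ := hZne
    have ht₀pos : 0 < t₀ := lt_of_lt_of_le hz.1 (le_csSup hbdd hz)
    have hlow : ∀ t, 0 < t → t < t₀ → 0 ≤ f t := by
      intro t ht hlt
      obtain ⟨s, hs, hst⟩ := exists_lt_of_lt_csSup ⟨z, hz⟩ hlt
      exact hf t s ht hst hs.2
    have hup : ∀ t, t₀ < t → f t < 0 := by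
      intro t hlt
      by_contra hcon
      push Not at hcon
      exact absurd (le_csSup hbdd (show t ∈ Z from ⟨ht₀pos.trans hlt, hcon⟩)) (not_le.2 hlt)
    apply hcon (ρ t₀) (hρ0 _ ht₀pos)
    intro t ht'
    rcases lt_trichotomy t t₀ with h1 | h1 | h1
    · have a1 := hlow t ht' h1
      have a2 := hρ t t₀ ht' h1
      have a3 := hw t ht'
      have a4 : 0 ≤ f t * w t := mul_nonneg a1 a3
      nlinarith
    · rw [h1]
    · have a1 := hup t h1
      have a2 := hρ t₀ t ht₀pos h1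
      have a3 := hw t ht'
      have a4 : f t * w t ≤ 0 := by nlinarith
      nlinarith
  · push Not at hemp
    apply hcon B hB
    intro t ht
    have a1 := hemp t ht
    have a2 := hρB t ht
    have a3 := hw t ht
    have a4 : f t * w t ≤ 0 := by nlinarith
    nlinarith

variable {p q w₁ v₁ w₂ v₂ : ℝ}

/-- `λ₁(t) = ∫_{-1}^1 ∂_t h(t,u) du`. -/
noncomputable def lam1 (p q w₁ v₁ w₂ v₂ t : ℝ) : ℝ := ∫ u in (-1:ℝ)..1, ps p q w₁ v₁ w₂ v₂ t u

/-- `G(t) = (p+q+1) Λ(t) - Ψ(t)`. -/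
noncomputable def Gf (p q w₁ v₁ w₂ v₂ t : ℝ) : ℝ :=
  (p + q + 1) * (∫ u in (-1:ℝ)..1, hh p q w₁ v₁ w₂ v₂ t u)
    - (hh p q w₁ v₁ w₂ v₂ t 1 + hh p q w₁ v₁ w₂ v₂ t (-1))

/-- `(v,w)`-version of `ps` integrated in `u` by parts. -/
lemma ftc_u (hp : 0 < p) (hq : 0 < q) (hv₁ : v₁ ≠ 0) (hv₂ : v₂ ≠ 0) (t : ℝ) :
    ∫ u in (-1:ℝ)..1, (hh p q w₁ v₁ w₂ v₂ t u + u * ps p q v₁ w₁ v₂ w₂ u t)
      = hh p q w₁ v₁ w₂ v₂ t 1 + hh p q w₁ v₁ w₂ v₂ t (-1) := by
  have hcont : Continuous (fun u => hh p q w₁ v₁ w₂ v₂ t u) :=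
    (continuous_hh hp hq).comp (by fun_prop : Continuous (fun u : ℝ => (t, u)))
  have := integral_eq_of_hasDerivAt_off_countable (fun u => u * hh p q w₁ v₁ w₂ v₂ t u)
    (fun u => hh p q w₁ v₁ w₂ v₂ t u + u * ps p q v₁ w₁ v₂ w₂ u t) (a := -1) (b := 1)
    (s := {-(w₁ * t) / v₁, -(w₂ * t) / v₂}) (Set.Finite.countable (by simp)) ?_ ?_ ?_
  · rw [this]; ring
  · exact (continuous_id.mul hcont).continuousOn
  · intro u hu
    have h1 : v₁ * u + w₁ * t ≠ 0 := by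
      intro h
      apply hu.2
      left
      rw [eq_div_iff hv₁]; linarith
    have h2 : v₂ * u + w₂ * t ≠ 0 := by
      intro h
      apply hu.2
      right
      rw [mem_singleton_iff, eq_div_iff hv₂]; linarith
    have d := hasDerivAt_hh (p := p) (q := q) h1 h2
    have e : (fun u => hh p q v₁ w₁ v₂ w₂ u t) = fun u => hh p q w₁ v₁ w₂ v₂ t u := by
      ext u; rw [hh_swap]
    rw [e] at d
    have d2 := (hasDerivAt_id u).mul d
    refine d2.congr_deriv ?_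
    simp
  · apply IntervalIntegrable.add
    · exact hcont.intervalIntegrable _ _
    · exact (ii_ps hp hq hv₁ hv₂ t (-1) 1).continuousOn_mul continuous_id.continuousOn

lemma t_lam1 (hp : 0 < p) (hq : 0 < q) (hv₁ : v₁ ≠ 0) (hv₂ : v₂ ≠ 0) (t : ℝ) :
    t * lam1 p q w₁ v₁ w₂ v₂ t = Gf p q w₁ v₁ w₂ v₂ t := by
  have hcont : Continuous (fun u => hh p q w₁ v₁ w₂ v₂ t u) :=
    (continuous_hh hp hq).comp (by fun_prop : Continuous (fun u : ℝ => (t, u)))
  have hii2 : IntervalIntegrable (fun u => u * ps p q v₁ w₁ v₂ w₂ u t) volume (-1) 1 :=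
    (ii_ps hp hq hv₁ hv₂ t (-1) 1).continuousOn_mul continuous_id.continuousOn
  unfold lam1 Gf
  rw [← ftc_u hp hq hv₁ hv₂ t, ← intervalIntegral.integral_const_mul,
    ← intervalIntegral.integral_const_mul, ← intervalIntegral.integral_sub]
  · apply intervalIntegral.integral_congr
    intro u _
    simp only
    have := euler (w₁ := w₁) (v₁ := v₁) (w₂ := w₂) (v₂ := v₂) hp.ne' hq.ne' t u
    linarith
  · exact (hcont.intervalIntegrable _ _).const_mul _
  · exact (hcont.intervalIntegrable _ _).add hii2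

/-- The weight. -/
noncomputable def wt (p q R : ℝ) : ℝ := R ^ (p + q + 2) * exp (-R ^ 2 / 2)

/-- The embedding formula. -/
lemma embed (hp : 0 < p) (hq : 0 < q) (hv₁ : v₁ ≠ 0) (hv₂ : v₂ ≠ 0) {z : ℝ} (hz : 0 < z) :
    IntegrableOn (fun R => Gf p q w₁ v₁ w₂ v₂ (z / R) * wt p q R) (Ioi 0) ∧
    z * D1 p q w₁ v₁ w₂ v₂ z = (√(2 * π))⁻¹ *
      ∫ R in Ioi (0:ℝ), Gf p q w₁ v₁ w₂ v₂ (z / R) * wt p q R := by
  obtain ⟨C, K, hC, hK, h⟩ := ps_bound (w₁ := w₁) (w₂ := w₂) hp hq hv₁ hv₂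
  set Φ : ℝ × ℝ → ℝ := fun x => ps p q w₁ v₁ w₂ v₂ z x.1 *
    (({y : ℝ × ℝ | |y.1| < y.2}).indicator 1 x * (x.2 * exp (-x.2 ^ 2 / 2))) with hΦ
  have hmS : MeasurableSet {y : ℝ × ℝ | |y.1| < y.2} :=
    measurableSet_lt (by fun_prop) (by fun_prop)
  have hmps : Measurable (fun η => ps p q w₁ v₁ w₂ v₂ z η) :=
    measurable_ps.comp (by fun_prop : Measurable (fun η : ℝ => (z, η)))
  have hΦm : Measurable Φ := by
    apply (hmps.comp measurable_fst).mul
    apply (measurable_one.indicator hmS).mul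
    fun_prop
  have hind : ∀ η R : ℝ, ({y : ℝ × ℝ | |y.1| < y.2}).indicator (1 : ℝ × ℝ → ℝ) (η, R)
      = (Ioi |η|).indicator 1 R := by
    intro η R
    by_cases hh : |η| < R
    · rw [indicator_of_mem (show (η, R) ∈ {y : ℝ × ℝ | |y.1| < y.2} from hh),
        indicator_of_mem (show R ∈ Ioi |η| from hh)]; rfl
    · rw [indicator_of_notMem (show (η, R) ∉ {y : ℝ × ℝ | |y.1| < y.2} from hh),
        indicator_of_notMem (show R ∉ Ioi |η| from hh)]
  have hfun : ∀ η : ℝ, (fun R : ℝ => (Ioi |η|).indicator (1 : ℝ → ℝ) R * (R * exp (-R ^ 2 / 2)))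
      = (Ioi |η|).indicator (fun R => R * exp (-R ^ 2 / 2)) := by
    intro η
    ext R
    by_cases hh : R ∈ Ioi |η|
    · rw [indicator_of_mem hh, indicator_of_mem hh]; simp
    · rw [indicator_of_notMem hh, indicator_of_notMem hh]; simp
  have hint1 : ∀ η : ℝ, ∫ R in Ioi (0:ℝ), (Ioi |η|).indicator (1 : ℝ → ℝ) R * (R * exp (-R ^ 2 / 2))
      = exp (-η ^ 2 / 2) := by
    intro η
    rw [hfun, setIntegral_indicator measurableSet_Ioi]
    have : Ioi (0:ℝ) ∩ Ioi |η| = Ioi |η| := by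
      apply inter_eq_right.2
      exact Ioi_subset_Ioi (abs_nonneg η)
    rw [this, integral_Ioi_mul_exp, sq_abs]
  have hiR : ∀ η : ℝ, IntegrableOn (fun R : ℝ => (Ioi |η|).indicator (1 : ℝ → ℝ) R * (R * exp (-R ^ 2 / 2)))
      (Ioi 0) := by
    intro η
    rw [hfun]
    exact (((integrable_indicator_iff measurableSet_Ioi).2 (integrableOn_mul_exp |η|)).integrableOn)
  have hexp : Integrable (fun η : ℝ => exp (-η ^ 2 / 2) * |ps p q w₁ v₁ w₂ v₂ z η|) :=
    (integrable_gg_iff _).1 (h z).1.abs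
  have hΦi : Integrable Φ (volume.prod (volume.restrict (Ioi 0))) := by
    rw [integrable_prod_iff hΦm.aestronglyMeasurable]
    constructor
    · filter_upwards with η
      simp only [hΦ, hind]
      exact (hiR η).const_mul _
    · refine hexp.congr ?_
      filter_upwards with η
      simp only [hΦ, hind]
      have e : ∀ R ∈ Ioi (0:ℝ), ‖ps p q w₁ v₁ w₂ v₂ z η * ((Ioi |η|).indicator (1 : ℝ → ℝ) R
          * (R * exp (-R ^ 2 / 2)))‖ = |ps p q w₁ v₁ w₂ v₂ z η| *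
          ((Ioi |η|).indicator (1 : ℝ → ℝ) R * (R * exp (-R ^ 2 / 2))) := by
        intro R hR
        have hR' : 0 < R := hR
        rw [norm_mul, Real.norm_eq_abs]
        congr 1
        rw [Real.norm_of_nonneg]
        apply mul_nonneg
        · exact indicator_nonneg (fun _ _ => by simp) _
        · positivity
      rw [setIntegral_congr_fun measurableSet_Ioi e, integral_const_mul, hint1]
      ring
  -- the inner integral in η
  have hinner : ∀ R ∈ Ioi (0:ℝ), ∫ η, Φ (η, R) = z⁻¹ * (Gf p q w₁ v₁ w₂ v₂ (z / R) * wt p q R) := by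
    intro R hR
    have hR' : 0 < R := hR
    have e1 : ∀ η, Φ (η, R) = (R * exp (-R ^ 2 / 2)) * (Ioo (-R) R).indicator
        (fun η => ps p q w₁ v₁ w₂ v₂ z η) η := by
      intro η
      simp only [hΦ]
      by_cases hh : |η| < R
      · rw [indicator_of_mem (show (η, R) ∈ {y : ℝ × ℝ | |y.1| < y.2} from hh),
          indicator_of_mem (show η ∈ Ioo (-R) R from abs_lt.1 hh)]
        simp; ring
      · rw [indicator_of_notMem (show (η, R) ∉ {y : ℝ × ℝ | |y.1| < y.2} from hh),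
          indicator_of_notMem (show η ∉ Ioo (-R) R from fun h' => hh (abs_lt.2 h'))]
        simp
    simp_rw [e1]
    rw [integral_const_mul, integral_indicator measurableSet_Ioo, ← integral_Ioc_eq_integral_Ioo,
      ← intervalIntegral.integral_of_le (by linarith)]
    have e2 : ∫ η in (-R)..R, ps p q w₁ v₁ w₂ v₂ z η
        = R * ∫ u in (-1:ℝ)..1, ps p q w₁ v₁ w₂ v₂ z (R * u) := by
      rw [intervalIntegral.mul_integral_comp_mul_left]
      simp
    have e3 : ∀ u, ps p q w₁ v₁ w₂ v₂ z (R * u)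
        = R ^ (p + q - 1) * ps p q w₁ v₁ w₂ v₂ (z / R) u := by
      intro u
      rw [← ps_homog hR']
      congr 1
      field_simp
    rw [e2]
    simp_rw [e3]
    rw [intervalIntegral.integral_const_mul]
    have e4 := t_lam1 (w₁ := w₁) (w₂ := w₂) hp hq hv₁ hv₂ (z / R)
    unfold lam1 at e4
    have e5 : ∫ u in (-1:ℝ)..1, ps p q w₁ v₁ w₂ v₂ (z / R) u
        = R / z * Gf p q w₁ v₁ w₂ v₂ (z / R) := by
      rw [← e4]
      field_simp
    rw [e5]
    unfold wt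
    have e6 : R ^ (p + q + 2) = R ^ (p + q - 1) * R * R * R := by
      have : R ^ (p + q + 2) = R ^ (p + q - 1) * R ^ (3:ℝ) := by
        rw [← rpow_add hR']; congr 1; ring
      rw [this]
      have : R ^ (3:ℝ) = R * R * R := by
        rw [show (3:ℝ) = ((3:ℕ):ℝ) by norm_num, rpow_natCast]; ring
      rw [this]; ring
    rw [e6]
    ring
  have hswap := integral_integral_swap (f := fun η R => Φ (η, R)) hΦi
  have hleft : ∫ η, (∫ R in Ioi (0:ℝ), Φ (η, R)) = √(2 * π) * D1 p q w₁ v₁ w₂ v₂ z := by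
    unfold D1
    rw [integral_gg, ← integral_const_mul]
    apply integral_congr_ae
    filter_upwards with η
    simp only [hΦ, hind]
    rw [integral_const_mul, hint1]
    have : √(2 * π) ≠ 0 := by positivity
    field_simp
  have hright : ∫ R in Ioi (0:ℝ), (∫ η, Φ (η, R))
      = z⁻¹ * ∫ R in Ioi (0:ℝ), Gf p q w₁ v₁ w₂ v₂ (z / R) * wt p q R := by
    rw [setIntegral_congr_fun measurableSet_Ioi hinner, integral_const_mul]
  constructor
  · have h1 := hΦi.integral_prod_right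
    have h2 : IntegrableOn (fun R => z⁻¹ * (Gf p q w₁ v₁ w₂ v₂ (z / R) * wt p q R)) (Ioi 0) :=
      (integrableOn_congr_fun hinner measurableSet_Ioi).1 h1
    have h3 := h2.const_mul z
    refine h3.congr ?_
    filter_upwards with R
    field_simp
  · rw [hleft, hright] at hswap
    have : √(2 * π) ≠ 0 := by positivity
    field_simp
    field_simp at hswap
    linarith

lemma D1_onceNN (hp : 0 < p) (hq : 0 < q) (hv₁ : v₁ ≠ 0) (hv₂ : v₂ ≠ 0)
    (hG : OnceNN (Gf p q w₁ v₁ w₂ v₂)) : OnceNN (D1 p q w₁ v₁ w₂ v₂) := by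
  intro z z' hz hzz' hD
  have hz' : 0 < z' := hz.trans hzz'
  obtain ⟨i1, e1⟩ := embed (w₁ := w₁) (w₂ := w₂) hp hq hv₁ hv₂ hz
  obtain ⟨i2, e2⟩ := embed (w₁ := w₁) (w₂ := w₂) hp hq hv₁ hv₂ hz'
  have hc : 0 < (√(2 * π))⁻¹ := by positivity
  have hE1 : 0 ≤ ∫ R in Ioi (0:ℝ), Gf p q w₁ v₁ w₂ v₂ (z / R) * wt p q R := by
    have : 0 ≤ z * D1 p q w₁ v₁ w₂ v₂ z := mul_nonneg hz.le hD
    rw [e1] at this
    exact nonneg_of_mul_nonneg_right this hc
  set κ := z' / z with hκ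
  have hκ1 : 1 < κ := by rw [hκ, one_lt_div hz]; exact hzz'
  have hκ0 : 0 < κ := by linarith
  set ρ : ℝ → ℝ := fun R => exp (-(κ ^ 2 - 1) * R ^ 2 / 2) with hρ
  have hscale : ∀ R, 0 < R → Gf p q w₁ v₁ w₂ v₂ (z' / (κ * R)) * wt p q (κ * R)
      = κ ^ (p + q + 2) * (ρ R * (Gf p q w₁ v₁ w₂ v₂ (z / R) * wt p q R)) := by
    intro R hR
    have h1 : z' / (κ * R) = z / R := by rw [hκ]; field_simp
    rw [h1]
    unfold wt
    rw [mul_rpow hκ0.le hR.le]
    have h2 : exp (-(κ * R) ^ 2 / 2) = ρ R * exp (-R ^ 2 / 2) := by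
      simp only [hρ]
      rw [← Real.exp_add]; congr 1; ring
    rw [h2]; ring
  have hchg : ∫ R in Ioi (0:ℝ), Gf p q w₁ v₁ w₂ v₂ (z' / R) * wt p q R
      = κ * (κ ^ (p + q + 2) * ∫ R in Ioi (0:ℝ), ρ R * (Gf p q w₁ v₁ w₂ v₂ (z / R) * wt p q R)) := by
    have h := integral_comp_mul_left_Ioi (fun R => Gf p q w₁ v₁ w₂ v₂ (z' / R) * wt p q R) 0 hκ0
    rw [mul_zero, smul_eq_mul] at h
    have h2 : ∫ R in Ioi (0:ℝ), Gf p q w₁ v₁ w₂ v₂ (z' / (κ * R)) * wt p q (κ * R)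
        = κ ^ (p + q + 2) * ∫ R in Ioi (0:ℝ), ρ R * (Gf p q w₁ v₁ w₂ v₂ (z / R) * wt p q R) := by
      rw [← integral_const_mul]
      exact setIntegral_congr_fun measurableSet_Ioi (fun R hR => hscale R hR)
    rw [h2] at h
    rw [h]
    field_simp
  have hρm : Measurable ρ := by simp only [hρ]; fun_prop
  have hρle : ∀ R, ρ R ≤ 1 := by
    intro R
    simp only [hρ]
    apply Real.exp_le_one_iff.2
    have : 0 ≤ (κ ^ 2 - 1) * R ^ 2 := mul_nonneg (by nlinarith) (sq_nonneg R)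
    linarith
  have hi2 : IntegrableOn (fun R => ρ R * (Gf p q w₁ v₁ w₂ v₂ (z / R) * wt p q R)) (Ioi 0) := by
    apply i1.bdd_mul (c := 1) hρm.aestronglyMeasurable
    filter_upwards with R
    rw [Real.norm_of_nonneg (Real.exp_pos _).le]
    exact hρle R
  have hfin := weight_anti (f := fun R => Gf p q w₁ v₁ w₂ v₂ (z / R)) (w := wt p q) (ρ := ρ) (B := 1)
    (by
      intro s t hs hst hft
      exact hG (z / t) (z / s) (by have := hs.trans hst; positivity)
        (div_lt_div_of_pos_left hz hs hst) hft)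
    (by intro t ht; unfold wt; positivity)
    (by
      intro s t hs hst
      simp only [hρ]
      apply Real.exp_le_exp.2
      have h1 : s ^ 2 ≤ t ^ 2 := by nlinarith
      have h2 : 0 ≤ κ ^ 2 - 1 := by nlinarith
      nlinarith)
    (by intro t _; exact (Real.exp_pos _).le) (fun t _ => hρle t) i1 hi2 hE1
  have : 0 ≤ z' * D1 p q w₁ v₁ w₂ v₂ z' := by
    rw [e2, hchg]
    positivity
  exact nonneg_of_mul_nonneg_right this hz'

end Pool.Agent.GPI
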