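import Mathlib

namespace Pool.Agent.GPI

open Real Set intervalIntegral MeasureTheory

/-- the planar weight `|p+s|^{2a} |q-s|^{2b}` -/
noncomputable def lf (a b p q s : ℝ) : ℝ := |p + s| ^ (2 * a) * |q - s| ^ (2 * b)

noncomputable def lF (a b p q z : ℝ) : ℝ :=
  (2 * (a + b) + 1) * (∫ s in (0:ℝ)..z, lf a b p q s) - z * lf a b p q z

noncomputable def ld (a b p q z : ℝ) : ℝ :=
  lf a b p q z * (2 * a * p / (p + z) + 2 * b * q / (q - z))

lemma lf_nonneg (a b p q s : ℝ) : 0 ≤ lf a b p q s := by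
  unfold lf; positivity

lemma lf_cont {a b : ℝ} (ha : 0 < a) (hb : 0 < b) (p q : ℝ) : Continuous (lf a b p q) := by
  unfold lf
  apply Continuous.mul
  · apply Continuous.rpow_const (by fun_prop)
    intro x; right; positivity
  · apply Continuous.rpow_const (by fun_prop)
    intro x; right; positivity

lemma l_hasDerivAt_abs_rpow_ne (r z : ℝ) (h : z ≠ 0) :
    HasDerivAt (fun s : ℝ => |s| ^ r) (r / z * |z| ^ r) z := by
  have h1 := (hasDerivAt_abs h).rpow_const (p := r) (Or.inl (abs_ne_zero.mpr h))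
  convert h1 using 1
  rw [Real.rpow_sub_one (abs_ne_zero.mpr h)]
  rcases lt_or_gt_of_ne h with hz | hz
  · rw [abs_of_neg hz, sign_neg hz]
    simp
    field_simp
  · rw [abs_of_pos hz, sign_pos hz]
    simp
    field_simp

lemma lf_hasDerivAt {a b p q z : ℝ} (h1 : p + z ≠ 0) (h2 : q - z ≠ 0) :
    HasDerivAt (lf a b p q) (lf a b p q z * (2 * a / (p + z) - 2 * b / (q - z))) z := by
  have e1 : HasDerivAt (fun s : ℝ => |p + s| ^ (2 * a)) (2 * a / (p + z) * |p + z| ^ (2 * a)) z := by
    have := (l_hasDerivAt_abs_rpow_ne (2 * a) (p + z) h1).comp z ((hasDerivAt_id z).const_add p)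
    simpa [Function.comp_def] using this
  have e2 : HasDerivAt (fun s : ℝ => |q - s| ^ (2 * b)) (-(2 * b / (q - z) * |q - z| ^ (2 * b))) z := by
    have := (l_hasDerivAt_abs_rpow_ne (2 * b) (q - z) h2).comp z ((hasDerivAt_id z).const_sub q)
    simpa [Function.comp_def] using this
  have e3 := e1.mul e2
  exact e3.congr_deriv (by unfold lf; ring)

lemma lF_hasDerivAt {a b p q z : ℝ} (ha : 0 < a) (hb : 0 < b) (h1 : p + z ≠ 0) (h2 : q - z ≠ 0) :
    HasDerivAt (lF a b p q) (ld a b p q z) z := by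
  have e1 : HasDerivAt (fun z => ∫ s in (0:ℝ)..z, lf a b p q s) (lf a b p q z) z :=
    ((lf_cont ha hb p q).integral_hasStrictDerivAt 0 z).hasDerivAt
  have e2 := (hasDerivAt_id z).mul (lf_hasDerivAt (a := a) (b := b) h1 h2)
  have e3 := (e1.const_mul (2 * (a + b) + 1)).sub e2
  refine e3.congr_deriv ?_
  unfold ld
  simp only [id]
  field_simp
  ring

lemma lF_cont {a b : ℝ} (ha : 0 < a) (hb : 0 < b) (p q : ℝ) : Continuous (lF a b p q) := by
  unfold lF
  apply Continuous.sub
  · apply Continuous.mul continuous_const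
    exact intervalIntegral.continuous_primitive (fun x y => (lf_cont ha hb p q).intervalIntegrable x y) 0
  · exact continuous_id.mul (lf_cont ha hb p q)

/-- a continuous function with nonnegative derivative off a finite set is monotone -/
lemma le_of_deriv_off_finset (f f' : ℝ → ℝ) (hc : Continuous f) (S : Finset ℝ) :
    ∀ x y : ℝ, x ≤ y → (∀ z ∈ Ioo x y, z ∉ S → HasDerivAt f (f' z) z) →
      (∀ z ∈ Ioo x y, z ∉ S → 0 ≤ f' z) → f x ≤ f y := by
  classical
  induction S using Finset.induction_on with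
  | empty =>
    intro x y hxy hd h0
    have : MonotoneOn f (Icc x y) := by
      apply monotoneOn_of_deriv_nonneg (convex_Icc x y) hc.continuousOn
      · intro z hz
        rw [interior_Icc] at hz
        exact (hd z hz (by simp)).differentiableAt.differentiableWithinAt
      · intro z hz
        rw [interior_Icc] at hz
        rw [(hd z hz (by simp)).deriv]
        exact h0 z hz (by simp)
    exact this (left_mem_Icc.mpr hxy) (right_mem_Icc.mpr hxy) hxy
  | insert e S he ih =>
    intro x y hxy hd h0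
    by_cases hmem : e ∈ Ioo x y
    · have h1 : f x ≤ f e := by
        apply ih x e hmem.1.le
        · intro z hz hzS
          exact hd z ⟨hz.1, hz.2.trans hmem.2⟩ (by simp [hzS, hz.2.ne])
        · intro z hz hzS
          exact h0 z ⟨hz.1, hz.2.trans hmem.2⟩ (by simp [hzS, hz.2.ne])
      have h2 : f e ≤ f y := by
        apply ih e y hmem.2.le
        · intro z hz hzS
          exact hd z ⟨hmem.1.trans hz.1, hz.2⟩ (by simp [hzS, hz.1.ne'])
        · intro z hz hzS
          exact h0 z ⟨hmem.1.trans hz.1, hz.2⟩ (by simp [hzS, hz.1.ne'])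
      exact h1.trans h2
    · apply ih x y hxy
      · intro z hz hzS
        apply hd z hz
        intro hcon
        rcases Finset.mem_insert.mp hcon with h | h
        · exact hmem (h ▸ hz)
        · exact hzS h
      · intro z hz hzS
        apply h0 z hz
        intro hcon
        rcases Finset.mem_insert.mp hcon with h | h
        · exact hmem (h ▸ hz)
        · exact hzS h

/-- `Ĝ(x) = F(x) - F(-x)` -/
noncomputable def lG (a b p q x : ℝ) : ℝ := lF a b p q x - lF a b p q (-x)

noncomputable def lD (a b p q x : ℝ) : ℝ := ld a b p q x + ld a b p q (-x)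

lemma lG_cont {a b : ℝ} (ha : 0 < a) (hb : 0 < b) (p q : ℝ) : Continuous (lG a b p q) := by
  unfold lG
  exact (lF_cont ha hb p q).sub ((lF_cont ha hb p q).comp continuous_neg)

lemma lG_zero (a b p q : ℝ) : lG a b p q 0 = 0 := by simp [lG]

lemma lG_hasDerivAt {a b p q x : ℝ} (ha : 0 < a) (hb : 0 < b) (h1 : p + x ≠ 0) (h2 : q - x ≠ 0)
    (h3 : p - x ≠ 0) (h4 : q + x ≠ 0) : HasDerivAt (lG a b p q) (lD a b p q x) x := by
  have e1 := lF_hasDerivAt (a := a) (b := b) ha hb h1 h2
  have e2 := lF_hasDerivAt (a := a) (b := b) (p := p) (q := q) (z := -x) ha hb (by rwa [← sub_eq_add_neg]) (by rwa [sub_neg_eq_add])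
  have e3 := e2.comp x (hasDerivAt_neg x)
  have e4 := e1.sub e3
  exact e4.congr_deriv (by unfold lD; ring)

lemma lf_symm (a b p q s : ℝ) : lf b a q p (-s) = lf a b p q s := by
  unfold lf; rw [mul_comm, sub_neg_eq_add, ← sub_eq_add_neg]

lemma ld_symm (a b p q s : ℝ) : ld b a q p (-s) = ld a b p q s := by
  unfold ld; rw [lf_symm]; ring_nf

lemma lD_symm (a b p q x : ℝ) : lD b a q p x = lD a b p q x := by
  unfold lD
  rw [ld_symm, ← ld_symm a b p q (-x), neg_neg, add_comm]

lemma lF_symm (a b p q z : ℝ) : lF b a q p (-z) = - lF a b p q z := by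
  unfold lF
  have : (∫ s in (0:ℝ)..(-z), lf b a q p s) = - ∫ s in (0:ℝ)..z, lf a b p q s := by
    have h := intervalIntegral.integral_comp_neg (a := 0) (b := z) (fun s => lf b a q p s)
    simp only [neg_zero, lf_symm] at h
    rw [h, intervalIntegral.integral_symm]
  rw [this, lf_symm]
  ring

lemma lG_symm (a b p q x : ℝ) : lG b a q p x = lG a b p q x := by
  unfold lG
  rw [lF_symm, ← neg_neg x, lF_symm]
  simp
  ring

lemma trapezoid {r P v : ℝ} (hr0 : 0 < r) (hr1 : r ≤ 1) (hv : 0 ≤ v) (hvP : v < P) :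
    (P + v) ^ r - (P - v) ^ r ≤ r * v * ((P + v) ^ (r - 1) + (P - v) ^ (r - 1)) := by
  set T : ℝ → ℝ := fun s => r * s * ((P + s) ^ (r - 1) + (P - s) ^ (r - 1)) - (P + s) ^ r + (P - s) ^ r with hT
  have hd : ∀ s, 0 ≤ s → s ≤ v → HasDerivAt T (r * (r - 1) * s * ((P + s) ^ (r - 2) - (P - s) ^ (r - 2))) s := by
    intro s hs0 hsv
    have hp1 : 0 < P + s := by linarith
    have hp2 : 0 < P - s := by linarith
    have d1 : ∀ k : ℝ, HasDerivAt (fun s : ℝ => (P + s) ^ k) (k * (P + s) ^ (k - 1)) s := by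
      intro k
      have := ((hasDerivAt_id s).const_add P).rpow_const (p := k) (Or.inl (by simpa using hp1.ne'))
      simpa using this
    have d2 : ∀ k : ℝ, HasDerivAt (fun s : ℝ => (P - s) ^ k) (-(k * (P - s) ^ (k - 1))) s := by
      intro k
      have := ((hasDerivAt_id s).const_sub P).rpow_const (p := k) (Or.inl (by simpa using hp2.ne'))
      simpa using this
    have e := ((((hasDerivAt_id s).const_mul r).mul ((d1 (r - 1)).add (d2 (r - 1)))).sub (d1 r)).add (d2 r)
    refine e.congr_deriv ?_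
    simp only [id, Pi.add_apply]
    rw [show r - 1 - 1 = r - 2 by ring]
    ring
  have hmono : MonotoneOn T (Icc 0 v) := by
    apply monotoneOn_of_deriv_nonneg (convex_Icc 0 v)
    · intro s hs
      exact (hd s hs.1 hs.2).continuousAt.continuousWithinAt
    · intro s hs
      rw [interior_Icc] at hs
      exact (hd s hs.1.le hs.2.le).differentiableAt.differentiableWithinAt
    · intro s hs
      rw [interior_Icc] at hs
      rw [(hd s hs.1.le hs.2.le).deriv]
      have hp1 : 0 < P - s := by linarith [hs.2]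
      have hle : (P + s) ^ (r - 2) ≤ (P - s) ^ (r - 2) :=
        Real.rpow_le_rpow_of_nonpos hp1 (by linarith [hs.1]) (by linarith)
      have h1 : r * (r - 1) * s ≤ 0 := by
        have : r * s * (1 - r) ≥ 0 := by
          have := hs.1.le
          have h2 : 0 ≤ 1 - r := by linarith
          positivity
        nlinarith
      nlinarith
  have h0 := hmono (left_mem_Icc.mpr hv) (right_mem_Icc.mpr hv) hv
  have hT0 : T 0 = 0 := by simp [hT]
  rw [hT0] at h0
  simp only [hT] at h0
  linarith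

lemma abs_rpow_mul_div {x : ℝ} (hx : 0 < x) (r : ℝ) : |x| ^ r / x = x ^ (r - 1) := by
  rw [abs_of_pos hx, Real.rpow_sub_one hx.ne']

/-- pairing inequality around the singular point `q` -/
lemma ld_pair {a b p q v : ℝ} (ha : 0 < a) (hb : 0 < b) (ha2 : a ≤ 1/2) (hb2 : b ≤ 1/2)
    (hq : 0 < q) (hqp : q ≤ p) (hv : 0 < v) (hv2 : v ≤ p - q) :
    0 ≤ ld a b p q (q + v) + ld a b p q (q - v) := by
  have hP1 : 0 < p + q + v := by linarith
  have hP2 : 0 < p + q - v := by linarith
  have htr := trapezoid (r := 2 * a) (P := p + q) (v := v) (by linarith) (by linarith) hv.le (by linarith)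
  have e1 : ld a b p q (q + v) = v ^ (2 * b) * (2 * a * p * (p + q + v) ^ (2 * a - 1)
      - 2 * b * q / v * (p + q + v) ^ (2 * a)) := by
    unfold ld lf
    rw [show p + (q + v) = p + q + v by ring, show q - (q + v) = -v by ring, abs_neg, abs_of_pos hv,
      abs_of_pos hP1, Real.rpow_sub_one hP1.ne']
    field_simp
    ring
  have e2 : ld a b p q (q - v) = v ^ (2 * b) * (2 * a * p * (p + q - v) ^ (2 * a - 1)
      + 2 * b * q / v * (p + q - v) ^ (2 * a)) := by
    unfold ld lf
    rw [show p + (q - v) = p + q - v by ring, show q - (q - v) = v by ring, abs_of_pos hv,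
      abs_of_pos hP2, Real.rpow_sub_one hP2.ne']
    field_simp
  rw [e1, e2, ← mul_add]
  apply mul_nonneg (by positivity)
  set S := (p + q + v) ^ (2 * a - 1) + (p + q - v) ^ (2 * a - 1) with hS
  have hSpos : 0 ≤ S := by positivity
  have h1 : 2 * b * q / v * ((p + q + v) ^ (2 * a) - (p + q - v) ^ (2 * a)) ≤ 2 * b * q / v * (2 * a * v * S) := by
    apply mul_le_mul_of_nonneg_left htr
    positivity
  have h2 : 2 * b * q / v * (2 * a * v * S) = 2 * a * S * (2 * b * q) := by field_simp
  have h3 : 2 * b * q ≤ p := by nlinarith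
  have h4 : 2 * a * S * (2 * b * q) ≤ 2 * a * S * p := by
    apply mul_le_mul_of_nonneg_left h3; positivity
  have h5 : 2 * a * p * (p + q + v) ^ (2 * a - 1) - 2 * b * q / v * (p + q + v) ^ (2 * a) +
      (2 * a * p * (p + q - v) ^ (2 * a - 1) + 2 * b * q / v * (p + q - v) ^ (2 * a))
      = 2 * a * S * p - 2 * b * q / v * ((p + q + v) ^ (2 * a) - (p + q - v) ^ (2 * a)) := by
    rw [hS]; ring
  rw [h5]
  linarith

lemma ld_nonneg_left {a b p q z : ℝ} (ha : 0 < a) (hb : 0 < b) (hp : 0 < p) (hq : 0 < q)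
    (h1 : -p < z) (h2 : z < q) : 0 ≤ ld a b p q z := by
  unfold ld
  apply mul_nonneg (lf_nonneg _ _ _ _ _)
  have e1 : 0 < p + z := by linarith
  have e2 : 0 < q - z := by linarith
  positivity

/-- case (i): `Ĝ ≥ 0` up to the larger zero -/
lemma lG_nonneg_small {a b p q x : ℝ} (ha : 0 < a) (hb : 0 < b) (ha2 : a ≤ 1/2) (hb2 : b ≤ 1/2)
    (hq : 0 < q) (hqp : q ≤ p) (hx0 : 0 < x) (hx : x ≤ p) : 0 ≤ lG a b p q x := by
  have hp : 0 < p := by linarith
  rcases le_or_gt x q with hxq | hxq
  · have : lF a b p q (-x) ≤ lF a b p q x := by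
      apply le_of_deriv_off_finset (lF a b p q) (ld a b p q) (lF_cont ha hb p q) ∅ (-x) x (by linarith)
      · intro z hz _
        apply lF_hasDerivAt ha hb
        · linarith [hz.1]
        · linarith [hz.2]
      · intro z hz _
        apply ld_nonneg_left ha hb hp hq
        · linarith [hz.1]
        · linarith [hz.2]
    unfold lG; linarith
  · have s1 : lF a b p q (-x) ≤ lF a b p q (2 * q - x) := by
      apply le_of_deriv_off_finset (lF a b p q) (ld a b p q) (lF_cont ha hb p q) ∅ (-x) (2 * q - x) (by linarith)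
      · intro z hz _
        apply lF_hasDerivAt ha hb
        · linarith [hz.1]
        · linarith [hz.2]
      · intro z hz _
        apply ld_nonneg_left ha hb hp hq
        · linarith [hz.1]
        · linarith [hz.2]
    have s2 : lF a b p q (q + 0) - lF a b p q (q - 0) ≤ lF a b p q (q + (x - q)) - lF a b p q (q - (x - q)) := by
      apply le_of_deriv_off_finset (fun v => lF a b p q (q + v) - lF a b p q (q - v))
        (fun v => ld a b p q (q + v) + ld a b p q (q - v)) _ ∅ 0 (x - q) (by linarith)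
      · intro v hv _
        have h1 : p + (q + v) ≠ 0 := by linarith [hv.1]
        have h2 : q - (q + v) ≠ 0 := by have := hv.1; intro h; linarith
        have h3 : p + (q - v) ≠ 0 := by have := hv.2; intro h; linarith
        have h4 : q - (q - v) ≠ 0 := by have := hv.1; intro h; linarith
        have e1 := (lF_hasDerivAt (a := a) (b := b) ha hb h1 h2).comp v ((hasDerivAt_id v).const_add q)
        have e2 := (lF_hasDerivAt (a := a) (b := b) ha hb h3 h4).comp v ((hasDerivAt_id v).const_sub q)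
        have e3 := e1.sub e2
        exact e3.congr_deriv (by ring)
      · intro v hv _
        exact ld_pair ha hb ha2 hb2 hq hqp hv.1 (by linarith [hv.2])
      · apply Continuous.sub
        · exact (lF_cont ha hb p q).comp (by fun_prop)
        · exact (lF_cont ha hb p q).comp (by fun_prop)
    have h3 : q + (x - q) = x := by ring
    have h4 : q - (x - q) = 2 * q - x := by ring
    rw [h3, h4] at s2
    simp at s2
    unfold lG; linarith

/-- case (ii), `δ ≥ 0` -/
lemma lD_nonpos_small_aux {a b p q x : ℝ} (ha : 0 < a) (hb : 0 < b) (ha2 : a ≤ 1/2) 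
    (hp : 0 < p) (hq : 0 < q) (hxp : p < x) (hxq : q < x) (hδ : b * q ≤ a * p) :
    lD a b p q x ≤ 0 := by
  have h1 : 0 < x + p := by linarith
  have h2 : 0 < x - p := by linarith
  have h3 : 0 < x + q := by linarith
  have h4 : 0 < x - q := by linarith
  set α := (x + p) ^ (2 * a - 1) * (x - q) ^ (2 * b) with hα
  set β := (x - p) ^ (2 * a - 1) * (x + q) ^ (2 * b) with hβ
  have hα0 : 0 ≤ α := by positivity
  have hαβ : α ≤ β := by
    apply mul_le_mul
    · exact Real.rpow_le_rpow_of_nonpos h2 (by linarith) (by linarith)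
    · exact Real.rpow_le_rpow h4.le (by linarith) (by linarith)
    · positivity
    · positivity
  have e1 : ld a b p q x = α * (2 * ((a * p - b * q) * x - (a + b) * p * q) / (x - q)) := by
    unfold ld lf
    rw [abs_of_pos (by linarith : 0 < p + x), abs_of_neg (by linarith : q - x < 0), neg_sub, hα,
      add_comm p x, Real.rpow_sub_one h1.ne']
    have : q - x ≠ 0 := by linarith
    rw [show q - x = -(x - q) by ring]
    field_simp
    ring
  have e2 : ld a b p q (-x) = - (β * (2 * ((a * p - b * q) * x + (a + b) * p * q) / (x + q))) := by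
    unfold ld lf
    rw [abs_of_neg (by linarith : p + -x < 0), abs_of_pos (by linarith : 0 < q - -x), hβ,
      show -(p + -x) = x - p by ring, show q - -x = x + q by ring, show p + -x = -(x - p) by ring,
      Real.rpow_sub_one h2.ne']
    field_simp
    ring
  have key : 2 * ((a * p - b * q) * x - (a + b) * p * q) / (x - q)
      ≤ 2 * ((a * p - b * q) * x + (a + b) * p * q) / (x + q) := by
    rw [div_le_div_iff₀ h4 h3]
    have : (a * p - b * q) * q * x ≤ (a + b) * p * q * x := by
      apply mul_le_mul_of_nonneg_right _ (by linarith)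
      nlinarith [mul_pos hb hq, mul_pos (mul_pos hb hq) hq, mul_pos (mul_pos hb hp) hq]
    nlinarith
  have hR : 0 ≤ 2 * ((a * p - b * q) * x + (a + b) * p * q) / (x + q) := by
    apply div_nonneg _ h3.le
    have : 0 ≤ (a * p - b * q) * x := mul_nonneg (by linarith) (by linarith)
    have : 0 ≤ (a + b) * p * q := by positivity
    linarith
  unfold lD
  rw [e1, e2]
  have t1 : α * (2 * ((a * p - b * q) * x - (a + b) * p * q) / (x - q))
      ≤ α * (2 * ((a * p - b * q) * x + (a + b) * p * q) / (x + q)) :=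
    mul_le_mul_of_nonneg_left key hα0
  have t2 : α * (2 * ((a * p - b * q) * x + (a + b) * p * q) / (x + q))
      ≤ β * (2 * ((a * p - b * q) * x + (a + b) * p * q) / (x + q)) :=
    mul_le_mul_of_nonneg_right hαβ hR
  linarith

lemma lD_nonpos_small {a b p q x : ℝ} (ha : 0 < a) (hb : 0 < b) (ha2 : a ≤ 1/2) (hb2 : b ≤ 1/2)
    (hp : 0 < p) (hq : 0 < q) (hxp : p < x) (hxq : q < x) : lD a b p q x ≤ 0 := by
  rcases le_total (b * q) (a * p) with h | h
  · exact lD_nonpos_small_aux ha hb ha2 hp hq hxp hxq h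
  · rw [← lD_symm]
    exact lD_nonpos_small_aux hb ha hb2 hq hp hxq hxp h

/-- single crossing of `Ĝ`, small exponents -/
lemma lG_sc_small {a b p q x y : ℝ} (ha : 0 < a) (hb : 0 < b) (ha2 : a ≤ 1/2) (hb2 : b ≤ 1/2)
    (hp : 0 < p) (hq : 0 < q) (hx : 0 < x) (hxy : x < y) (hG : 0 ≤ lG a b p q y) :
    0 ≤ lG a b p q x := by
  by_cases hmax : x ≤ max p q
  · rcases le_total q p with h | h
    · rw [max_eq_left h] at hmax
      exact lG_nonneg_small ha hb ha2 hb2 hq h hx hmax
    · rw [max_eq_right h] at hmax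
      rw [← lG_symm]
      exact lG_nonneg_small hb ha hb2 ha2 hp h hx hmax
  · push Not at hmax
    have h1 : p < x := lt_of_le_of_lt (le_max_left _ _) hmax
    have h2 : q < x := lt_of_le_of_lt (le_max_right _ _) hmax
    have : -(lG a b p q x) ≤ -(lG a b p q y) := by
      apply le_of_deriv_off_finset (fun z => -(lG a b p q z)) (fun z => -(lD a b p q z))
        (lG_cont ha hb p q).neg ∅ x y hxy.le
      · intro z hz _
        apply HasDerivAt.neg
        apply lG_hasDerivAt ha hb <;> (have := hz.1; intro h; linarith)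
      · intro z hz _
        have := lD_nonpos_small ha hb ha2 hb2 hp hq (h1.trans hz.1) (h2.trans hz.1)
        linarith
    linarith

/-- `log((c+x)/|c-x|)` -/
noncomputable def Lc (c x : ℝ) : ℝ := Real.log (c + x) - Real.log (c - x)

/-- `log((M+δx)/|M-δx|)` -/
noncomputable def Cc (M δ x : ℝ) : ℝ := Real.log (M + δ * x) - Real.log (M - δ * x)

lemma Cc_hasDerivAt {M δ z : ℝ} (h1 : M + δ * z ≠ 0) (h2 : M - δ * z ≠ 0) :
    HasDerivAt (Cc M δ) (δ / (M + δ * z) + δ / (M - δ * z)) z := by
  have e1 : HasDerivAt (fun z => M + δ * z) δ z := by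
    simpa using ((hasDerivAt_id z).const_mul δ).const_add M
  have e2 : HasDerivAt (fun z => M - δ * z) (-δ) z := by
    simpa using ((hasDerivAt_id z).const_mul δ).const_sub M
  have e3 := (e1.log h1).sub (e2.log h2)
  exact e3.congr_deriv (by ring)

lemma Lc_eq_Cc (c x : ℝ) : Lc c x = Cc c 1 x := by simp [Lc, Cc]

lemma Lc_hasDerivAt {p z : ℝ} (h1 : p + z ≠ 0) (h2 : p - z ≠ 0) :
    HasDerivAt (Lc p) (1 / (p + z) + 1 / (p - z)) z := by
  have h := Cc_hasDerivAt (M := p) (δ := 1) (z := z) (by simpa using h1) (by simpa using h2)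
  have : Lc p = Cc p 1 := by funext x; exact Lc_eq_Cc p x
  rw [this]
  simpa using h

lemma cross {p M δ s x : ℝ} (hM : 0 < M) (hδ : 0 ≤ δ) (hs : 0 ≤ s) (hsx : s ≤ x) (hxp : x < p)
    (hδp : δ * p ≤ M) :
    (δ / (M + δ * x) + δ / (M - δ * x)) * (1 / (p + s) + 1 / (p - s)) ≤
    (δ / (M + δ * s) + δ / (M - δ * s)) * (1 / (p + x) + 1 / (p - x)) := by
  have hp : 0 < p := by linarith
  have a1 : δ * x < M ∨ δ = 0 := by
    rcases hδ.eq_or_lt with h | h
    · right; exact h.symm
    · left; nlinarith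
  rcases a1 with a1 | a1
  swap
  · subst a1; simp
  have a2 : δ * s ≤ δ * x := mul_le_mul_of_nonneg_left hsx hδ
  have a0 : 0 ≤ δ * s := by positivity
  have b1 : 0 < M + δ * x := by linarith
  have b2 : 0 < M - δ * x := by linarith
  have b3 : 0 < M + δ * s := by linarith
  have b4 : 0 < M - δ * s := by linarith
  have b5 : 0 < p + x := by linarith
  have b6 : 0 < p - x := by linarith
  have b7 : 0 < p + s := by linarith
  have b8 : 0 < p - s := by linarith
  have e1 : δ / (M + δ * x) + δ / (M - δ * x) = 2 * M * δ / ((M + δ * x) * (M - δ * x)) := by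
    field_simp; ring
  have e2 : δ / (M + δ * s) + δ / (M - δ * s) = 2 * M * δ / ((M + δ * s) * (M - δ * s)) := by
    field_simp; ring
  have e3 : 1 / (p + s) + 1 / (p - s) = 2 * p / ((p + s) * (p - s)) := by field_simp; ring
  have e4 : 1 / (p + x) + 1 / (p - x) = 2 * p / ((p + x) * (p - x)) := by field_simp; ring
  rw [e1, e2, e3, e4, div_mul_div_comm, div_mul_div_comm]
  apply div_le_div_of_nonneg_left (by positivity) (by positivity)
  have k1 : δ ^ 2 * p ^ 2 ≤ M ^ 2 := by
    have : 0 ≤ δ * p := by positivity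
    nlinarith
  have k2 : s ^ 2 ≤ x ^ 2 := by nlinarith
  nlinarith [mul_nonneg (sub_nonneg.mpr k1) (sub_nonneg.mpr k2)]

lemma R1 {p M δ x y : ℝ} (hM : 0 < M) (hδ : 0 ≤ δ) (hx : 0 < x) (hxy : x ≤ y) (hyp : y < p)
    (hδp : δ * p ≤ M) : Cc M δ y * Lc p x ≤ Lc p y * Cc M δ x := by
  have hp : 0 < p := by linarith
  have pos : ∀ z, 0 ≤ z → z ≤ y → 0 < M + δ * z ∧ 0 < M - δ * z ∧ 0 < p + z ∧ 0 < p - z := by
    intro z hz hzy
    have h0 : 0 ≤ δ * z := by positivity
    refine ⟨by linarith, ?_, by linarith, by linarith⟩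
    rcases hδ.eq_or_lt with h | h
    · rw [← h]; simpa using hM
    · nlinarith
  obtain ⟨x1, x2, x3, x4⟩ := pos x hx.le hxy
  have hL' : 0 < 1 / (p + x) + 1 / (p - x) := by positivity
  -- step A
  have hA : (δ / (M + δ * x) + δ / (M - δ * x)) * Lc p x ≤ Cc M δ x * (1 / (p + x) + 1 / (p - x)) := by
    set ψ : ℝ → ℝ := fun s => Cc M δ s * (1 / (p + x) + 1 / (p - x)) -
      (δ / (M + δ * x) + δ / (M - δ * x)) * Lc p s with hψ
    have hd : ∀ s, 0 ≤ s → s ≤ x → HasDerivAt ψ ((δ / (M + δ * s) + δ / (M - δ * s)) * (1 / (p + x) + 1 / (p - x)) -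
        (δ / (M + δ * x) + δ / (M - δ * x)) * (1 / (p + s) + 1 / (p - s))) s := by
      intro s hs hsx
      obtain ⟨y1, y2, y3, y4⟩ := pos s hs (hsx.trans hxy)
      exact ((Cc_hasDerivAt y1.ne' y2.ne').mul_const _).sub ((Lc_hasDerivAt y3.ne' y4.ne').const_mul _)
    have hmono : MonotoneOn ψ (Icc 0 x) := by
      apply monotoneOn_of_deriv_nonneg (convex_Icc 0 x)
      · intro s hs
        exact (hd s hs.1 hs.2).continuousAt.continuousWithinAt
      · intro s hs
        rw [interior_Icc] at hs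
        exact (hd s hs.1.le hs.2.le).differentiableAt.differentiableWithinAt
      · intro s hs
        rw [interior_Icc] at hs
        rw [(hd s hs.1.le hs.2.le).deriv]
        have := cross hM hδ hs.1.le hs.2.le (by linarith : x < p) hδp
        linarith
    have h0 := hmono (left_mem_Icc.mpr hx.le) (right_mem_Icc.mpr hx.le) hx.le
    have : ψ 0 = 0 := by simp [hψ, Cc, Lc]
    rw [this] at h0
    simp only [hψ] at h0
    linarith
  -- Lc p x ≥ 0
  have hL0 : 0 ≤ Lc p x := by
    unfold Lc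
    have := Real.log_le_log x4 (by linarith : p - x ≤ p + x)
    linarith
  set φ : ℝ → ℝ := fun z => Lc p z * Cc M δ x - Cc M δ z * Lc p x with hφ
  have hd : ∀ z, x ≤ z → z ≤ y → HasDerivAt φ ((1 / (p + z) + 1 / (p - z)) * Cc M δ x -
      (δ / (M + δ * z) + δ / (M - δ * z)) * Lc p x) z := by
    intro z hz hzy
    obtain ⟨y1, y2, y3, y4⟩ := pos z (by linarith) hzy
    exact ((Lc_hasDerivAt y3.ne' y4.ne').mul_const _).sub ((Cc_hasDerivAt y1.ne' y2.ne').mul_const _)
  have hmono : MonotoneOn φ (Icc x y) := by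
    apply monotoneOn_of_deriv_nonneg (convex_Icc x y)
    · intro s hs
      exact (hd s hs.1 hs.2).continuousAt.continuousWithinAt
    · intro s hs
      rw [interior_Icc] at hs
      exact (hd s hs.1.le hs.2.le).differentiableAt.differentiableWithinAt
    · intro s hs
      rw [interior_Icc] at hs
      rw [(hd s hs.1.le hs.2.le).deriv]
      obtain ⟨y1, y2, y3, y4⟩ := pos s (by linarith [hs.1]) hs.2.le
      have hc := cross hM hδ hx.le hs.1.le (by linarith [hs.2] : s < p) hδp
      have hLs : 0 < 1 / (p + s) + 1 / (p - s) := by positivity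
      have t1 := mul_le_mul_of_nonneg_left hA hLs.le
      have t2 := mul_le_mul_of_nonneg_right hc hL0
      have t3 : (δ / (M + δ * s) + δ / (M - δ * s)) * Lc p x * (1 / (p + x) + 1 / (p - x)) ≤
        (1 / (p + s) + 1 / (p - s)) * Cc M δ x * (1 / (p + x) + 1 / (p - x)) := by linarith
      have t4 := le_of_mul_le_mul_right t3 hL'
      linarith
  have h0 := hmono (left_mem_Icc.mpr hxy) (right_mem_Icc.mpr hxy) hxy
  simp only [hφ] at h0
  linarith

lemma Cc_inv {c x : ℝ} (hc : 0 < c) (hx : c < x) : Cc 1 c (1 / x) = Lc c x := by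
  have hx0 : 0 < x := hc.trans hx
  unfold Cc Lc
  have e1 : 1 + c * (1 / x) = (c + x) / x := by field_simp; ring
  have e2 : 1 - c * (1 / x) = -((c - x) / x) := by field_simp; ring
  rw [e1, e2, Real.log_neg_eq_log, Real.log_div (by linarith) hx0.ne',
    Real.log_div (by intro h; linarith) hx0.ne']
  ring

lemma Lc_inv {p x : ℝ} (hp : 0 < p) (hx : p < x) : Lc (1 / p) (1 / x) = Lc p x := by
  have hx0 : 0 < x := hp.trans hx
  unfold Lc
  have e1 : 1 / p + 1 / x = (p + x) / (p * x) := by field_simp; ring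
  have e2 : 1 / p - 1 / x = -((p - x) / (p * x)) := by field_simp; ring
  rw [e1, e2, Real.log_neg_eq_log, Real.log_div (by linarith) (by positivity),
    Real.log_div (by intro h; linarith) (by positivity)]
  ring

lemma R2 {c p x y : ℝ} (hc : 0 < c) (hcp : c ≤ p) (hpx : p < x) (hxy : x ≤ y) :
    Lc p y * Lc c x ≤ Lc c y * Lc p x := by
  have hp : 0 < p := by linarith
  have hx : 0 < x := by linarith
  have hy : 0 < y := by linarith
  have h := R1 (p := 1 / p) (M := 1) (δ := c) (x := 1 / y) (y := 1 / x) one_pos hc.le (by positivity)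
    (one_div_le_one_div_of_le hx hxy) (one_div_lt_one_div_of_lt hp hpx) (by
      rw [mul_one_div, div_le_one hp]; exact hcp)
  rw [Cc_inv hc (by linarith), Cc_inv hc (by linarith), Lc_inv hp (by linarith), Lc_inv hp (by linarith)] at h
  linarith

lemma Lc_nonneg_lt {p x : ℝ} (hx : 0 ≤ x) (hxp : x < p) : 0 ≤ Lc p x := by
  unfold Lc
  have := Real.log_le_log (by linarith : 0 < p - x) (by linarith : p - x ≤ p + x)
  linarith

lemma Lc_nonneg_gt {p x : ℝ} (hp : 0 ≤ p) (hxp : p < x) : 0 ≤ Lc p x := by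
  unfold Lc
  rw [show p - x = -(x - p) by ring, Real.log_neg_eq_log]
  have := Real.log_le_log (by linarith : 0 < x - p) (by linarith : x - p ≤ p + x)
  linarith

lemma Lc_pos_lt {p x : ℝ} (hx : 0 < x) (hxp : x < p) : 0 < Lc p x := by
  unfold Lc
  have := Real.log_lt_log (by linarith : 0 < p - x) (by linarith : p - x < p + x)
  linarith

lemma Lc_pos_gt {p x : ℝ} (hp : 0 < p) (hxp : p < x) : 0 < Lc p x := by
  unfold Lc
  rw [show p - x = -(x - p) by ring, Real.log_neg_eq_log]
  have := Real.log_lt_log (by linarith : 0 < x - p) (by linarith : x - p < p + x)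
  linarith

lemma Cc_mono {M δ x y : ℝ} (hδ : 0 ≤ δ) (hx : 0 ≤ x) (hxy : x ≤ y) (hy : δ * y < M) :
    Cc M δ x ≤ Cc M δ y := by
  have h1 : δ * x ≤ δ * y := mul_le_mul_of_nonneg_left hxy hδ
  have h2 : 0 ≤ δ * x := by positivity
  unfold Cc
  have := Real.log_le_log (by linarith : 0 < M + δ * x) (by linarith : M + δ * x ≤ M + δ * y)
  have := Real.log_le_log (by linarith : 0 < M - δ * y) (by linarith : M - δ * y ≤ M - δ * x)
  linarith

lemma Lc_mono {p x y : ℝ} (hx : 0 ≤ x) (hxy : x ≤ y) (hy : y < p) : Lc p x ≤ Lc p y := by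
  rw [Lc_eq_Cc, Lc_eq_Cc]
  exact Cc_mono zero_le_one hx hxy (by linarith)

lemma Lc_anti {p x y : ℝ} (hp : 0 < p) (hx : p < x) (hxy : x ≤ y) : Lc p y ≤ Lc p x := by
  have h1 : 0 < x - p := by linarith
  unfold Lc
  rw [show p - x = -(x - p) by ring, show p - y = -(y - p) by ring, Real.log_neg_eq_log, Real.log_neg_eq_log,
    ← Real.log_div (by linarith) (by linarith), ← Real.log_div (by linarith) (by linarith)]
  apply Real.log_le_log
  · apply div_pos <;> linarith
  · rw [div_le_div_iff₀ (by linarith) h1]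
    nlinarith

/-- the logarithm of the ratio of the two terms -/
noncomputable def ell (a b p q M δ x : ℝ) : ℝ :=
  (2 * a - 1) * Lc p x - (2 * b - 1) * Lc q x - Cc M δ x

lemma ell_L1 {a b p q M δ x : ℝ} (ha1 : a ≤ 1) (hb : 1/2 ≤ b) (hq : 0 < q) (hqx : q < x)
    (hxp : x < p) (hδ : 0 ≤ δ) (hM : M < δ * p) (hx : δ * x < M) : ell a b p q M δ x ≤ 0 := by
  have hx0 : 0 < x := hq.trans hqx
  have h1 : 0 ≤ Lc p x := Lc_nonneg_lt hx0.le hxp
  have h2 : 0 ≤ Lc q x := Lc_nonneg_gt hq.le hqx
  have h3 : Lc p x ≤ Cc M δ x := by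
    unfold Lc Cc
    have e0 : 0 ≤ δ * x := by positivity
    rw [← Real.log_div (by linarith) (by linarith), ← Real.log_div (by linarith) (by linarith)]
    apply Real.log_le_log
    · apply div_pos <;> linarith
    · rw [div_le_div_iff₀ (by linarith) (by linarith)]
      nlinarith [mul_lt_mul_of_pos_right hM hx0]
  unfold ell
  have h4 : (2 * a - 1) * Lc p x ≤ Lc p x := by nlinarith
  have h5 : 0 ≤ (2 * b - 1) * Lc q x := mul_nonneg (by linarith) h2
  linarith

lemma ell_L3 {a b p q M δ x : ℝ} (ha1 : a ≤ 1) (hb : 1/2 ≤ b) (hp : 0 < p) (hq : 0 < q) (hqx : q < x)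
    (hpx : p < x) (hM0 : 0 < M) (hM : δ * p ≤ M) (hx : M < δ * x) : ell a b p q M δ x ≤ 0 := by
  have hx0 : 0 < x := hq.trans hqx
  have h1 : 0 ≤ Lc p x := Lc_nonneg_gt hp.le hpx
  have h2 : 0 ≤ Lc q x := Lc_nonneg_gt hq.le hqx
  have h3 : Lc p x ≤ Cc M δ x := by
    unfold Lc Cc
    rw [show p - x = -(x - p) by ring, show M - δ * x = -(δ * x - M) by ring, Real.log_neg_eq_log,
      Real.log_neg_eq_log]
    rw [← Real.log_div (by linarith) (by linarith), ← Real.log_div (by linarith) (by linarith)]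
    apply Real.log_le_log
    · apply div_pos <;> linarith
    · rw [div_le_div_iff₀ (by linarith) (by linarith)]
      nlinarith [mul_le_mul_of_nonneg_right hM hx0.le]
  unfold ell
  have h4 : (2 * a - 1) * Lc p x ≤ Lc p x := by nlinarith
  have h5 : 0 ≤ (2 * b - 1) * Lc q x := mul_nonneg (by linarith) h2
  linarith

lemma ell_L2 {a b p q M δ x y : ℝ} (_ha : 1/2 ≤ a) (hb : 1/2 ≤ b) (hq : 0 < q) (hqx : q < x)
    (hxy : x ≤ y) (hyp : y < p) (hδ : 0 ≤ δ) (hM0 : 0 < M) (hM : δ * p ≤ M)
    (h : 0 ≤ ell a b p q M δ x) : 0 ≤ ell a b p q M δ y := by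
  have hx0 : 0 < x := hq.trans hqx
  have hr := R1 hM0 hδ hx0 hxy hyp hM
  have h1 : 0 < Lc p x := Lc_pos_lt hx0 (by linarith)
  have h2 : Lc p x ≤ Lc p y := Lc_mono hx0.le hxy hyp
  have h3 : Lc q y ≤ Lc q x := Lc_anti hq hqx hxy
  have h4 : 0 ≤ Lc q y := Lc_nonneg_gt hq.le (by linarith)
  unfold ell at h ⊢
  have hb' : 0 ≤ 2 * b - 1 := by linarith
  have t1 : 0 ≤ ((2 * a - 1) * Lc p x - (2 * b - 1) * Lc q x - Cc M δ x) * Lc p y :=
    mul_nonneg h (by linarith)
  have t2 : (2 * b - 1) * (Lc q y * Lc p x) ≤ (2 * b - 1) * (Lc q x * Lc p y) := by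
    apply mul_le_mul_of_nonneg_left _ hb'
    apply mul_le_mul h3 h2 h1.le (by linarith)
  have t3 : 0 ≤ ((2 * a - 1) * Lc p y - (2 * b - 1) * Lc q y - Cc M δ y) * Lc p x := by
    nlinarith
  by_contra hcon
  push Not at hcon
  nlinarith

lemma ell_L4 {a b p q M δ x y : ℝ} (ha : 1/2 ≤ a) (hb : 1/2 ≤ b) (hp : 0 < p) (hpx : p < x)
    (hxy : x ≤ y) (hyq : y < q) (hδ : 0 ≤ δ) (hM : δ * y < M)
    (h : ell a b p q M δ x ≤ 0) : ell a b p q M δ y ≤ 0 := by
  have hx0 : 0 < x := hp.trans hpx
  have h1 : Lc p y ≤ Lc p x := Lc_anti hp hpx hxy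
  have h2 : Lc q x ≤ Lc q y := Lc_mono hx0.le hxy hyq
  have h3 : Cc M δ x ≤ Cc M δ y := Cc_mono hδ hx0.le hxy hM
  unfold ell at h ⊢
  have t1 : (2 * a - 1) * Lc p y ≤ (2 * a - 1) * Lc p x := mul_le_mul_of_nonneg_left h1 (by linarith)
  have t2 : (2 * b - 1) * Lc q x ≤ (2 * b - 1) * Lc q y := mul_le_mul_of_nonneg_left h2 (by linarith)
  linarith

lemma Cc_eq_Lc {M δ x : ℝ} (hδ : 0 < δ) (hM : 0 < M) (hx : M < δ * x) : Cc M δ x = Lc (M / δ) x := by
  have hx0 : 0 < x := by
    by_contra hc
    push Not at hc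
    nlinarith
  unfold Cc Lc
  have e1 : M / δ + x = (M + δ * x) / δ := by field_simp
  have e2 : M / δ - x = (M - δ * x) / δ := by field_simp
  rw [e1, e2, Real.log_div (by nlinarith) hδ.ne', Real.log_div (by intro h; linarith) hδ.ne']
  ring

lemma ell_L5 {a b p q M δ x y : ℝ} (_ha : 1/2 ≤ a) (hb : 1/2 ≤ b) (hp : 0 < p) (hq : 0 < q) (hqp : q ≤ p)
    (hpx : p < x) (hxy : x ≤ y) (hδ : 0 < δ) (hM0 : 0 < M) (hM : M ≤ δ * p)
    (h : ell a b p q M δ x ≤ 0) : ell a b p q M δ y ≤ 0 := by
  have hx0 : 0 < x := hp.trans hpx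
  have hMx : M < δ * x := lt_of_le_of_lt hM (mul_lt_mul_of_pos_left hpx hδ)
  have hMy : M < δ * y := lt_of_le_of_lt hM (mul_lt_mul_of_pos_left (by linarith) hδ)
  have hc : M / δ ≤ p := by rw [div_le_iff₀ hδ]; linarith
  have r1 := R2 hq hqp hpx hxy
  have r2 := R2 (div_pos hM0 hδ) hc hpx hxy
  unfold ell at h ⊢
  rw [Cc_eq_Lc hδ hM0 hMx] at h
  rw [Cc_eq_Lc hδ hM0 hMy]
  have h1 : 0 < Lc p x := Lc_pos_gt hp hpx
  have h2 : 0 ≤ Lc p y := Lc_nonneg_gt hp.le (by linarith)
  have t1 : ((2 * a - 1) * Lc p x - (2 * b - 1) * Lc q x - Lc (M / δ) x) * Lc p y ≤ 0 :=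
    mul_nonpos_of_nonpos_of_nonneg h h2
  have t2 : (2 * b - 1) * (Lc p y * Lc q x) ≤ (2 * b - 1) * (Lc q y * Lc p x) :=
    mul_le_mul_of_nonneg_left r1 (by linarith)
  have t3 : ((2 * a - 1) * Lc p y - (2 * b - 1) * Lc q y - Lc (M / δ) y) * Lc p x ≤ 0 := by
    nlinarith
  by_contra hcon
  push Not at hcon
  nlinarith

/-- modulus of the first term (without the factor `|M - δx|`) -/
noncomputable def Eu (a b p q x : ℝ) : ℝ := Real.exp ((2 * a - 1) * Real.log (p + x) + (2 * b - 1) * Real.log (q - x))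

lemma abs_rpow_eq_exp {r z : ℝ} (hz : z ≠ 0) : |z| ^ r = Real.exp ((r - 1) * Real.log z) * |z| := by
  have h : 0 < |z| := abs_pos.mpr hz
  have h2 : |z| = Real.exp (Real.log z) := by rw [← Real.log_abs, Real.exp_log h]
  rw [Real.rpow_def_of_pos h, Real.log_abs, h2, ← Real.exp_add]
  ring_nf

lemma ld_eq {a b p q x : ℝ} (h1 : p + x ≠ 0) (h2 : q - x ≠ 0) :
    ld a b p q x = 2 * Eu a b p q x * ((a + b) * p * q - (a * p - b * q) * x) *
      (|p + x| / (p + x)) * (|q - x| / (q - x)) := by
  unfold ld lf Eu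
  rw [abs_rpow_eq_exp h1, abs_rpow_eq_exp h2, Real.exp_add]
  field_simp
  ring

lemma cmp_le {a b p q x : ℝ} (hM1 : 0 < (a + b) * p * q + (a * p - b * q) * x)
    (hM2 : (a + b) * p * q - (a * p - b * q) * x ≠ 0)
    (h : ell a b p q ((a + b) * p * q) (a * p - b * q) x ≤ 0) :
    Eu a b p q x * |(a + b) * p * q - (a * p - b * q) * x| ≤
      Eu b a q p x * ((a + b) * p * q + (a * p - b * q) * x) := by
  unfold ell Lc Cc at h
  unfold Eu
  have e1 : |(a + b) * p * q - (a * p - b * q) * x| =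
      Real.exp (Real.log ((a + b) * p * q - (a * p - b * q) * x)) := by
    rw [← Real.log_abs, Real.exp_log (abs_pos.mpr hM2)]
  have e2 : (a + b) * p * q + (a * p - b * q) * x =
      Real.exp (Real.log ((a + b) * p * q + (a * p - b * q) * x)) := (Real.exp_log hM1).symm
  rw [e1]
  conv_rhs => rw [e2]
  rw [← Real.exp_add, ← Real.exp_add]
  apply Real.exp_le_exp.mpr
  linarith

lemma cmp_ge {a b p q x : ℝ} (hM1 : 0 < (a + b) * p * q + (a * p - b * q) * x)
    (hM2 : (a + b) * p * q - (a * p - b * q) * x ≠ 0)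
    (h : 0 ≤ ell a b p q ((a + b) * p * q) (a * p - b * q) x) :
    Eu b a q p x * ((a + b) * p * q + (a * p - b * q) * x) ≤ 
      Eu a b p q x * |(a + b) * p * q - (a * p - b * q) * x| := by
  unfold ell Lc Cc at h
  unfold Eu
  have e1 : |(a + b) * p * q - (a * p - b * q) * x| =
      Real.exp (Real.log ((a + b) * p * q - (a * p - b * q) * x)) := by
    rw [← Real.log_abs, Real.exp_log (abs_pos.mpr hM2)]
  have e2 : (a + b) * p * q + (a * p - b * q) * x =
      Real.exp (Real.log ((a + b) * p * q + (a * p - b * q) * x)) := (Real.exp_log hM1).symm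
  rw [e1]
  conv_lhs => rw [e2]
  rw [← Real.exp_add, ← Real.exp_add]
  apply Real.exp_le_exp.mpr
  linarith

lemma Eu_pos (a b p q x : ℝ) : 0 < Eu a b p q x := Real.exp_pos _

/-- single crossing of `D` for exponents in `[1/2,1]`, `δ ≥ 0` -/
lemma lD_sc_aux {a b p q x y : ℝ} (ha : 1/2 ≤ a) (ha1 : a ≤ 1) (hb : 1/2 ≤ b) 
    (hp : 0 < p) (hq : 0 < q) (hx : 0 < x) (hxy : x < y) (hδ : b * q ≤ a * p)
    (hxp : x ≠ p) (hxq : x ≠ q) (hyp : y ≠ p) (hyq : y ≠ q) (hD : lD a b p q x < 0) :
    lD a b p q y ≤ 0 := by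
  have hy : 0 < y := hx.trans hxy
  obtain ⟨M, hMdef⟩ : ∃ M, M = (a + b) * p * q := ⟨_, rfl⟩
  obtain ⟨δ, hδdef⟩ : ∃ δ, δ = a * p - b * q := ⟨_, rfl⟩
  have hM0 : 0 < M := by rw [hMdef]; positivity
  have hδ0 : 0 ≤ δ := by rw [hδdef]; linarith
  have hMq : δ * q < M := by
    rw [hMdef, hδdef]
    nlinarith [mul_pos (mul_pos (by linarith : 0 < b) hp) hq, mul_pos (mul_pos (by linarith : 0 < b) hq) hq]
  -- formulas
  have formula : ∀ z, 0 < z → z ≠ p → z ≠ q → lD a b p q z =
      2 * Eu a b p q z * (M - δ * z) * (|q - z| / (q - z)) +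
      2 * Eu b a q p z * (M + δ * z) * (|p - z| / (p - z)) := by
    intro z hz hzp hzq
    unfold lD
    rw [← ld_symm a b p q (-z), neg_neg]
    rw [ld_eq (by linarith) (by intro h; apply hzq; linarith),
      ld_eq (by linarith) (by intro h; apply hzp; linarith)]
    rw [abs_of_pos (by linarith : 0 < p + z), abs_of_pos (by linarith : 0 < q + z),
      div_self (by linarith), div_self (by linarith), hMdef, hδdef]
    ring
  have hposD : ∀ z, 0 < z → z ≠ p → z ≠ q → 0 < M + δ * z := by
    intro z hz _ _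
    have : 0 ≤ δ * z := by positivity
    linarith
  have cle : ∀ z, 0 < z → z ≠ p → z ≠ q → M - δ * z ≠ 0 → ell a b p q M δ z ≤ 0 →
      Eu a b p q z * |M - δ * z| ≤ Eu b a q p z * (M + δ * z) := by
    intro z hz hzp hzq h0 hl
    have := cmp_le (a := a) (b := b) (p := p) (q := q) (x := z)
      (by rw [← hMdef, ← hδdef]; exact hposD z hz hzp hzq) (by rw [← hMdef, ← hδdef]; exact h0)
      (by rw [← hMdef, ← hδdef]; exact hl)
    rwa [← hMdef, ← hδdef] at this
  have cge : ∀ z, 0 < z → z ≠ p → z ≠ q → M - δ * z ≠ 0 → 0 ≤ ell a b p q M δ z →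
      Eu b a q p z * (M + δ * z) ≤ Eu a b p q z * |M - δ * z| := by
    intro z hz hzp hzq h0 hl
    have := cmp_ge (a := a) (b := b) (p := p) (q := q) (x := z)
      (by rw [← hMdef, ← hδdef]; exact hposD z hz hzp hzq) (by rw [← hMdef, ← hδdef]; exact h0)
      (by rw [← hMdef, ← hδdef]; exact hl)
    rwa [← hMdef, ← hδdef] at this
  have Eu1 := Eu_pos a b p q x
  have Eu2 := Eu_pos b a q p x
  have Eu3 := Eu_pos a b p q y
  have Eu4 := Eu_pos b a q p y
  have hMx := hposD x hx hxp hxq
  have hMy := hposD y hy hyp hyq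
  rw [formula x hx hxp hxq] at hD
  rw [formula y hy hyp hyq]
  -- final case for y beyond both
  have fin : p < y → q < y → (M - δ * y < 0 → ell a b p q M δ y ≤ 0) →
      2 * Eu a b p q y * (M - δ * y) * (|q - y| / (q - y)) +
      2 * Eu b a q p y * (M + δ * y) * (|p - y| / (p - y)) ≤ 0 := by
    intro h1 h2 h3
    have s1 : |q - y| / (q - y) = -1 := by
      rw [abs_of_neg (by linarith)]; rw [neg_div, div_self (by intro h; linarith)]
    have s2 : |p - y| / (p - y) = -1 := by
      rw [abs_of_neg (by linarith)]; rw [neg_div, div_self (by intro h; linarith)]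
    rw [s1, s2]
    have hw : 0 ≤ Eu b a q p y * (M + δ * y) := by positivity
    rcases le_or_gt 0 (M - δ * y) with h | h
    · have : 0 ≤ Eu a b p q y * (M - δ * y) := mul_nonneg Eu3.le h
      linarith
    · have := cle y hy hyp hyq h.ne (h3 h)
      rw [abs_of_neg h] at this
      linarith
  rcases lt_or_gt_of_ne hxp with hxp' | hxp'
  · -- x < p
    have s2 : |p - x| / (p - x) = 1 := by
      rw [abs_of_pos (by linarith), div_self (by intro h; linarith)]
    rw [s2] at hD
    rcases lt_or_gt_of_ne hxq with hxq' | hxq'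
    · exfalso
      have s1 : |q - x| / (q - x) = 1 := by
        rw [abs_of_pos (by linarith), div_self (by intro h; linarith)]
      rw [s1] at hD
      have : δ * x ≤ δ * q := mul_le_mul_of_nonneg_left hxq'.le hδ0
      have h1 : 0 ≤ Eu a b p q x * (M - δ * x) := mul_nonneg Eu1.le (by linarith)
      have h2 : 0 ≤ Eu b a q p x * (M + δ * x) := by positivity
      linarith
    · have s1 : |q - x| / (q - x) = -1 := by
        rw [abs_of_neg (by linarith)]; rw [neg_div, div_self (by intro h; linarith)]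
      rw [s1] at hD
      have h2 : 0 ≤ Eu b a q p x * (M + δ * x) := by positivity
      have hpos : 0 < M - δ * x := by
        by_contra hc
        push Not at hc
        have : Eu a b p q x * (M - δ * x) ≤ 0 := mul_nonpos_of_nonneg_of_nonpos Eu1.le hc
        linarith
      have hell : 0 < ell a b p q M δ x := by
        by_contra hc
        push Not at hc
        have := cle x hx hxp hxq hpos.ne' hc
        rw [abs_of_pos hpos] at this
        linarith
      have hMp : δ * p ≤ M := by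
        by_contra hc
        push Not at hc
        have := ell_L1 (a := a) (b := b) ha1 hb hq hxq' hxp' hδ0 hc (by linarith)
        linarith
      rcases lt_or_gt_of_ne hyp with hyp' | hyp'
      · have hy2 : δ * y < M := by
          rcases hδ0.eq_or_lt with h | h
          · rw [← h]; simpa using hM0
          · have := mul_lt_mul_of_pos_left hyp' h
            linarith
        have l2 := ell_L2 (a := a) (b := b) ha hb hq hxq' hxy.le hyp' hδ0 hM0 hMp hell.le
        have := cge y hy hyp hyq (by intro h; linarith) l2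
        rw [abs_of_pos (by linarith : 0 < M - δ * y)] at this
        have s3 : |q - y| / (q - y) = -1 := by
          rw [abs_of_neg (by linarith)]; rw [neg_div, div_self (by intro h; linarith)]
        have s4 : |p - y| / (p - y) = 1 := by
          rw [abs_of_pos (by linarith), div_self (by intro h; linarith)]
        rw [s3, s4]
        linarith
      · apply fin hyp' (by linarith)
        intro h
        exact ell_L3 ha1 hb hp hq (by linarith) hyp' hM0 hMp (by linarith)
  · -- p < x
    have s2 : |p - x| / (p - x) = -1 := by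
      rw [abs_of_neg (by linarith)]; rw [neg_div, div_self (by intro h; linarith)]
    rw [s2] at hD
    rcases lt_or_gt_of_ne hxq with hxq' | hxq'
    · -- p < x < q
      have s1 : |q - x| / (q - x) = 1 := by
        rw [abs_of_pos (by linarith), div_self (by intro h; linarith)]
      rw [s1] at hD
      have hdx : δ * x ≤ δ * q := mul_le_mul_of_nonneg_left hxq'.le hδ0
      have hMp : δ * p ≤ M := by
        have : δ * p ≤ δ * q := mul_le_mul_of_nonneg_left (by linarith) hδ0
        linarith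
      have hell : ell a b p q M δ x ≤ 0 := by
        by_contra hc
        push Not at hc
        have := cge x hx hxp hxq (by intro h; linarith) hc.le
        rw [abs_of_pos (by linarith : 0 < M - δ * x)] at this
        linarith
      rcases lt_or_gt_of_ne hyq with hyq' | hyq'
      · have hy2 : δ * y < M := by
          have : δ * y ≤ δ * q := mul_le_mul_of_nonneg_left hyq'.le hδ0
          linarith
        have l4 := ell_L4 (a := a) (b := b) ha hb hp hxp' hxy.le hyq' hδ0 hy2 hell
        have := cle y hy hyp hyq (by intro h; linarith) l4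
        rw [abs_of_pos (by linarith : 0 < M - δ * y)] at this
        have s3 : |q - y| / (q - y) = 1 := by
          rw [abs_of_pos (by linarith), div_self (by intro h; linarith)]
        have s4 : |p - y| / (p - y) = -1 := by
          rw [abs_of_neg (by linarith)]; rw [neg_div, div_self (by intro h; linarith)]
        rw [s3, s4]
        linarith
      · apply fin (by linarith) hyq'
        intro h
        exact ell_L3 ha1 hb hp hq hyq' (by linarith) hM0 hMp (by linarith)
    · -- x beyond both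
      have s1 : |q - x| / (q - x) = -1 := by
        rw [abs_of_neg (by linarith)]; rw [neg_div, div_self (by intro h; linarith)]
      rw [s1] at hD
      apply fin (by linarith) (by linarith)
      intro h
      rcases le_or_gt (δ * p) M with hMp | hMp
      · exact ell_L3 ha1 hb hp hq (by linarith) (by linarith) hM0 hMp (by linarith)
      · have hδpos : 0 < δ := by
          rcases hδ0.eq_or_lt with h' | h'
          · exfalso; rw [← h'] at hMp; linarith
          · exact h'
        have hneg : M - δ * x < 0 := by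
          have := mul_lt_mul_of_pos_left hxp' hδpos
          linarith
        have hell : ell a b p q M δ x ≤ 0 := by
          by_contra hc
          push Not at hc
          have := cge x hx hxp hxq hneg.ne hc.le
          rw [abs_of_neg hneg] at this
          linarith
        have hqp : q ≤ p := by
          by_contra hc
          push Not at hc
          have : δ * p ≤ δ * q := mul_le_mul_of_nonneg_left hc.le hδ0
          linarith
        exact ell_L5 ha hb hp hq hqp hxp' hxy.le hδpos hM0 hMp.le hell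

lemma lD_sc {a b p q x y : ℝ} (ha : 1/2 ≤ a) (ha1 : a ≤ 1) (hb : 1/2 ≤ b) (hb1 : b ≤ 1)
    (hp : 0 < p) (hq : 0 < q) (hx : 0 < x) (hxy : x < y) 
    (hxp : x ≠ p) (hxq : x ≠ q) (hyp : y ≠ p) (hyq : y ≠ q) (hD : lD a b p q x < 0) :
    lD a b p q y ≤ 0 := by
  rcases le_total (b * q) (a * p) with h | h
  · exact lD_sc_aux ha ha1 hb hp hq hx hxy h hxp hxq hyp hyq hD
  · rw [← lD_symm] at hD ⊢
    exact lD_sc_aux hb hb1 ha hq hp hx hxy h hxq hxp hyq hyp hD

/-- single crossing of `Ĝ`, exponents in `[1/2, 1]` -/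
lemma lG_sc_large {a b p q x y : ℝ} (ha : 1/2 ≤ a) (ha1 : a ≤ 1) (hb : 1/2 ≤ b) (hb1 : b ≤ 1)
    (hp : 0 < p) (hq : 0 < q) (hx : 0 < x) (hxy : x < y) (hG : 0 ≤ lG a b p q y) :
    0 ≤ lG a b p q x := by
  classical
  have ha0 : 0 < a := by linarith
  have hb0 : 0 < b := by linarith
  by_contra hcon
  push Not at hcon
  have hder : ∀ z, 0 < z → z ∉ ({p, q} : Finset ℝ) → HasDerivAt (lG a b p q) (lD a b p q z) z := by
    intro z hz hzS
    simp only [Finset.mem_insert, Finset.mem_singleton, not_or] at hzS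
    apply lG_hasDerivAt ha0 hb0 (by linarith) (by intro h; apply hzS.2; linarith)
      (by intro h; apply hzS.1; linarith) (by linarith)
  have h1 : ∃ ξ, ξ ∈ Ioo 0 x ∧ ξ ∉ ({p, q} : Finset ℝ) ∧ lD a b p q ξ < 0 := by
    by_contra hno
    push Not at hno
    have := le_of_deriv_off_finset (lG a b p q) (lD a b p q) (lG_cont ha0 hb0 p q) {p, q} 0 x hx.le
      (fun z hz hzS => hder z hz.1 hzS) (fun z hz hzS => hno z hz hzS)
    rw [lG_zero] at this
    linarith
  have h2 : ∃ η, η ∈ Ioo x y ∧ η ∉ ({p, q} : Finset ℝ) ∧ 0 < lD a b p q η := by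
    by_contra hno
    push Not at hno
    have := le_of_deriv_off_finset (fun z => -(lG a b p q z)) (fun z => -(lD a b p q z))
      (lG_cont ha0 hb0 p q).neg {p, q} x y hxy.le
      (fun z hz hzS => (hder z (hx.trans hz.1) hzS).neg) (fun z hz hzS => by
        have := hno z hz hzS
        linarith)
    linarith
  obtain ⟨ξ, hξ, hξS, hξD⟩ := h1
  obtain ⟨η, hη, hηS, hηD⟩ := h2
  simp only [Finset.mem_insert, Finset.mem_singleton, not_or] at hξS hηS
  have := lD_sc ha ha1 hb hb1 hp hq hξ.1 (hξ.2.trans hη.1) hξS.1 hξS.2 hηS.1 hηS.2 hξD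
  linarith

/-- change of variables -/
lemma G_eq {a b w1 w2 v1 v2 t : ℝ} (hw1 : 0 < w1) (hw2 : 0 < w2)
    (hv1 : 0 < v1) (hv2 : 0 < v2) (ht : 0 < t) :
    (2 * (a + b) + 1) * (∫ u in (-1:ℝ)..1, |w1 * t + v1 * u| ^ (2 * a) * |w2 * t - v2 * u| ^ (2 * b)) -
      (|w1 * t - v1| ^ (2 * a) * |w2 * t + v2| ^ (2 * b) + |w1 * t + v1| ^ (2 * a) * |w2 * t - v2| ^ (2 * b))
    = (v1 ^ (2 * a) * v2 ^ (2 * b) * t ^ (2 * (a + b) + 1)) * 
      ((2 * (a + b) + 1) * (∫ s in (-(1/t))..(1/t), lf a b (w1 / v1) (w2 / v2) s) -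
        (1 / t) * (lf a b (w1 / v1) (w2 / v2) (1 / t) + lf a b (w1 / v1) (w2 / v2) (-(1 / t)))) := by
  have key : ∀ s : ℝ, |w1 * t + v1 * (t * s)| ^ (2 * a) * |w2 * t - v2 * (t * s)| ^ (2 * b) =
      (v1 ^ (2 * a) * v2 ^ (2 * b) * t ^ (2 * (a + b))) * lf a b (w1 / v1) (w2 / v2) s := by
    intro s
    unfold lf
    have e1 : w1 * t + v1 * (t * s) = (v1 * t) * (w1 / v1 + s) := by field_simp
    have e2 : w2 * t - v2 * (t * s) = (v2 * t) * (w2 / v2 - s) := by field_simp
    rw [e1, e2, abs_mul (v1 * t), abs_mul (v2 * t), abs_of_pos (by positivity : 0 < v1 * t),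
      abs_of_pos (by positivity : 0 < v2 * t),
      Real.mul_rpow (by positivity) (abs_nonneg _), Real.mul_rpow (by positivity) (abs_nonneg _),
      Real.mul_rpow hv1.le ht.le, Real.mul_rpow hv2.le ht.le,
      show 2 * (a + b) = 2 * a + 2 * b by ring, Real.rpow_add ht]
    ring
  have hint : (∫ u in (-1:ℝ)..1, |w1 * t + v1 * u| ^ (2 * a) * |w2 * t - v2 * u| ^ (2 * b)) =
      (v1 ^ (2 * a) * v2 ^ (2 * b) * t ^ (2 * (a + b) + 1)) *
        ∫ s in (-(1/t))..(1/t), lf a b (w1 / v1) (w2 / v2) s := by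
    have h := intervalIntegral.mul_integral_comp_mul_left (a := -(1/t)) (b := 1/t)
      (f := fun u => |w1 * t + v1 * u| ^ (2 * a) * |w2 * t - v2 * u| ^ (2 * b)) (c := t)
    rw [show t * -(1 / t) = -1 by field_simp, show t * (1 / t) = 1 by field_simp] at h
    rw [← h]
    simp only [key]
    rw [intervalIntegral.integral_const_mul, Real.rpow_add_one ht.ne']
    ring
  have b1 := key (1 / t)
  have b2 := key (-(1 / t))
  rw [show t * (1 / t) = 1 by field_simp] at b1
  rw [show t * -(1 / t) = -1 by field_simp] at b2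
  simp only [mul_one, mul_neg, sub_neg_eq_add, ← sub_eq_add_neg] at b1 b2
  rw [hint, b1, b2, Real.rpow_add_one ht.ne']
  field_simp
  ring

lemma lG_eq {a b : ℝ} (ha : 0 < a) (hb : 0 < b) (p q x : ℝ) : lG a b p q x =
    (2 * (a + b) + 1) * (∫ s in (-x)..x, lf a b p q s) - x * (lf a b p q x + lf a b p q (-x)) := by
  unfold lG lF
  have h := intervalIntegral.integral_add_adjacent_intervals
    ((lf_cont ha hb p q).intervalIntegrable (-x) 0) ((lf_cont ha hb p q).intervalIntegrable 0 x) (μ := volume)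
  rw [← h, intervalIntegral.integral_symm (-x) 0]
  ring

theorem lambda_sc (a b w1 w2 v1 v2 : ℝ) (ha : 0 < a) (hb : 0 < b)
    (hab : (a ≤ 1/2 ∧ b ≤ 1/2) ∨ (1/2 ≤ a ∧ a ≤ 1 ∧ 1/2 ≤ b ∧ b ≤ 1))
    (hw1 : 0 < w1) (hw2 : 0 < w2) (hv1 : 0 < v1) (hv2 : 0 < v2) :
    ∀ s t : ℝ, 0 < s → s < t →
      0 ≤ (2 * (a + b) + 1) * (∫ u in (-1:ℝ)..1, |w1 * s + v1 * u| ^ (2 * a) * |w2 * s - v2 * u| ^ (2 * b)) -
        (|w1 * s - v1| ^ (2 * a) * |w2 * s + v2| ^ (2 * b) +
          |w1 * s + v1| ^ (2 * a) * |w2 * s - v2| ^ (2 * b)) →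
      0 ≤ (2 * (a + b) + 1) * (∫ u in (-1:ℝ)..1, |w1 * t + v1 * u| ^ (2 * a) * |w2 * t - v2 * u| ^ (2 * b)) -
        (|w1 * t - v1| ^ (2 * a) * |w2 * t + v2| ^ (2 * b) +
          |w1 * t + v1| ^ (2 * a) * |w2 * t - v2| ^ (2 * b)) := by
  intro s t hs hst hG
  have ht : 0 < t := hs.trans hst
  rw [G_eq hw1 hw2 hv1 hv2 hs, ← lG_eq ha hb] at hG
  rw [G_eq hw1 hw2 hv1 hv2 ht, ← lG_eq ha hb]
  have hC : 0 < v1 ^ (2 * a) * v2 ^ (2 * b) * s ^ (2 * (a + b) + 1) := by positivity
  have hG' : 0 ≤ lG a b (w1 / v1) (w2 / v2) (1 / s) := by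
    by_contra hc
    push Not at hc
    have := mul_neg_of_pos_of_neg hC hc
    linarith
  apply mul_nonneg (by positivity)
  have hlt : 1 / t < 1 / s := one_div_lt_one_div_of_lt hs hst
  rcases hab with ⟨h1, h2⟩ | ⟨h1, h2, h3, h4⟩
  · exact lG_sc_small ha hb h1 h2 (by positivity) (by positivity) (by positivity) hlt hG'
  · exact lG_sc_large h1 h2 h3 h4 (by positivity) (by positivity) (by positivity) hlt hG'


end Pool.Agent.GPI
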