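import Mathlib
import Pool.Agent.GPI.Repr
import Pool.Agent.GPI.Polar
import Pool.Agent.GPI.Circle

set_option autoImplicit false

open Real MeasureTheory ProbabilityTheory Set

namespace Pool.Agent.GPI

variable {d : ℕ}

lemma mean_eval (μ : Measure (Fin d → ℝ)) [IsGaussian μ] (h0 : ∫ x, x ∂μ = 0) (i : Fin d) :
    ∫ x, x i ∂μ = 0 := by
  have := (ContinuousLinearMap.proj (R := ℝ) (φ := fun _ : Fin d => ℝ) i).integral_comp_id_comm'
    (IsGaussian.integrable_id (μ := μ))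
  have h1 : ∫ x, id x ∂μ = 0 := by simpa using h0
  rw [h1, map_zero] at this
  exact this

lemma map_eval_gaussian (μ : Measure (Fin d → ℝ)) [IsGaussian μ] (h0 : ∫ x, x ∂μ = 0) (i : Fin d) :
    μ.map (fun x => x i) = gaussianReal 0 (secMom μ i i).toNNReal := by
  have h := IsGaussian.map_eq_gaussianReal (μ := μ)
    (ContinuousLinearMap.proj (R := ℝ) (φ := fun _ : Fin d => ℝ) i)
  have h1 : (⇑(ContinuousLinearMap.proj (R := ℝ) (φ := fun _ : Fin d => ℝ) i)) = fun x => x i := rfl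
  rw [h1] at h
  rw [h]
  have hm : μ[fun x : Fin d → ℝ => x i] = 0 := mean_eval μ h0 i
  have hv : Var[fun x : Fin d → ℝ => x i; μ] = secMom μ i i := by
    rw [variance_eq_integral (measurable_pi_apply i).aemeasurable, hm]
    simp only [sub_zero, secMom, Matrix.of_apply, sq]
  rw [hm, hv]

lemma secMom_diag_nonneg (μ : Measure (Fin d → ℝ)) (i : Fin d) : 0 ≤ secMom μ i i := by
  simp only [secMom, Matrix.of_apply]
  exact integral_nonneg (fun x => mul_self_nonneg _)

lemma moment_eval (μ : Measure (Fin d → ℝ)) [IsGaussian μ] (h0 : ∫ x, x ∂μ = 0) (i : Fin d)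
    (p : ℝ) (hp : 0 ≤ p) :
    ∫ x, |x i| ^ p ∂μ = (secMom μ i i) ^ (p / 2) * (2 ^ (p / 2) * Gamma (p / 2 + 1 / 2) / √π) := by
  have hv := secMom_diag_nonneg μ i
  have e1 : ∫ x, |x i| ^ p ∂μ = ∫ y, |y| ^ p ∂(μ.map (fun x => x i)) := by
    rw [integral_map (measurable_pi_apply i).aemeasurable]
    exact (by fun_prop : Measurable (fun y : ℝ => |y| ^ p)).aestronglyMeasurable
  rw [e1, map_eval_gaussian μ h0]
  have e2 : gaussianReal 0 (secMom μ i i).toNNReal
      = (gaussianReal 0 1).map (fun y => √(secMom μ i i) * y) := by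
    rw [gaussianReal_map_const_mul]
    congr 1
    · simp
    · ext
      simp [Real.sq_sqrt hv, hv]
  rw [e2, integral_map (by fun_prop) (by fun_prop : Measurable (fun y : ℝ => |y| ^ p)).aestronglyMeasurable]
  have e3 : ∀ y : ℝ, |√(secMom μ i i) * y| ^ p = (secMom μ i i) ^ (p / 2) * |y| ^ p := by
    intro y
    rw [abs_mul, abs_of_nonneg (Real.sqrt_nonneg _), Real.mul_rpow (Real.sqrt_nonneg _) (abs_nonneg _),
      Real.sqrt_eq_rpow, ← Real.rpow_mul hv]
    congr 2
    ring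
  simp_rw [e3]
  rw [integral_const_mul, gauss1_moment p hp]

open Nat in
/-- Rank two Gaussian product inequality, integer exponents, in coordinates. -/
theorem rank_two_coord (A : Matrix (Fin d) (Fin 2) ℝ) (ν : Fin d → ℕ) :
    (∏ i, ((A i 0 ^ 2 + A i 1 ^ 2) ^ (ν i) * ((2 * ν i - 1)‼ : ℝ)))
      ≤ ∫ z : ℝ × ℝ, ∏ i, |A i 0 * z.1 + A i 1 * z.2| ^ (2 * ν i)
        ∂((gaussianReal 0 1).prod (gaussianReal 0 1)) := by
  set w : Fin d → ℂ := fun i => ⟨A i 0, A i 1⟩ with hw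
  set θ : Fin d → ℝ := fun i => (w i).arg with hθ
  set ρ : Fin d → ℝ := fun i => ‖w i‖ with hρ
  have hre : ∀ i, A i 0 = ρ i * cos (θ i) := by
    intro i
    have := Complex.norm_mul_cos_arg (w i)
    rw [hρ, hθ]
    simp only
    rw [this]
  have him : ∀ i, A i 1 = ρ i * sin (θ i) := by
    intro i
    have := Complex.norm_mul_sin_arg (w i)
    rw [hρ, hθ]
    simp only
    rw [this]
  have hsq : ∀ i, A i 0 ^ 2 + A i 1 ^ 2 = ρ i ^ 2 := by
    intro i
    rw [hre, him]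
    have := Real.sin_sq_add_cos_sq (θ i)
    calc (ρ i * cos (θ i)) ^ 2 + (ρ i * sin (θ i)) ^ 2
        = ρ i ^ 2 * (sin (θ i) ^ 2 + cos (θ i) ^ 2) := by ring
      _ = _ := by rw [this, mul_one]
  set N := ∑ i, ν i with hN
  have hpol := gauss2_polar (fun z : ℝ × ℝ => ∏ i, |A i 0 * z.1 + A i 1 * z.2| ^ (2 * ν i))
    (fun t => (∏ i, ρ i ^ (2 * ν i)) * ∏ i, (cos (t - θ i)) ^ (2 * ν i)) (2 * N) (by positivity) ?_
  · rw [hpol, integral_const_mul]
    have hper : ∫ t in Ioo (-π) π, ∏ i, (cos (t - θ i)) ^ (2 * ν i) = cI θ ν := by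
      rw [← integral_Ioc_eq_integral_Ioo, ← intervalIntegral.integral_of_le (by linarith [Real.pi_pos])]
      have hperiod : Function.Periodic (fun t => ∏ i, (cos (t - θ i)) ^ (2 * ν i)) (2 * π) := by
        intro t
        simp only
        apply Finset.prod_congr rfl
        intro i _
        rw [show t + 2 * π - θ i = (t - θ i) + 2 * π by ring, Real.cos_add_two_pi]
      have := hperiod.intervalIntegral_add_eq (-π) 0
      unfold cI
      rw [show (-π) + 2 * π = π by ring, zero_add] at this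
      exact this
    rw [hper]
    have hG : Gamma (2 * (N : ℝ) / 2 + 1) = (N ! : ℝ) := by
      rw [show 2 * (N : ℝ) / 2 + 1 = (N : ℝ) + 1 by ring]
      exact Real.Gamma_nat_eq_factorial N
    have h2 : (2 : ℝ) ^ (2 * (N : ℝ) / 2) = 2 ^ N := by
      rw [show 2 * (N : ℝ) / 2 = (N : ℝ) by ring, Real.rpow_natCast]
    rw [hG, h2]
    have hci := circle_ineq N ν hN.symm θ
    have hlhs : (∏ i, ((A i 0 ^ 2 + A i 1 ^ 2) ^ (ν i) * ((2 * ν i - 1)‼ : ℝ)))
        = (∏ i, ρ i ^ (2 * ν i)) * ∏ i, ((2 * ν i - 1)‼ : ℝ) := by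
      rw [Finset.prod_mul_distrib]
      congr 1
      apply Finset.prod_congr rfl
      intro i _
      rw [hsq, ← pow_mul]
    rw [hlhs]
    have hP : 0 ≤ ∏ i, ρ i ^ (2 * ν i) :=
      Finset.prod_nonneg (fun i _ => pow_nonneg (norm_nonneg _) _)
    have hpi : 0 < 2 * π := by positivity
    calc (∏ i, ρ i ^ (2 * ν i)) * ∏ i, ((2 * ν i - 1)‼ : ℝ)
        = (∏ i, ρ i ^ (2 * ν i)) * (2 * π)⁻¹ * ((∏ i, ((2 * ν i - 1)‼ : ℝ)) * (2 * π)) := by
          field_simp
      _ ≤ (∏ i, ρ i ^ (2 * ν i)) * (2 * π)⁻¹ * (2 ^ N * (N ! : ℝ) * cI θ ν) :=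
          mul_le_mul_of_nonneg_left hci (by positivity)
      _ = _ := by ring
  · intro r hr t
    simp only
    have : ∀ i, |A i 0 * (r * cos t) + A i 1 * (r * sin t)| ^ (2 * ν i)
        = (r ^ (2 * ν i)) * (ρ i ^ (2 * ν i) * (cos (t - θ i)) ^ (2 * ν i)) := by
      intro i
      rw [pow_mul, sq_abs, ← pow_mul]
      have : A i 0 * (r * cos t) + A i 1 * (r * sin t) = r * (ρ i * cos (t - θ i)) := by
        rw [hre, him, Real.cos_sub]; ring
      rw [this]
      ring
    simp_rw [this]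
    rw [Finset.prod_mul_distrib, Finset.prod_mul_distrib, Finset.prod_pow_eq_pow_sum]
    congr 1
    rw [← Finset.mul_sum, ← hN]
    have : (2 * (N : ℝ)) = ((2 * N : ℕ) : ℝ) := by push_cast; ring
    rw [this, Real.rpow_natCast]

/-- The Gaussian product inequality for centered Gaussian laws with covariance of rank at most two
and integer exponents. -/
theorem rank_two (μ : Measure (Fin d → ℝ)) [IsGaussian μ] (h0 : ∫ x, x ∂μ = 0)
    (hr : (secMom μ).rank ≤ 2) (ν : Fin d → ℕ) :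
    ∏ i, ∫ x, |x i| ^ (2 * ν i) ∂μ ≤ ∫ x, ∏ i, |x i| ^ (2 * ν i) ∂μ := by
  obtain ⟨A, hA⟩ := exists_factor (secMom_posSemidef μ) hr
  have hrep := gaussian_repr μ h0 A hA
  have hdiag : ∀ i, ∫ x, |x i| ^ (2 * ν i) ∂μ
      = (A i 0 ^ 2 + A i 1 ^ 2) ^ (ν i) * ((Nat.doubleFactorial (2 * ν i - 1) : ℕ) : ℝ) := by
    intro i
    have h1 := moment_eval μ h0 i ((2 * ν i : ℕ) : ℝ) (by positivity)
    have h2 : ∀ x : Fin d → ℝ, |x i| ^ (((2 * ν i : ℕ) : ℝ)) = |x i| ^ (2 * ν i) := by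
      intro x; rw [Real.rpow_natCast]
    simp_rw [h2] at h1
    rw [h1, hA]
    have h3 : (((2 * ν i : ℕ) : ℝ)) / 2 = (ν i : ℝ) := by push_cast; ring
    rw [h3, Real.rpow_natCast, Real.rpow_natCast, Fin.sum_univ_two, Real.Gamma_nat_add_half]
    have h5 : √π ≠ 0 := by positivity
    congr 1
    · ring
    · field_simp
  have hjoint : ∫ x, ∏ i, |x i| ^ (2 * ν i) ∂μ
      = ∫ z : ℝ × ℝ, ∏ i, |A i 0 * z.1 + A i 1 * z.2| ^ (2 * ν i)
        ∂((gaussianReal 0 1).prod (gaussianReal 0 1)) := by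
    conv_lhs => rw [hrep]
    rw [integral_map (by fun_prop : Measurable _).aemeasurable
      (by fun_prop : Measurable _).aestronglyMeasurable]
    unfold gam
    rw [← (measurePreserving_finTwoArrow (gaussianReal 0 1)).map_eq]
    rw [integral_map (by fun_prop) (by fun_prop : Measurable _).aestronglyMeasurable]
    apply integral_congr_ae
    filter_upwards with g
    apply Finset.prod_congr rfl
    intro i _
    rw [Fin.sum_univ_two]
    rfl
  rw [hjoint]
  simp_rw [hdiag]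
  exact rank_two_coord A ν

end Pool.Agent.GPI
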