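import Mathlib
import Pool.Agent.GPI.Centre2
import Pool.Agent.GPI.Embed
import Pool.Agent.GPI.SmSC
import Pool.Agent.GPI.LambdaSC
import Pool.Agent.GPI.RankTwo

set_option autoImplicit false

open Real MeasureTheory ProbabilityTheory Set Filter
open scoped Topology

namespace Pool.Agent.GPI

/-- The inequality for all unit vectors with exponents `2a, 2b, 2c`. -/
def Good (a b c : ℝ) : Prop :=
  ∀ u v w : ℝ × ℝ × ℝ, dot u u = 1 → dot v v = 1 → dot w w = 1 →
    km a * km b * km c ≤ Q3 (2 * a) (2 * b) (2 * c) u v w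

lemma good_swap12 {a b c : ℝ} (h : Good a b c) : Good b a c := by
  intro u v w hu hv hw
  have := h v u w hv hu hw
  rw [Q3_swap12]
  calc _ = km a * km b * km c := by ring
    _ ≤ _ := this

lemma good_swap13 {a b c : ℝ} (h : Good a b c) : Good c b a := by
  intro u v w hu hv hw
  have := h w v u hw hv hu
  rw [Q3_swap13]
  calc _ = km a * km b * km c := by ring
    _ ≤ _ := this

lemma good_swap23 {a b c : ℝ} (h : Good a b c) : Good a c b :=
  good_swap12 (good_swap13 (good_swap12 h))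

lemma good_zero {a b : ℝ} (ha : 0 ≤ a) (hb : 0 ≤ b) : Good a b 0 := by
  intro u v w hu hv hw
  rw [km_zero, mul_one, mul_zero]
  exact gpi2_Q3 ha hb hu hv

lemma good_large {a b c : ℝ} (ha : 0 < a) (hb : 0 < b) (hc : 1 ≤ c) (h : Good a b (c - 1)) :
    Good a b c := by
  obtain ⟨u, v, w, hu, hv, hw, hmin⟩ := exists_min3 (p := 2 * a) (q := 2 * b) (r := 2 * c)
    (by positivity) (by positivity) (by positivity)
  intro u' v' w' hu' hv' hw'
  refine le_trans ?_ (hmin u' v' w' hu' hv' hw')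
  rcases centre (p := 2 * a) (q := 2 * b) (r := 2 * c) (by positivity) (by positivity)
    (by positivity) hu hv hw hmin with h0 | ⟨w₁, v₁, w₂, v₂, l, hw₁, hw₂, hv₁, hv₂, hl, n1, n2, hm, hkey⟩
  · simpa using h0
  · rw [hm, Q3_nf (by positivity) (by positivity) (by positivity) n1 n2]
    have hPy := (PB_y0 (p := 2 * a) (q := 2 * b) (w₁ := w₁) (v₁ := v₁) (w₂ := w₂) (v₂ := v₂)
      (by positivity) (by positivity))
    have hPD := (PB_D1 (p := 2 * a) (q := 2 * b) (w₁ := w₁) (v₁ := v₁) (w₂ := w₂) (v₂ := v₂)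
      (by positivity) (by positivity) hv₁.ne' hv₂.ne)
    have hftc := sm_ftc hPy hPD (y0_ftc (by positivity) (by positivity) hw₁.ne' hw₂.ne' hv₁.ne' hv₂.ne) l
    rw [final_large hc (hPy.sm l) (hPD.sm l) hftc hkey,
      ← Q3_nf (by positivity) (by positivity) (by linarith) n1 n2, km_rec hc]
    have h1 := h _ _ (1, 0, 0) n1 n2 (by simp [dot])
    have h2 : 0 ≤ 2 * c - 1 := by linarith
    calc _ = (2 * c - 1) * (km a * km b * km (c - 1)) := by ring
      _ ≤ _ := mul_le_mul_of_nonneg_left h1 h2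

lemma good_small {a b c : ℝ} (ha : 0 < a) (hb : 0 < b) (hc : 0 < c) (hc1 : c < 1)
    (hab : (a ≤ 1/2 ∧ b ≤ 1/2) ∨ (1/2 ≤ a ∧ a ≤ 1 ∧ 1/2 ≤ b ∧ b ≤ 1)) : Good a b c := by
  obtain ⟨u, v, w, hu, hv, hw, hmin⟩ := exists_min3 (p := 2 * a) (q := 2 * b) (r := 2 * c)
    (by positivity) (by positivity) (by positivity)
  intro u' v' w' hu' hv' hw'
  refine le_trans ?_ (hmin u' v' w' hu' hv' hw')
  rcases centre (p := 2 * a) (q := 2 * b) (r := 2 * c) (by positivity) (by positivity)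
    (by positivity) hu hv hw hmin with h0 | ⟨w₁, v₁, w₂, v₂, l, hw₁, hw₂, hv₁, hv₂, hl, n1, n2, hm, hkey⟩
  · simpa using h0
  · rw [hm, Q3_nf (by positivity) (by positivity) (by positivity) n1 n2]
    have hPy := (PB_y0 (p := 2 * a) (q := 2 * b) (w₁ := w₁) (v₁ := v₁) (w₂ := w₂) (v₂ := v₂)
      (by positivity) (by positivity))
    have hPD := (PB_D1 (p := 2 * a) (q := 2 * b) (w₁ := w₁) (v₁ := v₁) (w₂ := w₂) (v₂ := v₂)
      (by positivity) (by positivity) hv₁.ne' hv₂.ne)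
    have hftc := sm_ftc hPy hPD (y0_ftc (by positivity) (by positivity) hw₁.ne' hw₂.ne' hv₁.ne' hv₂.ne) l
    have hG : OnceNN (Gf (2 * a) (2 * b) w₁ v₁ w₂ v₂) := by
      intro s t hs hst h
      have hlam := lambda_sc a b w₁ w₂ v₁ (-v₂) ha hb hab hw₁ hw₂ hv₁ (by linarith) s t hs hst
      have e : ∀ t, Gf (2 * a) (2 * b) w₁ v₁ w₂ v₂ t
          = (2 * (a + b) + 1) * (∫ u in (-1:ℝ)..1, |w₁ * t + v₁ * u| ^ (2 * a) * |w₂ * t - -v₂ * u| ^ (2 * b)) -
            (|w₁ * t - v₁| ^ (2 * a) * |w₂ * t + -v₂| ^ (2 * b) +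
              |w₁ * t + v₁| ^ (2 * a) * |w₂ * t - -v₂| ^ (2 * b)) := by
        intro t
        unfold Gf hh
        have e1 : ∀ u, w₂ * t - -v₂ * u = w₂ * t + v₂ * u := by intro u; ring
        simp_rw [e1]
        have e2 : w₁ * t + v₁ * -1 = w₁ * t - v₁ := by ring
        have e3 : w₂ * t + v₂ * -1 = w₂ * t + -v₂ := by ring
        have e4 : w₂ * t - -v₂ = w₂ * t + v₂ := by ring
        rw [e2, e3, e4, mul_one, mul_one]
        ring
      rw [e] at h ⊢
      exact hlam h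
    have hON := sm_onceNN hPD D1_neg (D1_onceNN (by positivity) (by positivity) hv₁.ne' hv₂.ne hG) hl
    have hfin := final_small hc hc1 (hPy.sm l) (hPD.sm l) hftc (sm_odd D1_neg l) hON hkey
    refine le_trans ?_ hfin
    have h0 := gpi2_Q3 (a := a) (b := b) (w := (1, 0, 0)) ha.le hb.le n1 n2
    rw [Q3_nf (by positivity) (by positivity) le_rfl n1 n2] at h0
    simp only [rpow_zero, one_mul] at h0
    calc _ = km c * (km a * km b) := by ring
      _ ≤ _ := mul_le_mul_of_nonneg_left h0 (km_nonneg hc.le)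

theorem good_all (n : ℕ) : ∀ a b c : ℝ, 0 ≤ a → 0 ≤ b → 0 ≤ c → a + b + c < n → Good a b c := by
  induction n with
  | zero =>
    intro a b c ha hb hc h
    norm_num at h
    linarith
  | succ n ih =>
    intro a b c ha hb hc h
    push_cast at h
    rcases eq_or_lt_of_le ha with a0 | a0
    · rw [← a0]; exact good_swap13 (good_zero hc hb)
    rcases eq_or_lt_of_le hb with b0 | b0
    · rw [← b0]; exact good_swap23 (good_zero ha hc)
    rcases eq_or_lt_of_le hc with c0 | c0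
    · rw [← c0]; exact good_zero ha hb
    rcases le_or_gt 1 c with c1 | c1
    · exact good_large a0 b0 c1 (ih a b (c - 1) ha hb (by linarith) (by linarith))
    rcases le_or_gt 1 b with b1 | b1
    · exact good_swap23 (good_large a0 c0 b1 (ih a c (b - 1) ha hc (by linarith) (by linarith)))
    rcases le_or_gt 1 a with a1 | a1
    · exact good_swap13 (good_large c0 b0 a1 (ih c b (a - 1) hc hb (by linarith) (by linarith)))
    rcases le_total a (1/2) with a2 | a2 <;> rcases le_total b (1/2) with b2 | b2 <;>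
      rcases le_total c (1/2) with c2 | c2
    · exact good_small a0 b0 c0 c1 (Or.inl ⟨a2, b2⟩)
    · exact good_small a0 b0 c0 c1 (Or.inl ⟨a2, b2⟩)
    · exact good_swap23 (good_small a0 c0 b0 b1 (Or.inl ⟨a2, c2⟩))
    · exact good_swap13 (good_small c0 b0 a0 a1 (Or.inr ⟨c2, c1.le, b2, b1.le⟩))
    · exact good_swap13 (good_small c0 b0 a0 a1 (Or.inl ⟨c2, b2⟩))
    · exact good_swap23 (good_small a0 c0 b0 b1 (Or.inr ⟨a2, a1.le, c2, c1.le⟩))
    · exact good_small a0 b0 c0 c1 (Or.inr ⟨a2, a1.le, b2, b1.le⟩)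
    · exact good_small a0 b0 c0 c1 (Or.inr ⟨a2, a1.le, b2, b1.le⟩)

lemma scale_vec (U : ℝ × ℝ × ℝ) : ∃ (s : ℝ) (u : ℝ × ℝ × ℝ), 0 ≤ s ∧ dot u u = 1 ∧
    s ^ 2 = dot U U ∧ ∀ x, dot U x = s * dot u x := by
  rcases eq_or_lt_of_le (dot_self_nonneg U) with h | h
  · refine ⟨0, (1, 0, 0), le_rfl, by simp [dot], by rw [← h]; ring, ?_⟩
    intro x
    have h' : U.1 * U.1 + U.2.1 * U.2.1 + U.2.2 * U.2.2 = 0 := h.symm
    have z1 : U.1 = 0 := by nlinarith [mul_self_nonneg U.1, mul_self_nonneg U.2.1, mul_self_nonneg U.2.2]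
    have z2 : U.2.1 = 0 := by nlinarith [mul_self_nonneg U.1, mul_self_nonneg U.2.1, mul_self_nonneg U.2.2]
    have z3 : U.2.2 = 0 := by nlinarith [mul_self_nonneg U.1, mul_self_nonneg U.2.1, mul_self_nonneg U.2.2]
    simp [dot, z1, z2, z3]
  · have hs : 0 < √(dot U U) := Real.sqrt_pos.2 h
    have hs2 : √(dot U U) ^ 2 = dot U U := Real.sq_sqrt h.le
    refine ⟨√(dot U U), (√(dot U U))⁻¹ • U, hs.le, ?_, hs2, ?_⟩
    · have : dot ((√(dot U U))⁻¹ • U) ((√(dot U U))⁻¹ • U) = (√(dot U U))⁻¹ ^ 2 * dot U U := by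
        simp only [dot, Prod.smul_fst, Prod.smul_snd, smul_eq_mul]; ring
      rw [this, inv_pow, hs2]
      exact inv_mul_cancel₀ h.ne'
    · intro x
      have : dot ((√(dot U U))⁻¹ • U) x = (√(dot U U))⁻¹ * dot U x := by
        simp only [dot, Prod.smul_fst, Prod.smul_snd, smul_eq_mul]; ring
      rw [this, ← mul_assoc, mul_inv_cancel₀ hs.ne', one_mul]

/-- The Gaussian product inequality in dimension three, all real exponents. -/
theorem dim_three (μ : Measure (Fin 3 → ℝ)) [IsGaussian μ] (h0 : ∫ x, x ∂μ = 0)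
    (ν : Fin 3 → ℝ) (hν : ∀ i, 0 ≤ ν i) :
    ∏ i, ∫ x, |x i| ^ (2 * ν i) ∂μ ≤ ∫ x, ∏ i, |x i| ^ (2 * ν i) ∂μ := by
  obtain ⟨A, hA⟩ := exists_factor (r := 3) (secMom_posSemidef μ) (by
    have := Matrix.rank_le_height (secMom μ)
    exact this)
  set U : Fin 3 → ℝ × ℝ × ℝ := fun i => (A i 0, A i 1, A i 2) with hU
  have hUd : ∀ i j, secMom μ i j = dot (U i) (U j) := by
    intro i j
    rw [hA, Fin.sum_univ_three]
    simp [hU, dot]
  have hμ := eq_law3 μ h0 U hUd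
  obtain ⟨s0, u0, hs0, hu0, hq0, hx0⟩ := scale_vec (U 0)
  obtain ⟨s1, u1, hs1, hu1, hq1, hx1⟩ := scale_vec (U 1)
  obtain ⟨s2, u2, hs2, hu2, hq2, hx2⟩ := scale_vec (U 2)
  have hmom : ∀ i (s : ℝ), 0 ≤ s → s ^ 2 = dot (U i) (U i) →
      ∫ x, |x i| ^ (2 * ν i) ∂μ = s ^ (2 * ν i) * km (ν i) := by
    intro i s hs hq
    have h1 := moment_eval μ h0 i (2 * ν i) (by have := hν i; positivity)
    rw [h1, hUd, ← hq]
    have e1 : 2 * ν i / 2 = ν i := by ring
    rw [e1, ← Real.rpow_natCast s 2, ← Real.rpow_mul hs]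
    unfold km
    norm_num
  rw [Fin.prod_univ_three, hmom 0 s0 hs0 hq0, hmom 1 s1 hs1 hq1, hmom 2 s2 hs2 hq2]
  have hright : ∫ x, ∏ i, |x i| ^ (2 * ν i) ∂μ
      = s0 ^ (2 * ν 0) * s1 ^ (2 * ν 1) * s2 ^ (2 * ν 2) * Q3 (2 * ν 0) (2 * ν 1) (2 * ν 2) u0 u1 u2 := by
    have e1 : ∫ x, ∏ i, |x i| ^ (2 * ν i) ∂μ = Q3 (2 * ν 0) (2 * ν 1) (2 * ν 2) (U 0) (U 1) (U 2) := by
      rw [← integral_law3, ← hμ]
      simp_rw [Fin.prod_univ_three]
    rw [e1]
    unfold Q3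
    rw [← integral_const_mul]
    congr 1
    ext x
    rw [hx0, hx1, hx2, abs_mul, abs_mul, abs_mul, abs_of_nonneg hs0, abs_of_nonneg hs1,
      abs_of_nonneg hs2, mul_rpow hs0 (abs_nonneg _), mul_rpow hs1 (abs_nonneg _),
      mul_rpow hs2 (abs_nonneg _)]
    ring
  rw [hright]
  obtain ⟨n, hn⟩ := exists_nat_gt (ν 0 + ν 1 + ν 2)
  have hgood := good_all n (ν 0) (ν 1) (ν 2) (hν 0) (hν 1) (hν 2) hn u0 u1 u2 hu0 hu1 hu2
  have hpos : 0 ≤ s0 ^ (2 * ν 0) * s1 ^ (2 * ν 1) * s2 ^ (2 * ν 2) := by positivity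
  calc _ = s0 ^ (2 * ν 0) * s1 ^ (2 * ν 1) * s2 ^ (2 * ν 2) * (km (ν 0) * km (ν 1) * km (ν 2)) := by ring
    _ ≤ _ := mul_le_mul_of_nonneg_left hgood hpos

end Pool.Agent.GPI
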