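import Mathlib
import Pool.Agent.GPI.Basic2
import Pool.Agent.GPI.Polar

set_option autoImplicit false

open Real MeasureTheory ProbabilityTheory Set Filter Finset Polynomial
open scoped Topology

namespace Pool.Agent.GPI

/-- Generalised factorial weights: `n + 2m` for odd `n`, `n` for even `n`. -/
noncomputable def gc (m : ℝ) (n : ℕ) : ℝ := n + if Even n then 0 else 2 * m

/-- Generalised factorial. -/
noncomputable def gf (m : ℝ) (n : ℕ) : ℝ := ∏ i ∈ Finset.range n, gc m (i + 1)

lemma gf_zero (m : ℝ) : gf m 0 = 1 := by simp [gf]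

lemma gf_succ (m : ℝ) (n : ℕ) : gf m (n + 1) = gf m n * gc m (n + 1) := by
  rw [gf, Finset.prod_range_succ]; rfl

lemma gc_even (m : ℝ) {n : ℕ} (h : Even n) : gc m n = n := by simp [gc, h]

lemma gc_odd (m : ℝ) {n : ℕ} (h : ¬ Even n) : gc m n = n + 2 * m := by simp [gc, h]

lemma le_gc {m : ℝ} (hm : 0 ≤ m) (n : ℕ) : (n : ℝ) ≤ gc m n := by
  rw [gc]
  split_ifs
  · simp
  · linarith

lemma factorial_le_gf {m : ℝ} (hm : 0 ≤ m) (n : ℕ) : (n.factorial : ℝ) ≤ gf m n := by
  induction n with
  | zero => simp [gf_zero]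
  | succ n ih =>
    rw [gf_succ, Nat.factorial_succ, Nat.cast_mul, mul_comm]
    have := le_gc hm (n + 1)
    have h2 : (0:ℝ) ≤ (n.factorial : ℝ) := by positivity
    have h3 : (0:ℝ) ≤ ((n + 1 : ℕ) : ℝ) := by positivity
    exact mul_le_mul ih this h3 (h2.trans ih)

/-- Closed form of the mixed moments. -/
noncomputable def Fc (m : ℝ) (k n : ℕ) : ℝ :=
  if n ≤ k ∧ Even (k - n) then gf m k / (2 ^ ((k - n) / 2) * ((k - n) / 2).factorial) else 0

lemma Fc_lt (m : ℝ) {k n : ℕ} (h : k < n) : Fc m k n = 0 := by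
  rw [Fc, if_neg]; omega

lemma Fc_self (m : ℝ) (n : ℕ) : Fc m n n = gf m n := by
  rw [Fc, if_pos ⟨le_refl _, by simp⟩]; simp

lemma Fc_add (m : ℝ) (n j : ℕ) : Fc m (n + 2 * j) n = gf m (n + 2 * j) / (2 ^ j * j.factorial) := by
  rw [Fc, if_pos]
  · have : (n + 2 * j - n) / 2 = j := by omega
    rw [this]
  · refine ⟨by omega, ?_⟩
    have : n + 2 * j - n = 2 * j := by omega
    rw [this]; exact even_two_mul j

lemma Fc_odd (m : ℝ) (n j : ℕ) : Fc m (n + 2 * j + 1) n = 0 := by
  rw [Fc, if_neg]
  rintro ⟨-, h⟩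
  have : n + 2 * j + 1 - n = 2 * j + 1 := by omega
  rw [this] at h
  exact (Nat.not_even_iff_odd.2 (odd_two_mul_add_one j)) h

/-- The recursion of the closed form. -/
lemma Fc_rec (m : ℝ) (k n : ℕ) : Fc m k (n + 2) = Fc m (k + 1) (n + 1) - gc m (n + 1) * Fc m k n := by
  rcases lt_or_ge k n with h | h
  · rw [Fc_lt m (by omega), Fc_lt m (by omega), Fc_lt m (by omega)]; ring
  · obtain ⟨i, rfl⟩ := Nat.exists_eq_add_of_le h
    rcases Nat.even_or_odd' i with ⟨j, rfl | rfl⟩
    · rcases j with _ | j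
      · rw [Fc_lt m (by omega)]
        simp only [Nat.mul_zero, Nat.add_zero]
        rw [Fc_self, Fc_self, gf_succ]; ring
      · have e1 : n + 2 * (j + 1) = n + 2 + 2 * j := by ring
        have e2 : n + 2 * (j + 1) + 1 = n + 1 + 2 * (j + 1) := by ring
        rw [e2, Fc_add m (n+1) (j+1), Fc_add m n (j+1), e1, Fc_add m (n+2) j]
        have e3 : n + 1 + 2 * (j + 1) = (n + 2 + 2 * j) + 1 := by ring
        rw [e3, gf_succ]
        have e4 : gc m (n + 2 + 2 * j + 1) = gc m (n + 1) + (2 * (j + 1 : ℕ) : ℝ) := by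
          have hp : Even (n + 2 + 2 * j + 1) ↔ Even (n + 1) := by
            have : n + 2 + 2 * j + 1 = n + 1 + 2 * (j + 1) := by ring
            rw [this, Nat.even_add]
            simp
          by_cases h1 : Even (n + 1)
          · rw [gc_even m h1, gc_even m (hp.2 h1)]; push_cast; ring
          · rw [gc_odd m h1, gc_odd m (fun hh => h1 (hp.1 hh))]; push_cast; ring
        rw [e4, Nat.factorial_succ, pow_succ]
        have : (j.factorial : ℝ) ≠ 0 := by positivity
        have h5 : ((j + 1 : ℕ) : ℝ) ≠ 0 := by positivity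
        push_cast
        field_simp
        ring
    · rcases j with _ | j
      · have h1 := Fc_odd m (n + 1) 0
        have h2 := Fc_odd m n 0
        simp only [Nat.mul_zero, Nat.add_zero, Nat.zero_add] at h1 h2 ⊢
        rw [h1, h2, Fc_lt m (by omega)]; ring
      · have e2 : n + (2 * (j+1) + 1) + 1 = n + 1 + 2 * (j+1) + 1 := by ring
        have e1 : n + (2 * (j+1) + 1) = n + 2 * (j+1) + 1 := by ring
        rw [e2, Fc_odd, e1, Fc_odd]
        have e3 : n + 2 * (j+1) + 1 = n + 2 + 2 * j + 1 := by ring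
        rw [e3, Fc_odd]; ring

/-- The normalisation. -/
noncomputable def cm (m : ℝ) : ℝ := ∫ x, |x| ^ (2 * m) ∂gg

lemma cm_zero : cm 0 = 1 := by simp [cm]

lemma cm_nonneg (m : ℝ) : 0 ≤ cm m := integral_nonneg (fun x => by positivity)

/-- Weighted monomials are integrable. -/
lemma integrable_wmon {m : ℝ} (hm : 0 ≤ m) (k : ℕ) :
    Integrable (fun x => |x| ^ (2 * m) * x ^ k) gg := by
  have h := integrable_abs_rpow_poly (r := 2 * m) (M := (k : ℝ)) (by linarith) (by positivity)
  refine h.mono' (by fun_prop) ?_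
  filter_upwards with x
  rw [norm_mul, Real.norm_of_nonneg (by positivity), norm_pow, Real.norm_eq_abs, Real.rpow_natCast]
  gcongr
  linarith

lemma integrable_wpoly {m : ℝ} (hm : 0 ≤ m) (p : ℝ[X]) :
    Integrable (fun x => |x| ^ (2 * m) * p.eval x) gg := by
  induction p using Polynomial.induction_on' with
  | add p q hp hq =>
    simp only [eval_add, mul_add]
    exact hp.add hq
  | monomial n a =>
    simp only [eval_monomial]
    have := (integrable_wmon hm n).const_mul a
    refine this.congr ?_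
    filter_upwards with x
    ring

/-- Even moments. -/
lemma wmon_even {m : ℝ} (hm : 0 ≤ m) (j : ℕ) :
    ∫ x, |x| ^ (2 * m) * x ^ (2 * j) ∂gg = cm m * Fc m (2 * j) 0 := by
  induction j with
  | zero =>
    have := Fc_self m 0
    simp only [Nat.mul_zero, pow_zero, mul_one]
    rw [this, gf_zero, mul_one]; rfl
  | succ j ih =>
    have key : ∀ i : ℕ, ∫ x, |x| ^ (2 * m) * x ^ (2 * i) ∂gg
        = 2 ^ ((2 * m + 2 * i) / 2) * Gamma ((2 * m + 2 * i) / 2 + 1 / 2) / √π := by
      intro i
      rw [← gauss1_moment (2 * m + 2 * i) (by positivity)]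
      apply integral_congr_ae
      filter_upwards with x
      rw [Real.rpow_add_of_nonneg (abs_nonneg _) (by positivity) (by positivity)]
      congr 1
      rw [pow_mul, ← sq_abs, ← pow_mul, ← Real.rpow_natCast]
      congr 1
      push_cast; ring
    have e1 : ∫ x, |x| ^ (2 * m) * x ^ (2 * (j + 1)) ∂gg
        = (2 * m + 2 * j + 1) * ∫ x, |x| ^ (2 * m) * x ^ (2 * j) ∂gg := by
      rw [key, key]
      have h1 : (2 * m + 2 * ((j + 1 : ℕ) : ℝ)) / 2 = (2 * m + 2 * j) / 2 + 1 := by push_cast; ring
      have h2 : (2 * m + 2 * (j : ℝ)) / 2 + 1 + 1 / 2 = ((2 * m + 2 * j) / 2 + 1 / 2) + 1 := by ring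
      rw [h1, h2, Real.Gamma_add_one (by positivity), Real.rpow_add (by norm_num), Real.rpow_one]
      ring
    rw [e1, ih]
    have h1 := Fc_add m 0 j
    have h2 := Fc_add m 0 (j + 1)
    rw [zero_add] at h1 h2
    rw [h1, h2]
    have e2 : 2 * (j + 1) = 2 * j + 1 + 1 := by ring
    rw [e2, gf_succ, gf_succ]
    have o1 : ¬ Even (2 * j + 1) := Nat.not_even_iff_odd.2 (odd_two_mul_add_one j)
    have o2 : Even (2 * j + 1 + 1) := by
      have : 2 * j + 1 + 1 = 2 * (j + 1) := by ring
      rw [this]; exact even_two_mul _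
    rw [gc_odd m o1, gc_even m o2, Nat.factorial_succ, pow_succ]
    have h5 : ((j + 1 : ℕ) : ℝ) ≠ 0 := by positivity
    have : (j.factorial : ℝ) ≠ 0 := by positivity
    push_cast
    field_simp
    ring

lemma wmon_odd (m : ℝ) (j : ℕ) : ∫ x, |x| ^ (2 * m) * x ^ (2 * j + 1) ∂gg = 0 := by
  have h := integral_gg_neg (fun x => |x| ^ (2 * m) * x ^ (2 * j + 1))
  simp only [abs_neg] at h
  have e : ∀ x : ℝ, |x| ^ (2 * m) * (-x) ^ (2 * j + 1) = - (|x| ^ (2 * m) * x ^ (2 * j + 1)) := by
    intro x
    rw [Odd.neg_pow (odd_two_mul_add_one j)]; ring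
  simp_rw [e] at h
  rw [integral_neg] at h
  linarith

lemma wmon {m : ℝ} (hm : 0 ≤ m) (k : ℕ) : ∫ x, |x| ^ (2 * m) * x ^ k ∂gg = cm m * Fc m k 0 := by
  rcases Nat.even_or_odd' k with ⟨j, rfl | rfl⟩
  · exact wmon_even hm j
  · rw [wmon_odd]
    have := Fc_odd m 0 j
    rw [zero_add] at this
    rw [this, mul_zero]

/-- Generalised Hermite polynomials. -/
noncomputable def HP (m : ℝ) : ℕ → ℝ[X]
  | 0 => 1
  | 1 => X
  | (n + 2) => X * HP m (n + 1) - C (gc m (n + 1)) * HP m n

lemma HP_add_two (m : ℝ) (n : ℕ) : HP m (n + 2) = X * HP m (n + 1) - C (gc m (n + 1)) * HP m n := by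
  rw [HP]

lemma HP_monic (m : ℝ) (n : ℕ) : (HP m n).Monic ∧ (HP m n).natDegree = n := by
  induction n using Nat.strong_induction_on with
  | _ n ih =>
    match n with
    | 0 => simp [HP]
    | 1 => simp [HP, monic_X]
    | (n + 2) =>
      obtain ⟨h1, h2⟩ := ih (n + 1) (by omega)
      obtain ⟨h3, h4⟩ := ih n (by omega)
      have hX : (X * HP m (n + 1)).Monic := monic_X.mul h1
      have hd : (X * HP m (n + 1)).natDegree = n + 2 := by
        rw [monic_X.natDegree_mul h1, natDegree_X, h2]; ring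
      have hlt : (C (gc m (n + 1)) * HP m n).degree < (X * HP m (n + 1)).degree := by
        apply degree_lt_degree
        rw [hd]
        calc (C (gc m (n + 1)) * HP m n).natDegree ≤ (HP m n).natDegree := natDegree_C_mul_le _ _
          _ < _ := by omega
      rw [HP_add_two]
      refine ⟨hX.sub_of_left hlt, ?_⟩
      rw [natDegree_sub_eq_left_of_natDegree_lt, hd]
      rw [hd]
      calc (C (gc m (n + 1)) * HP m n).natDegree ≤ (HP m n).natDegree := natDegree_C_mul_le _ _
        _ < _ := by omega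

/-- Mixed moments. -/
lemma mixed {m : ℝ} (hm : 0 ≤ m) (n k : ℕ) :
    ∫ x, |x| ^ (2 * m) * (x ^ k * (HP m n).eval x) ∂gg = cm m * Fc m k n := by
  induction n using Nat.strong_induction_on generalizing k with
  | _ n ih =>
    match n with
    | 0 =>
      simp only [HP, eval_one, mul_one]
      exact wmon hm k
    | 1 =>
      simp only [HP, eval_X]
      have e : ∀ x : ℝ, |x| ^ (2 * m) * (x ^ k * x) = |x| ^ (2 * m) * x ^ (k + 1) := by
        intro x; rw [pow_succ]
      simp_rw [e]
      rw [wmon hm]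
      congr 1
      rcases Nat.even_or_odd' k with ⟨j, rfl | rfl⟩
      · have := Fc_odd m 0 j
        rw [zero_add] at this
        rw [this]
        rcases j with _ | j
        · rw [Fc_lt m (by omega)]
        · have e2 : 2 * (j + 1) = 1 + 2 * j + 1 := by ring
          rw [e2, Fc_odd]
      · have h1 := Fc_add m 0 (j + 1)
        rw [zero_add] at h1
        have e2 : 2 * j + 1 + 1 = 2 * (j + 1) := by ring
        rw [e2, h1]
        have e3 : 2 * j + 1 = 1 + 2 * j := by ring
        rw [e3, Fc_add]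
        have e4 : 2 * (j + 1) = (1 + 2 * j) + 1 := by ring
        have o2 : Even (1 + 2 * j + 1) := by rw [← e4]; exact even_two_mul _
        rw [e4, gf_succ, gc_even m o2, Nat.factorial_succ, pow_succ]
        have h5 : ((j + 1 : ℕ) : ℝ) ≠ 0 := by positivity
        have : (j.factorial : ℝ) ≠ 0 := by positivity
        push_cast
        field_simp
        ring
    | (n + 2) =>
      have h1 := ih (n + 1) (by omega) (k + 1)
      have h2 := ih n (by omega) k
      rw [Fc_rec, mul_sub, ← h1, mul_left_comm, ← h2, ← integral_const_mul, ← integral_sub]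
      · apply integral_congr_ae
        filter_upwards with x
        rw [HP_add_two]
        simp only [eval_sub, eval_mul, eval_X, eval_C]
        ring
      · have := integrable_wpoly hm (X ^ (k + 1) * HP m (n + 1))
        refine this.congr ?_
        filter_upwards with x
        simp
      · have := (integrable_wpoly hm (X ^ k * HP m n)).const_mul (gc m (n + 1))
        refine this.congr ?_
        filter_upwards with x
        simp

/-- Orthogonality to lower degree. -/
lemma poly_orth {m : ℝ} (hm : 0 ≤ m) (n : ℕ) (p : ℝ[X]) (hp : p.degree < n) :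
    ∫ x, |x| ^ (2 * m) * (p.eval x * (HP m n).eval x) ∂gg = 0 := by
  have e : ∀ x : ℝ, |x| ^ (2 * m) * (p.eval x * (HP m n).eval x)
      = ∑ i ∈ Finset.range n, p.coeff i * (|x| ^ (2 * m) * (x ^ i * (HP m n).eval x)) := by
    intro x
    have h1 : p.eval x = ∑ i ∈ Finset.range n, p.coeff i * x ^ i := by
      rcases eq_or_ne p 0 with rfl | h0
      · simp
      · apply eval_eq_sum_range' ((natDegree_lt_iff_degree_lt h0).2 hp)
    rw [h1, Finset.sum_mul, Finset.mul_sum]
    apply Finset.sum_congr rfl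
    intro i _
    ring
  simp_rw [e]
  rw [integral_finsetSum]
  · apply Finset.sum_eq_zero
    intro i hi
    rw [integral_const_mul, mixed hm, Fc_lt m (Finset.mem_range.1 hi)]; ring
  · intro i _
    have := (integrable_wpoly hm (X ^ i * HP m n)).const_mul (p.coeff i)
    refine this.congr ?_
    filter_upwards with x
    simp

lemma HP_orth {m : ℝ} (hm : 0 ≤ m) {a b : ℕ} (h : a < b) :
    ∫ x, |x| ^ (2 * m) * ((HP m a).eval x * (HP m b).eval x) ∂gg = 0 := by
  apply poly_orth hm
  rw [degree_eq_natDegree (HP_monic m a).1.ne_zero, (HP_monic m a).2]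
  exact_mod_cast h

lemma HP_sq {m : ℝ} (hm : 0 ≤ m) (n : ℕ) :
    ∫ x, |x| ^ (2 * m) * ((HP m n).eval x * (HP m n).eval x) ∂gg = cm m * gf m n := by
  have h1 : ∫ x, |x| ^ (2 * m) * ((HP m n - X ^ n).eval x * (HP m n).eval x) ∂gg = 0 := by
    apply poly_orth hm
    rcases Nat.eq_zero_or_pos n with rfl | hn
    · simp [HP]
    · have hm1 := (HP_monic m n).1
      have hd : (HP m n).degree = n := by rw [degree_eq_natDegree hm1.ne_zero, (HP_monic m n).2]
      have := degree_sub_lt_left (p := HP m n) (q := X ^ n) (by rw [hd, degree_X_pow]) hm1.ne_zero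
        (by rw [hm1.leadingCoeff, (monic_X_pow n).leadingCoeff])
      rw [hd] at this
      exact this
  have h2 := mixed hm n n
  rw [Fc_self] at h2
  rw [← h2, ← sub_eq_zero, ← integral_sub, ← h1]
  · apply integral_congr_ae
    filter_upwards with x
    simp only [eval_sub, eval_pow, eval_X]
    ring
  · have := integrable_wpoly hm (HP m n * HP m n)
    refine this.congr ?_
    filter_upwards with x
    simp
  · have := integrable_wpoly hm (X ^ n * HP m n)
    refine this.congr ?_
    filter_upwards with x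
    simp

end Pool.Agent.GPI
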