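import Mathlib

set_option autoImplicit false

open Finset MvPolynomial

namespace Pool.Agent.GPI

variable {r : ℕ}

/-- Multi-index factorial. -/
def mfac (α : Fin r →₀ ℕ) : ℝ := ∏ i, ((α i).factorial : ℝ)

lemma mfac_pos (α : Fin r →₀ ℕ) : 0 < mfac α := by
  unfold mfac; positivity

lemma mfac_add_single (α : Fin r →₀ ℕ) (i : Fin r) :
    mfac (Finsupp.single i 1 + α) = mfac α * (α i + 1) := by
  set β : Fin r →₀ ℕ := Finsupp.single i 1 + α with hβ
  unfold mfac
  rw [← Finset.mul_prod_erase _ _ (Finset.mem_univ i), ← Finset.mul_prod_erase (a := i) _ (fun j => ((α j).factorial : ℝ)) (Finset.mem_univ i)]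
  have h1 : ∀ j ∈ Finset.univ.erase i, ((β j).factorial : ℝ) = ((α j).factorial : ℝ) := by
    intro j hj
    have hne : j ≠ i := Finset.ne_of_mem_erase hj
    simp [hβ, Finsupp.single_apply, hne.symm]
  rw [Finset.prod_congr rfl h1]
  have h2 : β i = α i + 1 := by simp [hβ, add_comm]
  rw [h2, Nat.factorial_succ]
  push_cast
  ring

/-- The Fischer inner product. -/
noncomputable def fip : MvPolynomial (Fin r) ℝ →ₗ[ℝ] MvPolynomial (Fin r) ℝ →ₗ[ℝ] ℝ :=
  (basisMonomials (Fin r) ℝ).constr ℝ (fun α => mfac α • lcoeff ℝ α)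

lemma fip_monomial (α : Fin r →₀ ℕ) (a : ℝ) (Q : MvPolynomial (Fin r) ℝ) :
    fip (monomial α a) Q = a * (mfac α * coeff α Q) := by
  have h : (monomial α a : MvPolynomial (Fin r) ℝ) = a • (basisMonomials (Fin r) ℝ) α := by
    simp [coe_basisMonomials, smul_monomial]
  rw [h, map_smul, fip, Module.Basis.constr_basis]
  simp

lemma fip_eq_sum (P Q : MvPolynomial (Fin r) ℝ) :
    fip P Q = ∑ α ∈ P.support, coeff α P * (mfac α * coeff α Q) := by
  conv_lhs => rw [← support_sum_monomial_coeff P]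
  rw [map_sum, LinearMap.sum_apply]
  simp_rw [fip_monomial]

lemma fip_symm (P Q : MvPolynomial (Fin r) ℝ) : fip P Q = fip Q P := by
  have h : ∀ A B : MvPolynomial (Fin r) ℝ, fip A B
      = ∑ α ∈ A.support ∪ B.support, coeff α A * (mfac α * coeff α B) := by
    intro A B
    rw [fip_eq_sum]
    apply Finset.sum_subset Finset.subset_union_left
    intro α _ h2
    rw [notMem_support_iff] at h2
    rw [h2]; ring
  rw [h, h Q P, Finset.union_comm]
  apply Finset.sum_congr rfl
  intro α _
  ring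

lemma fip_self (P : MvPolynomial (Fin r) ℝ) :
    fip P P = ∑ α ∈ P.support, (coeff α P) ^ 2 * mfac α := by
  rw [fip_eq_sum]
  apply Finset.sum_congr rfl
  intro α _
  ring

lemma fip_nonneg (P : MvPolynomial (Fin r) ℝ) : 0 ≤ fip P P := by
  rw [fip_self]
  apply Finset.sum_nonneg
  intro α _
  have := (mfac_pos α).le
  positivity

lemma fip_cs (P Q : MvPolynomial (Fin r) ℝ) : (fip P Q) ^ 2 ≤ fip P P * fip Q Q := by
  have h : ∀ t : ℝ, 0 ≤ fip P P * (t * t) + (2 * fip P Q) * t + fip Q Q := by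
    intro t
    have := fip_nonneg (t • P + Q)
    simp only [map_add, map_smul, LinearMap.add_apply, LinearMap.smul_apply, smul_eq_mul] at this
    rw [fip_symm Q P] at this
    nlinarith
  have := discrim_le_zero h
  unfold discrim at this
  nlinarith

lemma fip_X_mul (i : Fin r) (P Q : MvPolynomial (Fin r) ℝ) :
    fip (X i * P) Q = fip P (pderiv i Q) := by
  induction P using MvPolynomial.induction_on' with
  | add p q hp hq => simp only [mul_add, map_add, LinearMap.add_apply, hp, hq]
  | monomial α a =>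
    have : (X i * monomial α a : MvPolynomial (Fin r) ℝ) = monomial (Finsupp.single i 1 + α) a := by
      rw [X, monomial_mul, one_mul]
    rw [this, fip_monomial, fip_monomial, coeff_pderiv, mfac_add_single, add_comm (Finsupp.single i 1) α]
    ring

/-- The linear form with coefficient vector `v`. -/
noncomputable def lf (v : Fin r → ℝ) : MvPolynomial (Fin r) ℝ := ∑ i, C (v i) * X i

/-- The directional derivative. -/
noncomputable def dd (v : Fin r → ℝ) : Derivation ℝ (MvPolynomial (Fin r) ℝ) (MvPolynomial (Fin r) ℝ) :=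
  ∑ i, v i • pderiv i

lemma dd_apply (v : Fin r → ℝ) (P : MvPolynomial (Fin r) ℝ) : dd v P = ∑ i, v i • pderiv i P := by
  unfold dd
  rw [← Derivation.coeFnAddMonoidHom_apply, map_sum, Finset.sum_apply]
  rfl

lemma fip_lf_mul (v : Fin r → ℝ) (P Q : MvPolynomial (Fin r) ℝ) :
    fip (lf v * P) Q = fip P (dd v Q) := by
  rw [dd_apply, map_sum, lf, Finset.sum_mul, map_sum, LinearMap.sum_apply]
  apply Finset.sum_congr rfl
  intro i _
  rw [mul_assoc, C_mul', map_smul, LinearMap.smul_apply, fip_X_mul, map_smul]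

lemma dd_lf (v : Fin r → ℝ) : dd v (lf v) = C (∑ i, v i ^ 2) := by
  rw [dd_apply, lf, map_sum]
  apply Finset.sum_congr rfl
  intro i _
  rw [map_sum, Finset.sum_eq_single i]
  · rw [pderiv_C_mul, pderiv_X_self, mul_one, smul_eq_C_mul, ← C_mul, sq]
  · intro j _ hj
    rw [pderiv_C_mul, pderiv_X_of_ne hj, mul_zero]
  · simp

lemma dd_lf_mul (v : Fin r → ℝ) (P : MvPolynomial (Fin r) ℝ) :
    dd v (lf v * P) = (∑ i, v i ^ 2) • P + lf v * dd v P := by
  rw [Derivation.leibniz, dd_lf, smul_eq_mul, smul_eq_mul, mul_comm P, C_mul', add_comm]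

lemma fip_lf_sq (v : Fin r → ℝ) (P : MvPolynomial (Fin r) ℝ) :
    fip (lf v * P) (lf v * P) = (∑ i, v i ^ 2) * fip P P + fip (dd v P) (dd v P) := by
  rw [fip_lf_mul, dd_lf_mul, map_add, map_smul, smul_eq_mul, fip_symm P (lf v * dd v P), fip_lf_mul]

lemma fip_dd_pow (v : Fin r → ℝ) (P : MvPolynomial (Fin r) ℝ) (n : ℕ) :
    n * (∑ i, v i ^ 2) * fip (lf v ^ n * P) (lf v ^ n * P)
      ≤ fip (dd v (lf v ^ n * P)) (dd v (lf v ^ n * P)) := by
  set c := ∑ i, v i ^ 2 with hc
  have hc0 : 0 ≤ c := Finset.sum_nonneg (fun i _ => sq_nonneg _)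
  induction n with
  | zero => simp only [Nat.cast_zero, zero_mul]; exact fip_nonneg _
  | succ n ih =>
    set q := lf v ^ n * P with hq
    have e : lf v ^ (n + 1) * P = lf v * q := by rw [hq, pow_succ]; ring
    rw [e, fip_lf_sq, dd_lf_mul, ← hc]
    have h1 : fip (c • q + lf v * dd v q) (c • q + lf v * dd v q)
        = c ^ 2 * fip q q + 3 * c * fip (dd v q) (dd v q) + fip (dd v (dd v q)) (dd v (dd v q)) := by
      simp only [map_add, map_smul, LinearMap.add_apply, LinearMap.smul_apply, smul_eq_mul]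
      rw [fip_symm q (lf v * dd v q), fip_lf_sq, ← hc, fip_lf_mul]
      ring
    rw [h1]
    have h2 : (fip (dd v q) (dd v q)) ^ 2 ≤ fip q q *
        (c * fip (dd v q) (dd v q) + fip (dd v (dd v q)) (dd v (dd v q))) := by
      have := fip_cs q (lf v * dd v q)
      rw [fip_symm q, fip_lf_mul, fip_lf_sq, ← hc] at this
      exact this
    have hs := fip_nonneg q
    have hx := fip_nonneg (dd v q)
    have hy := fip_nonneg (dd v (dd v q))
    set s := fip q q
    set x := fip (dd v q) (dd v q)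
    set y := fip (dd v (dd v q)) (dd v (dd v q))
    push_cast
    rcases eq_or_lt_of_le hs with h0 | h0
    · have hx0 : x = 0 := by
        rw [← h0] at h2
        have : x ^ 2 ≤ 0 := by simpa using h2
        nlinarith
      rw [← h0, hx0]
      simpa using hy
    · have h3 : n * c * x ≤ c * x + y := by
        have h4 : (n * c * s) * x ≤ x * x := mul_le_mul_of_nonneg_right ih hx
        have h5 : s * (n * c * x) ≤ s * (c * x + y) := by nlinarith
        exact le_of_mul_le_mul_left h5 h0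
      nlinarith [mul_nonneg hc0 (sub_nonneg.2 ih)]

/-- Multiplication by powers of a linear form (Bombieri type inequality). -/
lemma fip_lf_pow (v : Fin r → ℝ) (P : MvPolynomial (Fin r) ℝ) (n : ℕ) :
    (n.factorial : ℝ) * (∑ i, v i ^ 2) ^ n * fip P P ≤ fip (lf v ^ n * P) (lf v ^ n * P) := by
  have hc0 : 0 ≤ ∑ i, v i ^ 2 := Finset.sum_nonneg (fun i _ => sq_nonneg _)
  induction n with
  | zero => simp
  | succ n ih =>
    have e : lf v ^ (n + 1) * P = lf v * (lf v ^ n * P) := by rw [pow_succ]; ring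
    rw [e, fip_lf_sq]
    have h1 := fip_dd_pow v P n
    have h2 : (((n + 1).factorial : ℕ) : ℝ) * (∑ i, v i ^ 2) ^ (n + 1) * fip P P
        = (n + 1) * (∑ i, v i ^ 2) * ((n.factorial : ℝ) * (∑ i, v i ^ 2) ^ n * fip P P) := by
      rw [Nat.factorial_succ, pow_succ]; push_cast; ring
    rw [h2]
    have h3 : (n + 1) * (∑ i, v i ^ 2) * ((n.factorial : ℝ) * (∑ i, v i ^ 2) ^ n * fip P P)
        ≤ (n + 1) * (∑ i, v i ^ 2) * fip (lf v ^ n * P) (lf v ^ n * P) :=
      mul_le_mul_of_nonneg_left ih (by positivity)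
    nlinarith

lemma fip_one : fip (1 : MvPolynomial (Fin r) ℝ) 1 = 1 := by
  have : (1 : MvPolynomial (Fin r) ℝ) = monomial 0 1 := rfl
  rw [this, fip_monomial, coeff_monomial]
  simp [mfac]

/-- Lower bound for products. -/
lemma fip_prod {ι : Type*} (T : Finset ι) (v : ι → Fin r → ℝ) (n : ι → ℕ) :
    ∏ i ∈ T, ((n i).factorial : ℝ) * (∑ k, v i k ^ 2) ^ (n i)
      ≤ fip (∏ i ∈ T, lf (v i) ^ n i) (∏ i ∈ T, lf (v i) ^ n i) := by
  classical
  induction T using Finset.induction_on with
  | empty => simp [fip_one]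
  | insert a T ha ih =>
    rw [Finset.prod_insert ha, Finset.prod_insert ha]
    refine le_trans ?_ (fip_lf_pow _ _ _)
    apply mul_le_mul_of_nonneg_left ih
    have hc0 : 0 ≤ ∑ k, v a k ^ 2 := Finset.sum_nonneg (fun i _ => sq_nonneg _)
    positivity

end Pool.Agent.GPI
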