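import Mathlib
import Pool.Agent.GPI.Dunkl1
import Pool.Agent.GPI.Dunkl2
import Pool.Agent.GPI.Repr

set_option autoImplicit false

open MeasureTheory ProbabilityTheory Finset

namespace Pool.Agent.GPI

variable {r : ℕ}

/-- The weight. -/
noncomputable def ww (m : Fin r → ℝ) (x : Fin r → ℝ) : ℝ := ∏ i, |x i| ^ (2 * m i)

lemma ww_nonneg (m : Fin r → ℝ) (x : Fin r → ℝ) : 0 ≤ ww m x := by
  unfold ww; positivity

lemma ww_int {m : Fin r → ℝ} (hm : ∀ i, 0 ≤ m i) (p : Fin r → Polynomial ℝ) :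
    Integrable (fun x => ww m x * ∏ i, (p i).eval (x i)) (gam r) := by
  have h := Integrable.fintype_prod (μ := fun _ : Fin r => gaussianReal 0 1)
    (f := fun i (x : ℝ) => |x| ^ (2 * m i) * (p i).eval x)
    (fun i => integrable_wpoly (hm i) (p i))
  refine h.congr ?_
  filter_upwards with x
  rw [ww, Finset.prod_mul_distrib]

lemma ww_prod (m : Fin r → ℝ) (p : Fin r → Polynomial ℝ) :
    ∫ x, ww m x * ∏ i, (p i).eval (x i) ∂(gam r)
      = ∏ i, ∫ x, |x| ^ (2 * m i) * (p i).eval x ∂gg := by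
  have h := integral_fintype_prod_eq_prod (μ := fun _ : Fin r => gaussianReal 0 1)
    (fun i (x : ℝ) => |x| ^ (2 * m i) * (p i).eval x)
  rw [gg] at *
  rw [← h, gam]
  apply integral_congr_ae
  filter_upwards with x
  rw [ww, Finset.prod_mul_distrib]

/-- Product of monomials. -/
def mo (α : Fin r →₀ ℕ) (x : Fin r → ℝ) : ℝ := ∏ i, x i ^ α i

/-- Product of generalised Hermite polynomials. -/
noncomputable def HH (m : Fin r → ℝ) (α : Fin r →₀ ℕ) (x : Fin r → ℝ) : ℝ :=
  ∏ i, (HP (m i) (α i)).eval (x i)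

lemma exists_lt_of_ne {α β : Fin r →₀ ℕ} (h : ∑ i, α i = ∑ i, β i) (hne : α ≠ β) :
    ∃ i, α i < β i := by
  by_contra hcon
  push Not at hcon
  have := (Finset.sum_eq_sum_iff_of_le (fun i _ => hcon i)).1 h.symm
  apply hne
  ext i
  exact (this i (Finset.mem_univ i)).symm

lemma mo_HH_int {m : Fin r → ℝ} (hm : ∀ i, 0 ≤ m i) (α β : Fin r →₀ ℕ) :
    Integrable (fun x => ww m x * (mo α x * HH m β x)) (gam r) := by
  refine (ww_int hm (fun i => Polynomial.X ^ α i * HP (m i) (β i))).congr ?_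
  filter_upwards with x
  simp [mo, HH, Finset.prod_mul_distrib]

lemma mo_mo_int {m : Fin r → ℝ} (hm : ∀ i, 0 ≤ m i) (α β : Fin r →₀ ℕ) :
    Integrable (fun x => ww m x * (mo α x * mo β x)) (gam r) := by
  refine (ww_int hm (fun i => Polynomial.X ^ α i * Polynomial.X ^ β i)).congr ?_
  filter_upwards with x
  simp [mo, Finset.prod_mul_distrib]

lemma HH_HH_int {m : Fin r → ℝ} (hm : ∀ i, 0 ≤ m i) (α β : Fin r →₀ ℕ) :
    Integrable (fun x => ww m x * (HH m α x * HH m β x)) (gam r) := by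
  refine (ww_int hm (fun i => HP (m i) (α i) * HP (m i) (β i))).congr ?_
  filter_upwards with x
  simp [HH, Finset.prod_mul_distrib]

lemma mo_HH {m : Fin r → ℝ} (hm : ∀ i, 0 ≤ m i) {α β : Fin r →₀ ℕ} (h : ∑ i, α i = ∑ i, β i) :
    ∫ x, ww m x * (mo α x * HH m β x) ∂(gam r)
      = if α = β then (∏ i, cm (m i)) * ∏ i, gf (m i) (α i) else 0 := by
  have e : ∫ x, ww m x * (mo α x * HH m β x) ∂(gam r)
      = ∏ i, ∫ x, |x| ^ (2 * m i) * (x ^ α i * (HP (m i) (β i)).eval x) ∂gg := by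
    have := ww_prod m (fun i => Polynomial.X ^ α i * HP (m i) (β i))
    simp only [Polynomial.eval_mul, Polynomial.eval_pow, Polynomial.eval_X] at this
    rw [← this]
    apply integral_congr_ae
    filter_upwards with x
    simp [mo, HH, Finset.prod_mul_distrib]
  rw [e]
  split_ifs with hab
  · rw [← Finset.prod_mul_distrib]
    apply Finset.prod_congr rfl
    intro i _
    rw [mixed (hm i), hab, Fc_self]
  · obtain ⟨i, hi⟩ := exists_lt_of_ne h hab
    apply Finset.prod_eq_zero (Finset.mem_univ i)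
    rw [mixed (hm i), Fc_lt _ hi, mul_zero]

lemma HH_HH {m : Fin r → ℝ} (hm : ∀ i, 0 ≤ m i) {α β : Fin r →₀ ℕ} (h : ∑ i, α i = ∑ i, β i) :
    ∫ x, ww m x * (HH m α x * HH m β x) ∂(gam r)
      = if α = β then (∏ i, cm (m i)) * ∏ i, gf (m i) (α i) else 0 := by
  have e : ∫ x, ww m x * (HH m α x * HH m β x) ∂(gam r)
      = ∏ i, ∫ x, |x| ^ (2 * m i) * ((HP (m i) (α i)).eval x * (HP (m i) (β i)).eval x) ∂gg := by
    have := ww_prod m (fun i => HP (m i) (α i) * HP (m i) (β i))
    simp only [Polynomial.eval_mul] at this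
    rw [← this]
    apply integral_congr_ae
    filter_upwards with x
    simp [HH, Finset.prod_mul_distrib]
  rw [e]
  split_ifs with hab
  · rw [← Finset.prod_mul_distrib]
    apply Finset.prod_congr rfl
    intro i _
    rw [← hab, HP_sq (hm i)]
  · obtain ⟨i, hi⟩ := exists_lt_of_ne h hab
    apply Finset.prod_eq_zero (Finset.mem_univ i)
    rw [HP_orth (hm i) hi]

/-- Bilinear expansion of a weighted integral. -/
lemma bil_int {F G : (Fin r →₀ ℕ) → (Fin r → ℝ) → ℝ} {m : Fin r → ℝ} (T : Finset (Fin r →₀ ℕ))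
    (c : (Fin r →₀ ℕ) → ℝ)
    (hi : ∀ α β, Integrable (fun x => ww m x * (F α x * G β x)) (gam r)) :
    Integrable (fun x => ww m x * ((∑ α ∈ T, c α * F α x) * (∑ β ∈ T, c β * G β x))) (gam r) ∧
    ∫ x, ww m x * ((∑ α ∈ T, c α * F α x) * (∑ β ∈ T, c β * G β x)) ∂(gam r)
      = ∑ α ∈ T, ∑ β ∈ T, c α * c β * ∫ x, ww m x * (F α x * G β x) ∂(gam r) := by
  have e : ∀ x, ww m x * ((∑ α ∈ T, c α * F α x) * (∑ β ∈ T, c β * G β x))
      = ∑ α ∈ T, ∑ β ∈ T, c α * c β * (ww m x * (F α x * G β x)) := by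
    intro x
    rw [Finset.sum_mul_sum, Finset.mul_sum]
    apply Finset.sum_congr rfl
    intro α _
    rw [Finset.mul_sum]
    apply Finset.sum_congr rfl
    intro β _
    ring
  simp_rw [e]
  constructor
  · apply integrable_finsetSum
    intro α _
    apply integrable_finsetSum
    intro β _
    exact (hi α β).const_mul _
  · rw [integral_finsetSum]
    · apply Finset.sum_congr rfl
      intro α _
      rw [integral_finsetSum]
      · apply Finset.sum_congr rfl
        intro β _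
        rw [integral_const_mul]
      · intro β _
        exact (hi α β).const_mul _
    · intro α _
      apply integrable_finsetSum
      intro β _
      exact (hi α β).const_mul _

/-- The top chaos lower bound: for a homogeneous polynomial `P` the weighted square integral is at
least the Fischer norm times the total weight. -/
theorem top_chaos {m : Fin r → ℝ} (hm : ∀ i, 0 ≤ m i) {P : MvPolynomial (Fin r) ℝ} {l : ℕ}
    (hP : P.IsHomogeneous l) :
    (∏ i, cm (m i)) * fip P P ≤ ∫ x, ww m x * (MvPolynomial.eval x P) ^ 2 ∂(gam r) := by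
  set T := P.support with hT
  set c : (Fin r →₀ ℕ) → ℝ := fun α => MvPolynomial.coeff α P with hc
  have hdeg : ∀ α ∈ T, ∑ i, α i = l := by
    intro α hα
    have h1 := hP (MvPolynomial.mem_support_iff.1 hα)
    rw [← h1, Finsupp.weight_apply, Finsupp.sum_fintype]
    · simp
    · simp
  have hev : ∀ x, MvPolynomial.eval x P = ∑ α ∈ T, c α * mo α x := by
    intro x
    rw [MvPolynomial.eval_eq']
    rfl
  set Q : (Fin r → ℝ) → ℝ := fun x => ∑ α ∈ T, c α * HH m α x with hQ
  obtain ⟨i1, e1⟩ := bil_int (F := mo) (G := mo) (m := m) T c (mo_mo_int hm)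
  obtain ⟨i2, e2⟩ := bil_int (F := mo) (G := HH m) (m := m) T c (mo_HH_int hm)
  obtain ⟨i3, e3⟩ := bil_int (F := HH m) (G := HH m) (m := m) T c (HH_HH_int hm)
  set V := ∑ α ∈ T, c α ^ 2 * ((∏ i, cm (m i)) * ∏ i, gf (m i) (α i)) with hV
  have hdiag : ∀ K : (Fin r →₀ ℕ) → (Fin r →₀ ℕ) → ℝ,
      (∀ α ∈ T, ∀ β ∈ T, K α β = if α = β then (∏ i, cm (m i)) * ∏ i, gf (m i) (α i) else 0) →
      ∑ α ∈ T, ∑ β ∈ T, c α * c β * K α β = V := by
    intro K hK
    rw [hV]
    apply Finset.sum_congr rfl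
    intro α hα
    rw [Finset.sum_eq_single_of_mem α hα]
    · rw [hK α hα α hα, if_pos rfl]; ring
    · intro β hβ hne
      rw [hK α hα β hβ, if_neg hne.symm, mul_zero]
  have h2 := hdiag _ (fun α hα β hβ => mo_HH hm ((hdeg α hα).trans (hdeg β hβ).symm))
  have h3 := hdiag _ (fun α hα β hβ => HH_HH hm ((hdeg α hα).trans (hdeg β hβ).symm))
  rw [h2] at e2
  rw [h3] at e3
  have hnn : 0 ≤ ∫ x, ww m x * (MvPolynomial.eval x P - Q x) ^ 2 ∂(gam r) :=
    integral_nonneg (fun x => mul_nonneg (ww_nonneg m x) (sq_nonneg _))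
  have hexp : ∫ x, ww m x * (MvPolynomial.eval x P - Q x) ^ 2 ∂(gam r)
      = ∫ x, ww m x * (MvPolynomial.eval x P) ^ 2 ∂(gam r)
        - 2 * (∫ x, ww m x * ((∑ α ∈ T, c α * mo α x) * (∑ β ∈ T, c β * HH m β x)) ∂(gam r))
        + ∫ x, ww m x * ((∑ α ∈ T, c α * HH m α x) * (∑ β ∈ T, c β * HH m β x)) ∂(gam r) := by
    rw [← integral_const_mul, ← integral_sub, ← integral_add]
    · apply integral_congr_ae
      filter_upwards with x
      rw [hev]
      ring
    · refine Integrable.sub ?_ (i2.const_mul 2)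
      refine i1.congr ?_
      filter_upwards with x
      rw [hev]; ring
    · exact i3
    · refine i1.congr ?_
      filter_upwards with x
      rw [hev]; ring
    · exact i2.const_mul 2
  rw [e2, e3] at hexp
  have hfin : (∏ i, cm (m i)) * fip P P ≤ V := by
    rw [fip_self, hV, Finset.mul_sum]
    apply Finset.sum_le_sum
    intro α _
    have h4 : mfac α ≤ ∏ i, gf (m i) (α i) := by
      unfold mfac
      apply Finset.prod_le_prod
      · intro i _; positivity
      · intro i _; exact factorial_le_gf (hm i) _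
    have h5 : 0 ≤ ∏ i, cm (m i) := Finset.prod_nonneg (fun i _ => cm_nonneg _)
    calc (∏ i, cm (m i)) * (MvPolynomial.coeff α P ^ 2 * mfac α)
        = (MvPolynomial.coeff α P ^ 2 * ∏ i, cm (m i)) * mfac α := by ring
      _ ≤ (MvPolynomial.coeff α P ^ 2 * ∏ i, cm (m i)) * ∏ i, gf (m i) (α i) :=
          mul_le_mul_of_nonneg_left h4 (mul_nonneg (sq_nonneg _) h5)
      _ = _ := by rw [hc]; ring
  linarith

end Pool.Agent.GPI
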