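import Mathlib
import Pool.Agent.GPI.Dunkl3
import Pool.Agent.GPI.RankTwo

set_option autoImplicit false

open MeasureTheory ProbabilityTheory Finset
open scoped RealInnerProductSpace

namespace Pool.Agent.GPI

variable {d : ℕ}

/-- A factorisation adapted to a pairwise uncorrelated family of coordinates. -/
lemma exists_factor_adapted {M : Matrix (Fin d) (Fin d) ℝ} (hM : M.PosSemidef) (S : Finset (Fin d))
    (hS : ∀ a ∈ S, ∀ b ∈ S, a ≠ b → M a b = 0) :
    ∃ A : Matrix (Fin d) (Fin d) ℝ, (∀ i j, M i j = ∑ k, A i k * A j k) ∧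
      ∀ a ∈ S, ∀ k, A a k = if k = a then √(M a a) else 0 := by
  classical
  obtain ⟨B, hB⟩ := exists_factor (r := d) hM (Matrix.rank_le_width _)
  let row : Fin d → EuclideanSpace ℝ (Fin d) := fun i => WithLp.toLp 2 (B i)
  have hin : ∀ i j, ⟪row i, row j⟫ = M i j := by
    intro i j
    rw [hB, PiLp.inner_apply]
    apply Finset.sum_congr rfl
    intro k _
    simp [row, mul_comm]
  let v : Fin d → EuclideanSpace ℝ (Fin d) := fun a => ‖row a‖⁻¹ • row a
  let s : Set (Fin d) := {a | a ∈ S ∧ row a ≠ 0}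
  have hv : Orthonormal ℝ (s.domRestrict v) := by
    constructor
    · rintro ⟨a, ha⟩
      simp only [Set.domRestrict_apply, v, norm_smul, norm_inv, norm_norm]
      exact inv_mul_cancel₀ (norm_ne_zero_iff.2 ha.2)
    · rintro ⟨a, ha⟩ ⟨b, hb⟩ hab
      have hab' : a ≠ b := fun h => hab (Subtype.ext h)
      simp only [Set.domRestrict_apply, v, inner_smul_left, inner_smul_right, hin,
        hS a ha.1 b hb.1 hab', mul_zero]
  obtain ⟨b, hb⟩ := hv.exists_orthonormalBasis_extension_of_card_eq (by simp)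
  have hnorm : ∀ a, ‖row a‖ = √(M a a) := by
    intro a
    rw [← hin, real_inner_self_eq_norm_sq, Real.sqrt_sq (norm_nonneg _)]
  refine ⟨Matrix.of fun i k => ⟪row i, b k⟫, ?_, ?_⟩
  · intro i j
    rw [← hin, ← b.sum_inner_mul_inner]
    apply Finset.sum_congr rfl
    intro k _
    simp only [Matrix.of_apply]
    rw [real_inner_comm (row j) (b k)]
  · intro a ha k
    simp only [Matrix.of_apply]
    by_cases h0 : row a = 0
    · have : √(M a a) = 0 := by rw [← hnorm, h0, norm_zero]
      rw [h0, inner_zero_left, this]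
      simp
    · have h1 : b a = ‖row a‖⁻¹ • row a := hb a ⟨ha, h0⟩
      have h2 : row a = ‖row a‖ • b a := by
        rw [h1, smul_smul, mul_inv_cancel₀ (norm_ne_zero_iff.2 h0), one_smul]
      conv_lhs => rw [h2]
      rw [inner_smul_left, b.inner_eq_ite, hnorm]
      by_cases hka : k = a
      · simp [hka]
      · simp [hka, Ne.symm hka]

lemma cm_eq {c : ℝ} (hc : 0 ≤ c) :
    cm c = 2 ^ c * Real.Gamma (c + 1 / 2) / √Real.pi := by
  have := gauss1_moment (2 * c) (by positivity)
  rw [cm, this]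
  have h1 : 2 * c / 2 = c := by ring
  rw [h1]

lemma eval_lf {r : ℕ} (v g : Fin r → ℝ) : MvPolynomial.eval g (lf v) = ∑ k, v k * g k := by
  simp [lf, map_sum]

/-- The Gaussian product inequality for arbitrary real exponents on a pairwise uncorrelated
subfamily and integer exponents elsewhere, with `n!` in place of `(2n-1)!!` for the latter. -/
theorem gpi_mixed (μ : Measure (Fin d → ℝ)) [IsGaussian μ] (h0 : ∫ x, x ∂μ = 0)
    (S : Finset (Fin d)) (hS : ∀ a ∈ S, ∀ b ∈ S, a ≠ b → ∫ x, x a * x b ∂μ = 0)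
    (ν : Fin d → ℝ) (hν : ∀ i, 0 ≤ ν i) (n : Fin d → ℕ) (hn : ∀ i, i ∉ S → ν i = n i) :
    (∏ i ∈ S, ∫ x, |x i| ^ (2 * ν i) ∂μ)
        * ∏ i ∈ Sᶜ, ((n i).factorial : ℝ) * (∫ x, x i ^ 2 ∂μ) ^ (n i)
      ≤ ∫ x, ∏ i, |x i| ^ (2 * ν i) ∂μ := by
  classical
  obtain ⟨A, hA, hAS⟩ := exists_factor_adapted (secMom_posSemidef μ) S hS
  have hrepr := gaussian_repr μ h0 A hA
  have hmeas : Measurable (fun (g : Fin d → ℝ) (i : Fin d) => ∑ k, A i k * g k) := by fun_prop
  set m : Fin d → ℝ := fun k => if k ∈ S then ν k else 0 with hm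
  have hm0 : ∀ k, 0 ≤ m k := by
    intro k; rw [hm]; dsimp only; split_ifs
    · exact hν k
    · exact le_refl _
  set P : MvPolynomial (Fin d) ℝ := ∏ i ∈ Sᶜ, lf (A i) ^ n i with hP
  have hhom : P.IsHomogeneous (∑ i ∈ Sᶜ, 1 * n i) := by
    apply MvPolynomial.IsHomogeneous.prod
    intro i _
    apply MvPolynomial.IsHomogeneous.pow
    apply MvPolynomial.IsHomogeneous.sum
    intro k _
    exact MvPolynomial.isHomogeneous_C_mul_X _ _
  have htop := top_chaos hm0 hhom
  have hfip := fip_prod (Sᶜ) (fun i => A i) n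
  have hlin : ∀ a ∈ S, ∀ g : Fin d → ℝ, ∑ k, A a k * g k = √(secMom μ a a) * g a := by
    intro a ha g
    rw [Finset.sum_eq_single a]
    · rw [hAS a ha, if_pos rfl]
    · intro k _ hk
      rw [hAS a ha, if_neg hk, zero_mul]
    · simp
  have hint : ∫ x, ∏ i, |x i| ^ (2 * ν i) ∂μ
      = (∏ a ∈ S, √(secMom μ a a) ^ (2 * ν a))
        * ∫ x, ww m x * (MvPolynomial.eval x P) ^ 2 ∂(gam d) := by
    conv_lhs => rw [hrepr]
    rw [integral_map hmeas.aemeasurable, ← integral_const_mul]
    · apply integral_congr_ae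
      filter_upwards with g
      rw [← Finset.prod_mul_prod_compl S]
      have e1 : ∏ i ∈ S, |∑ k, A i k * g k| ^ (2 * ν i)
          = (∏ a ∈ S, √(secMom μ a a) ^ (2 * ν a)) * ww m g := by
        have e2 : ww m g = ∏ a ∈ S, |g a| ^ (2 * ν a) := by
          rw [ww, ← Finset.prod_mul_prod_compl S]
          have e3 : ∏ i ∈ Sᶜ, |g i| ^ (2 * m i) = 1 := by
            apply Finset.prod_eq_one
            intro i hi
            rw [hm]; dsimp only
            rw [if_neg (Finset.mem_compl.1 hi)]; simp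
          rw [e3, mul_one]
          apply Finset.prod_congr rfl
          intro i hi
          rw [hm]; dsimp only
          rw [if_pos hi]
        rw [e2, ← Finset.prod_mul_distrib]
        apply Finset.prod_congr rfl
        intro a ha
        rw [hlin a ha, abs_mul, abs_of_nonneg (Real.sqrt_nonneg _),
          Real.mul_rpow (Real.sqrt_nonneg _) (abs_nonneg _)]
      have e4 : ∏ i ∈ Sᶜ, |∑ k, A i k * g k| ^ (2 * ν i) = (MvPolynomial.eval g P) ^ 2 := by
        rw [hP, map_prod, ← Finset.prod_pow]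
        apply Finset.prod_congr rfl
        intro i hi
        rw [hn i (Finset.mem_compl.1 hi), map_pow, eval_lf, ← pow_mul,
          show (2 * (n i : ℝ)) = ((2 * n i : ℕ) : ℝ) by push_cast; ring, Real.rpow_natCast,
          pow_mul, sq_abs, ← pow_mul, mul_comm 2 (n i)]
      rw [e1, e4, mul_assoc]
    · exact (by fun_prop : Measurable fun x : Fin d → ℝ => ∏ i, |x i| ^ (2 * ν i)).aestronglyMeasurable
  have hmom : ∏ i ∈ S, ∫ x, |x i| ^ (2 * ν i) ∂μ
      = (∏ a ∈ S, √(secMom μ a a) ^ (2 * ν a)) * ∏ i, cm (m i) := by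
    have e2 : ∏ i, cm (m i) = ∏ a ∈ S, cm (ν a) := by
      rw [← Finset.prod_mul_prod_compl S]
      have e3 : ∏ i ∈ Sᶜ, cm (m i) = 1 := by
        apply Finset.prod_eq_one
        intro i hi
        rw [hm]; dsimp only
        rw [if_neg (Finset.mem_compl.1 hi), cm_zero]
      rw [e3, mul_one]
      apply Finset.prod_congr rfl
      intro i hi
      rw [hm]; dsimp only
      rw [if_pos hi]
    rw [e2, ← Finset.prod_mul_distrib]
    apply Finset.prod_congr rfl
    intro a _
    have hνa := hν a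
    have h1 : 2 * ν a / 2 = ν a := by ring
    have h3 : √(secMom μ a a) ^ (2 * ν a) = (secMom μ a a) ^ (ν a) := by
      rw [Real.sqrt_eq_rpow, ← Real.rpow_mul (secMom_diag_nonneg μ a)]
      congr 1
      ring
    rw [moment_eval μ h0 a (2 * ν a) (by positivity), cm_eq hνa, h1, h3]
  rw [hint, hmom, mul_assoc]
  apply mul_le_mul_of_nonneg_left
  · refine le_trans ?_ htop
    apply mul_le_mul_of_nonneg_left
    · refine le_trans (le_of_eq ?_) hfip
      apply Finset.prod_congr rfl
      intro i _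
      congr 2
      have := hA i i
      rw [secMom, Matrix.of_apply] at this
      simp_rw [← sq] at this
      exact this
    · exact Finset.prod_nonneg (fun i _ => cm_nonneg _)
  · apply Finset.prod_nonneg
    intro i _
    positivity

/-- The Gaussian product inequality for arbitrary real exponents on a pairwise uncorrelated
subfamily and exponents `0` or `1` elsewhere. -/
theorem gpi_uncorrelated (μ : Measure (Fin d → ℝ)) [IsGaussian μ] (h0 : ∫ x, x ∂μ = 0)
    (S : Finset (Fin d)) (hS : ∀ a ∈ S, ∀ b ∈ S, a ≠ b → ∫ x, x a * x b ∂μ = 0)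
    (ν : Fin d → ℝ) (hν : ∀ i, 0 ≤ ν i) (hn : ∀ i, i ∉ S → ν i = 0 ∨ ν i = 1) :
    ∏ i, ∫ x, |x i| ^ (2 * ν i) ∂μ ≤ ∫ x, ∏ i, |x i| ^ (2 * ν i) ∂μ := by
  classical
  let n : Fin d → ℕ := fun i => if ν i = 1 then 1 else 0
  have hn' : ∀ i, i ∉ S → ν i = n i := by
    intro i hi
    rcases hn i hi with h | h
    · simp [n, h]
    · simp [n, h]
  refine le_trans (le_of_eq ?_) (gpi_mixed μ h0 S hS ν hν n hn')
  rw [← Finset.prod_mul_prod_compl S]
  congr 1
  apply Finset.prod_congr rfl
  intro i hi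
  rcases hn i (Finset.mem_compl.1 hi) with h | h
  · simp [n, h]
  · simp only [n, h, if_true, Nat.factorial_one, Nat.cast_one, one_mul, pow_one]
    apply integral_congr_ae
    filter_upwards with x
    rw [mul_one, Real.rpow_two, sq_abs]

end Pool.Agent.GPI
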